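import Pool.Agent.Lib.MP_7ed9c3_nt.Tz.SpecM
import Pool.Agent.Lib.MP_7ed9c3_nt.Zs.Spec
import Pool.Agent.Lib.MP_7ed9c3_nt.Tw.SpecW

/-!
# MP_7ed9c3_nt, part Tz.  Statements L (local data)

Every statement is a separate module; the complete proof is in the docstring.
-/

set_option autoImplicit false

namespace MP7ed9c3.Tz

open NumberField IsDedekindDomain Filter Topology MP7ed9c3.Tw MP7ed9c3.Zs

/-- There are finitely many primes with a given norm. -/
theorem fin_nm (K : Type) [Field K] [NumberField K] (m : ℕ) :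
    {v : HeightOneSpectrum (𝓞 K) | nm v = m}.Finite := by
  refine Set.Finite.of_finite_image (f := fun v : HeightOneSpectrum (𝓞 K) => v.asIdeal)
    ((Ideal.finite_setOfPred_absNorm_eq m).subset ?_) ?_
  · rintro I ⟨v, hv, rfl⟩
    exact hv
  · intro v _ w _ hvw
    exact HeightOneSpectrum.ext hvw

/-- The primes of norm `m`. -/
noncomputable def D1 (K : Type) [Field K] [NumberField K] (m : ℕ) :
    Finset (HeightOneSpectrum (𝓞 K)) := (fin_nm K m).toFinset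

open Classical in
/-- The primes over `p`. -/
noncomputable def Ov (K : Type) [Field K] [NumberField K] (p : ℕ) :
    Finset (HeightOneSpectrum (𝓞 K)) :=
  if h : {v : HeightOneSpectrum (𝓞 K) | ((p : ℕ) : 𝓞 K) ∈ v.asIdeal}.Finite then h.toFinset else ∅

/-- The index set of a `ℤ`-basis of `𝓞 K`. -/
abbrev Ix (K : Type) [Field K] [NumberField K] : Type := Module.Free.ChooseBasisIndex ℤ (𝓞 K)

/-- The element with the given integer coordinates. -/
noncomputable def pt {K : Type} [Field K] [NumberField K] (a : Ix K → ℤ) : 𝓞 K :=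
  ∑ i, a i • RingOfIntegers.basis K i

/-- All conjugates are at most `Y` in absolute value. -/
def House {K : Type} [Field K] [NumberField K] (d : 𝓞 K) (Y : ℝ) : Prop :=
  ∀ φ : K →+* ℂ, ‖φ (d : K)‖ ≤ Y

/-- **L1, coordinates.**

Proof.  `card (Ix K) = finrank ℤ (𝓞 K) = finrank ℚ K` (`Module.finrank_eq_card_chooseBasisIndex`,
`NumberField.RingOfIntegers.rank`).  Let `a` be the coordinates of `d` (`(basis K).repr d`), so
`pt a = d` and uniqueness is the linear independence of the basis.  Bound: the elements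
`ω_i = (integralBasis K) i` form a `ℚ`-basis of `K`; the coordinate `a_i = (integralBasis K).repr d i` is a
`ℚ`-linear form on `K`, so (nondegeneracy of the trace form, `traceForm_nondegenerate`, dual basis
`ω_i*`) `a_i = Tr(d ω_i*) = ∑_φ φ(d) φ(ω_i*)` (`trace_eq_sum_embeddings`), hence
`|a_i| ≤ Y ∑_φ |φ(ω_i*)|`.  (Or: the map `x ↦ (φ x)_φ` extends to an isomorphism of the real span, see
`canonicalEmbedding.latticeBasis`, and the coordinates are continuous.) -/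
def S_Coord : Prop :=
  ∀ (K : Type) [Field K] [NumberField K], Fintype.card (Ix K) = Module.finrank ℚ K ∧
    (∀ d : 𝓞 K, ∃! a : Ix K → ℤ, pt a = d) ∧
    ∃ C : ℝ, 1 ≤ C ∧ ∀ (a : Ix K → ℤ) (Y : ℝ), House (pt a) Y → ∀ i, |(a i : ℝ)| ≤ C * Y

/-- **L2, the number of prime divisors.**

Proof.  Finite: `N5.finite_mem`.  The product of the different primes `v` with `e ∈ v` divides `(e)`
(as in `overz` in Zs/Over.lean), so, with `m` their number, `2^m ≤ ∏ nm v ≤ |N(e)| = ∏_φ |φ e| ≤ Y^n`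
(`nm v ≥ 2`: `N1.exists_prime`; `Algebra.norm_eq_prod_embeddings`; number of embeddings
`n = finrank ℚ K`).  So `m ≤ n log Y / log 2 ≤ 2 n log Y`. -/
def S_Div : Prop :=
  ∀ (K : Type) [Field K] [NumberField K] (e : 𝓞 K) (Y : ℝ), e ≠ 0 → 1 ≤ Y → House e Y →
    {v : HeightOneSpectrum (𝓞 K) | e ∈ v.asIdeal}.Finite ∧
    ({v : HeightOneSpectrum (𝓞 K) | e ∈ v.asIdeal}.ncard : ℝ) ≤
      2 * Module.finrank ℚ K * Real.log Y

/-- **L3, the primes over `p`** (see `overz` in Zs/Over.lean, where everything is proved for the set `s` of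
the primes over `p`; `Z3.nm_pow`, `overz_mem`). -/
def S_Prim : Prop :=
  ∀ (K : Type) [Field K] [NumberField K] (p : ℕ), p.Prime →
    (∀ v, v ∈ Ov K p ↔ ((p : ℕ) : 𝓞 K) ∈ v.asIdeal) ∧ (∀ v, v ∈ D1 K p ↔ nm v = p) ∧
    D1 K p ⊆ Ov K p ∧ (Ov K p).card ≤ Module.finrank ℚ K ∧
    ∀ v ∈ Ov K p, ∃ f : ℕ, 1 ≤ f ∧ f ≤ Module.finrank ℚ K ∧ nm v = p ^ f

/-- **L4, singular Weierstrass equations over finite fields.**

Proof.  `q = |F|`.  For every `x` there are at most two `y` (see `Trivial`, H11).  (A) It is enough for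
the first claim to find `x₀` with exactly one `y`: then `1 ≤ affCount ≤ 2 (q-1) + 1`.
Characteristic 2: the equation for `y` is `y² + (a₁ x + a₃) y = c(x)`.  If `a₁ ≠ 0` take
`x₀ = a₃/a₁` (`a₁ x₀ + a₃ = 2 a₃ = 0`; `y² = c` has exactly one solution: the Frobenius is bijective).  If
`a₁ = 0`, `a₃ = 0` every `x` works.  If `a₁ = 0`, `a₃ ≠ 0`, then `Δ = a₃⁴ ≠ 0` (from the definition
`Δ = -b₂² b₈ - 8 b₄³ - 27 b₆² + 9 b₂ b₄ b₆`, `b₂ = 0`, `b₆ = a₃²`), excluded.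
Characteristic `≠ 2`: `(2y + a₁ x + a₃)² = g(x) = 4x³ + b₂ x² + 2 b₄ x + b₆`; for a root `x₀` of `g` there is
exactly one `y`.  `g` has a root in `F` if `Δ = 0`: characteristic 3: `g = x³ + b₂ x² + 2 b₄ x + b₆`; if
`b₂ = 0`, then `Δ = -8 b₄³ = 0`, so `b₄ = 0` and `g = x³ + b₆` has a root (Frobenius); if `b₂ ≠ 0` then
`x₀ = -b₄/b₂` is a root: `b₂³ g(x₀) = -b₄³ + b₂² b₄² ... ` equals `± Δ` up to a factor
(check: `4 b₈ = b₂ b₆ - b₄²`, in characteristic 3 `b₈ = b₂ b₆ - b₄²`, `Δ = -b₂² b₈ - 8 b₄³ =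
-b₂³ b₆ + b₂² b₄² + b₄³`, and `b₂³ g(x₀) = -b₄³ + b₂² b₄² - 2 b₂² b₄² + b₂³ b₆ = -b₄³ - b₂² b₄² + b₂³ b₆ = -Δ`).
Characteristic `≠ 2, 3`: see (B).
(B) Characteristic `≠ 2, 3` (second claim, it gives the first: `1 ≤ q - 1`).  By `ShortForm` (H1,
theorem `shortForm`) `affCount W = shortCount a b` with `4a³ + 27b² = 0`.  Let `r = 0` if `a = 0` (then
`b = 0`) and `r = -3b/(2a)` otherwise; then `x³ + a x + b = (x - r)² (x + 2r)` (`a = -3r²`, `b = 2r³`).
`shortCount = ∑_x (1 + χ((x-r)² (x+2r)))` (as in Tw/W2.lean), and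
`∑_x χ((x-r)²(x+2r)) = ∑_{x ≠ r} χ(x+2r) = ∑_x χ(x + 2r) - χ(3r) = -χ(3r)`, absolute value `≤ 1`. -/
def S_Sing : Prop :=
  ∀ (F : Type) [Field F] [Finite F] (W : WeierstrassCurve F), W.Δ = 0 →
    |(Nat.card F : ℤ) - affCount W| ≤ Nat.card F - 1 ∧
      ((2 : F) ≠ 0 → (3 : F) ≠ 0 → |(Nat.card F : ℤ) - affCount W| ≤ 1)

/-- **L5, the roots of the Euler factors** (from L4; see Zs/Roots.lean, `rootsz_one`).

Proof.  `q = nm v ≥ 2`, `a = tr (M v) v`, `g = 1` or `0` according to `Δ ∉ v` or not, `w² = a² - 4 g q`,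
`α = (a+w)/2`, `β = (a-w)/2`, so `α + β = a`, `α β = g q`; the identity for `locDen` as in `rootsz`.
`g = 1`: `|a| ≤ q` (`traceBoundAll`).  If `a² ≤ 4q`, `|α| = |β| = √q` (`rootsz_one`).  If `a² > 4q`, `w` is
real, `|α|, |β| ≤ (|a| + √(a² - 4q))/2 ≤ (q + √(q² - 4q))/2 ≤ q - 1` (`q² - 4q ≤ (q-2)²`, `q ≥ 2`;
`a² > 4q` and `|a| ≤ q` give `q > 4`).  If `6 ∉ v` then `|a| ≤ 2√q` (`traceBoundAll`), so `|α| = |β| = √q`.
`g = 0`: `w² = a²`, the roots are `a` and `0` in some order; the reduction has discriminant `0`, so by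
L4 (`nm v` is the cardinality of the field `𝓞 K ⧸ v.asIdeal`) `|a| ≤ q - 1`, and `|a| ≤ 1 ≤ √q` if `6 ∉ v`. -/
def S_Loc : Prop :=
  ∀ (K : Type) [Field K] [NumberField K] (M : HeightOneSpectrum (𝓞 K) → WeierstrassCurve (𝓞 K)),
    ∃ α β : HeightOneSpectrum (𝓞 K) → ℂ,
      (∀ (v : HeightOneSpectrum (𝓞 K)) (s : ℂ), locDen (M v) v s =
        (1 - α v * (nm v : ℂ) ^ (-s)) * (1 - β v * (nm v : ℂ) ^ (-s))) ∧
      (∀ v, ‖α v‖ ≤ max (√(nm v : ℝ)) (nm v - 1) ∧ ‖β v‖ ≤ max (√(nm v : ℝ)) (nm v - 1)) ∧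
      (∀ v, (6 : 𝓞 K) ∉ v.asIdeal → ‖α v‖ ≤ √(nm v : ℝ) ∧ ‖β v‖ ≤ √(nm v : ℝ)) ∧
      ∀ v, α v + β v = (tr (M v) v : ℂ) ∧ ((M v).Δ ∉ v.asIdeal → α v * β v = nm v)

/-- **L6, the traces of a minimal model** (from `goodDataAll` in AllN.lean and `W3.tr_tw`, `finTwist` in Tw).

Proof.  `W₀ = short A B` has discriminant `-16 (4A³ + 27B²)` (`W3.Δ_short`), not in `v` if
`6 (4A³+27B²) ∉ v` (`v` is prime, `2 ∉ v`); `goodDataAll` with `C = 1`.  For the twist: `Δ_tw`, and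
`W3.tr_tw` (`2 d ∉ v`). -/
def S_TrGood : Prop :=
  ∀ (K : Type) [Field K] [NumberField K] (A B : 𝓞 K) (v : HeightOneSpectrum (𝓞 K))
    (M : WeierstrassCurve (𝓞 K)), 6 * (4 * A ^ 3 + 27 * B ^ 2) ∉ v.asIdeal →
    (IsMinAt ((short A B).map (algebraMap (𝓞 K) K)) v M →
      M.Δ ∉ v.asIdeal ∧ (tr M v : ℝ) = tr (short A B) v) ∧
    |(tr (short A B) v : ℝ)| ≤ 2 * √(nm v : ℝ) ∧
    ∀ d : 𝓞 K, d ∉ v.asIdeal →
      IsMinAt ((short (A * d ^ 2) (B * d ^ 3)).map (algebraMap (𝓞 K) K)) v M →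
      M.Δ ∉ v.asIdeal ∧ (tr M v : ℝ) = chiv d v * tr (short A B) v

/-- **L7, mean values of the quadratic characters** (from M6).

Proof.  `v.asIdeal` is a maximal ideal with `p ∈ v`, `F_v = 𝓞 K ⧸ v.asIdeal` a finite field of
characteristic `p ≠ 2` with `q = nm v` elements; `chiv d v = χ(d mod v)`, `χ` the quadratic character of `F_v`
(real values `0, 1, -1`).  M6 with `G = F_v`, `φ a = pt a mod v` (surjective because `pt` is; `p • g = 0`):
period `p`; `mean = (∑ χ)/q = 0` (`quadraticChar_sum_zero`); `mean χ² = (q-1)/q ≥ 1/2`.  For `w ≠ v`: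
`G = F_v × F_w`, `φ a = (pt a mod v, pt a mod w)`, surjective by the Chinese remainder theorem
(`v ⊔ w = ⊤`; `Ideal.quotientInfEquivQuotientProd` or `Ideal.exists_..._of_isCoprime`), and
`∑_{(c,c')} χ_v(c) χ_w(c') = 0`. -/
def S_ChiMean : Prop :=
  ∀ (K : Type) [Field K] [NumberField K] (p : ℕ), p.Prime → 2 < p → ∀ v ∈ Ov K p,
    Per p (fun a : Ix K → ℤ => chiv (pt a) v) ∧ mean p (fun a : Ix K → ℤ => chiv (pt a) v) = 0 ∧
    1 / 2 ≤ mean p (fun a : Ix K → ℤ => chiv (pt a) v ^ 2) ∧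
    ∀ w ∈ Ov K p, w ≠ v → mean p (fun a : Ix K → ℤ => chiv (pt a) v * chiv (pt a) w) = 0

/-- The trace at `v` of the curve with the given coordinates. -/
noncomputable def trp {K : Type} [Field K] [NumberField K] (v : HeightOneSpectrum (𝓞 K))
    (a : Ix K ⊕ Ix K → ℤ) : ℝ :=
  (tr (short (pt (fun i => a (Sum.inl i))) (pt (fun i => a (Sum.inr i)))) v : ℝ)

/-- **L8, all cubic equations over a finite field.**

Proof.  `q = |F|`, `χ` the quadratic character.  `shortCount a b - q = ∑_x χ(x³ + a x + b)`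
(`count_eq` in Tw/W2.lean).  First sum: for fixed `a, x` the sum over `b` is `∑_u χ(u) = 0`.  Second:
`∑_{a,b} ∑_{x,y} χ(x³ + a x + b) χ(y³ + a y + b)`.  For `x ≠ y` the map
`(a, b) ↦ (x³ + a x + b, y³ + a y + b)` is a bijection of `F × F`, so the sum over `a, b` is
`(∑ χ)² = 0`.  For `x = y`: `∑_{a,b} χ(x³ + a x + b)² = q (q - 1)`.  Total `q · q (q-1)`. -/
def S_FF : Prop :=
  ∀ (F : Type) [Field F] [Fintype F], (2 : F) ≠ 0 →
    (∑ a : F, ∑ b : F, ((shortCount a b : ℝ) - Fintype.card F) = 0) ∧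
    ∑ a : F, ∑ b : F, ((shortCount a b : ℝ) - Fintype.card F) ^ 2 =
      (Fintype.card F : ℝ) ^ 2 * (Fintype.card F - 1)

/-- **L9, mean values of the traces** (from M6, L4, L8).

Proof.  `v ∈ D1 K p`: `p ∈ v` (`overz_mem`), `F_v = 𝓞 K ⧸ v.asIdeal` has `p` elements, `2, 3 ≠ 0` in it.
`trp v a = p - shortCount (A mod v) (B mod v)` with `A, B` the two points (`W3.red_short`,
`W3.affCount_short`, see the proof of `W3.tr_tw`).  Bound: if `4A³+27B² ≠ 0` in `F_v` by Hasse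
(`traceBoundAll` or `HasseShort`), otherwise `≤ 1 ≤ 2√p` by L4 (the discriminant is
`-16(4A³+27B²)`).  M6 with `G = F_v × F_v`, `φ a = (A mod v, B mod v)`: period, and the mean values are
`(1/p²) ∑_{a,b} (p - shortCount a b)^j`, `j = 1, 2`: `0` and `p - 1` by L8.  For `w ≠ v` use
`G = (F_v × F_v) × (F_w × F_w)` (surjective by the Chinese remainder theorem, as in L7): the mean of
`trp v a * trp w a` is the product of the two means, `0`. -/
def S_TrMean : Prop :=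
  ∀ (K : Type) [Field K] [NumberField K] (p : ℕ), p.Prime → 3 < p → ∀ v ∈ D1 K p,
    Per p (trp v) ∧ (∀ a, |trp v a| ≤ 2 * √(p : ℝ)) ∧
    mean p (fun a => trp v a ^ 2) = p - 1 ∧
    ∀ w ∈ D1 K p, w ≠ v → mean p (fun a => trp v a * trp w a) = 0

/-- **L10, the coefficient at a prime.**

Proof.  `coefz` (Zs/Coef.lean) with `k = 1` and `s, f` from `overz`: `coef p = psum s f α β 1`, and
`f v ∣ 1` means `f v = 1`, i.e. `nm v = p`; by `Over` the `v` with `nm v = p` are in `s`. -/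
def S_CoefP : Prop :=
  ∀ (K : Type) [Field K] [NumberField K] (α β : HeightOneSpectrum (𝓞 K) → ℂ) (p : ℕ), p.Prime →
    coef (lamE K) (tauE α β) p = ∑ v ∈ D1 K p, (α v + β v)

/-- **L11, changing finitely many traces** (from L3).

Proof.  `n = finrank ℚ K`.  For `p ∈ P` let `D1 K p` have `≤ n` elements (L3), of norm `p`.  If no
`v ∈ D1 K p` contains `e`, the two terms are equal.  Otherwise the left term is at most
`p^(-2x) (2 n √p)² = 4 n² p^(1-2x) ≤ 4 n²` (`x ≥ 1/2`), and the number of these `p` is at most the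
number of the `v` with `e ∈ v` (choose for every such `p` a `v`; `p = nm v` is determined by `v`). -/
def S_Transfer : Prop :=
  ∀ (K : Type) [Field K] [NumberField K] (x : ℝ) (P : Finset ℕ) (e : 𝓞 K)
    (z : HeightOneSpectrum (𝓞 K) → ℂ) (y : HeightOneSpectrum (𝓞 K) → ℝ), 1 / 2 ≤ x → e ≠ 0 →
    (∀ p ∈ P, p.Prime) →
    (∀ p ∈ P, ∀ v ∈ D1 K p, |y v| ≤ 2 * √(p : ℝ) ∧ (e ∉ v.asIdeal → z v = y v)) →
    ∑ p ∈ P, (p : ℝ) ^ (-(2 * x)) * (∑ v ∈ D1 K p, y v) ^ 2 ≤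
      ∑ p ∈ P, ‖∑ v ∈ D1 K p, z v‖ ^ 2 * (p : ℝ) ^ (-(2 * x)) +
        4 * (Module.finrank ℚ K : ℝ) ^ 2 *
          ({v : HeightOneSpectrum (𝓞 K) | e ∈ v.asIdeal}.ncard : ℝ)

end MP7ed9c3.Tz
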