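import Pool.Agent.Lib.MP_7ed9c3_nt.Tz.SpecL
import Pool.Agent.Lib.MP_7ed9c3_nt.Zs.Roots
import Pool.Agent.Lib.MP_7ed9c3_nt.AllN

/-!
# MP_7ed9c3_nt, Tz: the roots of the Euler factors, all primes
-/

set_option autoImplicit false

namespace MP7ed9c3.Tz

open NumberField IsDedekindDomain Filter Topology MP7ed9c3.Tw MP7ed9c3.Zs

namespace LocM

/-- The roots in the case of good reduction. -/
theorem good (q : ℕ) (hq : 2 ≤ q) (a : ℤ) (ha : |(a : ℝ)| ≤ q) :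
    ∃ α β : ℂ, α + β = a ∧ α * β = q ∧ ‖α‖ ≤ max (√(q : ℝ)) (q - 1) ∧
      ‖β‖ ≤ max (√(q : ℝ)) (q - 1) ∧
      (|(a : ℝ)| ≤ 2 * √(q : ℝ) → ‖α‖ ≤ √(q : ℝ) ∧ ‖β‖ ≤ √(q : ℝ)) := by
  have hq2 : (2 : ℝ) ≤ q := by exact_mod_cast hq
  by_cases h : |(a : ℝ)| ≤ 2 * √(q : ℝ)
  · obtain ⟨α, β, h1, h2, -, -, h3⟩ := rootsz_one q a 1 ha (Or.inr rfl)
    obtain ⟨e1, e2⟩ := h3 rfl h
    refine ⟨α, β, h1, ?_, ?_, ?_, fun _ => ⟨e1.le, e2.le⟩⟩
    · rw [h2, Int.cast_one, one_mul]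
    · rw [e1]
      exact le_max_left _ _
    · rw [e2]
      exact le_max_left _ _
  · have hs : √(q : ℝ) ^ 2 = q := Real.sq_sqrt (by linarith)
    have ha2 : 4 * (q : ℝ) ≤ (a : ℝ) ^ 2 := by
      have h1 := pow_le_pow_left₀ (by positivity) (not_le.1 h).le 2
      rw [sq_abs, mul_pow, hs] at h1
      linarith
    have haq : (a : ℝ) ^ 2 ≤ (q : ℝ) ^ 2 := by
      rw [← sq_abs (a : ℝ)]
      exact pow_le_pow_left₀ (abs_nonneg _) ha 2
    set w : ℝ := √((a : ℝ) ^ 2 - 4 * q) with hw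
    have hw2 : w ^ 2 = (a : ℝ) ^ 2 - 4 * q := Real.sq_sqrt (by linarith)
    have hw0 : 0 ≤ w := Real.sqrt_nonneg _
    have hwq : w ≤ q - 2 := by
      apply le_of_sq_le_sq _ (by linarith)
      rw [hw2]
      nlinarith
    have b1 : |((a : ℝ) + w) / 2| ≤ q - 1 := by
      have h1 := abs_le.1 ha
      rw [abs_le]
      constructor <;> linarith [h1.1, h1.2]
    have b2 : |((a : ℝ) - w) / 2| ≤ q - 1 := by
      have h1 := abs_le.1 ha
      rw [abs_le]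
      constructor <;> linarith [h1.1, h1.2]
    refine ⟨((((a : ℝ) + w) / 2 : ℝ) : ℂ), ((((a : ℝ) - w) / 2 : ℝ) : ℂ), ?_, ?_, ?_, ?_,
      fun h' => absurd h' h⟩
    · push_cast
      ring
    · rw [← Complex.ofReal_mul]
      have h1 : ((a : ℝ) + w) / 2 * (((a : ℝ) - w) / 2) = q := by
        have : ((a : ℝ) + w) / 2 * (((a : ℝ) - w) / 2) = ((a : ℝ) ^ 2 - w ^ 2) / 4 := by ring
        rw [this, hw2]
        ring
      rw [h1, Complex.ofReal_natCast]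
    · rw [Complex.norm_real, Real.norm_eq_abs]
      exact b1.trans (le_max_right _ _)
    · rw [Complex.norm_real, Real.norm_eq_abs]
      exact b2.trans (le_max_right _ _)

/-- The roots in the case of bad reduction. -/
theorem bad (q : ℕ) (hq : 2 ≤ q) (a : ℤ) (ha : |(a : ℝ)| ≤ q - 1) :
    ∃ α β : ℂ, α + β = a ∧ α * β = 0 ∧ ‖α‖ ≤ max (√(q : ℝ)) (q - 1) ∧
      ‖β‖ ≤ max (√(q : ℝ)) (q - 1) ∧
      (|(a : ℝ)| ≤ 1 → ‖α‖ ≤ √(q : ℝ) ∧ ‖β‖ ≤ √(q : ℝ)) := by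
  have hq2 : (2 : ℝ) ≤ q := by exact_mod_cast hq
  have hs : 1 ≤ √(q : ℝ) := by
    rw [Real.one_le_sqrt]
    linarith
  refine ⟨(a : ℂ), 0, add_zero _, mul_zero _, ?_, ?_, fun h => ⟨?_, ?_⟩⟩
  · rw [Complex.norm_intCast]
    exact ha.trans (le_max_right _ _)
  · rw [norm_zero]
    exact (Real.sqrt_nonneg _).trans (le_max_left _ _)
  · rw [Complex.norm_intCast]
    exact h.trans hs
  · rw [norm_zero]
    exact Real.sqrt_nonneg _

theorem one (h : S_Sing) (K : Type) [Field K] [NumberField K] (W : WeierstrassCurve (𝓞 K))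
    (v : HeightOneSpectrum (𝓞 K)) :
    ∃ α β : ℂ, α + β = (tr W v : ℂ) ∧ (W.Δ ∉ v.asIdeal → α * β = nm v) ∧
      (W.Δ ∈ v.asIdeal → α * β = 0) ∧ ‖α‖ ≤ max (√(nm v : ℝ)) (nm v - 1) ∧
      ‖β‖ ≤ max (√(nm v : ℝ)) (nm v - 1) ∧
      ((6 : 𝓞 K) ∉ v.asIdeal → ‖α‖ ≤ √(nm v : ℝ) ∧ ‖β‖ ≤ √(nm v : ℝ)) := by
  have hq := (N1.exists_prime v).1
  by_cases hΔ : W.Δ ∈ v.asIdeal
  · let _ : Field (𝓞 K ⧸ v.asIdeal) := Ideal.Quotient.field v.asIdeal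
    have : Finite (𝓞 K ⧸ v.asIdeal) := Ideal.finiteQuotientOfFreeOfNeBot v.asIdeal v.ne_bot
    have hcard : nm v = Nat.card (𝓞 K ⧸ v.asIdeal) := by
      unfold nm
      rw [Ideal.absNorm_apply, Submodule.cardQuot_apply]
    have hΔ' : (red W v).Δ = 0 := by
      unfold red
      rw [WeierstrassCurve.map_Δ]
      exact Ideal.Quotient.eq_zero_iff_mem.2 hΔ
    obtain ⟨s1, s2⟩ := h (𝓞 K ⧸ v.asIdeal) (red W v) hΔ'
    have t1 : |(tr W v : ℝ)| ≤ (nm v : ℝ) - 1 := by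
      have h2 : |(tr W v : ℤ)| ≤ (nm v : ℤ) - 1 := by
        unfold tr
        rw [hcard]
        exact s1
      exact_mod_cast h2
    have t2 : (6 : 𝓞 K) ∉ v.asIdeal → |(tr W v : ℝ)| ≤ 1 := by
      intro h6
      have h6' : (6 : 𝓞 K ⧸ v.asIdeal) ≠ 0 := by
        intro h0
        apply h6
        apply Ideal.Quotient.eq_zero_iff_mem.1
        rw [map_ofNat]
        exact h0
      have h2 : (2 : 𝓞 K ⧸ v.asIdeal) ≠ 0 := by
        intro h0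
        apply h6'
        have : (6 : 𝓞 K ⧸ v.asIdeal) = 2 * 3 := by norm_num
        rw [this, h0, zero_mul]
      have h3 : (3 : 𝓞 K ⧸ v.asIdeal) ≠ 0 := by
        intro h0
        apply h6'
        have : (6 : 𝓞 K ⧸ v.asIdeal) = 2 * 3 := by norm_num
        rw [this, h0, mul_zero]
      have h4 : |(tr W v : ℤ)| ≤ 1 := by
        unfold tr
        rw [hcard]
        exact s2 h2 h3
      exact_mod_cast h4
    obtain ⟨α, β, r1, r2, r3, r4, r5⟩ := bad (nm v) hq (tr W v) t1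
    exact ⟨α, β, r1, fun h' => absurd hΔ h', fun _ => r2, r3, r4, fun h6 => r5 (t2 h6)⟩
  · obtain ⟨t1, t2⟩ := traceBoundAll K W v
    obtain ⟨α, β, r1, r2, r3, r4, r5⟩ := good (nm v) hq (tr W v) t1
    exact ⟨α, β, r1, fun _ => r2, fun h' => absurd h' hΔ, r3, r4, fun h6 => r5 (t2 hΔ h6)⟩

end LocM

/-- **L5.** -/
theorem loc (h : S_Sing) : S_Loc := by
  classical
  intro K _ _ M
  choose α β h1 h2 h3 h4 h5 h6 using fun v : HeightOneSpectrum (𝓞 K) => LocM.one h K (M v) v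
  refine ⟨α, β, fun v s => ?_, fun v => ⟨h4 v, h5 v⟩, h6, fun v => ⟨h1 v, h2 v⟩⟩
  have hq : (nm v : ℂ) ≠ 0 := by
    have := (N1.exists_prime v).1
    exact_mod_cast (by omega : nm v ≠ 0)
  unfold locDen eden
  have e1 : (nm v : ℂ) ^ (1 - 2 * s) = nm v * ((nm v : ℂ) ^ (-s)) ^ 2 := by
    rw [show (1 - 2 * s : ℂ) = 1 + (-s + -s) by ring, Complex.cpow_add _ _ hq,
      Complex.cpow_add _ _ hq, Complex.cpow_one, sq]
  have e2 : (1 - α v * (nm v : ℂ) ^ (-s)) * (1 - β v * (nm v : ℂ) ^ (-s)) =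
      1 - (α v + β v) * (nm v : ℂ) ^ (-s) + (α v * β v) * ((nm v : ℂ) ^ (-s)) ^ 2 := by ring
  rw [e2, h1 v, e1]
  by_cases hΔ : (M v).Δ ∈ v.asIdeal
  · rw [h3 v hΔ, if_neg (not_not.2 hΔ)]
    ring
  · rw [h2 v hΔ, if_pos hΔ]
    ring

end MP7ed9c3.Tz
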