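import Pool.Agent.Lib.MP_7ed9c3_nt.Tz.SpecL
import Pool.Agent.Lib.MP_7ed9c3_nt.H1
import Pool.Agent.Lib.MP_7ed9c3_nt.Tw.W2

/-!
# MP_7ed9c3_nt, part Tz, L4: singular Weierstrass equations over finite fields
-/

set_option autoImplicit false

namespace MP7ed9c3.Tz

namespace SingM

open MP7ed9c3.Tw

theorem fib_le {F : Type} [Field F] [Finite F] (s c : F) (u : F → F) (hu : ∀ y, u y = y ^ 2 + s * y) :
    Nat.card {y : F // u y = c} ≤ 2 := by
  classical
  by_cases h : ∃ y0 : F, u y0 = c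
  · obtain ⟨y0, h0⟩ := h
    have hsub : {y : F | u y = c} ⊆ (({y0, -s - y0} : Finset F) : Set F) := by
      intro y hy
      have hy' : u y = c := hy
      rw [hu] at hy' h0
      have e : (y - y0) * (y + y0 + s) = 0 := by linear_combination hy' - h0
      rw [Finset.coe_insert, Finset.coe_singleton]
      rcases mul_eq_zero.mp e with e | e
      · left
        exact sub_eq_zero.mp e
      · right
        show y = -s - y0
        linear_combination e
    calc Nat.card {y : F // u y = c} = Set.ncard {y : F | u y = c} := by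
          rw [Set.ncard_def, Set.encard, Nat.card, ENat.card]; rfl
      _ ≤ Set.ncard (({y0, -s - y0} : Finset F) : Set F) :=
          Set.ncard_le_ncard hsub (Finset.finite_toSet _)
      _ = ({y0, -s - y0} : Finset F).card := Set.ncard_coe_finset _
      _ ≤ 2 := Finset.card_le_two
  · have : IsEmpty {y : F // u y = c} := ⟨fun y => h ⟨y.1, y.2⟩⟩
    rw [Nat.card_of_isEmpty]
    omega

theorem fib_one {F : Type} [Field F] (s c y0 : F) (u : F → F) (hu : ∀ y, u y = y ^ 2 + s * y)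
    (h0 : u y0 = c) (hs : 2 * y0 + s = 0) : Nat.card {y : F // u y = c} = 1 := by
  rw [Nat.card_eq_one_iff_unique]
  refine ⟨⟨fun a b => ?_⟩, ⟨⟨y0, h0⟩⟩⟩
  have key : ∀ y : F, u y = c → y = y0 := by
    intro y hy
    rw [hu] at hy h0
    have e : (y - y0) ^ 2 = 0 := by linear_combination hy - h0 - (y - y0) * hs
    exact sub_eq_zero.mp (pow_eq_zero_iff (two_ne_zero)|>.mp e)
  exact Subtype.ext ((key _ a.2).trans (key _ b.2).symm)

theorem one_pt {F : Type} [Field F] [Finite F] (W : WeierstrassCurve F) (x0 y0 : F)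
    (h : y0 ^ 2 + W.a₁ * x0 * y0 + W.a₃ * y0 = x0 ^ 3 + W.a₂ * x0 ^ 2 + W.a₄ * x0 + W.a₆)
    (hs : 2 * y0 + (W.a₁ * x0 + W.a₃) = 0) :
    |(Nat.card F : ℤ) - affCount W| ≤ Nat.card F - 1 := by
  classical
  have : Fintype F := Fintype.ofFinite F
  have h1 : affCount W = ∑ x : F, Nat.card {y : F // y ^ 2 + W.a₁ * x * y + W.a₃ * y =
      x ^ 3 + W.a₂ * x ^ 2 + W.a₄ * x + W.a₆} := by
    rw [affCount, Nat.card_congr (Equiv.subtypeProdEquivSigmaSubtype
      (fun x y : F => y ^ 2 + W.a₁ * x * y + W.a₃ * y =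
      x ^ 3 + W.a₂ * x ^ 2 + W.a₄ * x + W.a₆)), Nat.card_sigma]
  have h2 : ∀ x : F, Nat.card {y : F // y ^ 2 + W.a₁ * x * y + W.a₃ * y =
      x ^ 3 + W.a₂ * x ^ 2 + W.a₄ * x + W.a₆} ≤ 2 := fun x =>
    fib_le (W.a₁ * x + W.a₃) _ (fun y => y ^ 2 + W.a₁ * x * y + W.a₃ * y) (fun y => by ring)
  have h3 : Nat.card {y : F // y ^ 2 + W.a₁ * x0 * y + W.a₃ * y =
      x0 ^ 3 + W.a₂ * x0 ^ 2 + W.a₄ * x0 + W.a₆} = 1 :=
    fib_one (W.a₁ * x0 + W.a₃) _ y0 (fun y => y ^ 2 + W.a₁ * x0 * y + W.a₃ * y)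
      (fun y => by ring) h hs
  have h4 : affCount W = (∑ x ∈ Finset.univ.erase x0, Nat.card {y : F // y ^ 2 + W.a₁ * x * y +
      W.a₃ * y = x ^ 3 + W.a₂ * x ^ 2 + W.a₄ * x + W.a₆}) + 1 := by
    rw [h1, ← Finset.sum_erase_add Finset.univ _ (Finset.mem_univ x0), h3]
  have h5 : (∑ x ∈ Finset.univ.erase x0, Nat.card {y : F // y ^ 2 + W.a₁ * x * y +
      W.a₃ * y = x ^ 3 + W.a₂ * x ^ 2 + W.a₄ * x + W.a₆}) ≤ (Finset.univ.erase x0).card * 2 := by
    refine (Finset.sum_le_card_nsmul _ _ 2 fun x _ => h2 x).trans (le_of_eq ?_)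
    rw [smul_eq_mul]
  rw [Finset.card_erase_of_mem (Finset.mem_univ x0), Finset.card_univ,
    ← Nat.card_eq_fintype_card] at h5
  have h6 : 1 ≤ Nat.card F := Nat.one_le_iff_ne_zero.mpr Nat.card_pos.ne'
  rw [abs_le]
  constructor <;> omega

theorem char_two {F : Type} [Field F] [Finite F] (W : WeierstrassCurve F) (h2 : (2 : F) = 0)
    (hΔ : W.Δ = 0) : |(Nat.card F : ℤ) - affCount W| ≤ Nat.card F - 1 := by
  have hc : ringChar F = 2 := by
    have h : ringChar F ∣ 2 := ringChar.dvd (by exact_mod_cast h2)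
    exact (Nat.prime_dvd_prime_iff_eq (CharP.char_is_prime F (ringChar F)) Nat.prime_two).1 h
  obtain ⟨x0, hx⟩ : ∃ x0 : F, W.a₁ * x0 + W.a₃ = 0 := by
    by_cases h1 : W.a₁ = 0
    · refine ⟨0, ?_⟩
      have h3 : W.Δ = W.a₃ ^ 4 := by
        simp only [WeierstrassCurve.Δ, WeierstrassCurve.b₂, WeierstrassCurve.b₄,
          WeierstrassCurve.b₆, WeierstrassCurve.b₈]
        rw [h1]
        linear_combination (-8 * W.a₂ ^ 2 * (4 * W.a₂ * W.a₆ + W.a₂ * W.a₃ ^ 2 - W.a₄ ^ 2) -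
          32 * W.a₄ ^ 3 - 14 * W.a₃ ^ 4 - 108 * W.a₃ ^ 2 * W.a₆ - 216 * W.a₆ ^ 2 +
          36 * W.a₂ * W.a₄ * (W.a₃ ^ 2 + 4 * W.a₆)) * h2
      rw [hΔ] at h3
      have h4 : W.a₃ = 0 := (pow_eq_zero_iff (by norm_num)).mp h3.symm
      rw [h4]
      ring
    · refine ⟨-W.a₃ / W.a₁, ?_⟩
      field_simp
      ring
  obtain ⟨y0, hy⟩ := FiniteField.isSquare_of_char_two hc
    (x0 ^ 3 + W.a₂ * x0 ^ 2 + W.a₄ * x0 + W.a₆)
  exact one_pt W x0 y0 (by linear_combination y0 * hx - hy) (by linear_combination y0 * h2 + hx)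

theorem root_pt {F : Type} [Field F] [Finite F] (W : WeierstrassCurve F) (h2 : (2 : F) ≠ 0) (x0 : F)
    (h : 4 * x0 ^ 3 + W.b₂ * x0 ^ 2 + 2 * W.b₄ * x0 + W.b₆ = 0) :
    |(Nat.card F : ℤ) - affCount W| ≤ Nat.card F - 1 := by
  refine one_pt W x0 (-(W.a₁ * x0 + W.a₃) / 2) ?_ ?_
  · rw [← sub_eq_zero]
    have h4 : (4 : F) ≠ 0 := by
      have : (4 : F) = 2 ^ 2 := by norm_num
      rw [this]; exact pow_ne_zero _ h2
    apply (mul_eq_zero.mp _).resolve_left h4
    simp only [WeierstrassCurve.b₂, WeierstrassCurve.b₄, WeierstrassCurve.b₆] at h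
    have e : (-(W.a₁ * x0 + W.a₃) / 2) * 2 = -(W.a₁ * x0 + W.a₃) := div_mul_cancel₀ _ h2
    generalize (-(W.a₁ * x0 + W.a₃) / 2) = y at e
    linear_combination (2 * y + W.a₁ * x0 + W.a₃) * e - h
  · have e : (-(W.a₁ * x0 + W.a₃) / 2) * 2 = -(W.a₁ * x0 + W.a₃) := div_mul_cancel₀ _ h2
    linear_combination e

theorem char_three {F : Type} [Field F] [Finite F] (W : WeierstrassCurve F) (h3 : (3 : F) = 0)
    (hΔ : W.Δ = 0) : |(Nat.card F : ℤ) - affCount W| ≤ Nat.card F - 1 := by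
  have h2 : (2 : F) ≠ 0 := by
    intro h
    exact one_ne_zero (α := F) (by linear_combination h3 - h)
  have hp : Fact (Nat.Prime 3) := ⟨Nat.prime_three⟩
  have hch : CharP F 3 := by
    have h : ringChar F ∣ 3 := ringChar.dvd (by exact_mod_cast h3)
    have h' := (Nat.prime_dvd_prime_iff_eq (CharP.char_is_prime F (ringChar F))
      Nat.prime_three).1 h
    rw [← h']
    exact ringChar.charP F
  by_cases hb : W.b₂ = 0
  · have h4 : W.b₄ = 0 := by
      have e : W.b₄ ^ 3 = 0 := by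
        have := hΔ
        rw [WeierstrassCurve.Δ, hb] at this
        linear_combination this + (3 * W.b₄ ^ 3 + 9 * W.b₆ ^ 2) * h3
      exact (pow_eq_zero_iff (by norm_num)).mp e
    obtain ⟨x0, hx⟩ := (bijective_frobenius F 3).2 (-W.b₆)
    rw [frobenius_def] at hx
    refine root_pt W h2 x0 ?_
    rw [hb, h4]
    linear_combination hx + x0 ^ 3 * h3
  · refine root_pt W h2 (-W.b₄ / W.b₂) ?_
    have e : (-W.b₄ / W.b₂) * W.b₂ = -W.b₄ := div_mul_cancel₀ _ hb
    generalize (-W.b₄ / W.b₂) = x at e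
    have h8 := W.b_relation
    rw [WeierstrassCurve.Δ] at hΔ
    have hb3 : W.b₂ ^ 3 ≠ 0 := pow_ne_zero _ hb
    apply (mul_eq_zero.mp _).resolve_left hb3
    linear_combination (4 * ((x * W.b₂) ^ 2 - x * W.b₂ * W.b₄ + W.b₄ ^ 2) +
      W.b₂ ^ 2 * (x * W.b₂ - W.b₄) + 2 * W.b₄ * W.b₂ ^ 2) * e - 4 * hΔ - W.b₂ ^ 2 * h8 +
      (-12 * W.b₄ ^ 3 - 36 * W.b₆ ^ 2 + 12 * W.b₂ * W.b₄ * W.b₆) * h3

theorem short_sing {F : Type} [Field F] [Finite F] (h2 : (2 : F) ≠ 0) (h3 : (3 : F) ≠ 0) (a b : F)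
    (h : 4 * a ^ 3 + 27 * b ^ 2 = 0) : |(Nat.card F : ℤ) - shortCount a b| ≤ 1 := by
  classical
  have : Fintype F := Fintype.ofFinite F
  obtain ⟨r, hra, hrb⟩ : ∃ r : F, a = -(3 * r ^ 2) ∧ b = 2 * r ^ 3 := by
    by_cases ha : a = 0
    · refine ⟨0, by rw [ha]; ring, ?_⟩
      have h27 : (27 : F) ≠ 0 := by
        have : (27 : F) = 3 ^ 3 := by norm_num
        rw [this]; exact pow_ne_zero _ h3
      rw [ha] at h
      have hb : 27 * b ^ 2 = 0 := by linear_combination h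
      have hb' : b = 0 := (pow_eq_zero_iff (by norm_num)).mp ((mul_eq_zero.mp hb).resolve_left h27)
      rw [hb']; ring
    · refine ⟨-(3 * b) / (2 * a), ?_, ?_⟩
      · field_simp
        linear_combination h
      · field_simp
        linear_combination b * h
  have hf : ∀ x : F, quadraticChar F (x ^ 3 + a * x + b) = quadraticChar F (x + 2 * r) -
      (if x = r then quadraticChar F (3 * r) else 0) := by
    intro x
    have e : x ^ 3 + a * x + b = (x - r) ^ 2 * (x + 2 * r) := by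
      rw [hra, hrb]; ring
    rw [e, map_mul]
    split_ifs with hx
    · rw [hx, sub_self, zero_pow two_ne_zero, quadraticChar_zero, zero_mul]
      have : r + 2 * r = 3 * r := by ring
      rw [this, sub_self]
    · rw [quadraticChar_sq_one' (sub_ne_zero.mpr hx), one_mul, sub_zero]
  have hsum : (shortCount a b : ℤ) - Nat.card F = -quadraticChar F (3 * r) := by
    rw [W2.count_eq h2, Finset.sum_congr rfl fun x _ => hf x, Finset.sum_sub_distrib,
      Finset.sum_ite_eq' Finset.univ r, if_pos (Finset.mem_univ r)]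
    have e : ∑ x : F, quadraticChar F (x + 2 * r) = ∑ x : F, quadraticChar F x :=
      Equiv.sum_comp (Equiv.addRight (2 * r)) (fun x => quadraticChar F x)
    rw [e, quadraticChar_sum_zero (W2.ringChar_ne h2), zero_sub]
  have hq : |quadraticChar F (3 * r)| ≤ 1 := by
    by_cases h0 : 3 * r = 0
    · rw [h0, quadraticChar_zero]; norm_num
    · rcases quadraticChar_dichotomy h0 with h | h <;> rw [h] <;> norm_num
  have e : (Nat.card F : ℤ) - shortCount a b = quadraticChar F (3 * r) := by linarith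
  rw [e]
  exact hq

end SingM

open SingM in
/-- L4. -/
theorem sing : S_Sing := by
  intro F _ _ W hΔ
  have hB : (2 : F) ≠ 0 → (3 : F) ≠ 0 → |(Nat.card F : ℤ) - affCount W| ≤ 1 := by
    intro h2 h3
    obtain ⟨hc, hd⟩ := shortForm F W h2 h3
    rw [hc]
    apply short_sing h2 h3
    rw [hd, hΔ]
    simp
  refine ⟨?_, hB⟩
  by_cases h2 : (2 : F) = 0
  · exact char_two W h2 hΔ
  by_cases h3 : (3 : F) = 0
  · exact char_three W h3 hΔ
  have h := hB h2 h3
  have hq : 1 < Nat.card F := Finite.one_lt_card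
  omega

end MP7ed9c3.Tz
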