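import Pool.Agent.Lib.MP_7ed9c3_nt.Tz.SpecM

/-!
# Functions of the residues
-/

set_option autoImplicit false

namespace MP7ed9c3.Tz

namespace HomM

/-- A homomorphism killed by `p` comes from the residues modulo `p`. -/
theorem lift (ι : Type) [Fintype ι] (G : Type) [AddCommGroup G] (φ : (ι → ℤ) →+ G) (p : ℕ)
    (hG : ∀ g : G, p • g = 0) : ∃ φ' : (ι → ZMod p) →+ G, ∀ a : ι → ℤ,
      φ' (fun i => ((a i : ℤ) : ZMod p)) = φ a := by
  classical
  have h0 : ∀ i, (φ.comp (AddMonoidHom.single (fun _ : ι => ℤ) i)) (p : ℤ) = 0 := by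
    intro i
    have h1 : (p : ℤ) = p • (1 : ℤ) := by simp
    rw [h1, map_nsmul, hG]
  refine ⟨∑ i, (ZMod.lift p ⟨φ.comp (AddMonoidHom.single (fun _ : ι => ℤ) i), h0 i⟩).comp
    (Pi.evalAddMonoidHom (fun _ : ι => ZMod p) i), fun a => ?_⟩
  rw [AddMonoidHom.finsetSum_apply]
  have h2 : ∀ i, ((ZMod.lift p ⟨φ.comp (AddMonoidHom.single (fun _ : ι => ℤ) i), h0 i⟩).comp
      (Pi.evalAddMonoidHom (fun _ : ι => ZMod p) i)) (fun i => ((a i : ℤ) : ZMod p)) =
      φ (Pi.single i (a i)) := by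
    intro i
    rw [AddMonoidHom.comp_apply, Pi.evalAddMonoidHom_apply, ZMod.lift_coe]
    rfl
  rw [Finset.sum_congr rfl fun i _ => h2 i, ← map_sum, Finset.univ_sum_single]

/-- The sum of a function of a surjective homomorphism of finite groups. -/
theorem sum_eq (A G : Type) [AddCommGroup A] [Fintype A] [AddCommGroup G] [Fintype G]
    (φ : A →+ G) (hφ : Function.Surjective φ) (f : G → ℝ) :
    (∑ a, f (φ a)) / Fintype.card A = (∑ g, f g) / Fintype.card G := by
  classical
  have h1 : ∀ g : G, (Finset.univ.filter fun a => φ a = g).card =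
      (Finset.univ.filter fun a => φ a = 0).card := by
    intro g
    exact AddMonoidHom.card_fiber_eq_of_mem_range φ (hφ g) (hφ 0)
  have h2 : ∑ a, f (φ a) = ((Finset.univ.filter fun a => φ a = 0).card : ℝ) * ∑ g, f g := by
    rw [← Finset.sum_fiberwise' Finset.univ φ f, Finset.mul_sum]
    refine Finset.sum_congr rfl fun g _ => ?_
    rw [Finset.sum_const, h1 g, nsmul_eq_mul]
  have h3 : (Fintype.card A : ℝ) =
      ((Finset.univ.filter fun a => φ a = 0).card : ℝ) * Fintype.card G := by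
    have h4 : (Fintype.card A : ℝ) = ∑ a : A, (fun _ : G => (1 : ℝ)) (φ a) := by simp
    rw [h4, ← Finset.sum_fiberwise' Finset.univ φ (fun _ => (1 : ℝ))]
    have h5 : ∀ g ∈ (Finset.univ : Finset G),
        (∑ _a ∈ Finset.univ.filter (fun a => φ a = g), (1 : ℝ)) =
          ((Finset.univ.filter fun a => φ a = 0).card : ℝ) := by
      intro g _
      rw [Finset.sum_const, h1 g, nsmul_eq_mul, mul_one]
    rw [Finset.sum_congr rfl h5, Finset.sum_const, nsmul_eq_mul, Finset.card_univ]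
    ring
  have h6 : (Fintype.card A : ℝ) ≠ 0 := by
    exact_mod_cast (Fintype.card_pos_iff.2 ⟨(0 : A)⟩).ne'
  have h7 : (((Finset.univ.filter fun a => φ a = 0).card : ℝ)) ≠ 0 := by
    intro h
    rw [h3, h, zero_mul] at h6
    exact h6 rfl
  rw [h2, h3, mul_div_mul_left _ _ h7]

end HomM

theorem hom : S_Hom := by
  classical
  intro ι _ G _ _ φ p f hφ hp hG
  refine ⟨?_, ?_⟩
  · intro a b
    change f (φ (a + (p : ℤ) • b)) = f (φ a)
    rw [map_add, map_zsmul, natCast_zsmul, hG, add_zero]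
  · obtain ⟨m, rfl⟩ : ∃ m, p = m + 1 := ⟨p - 1, by omega⟩
    obtain ⟨φ', hφ'⟩ := HomM.lift ι G φ (m + 1) hG
    have hs : Function.Surjective φ' := by
      intro g
      obtain ⟨a, ha⟩ := hφ g
      exact ⟨_, (hφ' a).trans ha⟩
    have h1 := HomM.sum_eq (ι → ZMod (m + 1)) G φ' hs f
    have h2 : (Fintype.card (ι → ZMod (m + 1)) : ℝ) =
        ((m + 1 : ℕ) : ℝ) ^ Fintype.card ι := by
      rw [Fintype.card_fun, ZMod.card]
      push_cast
      ring
    rw [h2] at h1
    rw [← h1]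
    have h3 : ∀ a : ι → Fin (m + 1), φ (fun i => ((a i : ℕ) : ℤ)) =
        φ' (fun i => (show ZMod (m + 1) from a i)) := by
      intro a
      rw [← hφ']
      congr 1
      funext i
      rw [Int.cast_natCast]
      exact ZMod.natCast_zmod_val (n := m + 1) (show ZMod (m + 1) from a i)
    unfold mean
    congr 1
    exact Fintype.sum_equiv (Equiv.refl (ι → ZMod (m + 1))) _ _ fun a => congrArg f (h3 a)

end MP7ed9c3.Tz
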