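import Pool.Agent.Lib.MP_7ed9c3_nt.Tz.SpecL
import Pool.Agent.Lib.MP_7ed9c3_nt.Tw.W3
import Pool.Agent.Lib.MP_7ed9c3_nt.AllN
import Pool.Agent.Lib.MP_7ed9c3_nt.Zs.Over

/-!
# MP_7ed9c3_nt, Tz: mean values of the traces (helper99)
-/

set_option autoImplicit false

namespace MP7ed9c3.Tz

open NumberField IsDedekindDomain Filter Topology MP7ed9c3.Tw MP7ed9c3.Zs

namespace TrMeanM

variable {K : Type} [Field K] [NumberField K]

theorem pt_add (a b : Ix K → ℤ) : pt (a + b) = pt a + pt b := by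
  unfold pt
  rw [← Finset.sum_add_distrib]
  exact Finset.sum_congr rfl fun i _ => by rw [Pi.add_apply, add_smul]

theorem pt_zero : pt (0 : Ix K → ℤ) = 0 := by
  unfold pt
  simp

theorem pt_surj (d : 𝓞 K) : ∃ a : Ix K → ℤ, pt a = d :=
  ⟨fun i => (RingOfIntegers.basis K).repr d i, (RingOfIntegers.basis K).sum_repr d⟩

/-- The two coordinates modulo `v`. -/
noncomputable def phi (v : HeightOneSpectrum (𝓞 K)) :
    (Ix K ⊕ Ix K → ℤ) →+ (𝓞 K ⧸ v.asIdeal) × (𝓞 K ⧸ v.asIdeal) where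
  toFun a := (Ideal.Quotient.mk v.asIdeal (pt fun i => a (Sum.inl i)),
    Ideal.Quotient.mk v.asIdeal (pt fun i => a (Sum.inr i)))
  map_zero' := by
    have h : pt (fun _ : Ix K => (0 : ℤ)) = (0 : 𝓞 K) := pt_zero
    simp only [Pi.zero_apply, h, map_zero]
    rfl
  map_add' a b := by
    have h1 : pt (fun i => (a + b) (Sum.inl i)) =
        pt (fun i => a (Sum.inl i)) + pt (fun i => b (Sum.inl i)) := pt_add _ _
    have h2 : pt (fun i => (a + b) (Sum.inr i)) =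
        pt (fun i => a (Sum.inr i)) + pt (fun i => b (Sum.inr i)) := pt_add _ _
    rw [h1, h2, map_add, map_add]
    rfl

/-- The trace as a function of the two residues. -/
noncomputable def cf (v : HeightOneSpectrum (𝓞 K))
    (g : (𝓞 K ⧸ v.asIdeal) × (𝓞 K ⧸ v.asIdeal)) : ℝ :=
  (nm v : ℝ) - (affCount (short g.1 g.2) : ℝ)

theorem trp_eq (v : HeightOneSpectrum (𝓞 K)) (a : Ix K ⊕ Ix K → ℤ) :
    trp v a = cf v (phi v a) := by
  unfold trp tr cf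
  rw [W3.red_short]
  push_cast
  rfl

theorem phi_lift (A B : 𝓞 K) :
    ∃ a : Ix K ⊕ Ix K → ℤ, ∀ w : HeightOneSpectrum (𝓞 K),
      phi w a = (Ideal.Quotient.mk w.asIdeal A, Ideal.Quotient.mk w.asIdeal B) := by
  obtain ⟨a1, h1⟩ := pt_surj A
  obtain ⟨a2, h2⟩ := pt_surj B
  refine ⟨Sum.elim a1 a2, fun w => ?_⟩
  rw [← h1, ← h2]
  rfl

theorem phi_surj (v : HeightOneSpectrum (𝓞 K)) : Function.Surjective (phi v) := by
  rintro ⟨x, y⟩
  obtain ⟨A, rfl⟩ := Ideal.Quotient.mk_surjective x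
  obtain ⟨B, rfl⟩ := Ideal.Quotient.mk_surjective y
  obtain ⟨a, ha⟩ := phi_lift A B
  exact ⟨a, ha v⟩

/-- Two residues, Chinese remainder theorem. -/
theorem crt (v w : HeightOneSpectrum (𝓞 K)) (hvw : w ≠ v) (x : 𝓞 K ⧸ v.asIdeal)
    (y : 𝓞 K ⧸ w.asIdeal) :
    ∃ A : 𝓞 K, Ideal.Quotient.mk v.asIdeal A = x ∧ Ideal.Quotient.mk w.asIdeal A = y := by
  have hcop : IsCoprime v.asIdeal w.asIdeal := by
    rw [Ideal.isCoprime_iff_sup_eq]
    exact Ideal.IsMaximal.coprime_of_ne v.isMaximal w.isMaximal fun h =>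
      hvw (HeightOneSpectrum.ext h.symm)
  obtain ⟨i, hi, j, hj, hij⟩ := Ideal.isCoprime_iff_exists.1 hcop
  obtain ⟨A, rfl⟩ := Ideal.Quotient.mk_surjective x
  obtain ⟨B, rfl⟩ := Ideal.Quotient.mk_surjective y
  refine ⟨A * j + B * i, ?_, ?_⟩
  · rw [Ideal.Quotient.mk_eq_mk_iff_sub_mem]
    have h : A * j + B * i - A = (B - A) * i := by
      linear_combination A * hij
    rw [h]
    exact v.asIdeal.mul_mem_left _ hi
  · rw [Ideal.Quotient.mk_eq_mk_iff_sub_mem]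
    have h : A * j + B * i - B = (A - B) * j := by
      linear_combination B * hij
    rw [h]
    exact w.asIdeal.mul_mem_left _ hj

theorem phi2_surj (v w : HeightOneSpectrum (𝓞 K)) (hvw : w ≠ v) :
    Function.Surjective ((phi v).prod (phi w)) := by
  rintro ⟨⟨x1, x2⟩, ⟨y1, y2⟩⟩
  obtain ⟨A, hA1, hA2⟩ := crt v w hvw x1 y1
  obtain ⟨B, hB1, hB2⟩ := crt v w hvw x2 y2
  obtain ⟨a, ha⟩ := phi_lift A B
  refine ⟨a, ?_⟩
  rw [AddMonoidHom.prod_apply, ha v, ha w, hA1, hA2, hB1, hB2]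

theorem smul_zero' (v : HeightOneSpectrum (𝓞 K)) (p : ℕ) (hp : ((p : ℕ) : 𝓞 K) ∈ v.asIdeal)
    (x : 𝓞 K ⧸ v.asIdeal) : p • x = 0 := by
  rw [nsmul_eq_mul]
  have h : ((p : ℕ) : 𝓞 K ⧸ v.asIdeal) = 0 := by
    rw [← map_natCast (Ideal.Quotient.mk v.asIdeal)]
    exact Ideal.Quotient.eq_zero_iff_mem.2 hp
  rw [h, zero_mul]

theorem not_mem (v : HeightOneSpectrum (𝓞 K)) (p : ℕ) (hp : ((p : ℕ) : 𝓞 K) ∈ v.asIdeal)
    (m : ℕ) (h : Nat.Coprime m p) : ((m : ℕ) : 𝓞 K) ∉ v.asIdeal := by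
  intro hm
  have hc : IsCoprime (m : ℤ) (p : ℤ) := Nat.isCoprime_iff_coprime.2 h
  obtain ⟨a, b, hab⟩ := hc
  apply v.isPrime.ne_top
  rw [Ideal.eq_top_iff_one]
  have h1 : (1 : 𝓞 K) = (a : 𝓞 K) * m + (b : 𝓞 K) * p := by
    have := congrArg (fun z : ℤ => (z : 𝓞 K)) hab
    push_cast at this
    exact this.symm
  rw [h1]
  exact v.asIdeal.add_mem (v.asIdeal.mul_mem_left _ hm) (v.asIdeal.mul_mem_left _ hp)

theorem sums (h3 : S_FF) (v : HeightOneSpectrum (𝓞 K)) (h2 : (2 : 𝓞 K) ∉ v.asIdeal)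
    [Fintype (𝓞 K ⧸ v.asIdeal)] :
    Fintype.card (𝓞 K ⧸ v.asIdeal) = nm v ∧ ∑ g, cf v g = 0 ∧
      ∑ g, cf v g ^ 2 = (nm v : ℝ) ^ 2 * (nm v - 1) := by
  let _ : Field (𝓞 K ⧸ v.asIdeal) := Ideal.Quotient.field v.asIdeal
  have hcard : Fintype.card (𝓞 K ⧸ v.asIdeal) = nm v := by
    rw [← Nat.card_eq_fintype_card]
    unfold nm
    rw [Ideal.absNorm_apply, Submodule.cardQuot_apply]
  have h20 : (2 : 𝓞 K ⧸ v.asIdeal) ≠ 0 := by
    intro h0
    refine h2 (Ideal.Quotient.eq_zero_iff_mem.mp ?_)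
    rw [map_ofNat]
    exact h0
  obtain ⟨e1, e2⟩ := h3 (𝓞 K ⧸ v.asIdeal) h20
  have key : ∀ a b, cf v (a, b) =
      -((shortCount a b : ℝ) - Fintype.card (𝓞 K ⧸ v.asIdeal)) := by
    intro a b
    unfold cf
    rw [W3.affCount_short, hcard]
    unfold shortCount
    ring
  refine ⟨hcard, ?_, ?_⟩
  · rw [Fintype.sum_prod_type]
    simp only [key, Finset.sum_neg_distrib, e1, neg_zero]
  · rw [Fintype.sum_prod_type]
    simp only [key, neg_sq]
    rw [e2, hcard]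

theorem bound (h2 : S_Sing) (v : HeightOneSpectrum (𝓞 K)) (h20 : (2 : 𝓞 K) ∉ v.asIdeal)
    (h30 : (3 : 𝓞 K) ∉ v.asIdeal) (W : WeierstrassCurve (𝓞 K)) :
    |(tr W v : ℝ)| ≤ 2 * √(nm v : ℝ) := by
  by_cases hΔ : W.Δ ∈ v.asIdeal
  · let _ : Field (𝓞 K ⧸ v.asIdeal) := Ideal.Quotient.field v.asIdeal
    have : Finite (𝓞 K ⧸ v.asIdeal) := Ideal.finiteQuotientOfFreeOfNeBot v.asIdeal v.ne_bot
    have hcard : nm v = Nat.card (𝓞 K ⧸ v.asIdeal) := by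
      unfold nm
      rw [Ideal.absNorm_apply, Submodule.cardQuot_apply]
    have hΔ' : (red W v).Δ = 0 := by
      unfold red
      rw [WeierstrassCurve.map_Δ]
      exact Ideal.Quotient.eq_zero_iff_mem.2 hΔ
    have e2 : (2 : 𝓞 K ⧸ v.asIdeal) ≠ 0 := by
      intro h0
      refine h20 (Ideal.Quotient.eq_zero_iff_mem.mp ?_)
      rw [map_ofNat]
      exact h0
    have e3 : (3 : 𝓞 K ⧸ v.asIdeal) ≠ 0 := by
      intro h0
      refine h30 (Ideal.Quotient.eq_zero_iff_mem.mp ?_)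
      rw [map_ofNat]
      exact h0
    have s2 := (h2 (𝓞 K ⧸ v.asIdeal) (red W v) hΔ').2 e2 e3
    have t1 : |(tr W v : ℝ)| ≤ 1 := by
      have h4 : |(tr W v : ℤ)| ≤ 1 := by
        unfold tr
        rw [hcard]
        exact s2
      exact_mod_cast h4
    have h5 : 1 ≤ √(nm v : ℝ) := by
      rw [Real.one_le_sqrt]
      have := (N1.exists_prime v).1
      have h6 : (2 : ℝ) ≤ nm v := by exact_mod_cast this
      linarith
    linarith
  · refine (traceBoundAll K W v).2 hΔ fun h6 => ?_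
    have h7 : (6 : 𝓞 K) = 2 * 3 := by norm_num
    rw [h7] at h6
    exact (v.isPrime.mem_or_mem h6).elim h20 h30

end TrMeanM

open TrMeanM in
/-- **L9.** -/
theorem trMean (h1 : S_Hom) (h2 : S_Sing) (h3 : S_FF) : S_TrMean := by
  classical
  intro K _ _ p hp hp3 v hv
  have hD : ∀ w : HeightOneSpectrum (𝓞 K), w ∈ D1 K p → nm w = p ∧
      ((p : ℕ) : 𝓞 K) ∈ w.asIdeal ∧ (2 : 𝓞 K) ∉ w.asIdeal ∧ (3 : 𝓞 K) ∉ w.asIdeal := by
    intro w hw
    have hn : nm w = p := (Set.Finite.mem_toFinset (fin_nm K p)).1 hw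
    have hm : ((p : ℕ) : 𝓞 K) ∈ w.asIdeal := overz_mem w (k := 1) (by rw [pow_one]; exact hn)
    refine ⟨hn, hm, ?_, ?_⟩
    · have := not_mem w p hm 2 ((Nat.coprime_primes Nat.prime_two hp).2 (by omega))
      exact_mod_cast this
    · have := not_mem w p hm 3 ((Nat.coprime_primes Nat.prime_three hp).2 (by omega))
      exact_mod_cast this
  obtain ⟨hn, hm, h20, h30⟩ := hD v hv
  have fv : Finite (𝓞 K ⧸ v.asIdeal) := Ideal.finiteQuotientOfFreeOfNeBot v.asIdeal v.ne_bot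
  let _ : Fintype (𝓞 K ⧸ v.asIdeal) := Fintype.ofFinite _
  obtain ⟨c1, c2, c3⟩ := sums h3 v h20
  have hpR : (p : ℝ) ≠ 0 := by exact_mod_cast hp.ne_zero
  have hs : ∀ g : (𝓞 K ⧸ v.asIdeal) × (𝓞 K ⧸ v.asIdeal), p • g = 0 := by
    rintro ⟨x, y⟩
    rw [Prod.smul_mk, smul_zero' v p hm, smul_zero' v p hm]
    rfl
  refine ⟨?_, ?_, ?_, ?_⟩
  · have h := (h1 _ _ (phi v) p (cf v) (phi_surj v) hp.pos hs).1
    simpa only [← trp_eq] using h
  · intro a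
    rw [← hn]
    exact bound h2 v h20 h30 _
  · have h := (h1 _ _ (phi v) p (fun g => cf v g ^ 2) (phi_surj v) hp.pos hs).2
    simp only [← trp_eq] at h
    rw [h, c3, Fintype.card_prod, c1, hn]
    push_cast
    field_simp
  · intro w hw hwv
    obtain ⟨hn', hm', h20', h30'⟩ := hD w hw
    have fw : Finite (𝓞 K ⧸ w.asIdeal) := Ideal.finiteQuotientOfFreeOfNeBot w.asIdeal w.ne_bot
    let _ : Fintype (𝓞 K ⧸ w.asIdeal) := Fintype.ofFinite _
    have hs2 : ∀ g : ((𝓞 K ⧸ v.asIdeal) × (𝓞 K ⧸ v.asIdeal)) ×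
        ((𝓞 K ⧸ w.asIdeal) × (𝓞 K ⧸ w.asIdeal)), p • g = 0 := by
      rintro ⟨⟨x1, x2⟩, ⟨y1, y2⟩⟩
      rw [Prod.smul_mk, Prod.smul_mk, Prod.smul_mk, smul_zero' v p hm, smul_zero' v p hm,
        smul_zero' w p hm', smul_zero' w p hm']
      rfl
    have h := (h1 _ _ ((phi v).prod (phi w)) p (fun g => cf v g.1 * cf w g.2)
      (phi2_surj v w hwv) hp.pos hs2).2
    simp only [AddMonoidHom.prod_apply, ← trp_eq] at h
    rw [h, Fintype.sum_prod_type, ← Finset.sum_mul_sum, c2, zero_mul, zero_div]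

end MP7ed9c3.Tz
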