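import Pool.Agent.Lib.MP_7ed9c3_nt.Tz.SpecL
import Pool.Agent.Lib.MP_7ed9c3_nt.N5
import Pool.Agent.Lib.MP_7ed9c3_nt.N1
import Pool.Agent.Lib.MP_7ed9c3_nt.Zs.Over

/-!
# MP_7ed9c3_nt, part Tz: the number of prime divisors
-/

set_option autoImplicit false

namespace MP7ed9c3.Tz

open NumberField IsDedekindDomain Filter Topology MP7ed9c3.Tw MP7ed9c3.Zs

namespace DivM

theorem norm_le {K : Type} [Field K] [NumberField K] {e : 𝓞 K} {Y : ℝ} (hY : 1 ≤ Y)
    (h : House e Y) :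
    (Ideal.absNorm (Ideal.span {e}) : ℝ) ≤ Y ^ Module.finrank ℚ K := by
  rw [Ideal.absNorm_span_singleton]
  have h1 : ((Algebra.norm ℤ e : ℤ) : ℚ) = Algebra.norm ℚ (e : K) := Algebra.coe_norm_int e
  have h2 := Algebra.norm_eq_prod_embeddings ℚ ℂ (e : K)
  have h3 : ((Algebra.norm ℤ e).natAbs : ℝ) = ‖algebraMap ℚ ℂ (Algebra.norm ℚ (e : K))‖ := by
    rw [← h1]
    simp only [eq_ratCast, Rat.cast_intCast, Complex.norm_intCast]
    rw [Nat.cast_natAbs, Int.cast_abs]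
  rw [h3, h2, norm_prod, ← AlgHom.card ℚ K ℂ, ← Finset.card_univ, ← Finset.prod_const]
  exact Finset.prod_le_prod (fun σ _ => norm_nonneg _) fun σ _ => h σ.toRingHom

end DivM

/-- **L2.** -/
theorem divs : S_Div := by
  classical
  intro K _ _ e Y he hY hH
  have hfin := N5.finite_mem he
  refine ⟨hfin, ?_⟩
  set s : Finset (HeightOneSpectrum (𝓞 K)) := hfin.toFinset with hs
  have hmem : ∀ v : HeightOneSpectrum (𝓞 K), v ∈ s ↔ e ∈ v.asIdeal := fun v => by
    rw [hs, Set.Finite.mem_toFinset]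
    rfl
  have hcard : {v : HeightOneSpectrum (𝓞 K) | e ∈ v.asIdeal}.ncard = s.card :=
    Set.ncard_eq_toFinset_card _ hfin
  rw [hcard]
  have hinj : Function.Injective (fun v : HeightOneSpectrum (𝓞 K) => v.asIdeal) :=
    fun v w h => HeightOneSpectrum.ext h
  have hdvd : ∏ I ∈ s.map ⟨fun v => v.asIdeal, hinj⟩, I ∣ Ideal.span {e} := by
    apply Finset.prod_primes_dvd
    · intro I hI
      rw [Finset.mem_map] at hI
      obtain ⟨v, _, rfl⟩ := hI
      exact v.prime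
    · intro I hI
      rw [Finset.mem_map] at hI
      obtain ⟨v, hv, rfl⟩ := hI
      exact (Ideal.dvd_span_singleton).2 ((hmem v).1 hv)
  have h1 := Ideal.absNorm_dvd_absNorm_of_le (Ideal.le_of_dvd hdvd)
  rw [Finset.prod_map, map_prod] at h1
  have hpos : 0 < Ideal.absNorm (Ideal.span {e}) := by
    rw [Nat.pos_iff_ne_zero, Ne, Ideal.absNorm_eq_zero_iff, Ideal.span_singleton_eq_bot]
    exact he
  have h2 : ∏ v ∈ s, Ideal.absNorm v.asIdeal ≤ Ideal.absNorm (Ideal.span {e}) :=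
    Nat.le_of_dvd hpos h1
  have h3 : 2 ^ s.card ≤ ∏ v ∈ s, Ideal.absNorm v.asIdeal := by
    rw [← Finset.prod_const]
    exact Finset.prod_le_prod' fun v _ => (N1.exists_prime v).1
  have h4 : (2 : ℝ) ^ s.card ≤ Y ^ Module.finrank ℚ K :=
    le_trans (by exact_mod_cast h3.trans h2) (DivM.norm_le hY hH)
  have h5 := Real.log_le_log (by positivity) h4
  rw [Real.log_pow, Real.log_pow] at h5
  have h6 : (0.5 : ℝ) < Real.log 2 := lt_trans (by norm_num) Real.log_two_gt_d9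
  have h7 : 0 ≤ (s.card : ℝ) := Nat.cast_nonneg _
  nlinarith [mul_le_mul_of_nonneg_left h6.le h7]

end MP7ed9c3.Tz
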