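import Pool.Agent.Lib.MP_7ed9c3_nt.Tz.SpecM

/-!
Equidistribution of products of periodic functions in a box.
-/

set_option autoImplicit false

namespace MP7ed9c3.Tz

namespace EquiM

/-! ### One variable -/

lemma shift (m : ℕ) (G : ℤ → ℝ) (hG : ∀ x, G (x + m) = G x) (c : ℤ) :
    ∑ x ∈ Finset.range m, G (c + 1 + (x : ℤ)) = ∑ x ∈ Finset.range m, G (c + (x : ℤ)) := by
  have h1 := Finset.sum_range_succ (fun x : ℕ => G (c + (x : ℤ))) m
  have h2 := Finset.sum_range_succ' (fun x : ℕ => G (c + (x : ℤ))) m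
  have h3 : ∑ x ∈ Finset.range m, G (c + ((x + 1 : ℕ) : ℤ)) =
      ∑ x ∈ Finset.range m, G (c + 1 + (x : ℤ)) :=
    Finset.sum_congr rfl fun x _ => by
      congr 1
      push_cast
      ring
  have h4 := hG c
  simp only [Nat.cast_zero, add_zero] at h2
  linarith

lemma start (m : ℕ) (G : ℤ → ℝ) (hG : ∀ x, G (x + m) = G x) (c : ℤ) :
    ∑ x ∈ Finset.range m, G (c + (x : ℤ)) = ∑ x ∈ Finset.range m, G (x : ℤ) := by
  induction c using Int.induction_on with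
  | zero => exact Finset.sum_congr rfl fun x _ => by rw [zero_add]
  | succ c ih => rw [shift m G hG, ih]
  | pred c ih =>
    rw [← ih, ← shift m G hG, sub_add_cancel]

lemma one_dim (m : ℕ) (G : ℤ → ℝ) (K : ℝ) (hG : ∀ x, G (x + m) = G x)
    (hK : ∀ x, |G x| ≤ K) (hm : 0 < m) (c : ℤ) (L : ℕ) :
    |(m : ℝ) * ∑ x ∈ Finset.range L, G (c + (x : ℤ)) - (L : ℝ) * ∑ x ∈ Finset.range m, G (x : ℤ)| ≤
      2 * (m : ℝ) ^ 2 * K := by
  have hK0 : 0 ≤ K := (abs_nonneg _).trans (hK 0)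
  have hsum : ∀ (N : ℕ) (d : ℤ), |∑ x ∈ Finset.range N, G (d + (x : ℤ))| ≤ N * K := by
    intro N d
    refine (Finset.abs_sum_le_sum_abs _ _).trans ?_
    refine (Finset.sum_le_sum fun x _ => hK _).trans (le_of_eq ?_)
    rw [Finset.sum_const, Finset.card_range, nsmul_eq_mul]
  induction L using Nat.strong_induction_on generalizing c with
  | _ L ih =>
    by_cases hL : L < m
    · have h1 := hsum L c
      have h2 := hsum m 0
      simp only [zero_add] at h2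
      have hLm : (L : ℝ) ≤ m := by exact_mod_cast hL.le
      have hm0 : (0 : ℝ) ≤ m := Nat.cast_nonneg m
      have hL0 : (0 : ℝ) ≤ L := Nat.cast_nonneg L
      refine (abs_sub _ _).trans ?_
      rw [abs_mul, abs_mul, abs_of_nonneg hm0, abs_of_nonneg hL0]
      have h3 : (m : ℝ) * |∑ x ∈ Finset.range L, G (c + (x : ℤ))| ≤ m * (m * K) :=
        mul_le_mul_of_nonneg_left (h1.trans (mul_le_mul_of_nonneg_right hLm hK0)) hm0
      have h4 : (L : ℝ) * |∑ x ∈ Finset.range m, G (x : ℤ)| ≤ m * (m * K) :=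
        mul_le_mul hLm h2 (abs_nonneg _) hm0
      nlinarith
    · obtain ⟨R, rfl⟩ : ∃ R, L = m + R := ⟨L - m, by omega⟩
      have h1 := ih R (by omega) (c + m)
      have h2 : ∑ x ∈ Finset.range (m + R), G (c + (x : ℤ)) =
          ∑ x ∈ Finset.range m, G (x : ℤ) + ∑ x ∈ Finset.range R, G (c + m + (x : ℤ)) := by
        rw [Finset.sum_range_add, start m G hG]
        congr 1
        refine Finset.sum_congr rfl fun x _ => ?_
        congr 1
        push_cast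
        ring
      rw [h2]
      refine le_trans (le_of_eq ?_) h1
      congr 1
      push_cast
      ring

/-! ### The box -/

lemma bsum_def {ι : Type} [Fintype ι] [hd : DecidableEq ι] (L : ℕ) (A : ι → ℤ) (F : (ι → ℤ) → ℝ) :
    bsum L A F = ∑ a : ι → Fin L, F (fun i => A i + ((a i : ℕ) : ℤ)) := by
  have h : hd = fun a b => Classical.propDecidable (a = b) := Subsingleton.elim _ _
  subst h
  rfl

lemma mean_def {ι : Type} [Fintype ι] [hd : DecidableEq ι] (p : ℕ) (h : (ι → ℤ) → ℝ) :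
    mean p h = (∑ a : ι → Fin p, h (fun i => ((a i : ℕ) : ℤ))) / (p : ℝ) ^ Fintype.card ι := by
  have h : hd = fun a b => Classical.propDecidable (a = b) := Subsingleton.elim _ _
  subst h
  rfl

lemma bsum_succ {n : ℕ} (L : ℕ) (A : Fin (n + 1) → ℤ) (F : (Fin (n + 1) → ℤ) → ℝ) :
    bsum L A F = ∑ x ∈ Finset.range L,
      bsum L (fun i => A i.succ) (fun b => F (Fin.cons (A 0 + (x : ℤ)) b)) := by
  rw [Finset.sum_range, bsum_def]
  simp only [bsum_def]
  rw [← Fintype.sum_prod_type']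
  refine Fintype.sum_equiv (Fin.consEquiv (fun _ => Fin L)).symm _ _ fun a => ?_
  congr 1
  funext i
  refine Fin.cases ?_ (fun j => ?_) i
  · simp [Fin.consEquiv]
  · simp [Fin.consEquiv, Fin.tail]

lemma bsum_zero (L : ℕ) (A : Fin 0 → ℤ) (F : (Fin 0 → ℤ) → ℝ) (c : Fin 0 → ℤ) : bsum L A F = F c := by
  rw [bsum_def, Fintype.sum_unique]
  congr 1
  exact Subsingleton.elim _ _

lemma bsum_le {n : ℕ} (L : ℕ) (A : Fin n → ℤ) (F : (Fin n → ℤ) → ℝ) (H : ℝ) (hF : ∀ a, |F a| ≤ H) :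
    |bsum L A F| ≤ (L : ℝ) ^ n * H := by
  rw [bsum_def]
  refine (Finset.abs_sum_le_sum_abs _ _).trans ?_
  refine (Finset.sum_le_sum fun x _ => hF _).trans (le_of_eq ?_)
  rw [Finset.sum_const, nsmul_eq_mul, Finset.card_univ, Fintype.card_fun, Fintype.card_fin,
    Fintype.card_fin]
  push_cast
  rfl

lemma box (m L : ℕ) (hm : 0 < m) : ∀ (n : ℕ) (F : (Fin n → ℤ) → ℝ) (H : ℝ) (A : Fin n → ℤ),
    Per m F → (∀ a, |F a| ≤ H) →
    |(m : ℝ) ^ n * bsum L A F - (L : ℝ) ^ n * bsum m (fun _ => 0) F| * L ≤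
      2 * n * m * ((m : ℝ) * L) ^ n * H := by
  intro n
  induction n with
  | zero =>
    intro F H A _ _
    rw [bsum_zero L A F A, bsum_zero m _ F A]
    simp
  | succ n ih =>
    intro F H A hP hF
    have hL0 : (0 : ℝ) ≤ L := Nat.cast_nonneg L
    have hm0 : (0 : ℝ) ≤ m := Nat.cast_nonneg m
    have hH0 : 0 ≤ H := (abs_nonneg _).trans (hF 0)
    set G : ℤ → ℝ := fun x => bsum m (fun _ : Fin n => 0) (fun b => F (Fin.cons x b)) with hG
    have hPx : ∀ x : ℤ, Per m (fun b : Fin n → ℤ => F (Fin.cons x b)) := by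
      intro x a b
      have h := hP (Fin.cons x a) (Fin.cons 0 b)
      dsimp only
      rw [← h]
      congr 1
      funext i
      refine Fin.cases ?_ (fun j => ?_) i
      · simp
      · simp
    have hFx : ∀ (x : ℤ) (b : Fin n → ℤ), |(fun b : Fin n → ℤ => F (Fin.cons x b)) b| ≤ H :=
      fun x b => hF _
    have hGp : ∀ x, G (x + m) = G x := by
      intro x
      rw [hG]
      dsimp only
      congr 1
      funext b
      have h := hP (Fin.cons x b) (Fin.cons 1 0)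
      rw [← h]
      congr 1
      funext i
      refine Fin.cases ?_ (fun j => ?_) i
      · simp
      · simp
    have hGb : ∀ x, |G x| ≤ (m : ℝ) ^ n * H := fun x => bsum_le m _ _ H (hFx x)
    have h1 := one_dim m G ((m : ℝ) ^ n * H) hGp hGb hm (A 0) L
    have e1 := bsum_succ L A F
    have e2 : bsum m (fun _ : Fin (n + 1) => 0) F = ∑ x ∈ Finset.range m, G (x : ℤ) := by
      rw [bsum_succ]
      refine Finset.sum_congr rfl fun x _ => ?_
      rw [hG]
      dsimp only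
      rw [zero_add]
    set X : ℕ → ℝ := fun x => bsum L (fun i => A i.succ) (fun b => F (Fin.cons (A 0 + (x : ℤ)) b))
      with hX
    have h2 : ∀ x : ℕ, |(m : ℝ) ^ n * X x - (L : ℝ) ^ n * G (A 0 + (x : ℤ))| * L ≤
        2 * n * m * ((m : ℝ) * L) ^ n * H := fun x =>
      ih (fun b => F (Fin.cons (A 0 + (x : ℤ)) b)) H (fun i => A i.succ) (hPx _) (hFx _)
    have e3 : (m : ℝ) ^ (n + 1) * bsum L A F - (L : ℝ) ^ (n + 1) * bsum m (fun _ => 0) F =
        (m : ℝ) * (∑ x ∈ Finset.range L, ((m : ℝ) ^ n * X x - (L : ℝ) ^ n * G (A 0 + (x : ℤ)))) +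
        (L : ℝ) ^ n * ((m : ℝ) * ∑ x ∈ Finset.range L, G (A 0 + (x : ℤ)) -
          (L : ℝ) * ∑ x ∈ Finset.range m, G (x : ℤ)) := by
      rw [e1, e2, Finset.sum_sub_distrib, ← Finset.mul_sum, ← Finset.mul_sum]
      ring
    rw [e3]
    have h3 : |∑ x ∈ Finset.range L, ((m : ℝ) ^ n * X x - (L : ℝ) ^ n * G (A 0 + (x : ℤ)))| * L ≤
        L * (2 * n * m * ((m : ℝ) * L) ^ n * H) := by
      calc |∑ x ∈ Finset.range L, ((m : ℝ) ^ n * X x - (L : ℝ) ^ n * G (A 0 + (x : ℤ)))| * L ≤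
            (∑ x ∈ Finset.range L, |(m : ℝ) ^ n * X x - (L : ℝ) ^ n * G (A 0 + (x : ℤ))|) * L :=
            mul_le_mul_of_nonneg_right (Finset.abs_sum_le_sum_abs _ _) hL0
        _ = ∑ x ∈ Finset.range L, |(m : ℝ) ^ n * X x - (L : ℝ) ^ n * G (A 0 + (x : ℤ))| * L :=
            Finset.sum_mul _ _ _
        _ ≤ ∑ x ∈ Finset.range L, 2 * n * m * ((m : ℝ) * L) ^ n * H :=
            Finset.sum_le_sum fun x _ => h2 x
        _ = _ := by rw [Finset.sum_const, Finset.card_range, nsmul_eq_mul]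
    set U := ∑ x ∈ Finset.range L, ((m : ℝ) ^ n * X x - (L : ℝ) ^ n * G (A 0 + (x : ℤ))) with hU
    set W := (m : ℝ) * ∑ x ∈ Finset.range L, G (A 0 + (x : ℤ)) -
          (L : ℝ) * ∑ x ∈ Finset.range m, G (x : ℤ) with hW
    have h4 : |(m : ℝ) * U + (L : ℝ) ^ n * W| ≤ (m : ℝ) * |U| + (L : ℝ) ^ n * |W| := by
      refine (abs_add_le _ _).trans (le_of_eq ?_)
      rw [abs_mul, abs_mul, abs_of_nonneg hm0, abs_of_nonneg (pow_nonneg hL0 n)]
    have h5 : (m : ℝ) * (|U| * L) ≤ m * (L * (2 * n * m * ((m : ℝ) * L) ^ n * H)) :=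
      mul_le_mul_of_nonneg_left h3 hm0
    have h6 : (L : ℝ) ^ n * |W| * L ≤ (L : ℝ) ^ n * (2 * (m : ℝ) ^ 2 * ((m : ℝ) ^ n * H)) * L :=
      mul_le_mul_of_nonneg_right (mul_le_mul_of_nonneg_left h1 (pow_nonneg hL0 n)) hL0
    calc |(m : ℝ) * U + (L : ℝ) ^ n * W| * L ≤ ((m : ℝ) * |U| + (L : ℝ) ^ n * |W|) * L :=
          mul_le_mul_of_nonneg_right h4 hL0
      _ = (m : ℝ) * (|U| * L) + (L : ℝ) ^ n * |W| * L := by ring
      _ ≤ m * (L * (2 * n * m * ((m : ℝ) * L) ^ n * H)) +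
          (L : ℝ) ^ n * (2 * (m : ℝ) ^ 2 * ((m : ℝ) ^ n * H)) * L := add_le_add h5 h6
      _ = _ := by
        push_cast
        ring

/-! ### General index type -/

lemma bsum_equiv {ι : Type} [Fintype ι] {n : ℕ} (e : ι ≃ Fin n) (L : ℕ) (A : ι → ℤ)
    (F : (ι → ℤ) → ℝ) :
    bsum L A F = bsum L (fun j => A (e.symm j)) (fun b => F (fun i => b (e i))) := by
  classical
  rw [bsum_def, bsum_def]
  refine Fintype.sum_equiv (Equiv.arrowCongr e (Equiv.refl (Fin L))) _ _ fun a => ?_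
  congr 1
  funext i
  simp [Equiv.arrowCongr]

lemma box' {ι : Type} [Fintype ι] (m L : ℕ) (hm : 0 < m) (F : (ι → ℤ) → ℝ) (H : ℝ) (A : ι → ℤ)
    (hP : Per m F) (hF : ∀ a, |F a| ≤ H) :
    |(m : ℝ) ^ Fintype.card ι * bsum L A F - (L : ℝ) ^ Fintype.card ι * bsum m (fun _ => 0) F| * L ≤
      2 * Fintype.card ι * m * ((m : ℝ) * L) ^ Fintype.card ι * H := by
  classical
  set e := Fintype.equivFin ι
  rw [bsum_equiv e L A F, bsum_equiv e m (fun _ => 0) F]
  refine box m L hm (Fintype.card ι) (fun b => F (fun i => b (e i))) H _ ?_ (fun a => hF _)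
  intro a b
  exact hP (fun i => a (e i)) (fun i => b (e i))

/-! ### Periods -/

lemma per_dvd {ι : Type} {p m : ℕ} (hpm : p ∣ m) {h : (ι → ℤ) → ℝ} (hp : Per p h) : Per m h := by
  obtain ⟨k, rfl⟩ := hpm
  intro a b
  have h1 := hp a ((k : ℤ) • b)
  rw [← h1]
  congr 1
  funext i
  simp only [Pi.add_apply, Pi.smul_apply, smul_eq_mul]
  push_cast
  ring

lemma per_prod {ι : Type} {T : Finset ℕ} {f : ℕ → (ι → ℤ) → ℝ} (hT : ∀ p ∈ T, Per p (f p)) :
    Per (∏ p ∈ T, p) (fun a => ∏ p ∈ T, f p a) := by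
  intro a b
  refine Finset.prod_congr rfl fun p hp => ?_
  exact per_dvd (Finset.dvd_prod_of_mem (fun p => p) hp) (hT p hp) a b

lemma per_mod {ι : Type} {p : ℕ} {h : (ι → ℤ) → ℝ} (hp : Per p h) (a : ι → ℕ) :
    h (fun i => ((a i : ℕ) : ℤ)) = h (fun i => ((a i % p : ℕ) : ℤ)) := by
  have h1 := hp (fun i => ((a i % p : ℕ) : ℤ)) (fun i => ((a i / p : ℕ) : ℤ))
  rw [← h1]
  congr 1
  funext i
  simp only [Pi.add_apply, Pi.smul_apply, smul_eq_mul]
  have h2 := Nat.mod_add_div (a i) p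
  exact_mod_cast h2.symm

/-- the sum over a period -/
noncomputable abbrev ps {ι : Type} [Fintype ι] (m : ℕ) (F : (ι → ℤ) → ℝ) : ℝ := bsum m (fun _ => 0) F

lemma ps_eq {ι : Type} [Fintype ι] [DecidableEq ι] (m : ℕ) (F : (ι → ℤ) → ℝ) :
    ps m F = ∑ a : ι → Fin m, F (fun i => ((a i : ℕ) : ℤ)) := by
  unfold ps
  rw [bsum_def]
  refine Finset.sum_congr rfl fun a _ => ?_
  congr 1
  funext i
  rw [zero_add]

lemma crt {ι : Type} [Fintype ι] {m₁ m₂ : ℕ} (h1 : 0 < m₁) (h2 : 0 < m₂) (hc : Nat.Coprime m₁ m₂)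
    {F₁ F₂ : (ι → ℤ) → ℝ} (hF₁ : Per m₁ F₁) (hF₂ : Per m₂ F₂) :
    ps (m₁ * m₂) (fun a => F₁ a * F₂ a) = ps m₁ F₁ * ps m₂ F₂ := by
  classical
  rw [ps_eq, ps_eq, ps_eq, Finset.sum_mul_sum, ← Fintype.sum_prod_type']
  set Φ : (ι → Fin (m₁ * m₂)) → (ι → Fin m₁) × (ι → Fin m₂) := fun a =>
    (fun i => ⟨(a i : ℕ) % m₁, Nat.mod_lt _ h1⟩, fun i => ⟨(a i : ℕ) % m₂, Nat.mod_lt _ h2⟩) with hΦ
  have hinj : Function.Injective Φ := by
    intro a b hab
    funext i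
    have e1 := congrFun (congrArg Prod.fst hab) i
    have e2 := congrFun (congrArg Prod.snd hab) i
    have e3 : (a i : ℕ) % m₁ = (b i : ℕ) % m₁ := congrArg Fin.val e1
    have e4 : (a i : ℕ) % m₂ = (b i : ℕ) % m₂ := congrArg Fin.val e2
    have e5 : (a i : ℕ) ≡ (b i : ℕ) [MOD m₁ * m₂] :=
      (Nat.modEq_and_modEq_iff_modEq_mul hc).1 ⟨e3, e4⟩
    exact Fin.ext (Nat.ModEq.eq_of_lt_of_lt e5 (a i).2 (b i).2)
  have hbij : Function.Bijective Φ := by
    rw [Fintype.bijective_iff_injective_and_card]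
    refine ⟨hinj, ?_⟩
    rw [Fintype.card_prod, Fintype.card_fun, Fintype.card_fun, Fintype.card_fun, Fintype.card_fin,
      Fintype.card_fin, Fintype.card_fin, mul_pow]
  refine Fintype.sum_bijective Φ hbij _ _ fun a => ?_
  rw [per_mod hF₁ (fun i => (a i : ℕ)), per_mod hF₂ (fun i => (a i : ℕ))]

lemma ps_prod {ι : Type} [Fintype ι] (f : ℕ → (ι → ℤ) → ℝ) (T : Finset ℕ)
    (hT : ∀ p ∈ T, p.Prime ∧ Per p (f p)) :
    ps (∏ p ∈ T, p) (fun a => ∏ p ∈ T, f p a) = ∏ p ∈ T, ps p (f p) := by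
  classical
  induction T using Finset.induction_on with
  | empty =>
    rw [ps_eq]
    simp
  | insert q T hq ih =>
    have hT' : ∀ p ∈ T, p.Prime ∧ Per p (f p) := fun p hp => hT p (Finset.mem_insert_of_mem hp)
    obtain ⟨hqp, hqf⟩ := hT q (Finset.mem_insert_self q T)
    rw [Finset.prod_insert hq, Finset.prod_insert hq, ← ih hT']
    have e : (fun a : ι → ℤ => ∏ p ∈ insert q T, f p a) = fun a => f q a * ∏ p ∈ T, f p a := by
      funext a
      rw [Finset.prod_insert hq]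
    rw [e]
    refine crt hqp.pos (Finset.prod_pos fun p hp => (hT' p hp).1.pos) ?_ hqf
      (per_prod fun p hp => (hT' p hp).2)
    refine Nat.Coprime.prod_right fun p hp => ?_
    refine (Nat.coprime_primes hqp (hT' p hp).1).2 ?_
    rintro rfl
    exact hq hp

lemma mean_eq {ι : Type} [Fintype ι] (p : ℕ) (h : (ι → ℤ) → ℝ) :
    mean p h = ps p h / (p : ℝ) ^ Fintype.card ι := by
  classical
  rw [ps_eq, mean_def]

end EquiM

theorem equi : S_Equi := by
  intro ι _ T f H L A₀ hT hL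
  set m : ℕ := ∏ p ∈ T, p with hm
  have hmpos : 0 < m := Finset.prod_pos fun p hp => (hT p hp).1.pos
  have hmR : (0 : ℝ) < m := by exact_mod_cast hmpos
  have hper : Per m (fun a => ∏ p ∈ T, f p a) := EquiM.per_prod fun p hp => (hT p hp).2.1
  have hb : ∀ a, |(fun a => ∏ p ∈ T, f p a) a| ≤ ∏ p ∈ T, H p := by
    intro a
    dsimp only
    rw [Finset.abs_prod]
    exact Finset.prod_le_prod (fun p _ => abs_nonneg _) fun p hp => (hT p hp).2.2 a
  have h1 := EquiM.box' m L hmpos _ _ A₀ hper hb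
  have h2 : ∏ p ∈ T, mean p (f p) =
      bsum m (fun _ => 0) (fun a => ∏ p ∈ T, f p a) / (m : ℝ) ^ Fintype.card ι := by
    have h3 := EquiM.ps_prod f T fun p hp => ⟨(hT p hp).1, (hT p hp).2.1⟩
    rw [← hm] at h3
    unfold EquiM.ps at h3
    rw [h3, hm, Nat.cast_prod, ← Finset.prod_pow, ← Finset.prod_div_distrib]
    exact Finset.prod_congr rfl fun p _ => EquiM.mean_eq p (f p)
  have hm1 : ((∏ p ∈ T, (p : ℝ)) : ℝ) = (m : ℝ) := by rw [hm, Nat.cast_prod]
  rw [h2, hm1]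
  set B := bsum L A₀ (fun a => ∏ p ∈ T, f p a)
  set S := bsum m (fun _ => 0) (fun a => ∏ p ∈ T, f p a)
  set n := Fintype.card ι
  have hmn : (0 : ℝ) < (m : ℝ) ^ n := pow_pos hmR n
  have h4 : (m : ℝ) ^ n * |B - (L : ℝ) ^ n * (S / (m : ℝ) ^ n)| = |(m : ℝ) ^ n * B - (L : ℝ) ^ n * S| := by
    rw [← abs_of_pos hmn, ← abs_mul, abs_of_pos hmn]
    congr 1
    field_simp
  rw [← h4] at h1
  have h5 : (m : ℝ) ^ n * (|B - (L : ℝ) ^ n * (S / (m : ℝ) ^ n)| * L) ≤
      (m : ℝ) ^ n * (2 * n * m * (L : ℝ) ^ n * ∏ p ∈ T, H p) := by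
    refine le_trans (le_of_eq (by ring)) (h1.trans (le_of_eq ?_))
    rw [mul_pow]
    ring
  exact le_of_mul_le_mul_left h5 hmn

end MP7ed9c3.Tz
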