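import Pool.Agent.Lib.MP_7ed9c3_nt.Tz.SpecS
import Pool.Agent.Lib.MP_7ed9c3_nt.Tw.D6a
import Pool.Agent.Lib.MP_7ed9c3_nt.N1

/-!
# MP_7ed9c3_nt, part Tz, S6: primes of degree one
-/

set_option autoImplicit false

namespace MP7ed9c3.Tz

open NumberField IsDedekindDomain Filter Topology MP7ed9c3.Tw MP7ed9c3.Zs

namespace DegOneM

section Real

/-- the tail inequality -/
theorem exp_ineq {y : ℝ} {k : ℕ} (hy : 2 * (k : ℝ) ≤ y) :
    y ^ k / k.factorial ≤ Real.exp (3 * y) / (17 / 4) ^ k := by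
  rcases Nat.eq_zero_or_pos k with hk | hk
  · subst hk
    have h0 : 0 ≤ y := by simpa using hy
    simpa using Real.one_le_exp (by linarith : 0 ≤ 3 * y)
  · have hk' : (0 : ℝ) < k := by exact_mod_cast hk
    obtain ⟨u, hyu⟩ : ∃ u : ℝ, y = u * k := ⟨y / k, by field_simp⟩
    subst hyu
    have hu4 : 2 ≤ u := le_of_mul_le_mul_right hy hk'
    have h1 : 17 / 4 * u ≤ Real.exp (3 * u - 1) := by
      have h2 := Real.quadratic_le_exp_of_nonneg (x := 3 * u - 1) (by linarith)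
      nlinarith
    have h2 : (k : ℝ) ^ k / k.factorial ≤ Real.exp k :=
      Real.pow_div_factorial_le_exp _ hk'.le k
    have h3 : (0 : ℝ) ≤ 17 / 4 * u := by linarith
    rw [le_div_iff₀ (by positivity)]
    calc (u * k) ^ k / k.factorial * (17 / 4) ^ k
        = (17 / 4 * u) ^ k * ((k : ℝ) ^ k / k.factorial) := by ring
      _ ≤ Real.exp (3 * u - 1) ^ k * Real.exp k :=
          mul_le_mul (pow_le_pow_left₀ h3 h1 k) h2 (by positivity) (by positivity)
      _ = Real.exp (3 * (u * k)) := by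
          rw [← Real.exp_nat_mul, ← Real.exp_add]
          congr 1
          ring

/-- the central binomial coefficient -/
theorem fact_ineq (k : ℕ) :
    (1 : ℝ) / (2 * k).factorial ≤ (2 * k + 1) / 4 ^ k * (1 / k.factorial) ^ 2 := by
  have h1 : (4 : ℝ) ^ k ≤ (2 * k + 1) * (Nat.centralBinom k : ℝ) := by
    have h2 : 4 ^ k ≤ 2 * k * Nat.centralBinom k + Nat.centralBinom k := by
      rcases Nat.eq_zero_or_pos k with hk | hk
      · subst hk
        simp
      · have := Nat.four_pow_le_two_mul_self_mul_centralBinom k hk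
        omega
    have h3 : ((4 ^ k : ℕ) : ℝ) ≤ ((2 * k * Nat.centralBinom k + Nat.centralBinom k : ℕ) : ℝ) := by
      exact_mod_cast h2
    push_cast at h3
    linarith
  have h4 : (Nat.centralBinom k : ℝ) * ((k.factorial : ℝ) ^ 2) = (2 * k).factorial := by
    have h5 := Nat.choose_mul_factorial_mul_factorial (n := 2 * k) (k := k) (by omega)
    have h6 : 2 * k - k = k := by omega
    rw [h6] at h5
    rw [Nat.centralBinom]
    have h7 : (((2 * k).choose k * k.factorial * k.factorial : ℕ) : ℝ) = ((2 * k).factorial : ℝ) := by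
      exact_mod_cast h5
    push_cast at h7
    rw [← h7]
    ring
  have hf : (0 : ℝ) < (k.factorial : ℝ) ^ 2 := by positivity
  have hf2 : (0 : ℝ) < ((2 * k).factorial : ℝ) := by positivity
  have h8 : (4 : ℝ) ^ k * (k.factorial : ℝ) ^ 2 ≤ (2 * k + 1) * ((2 * k).factorial : ℝ) := by
    rw [← h4]
    nlinarith [mul_le_mul_of_nonneg_right h1 hf.le]
  rw [one_div_pow, div_mul_div_comm, mul_one, div_le_div_iff₀ hf2 (by positivity), one_mul]
  exact h8

/-- the main term, for one prime -/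
theorem main_ineq {q x : ℝ} (hq : 1 ≤ q) (hx : x < 1) (k : ℕ) :
    q ^ (-(5 : ℝ)) * (Real.log q ^ (2 * k) / (2 * k).factorial) ≤
      q ^ (1 - 2 * x) * ((2 * k + 1) / (4 * (3 - x) ^ 2) ^ k) := by
  have hr : 0 < 3 - x := by linarith
  have hq0 : 0 < q := by linarith
  have h1 := uni hq hr k
  have hl : 0 ≤ Real.log q ^ k / k.factorial :=
    div_nonneg (pow_nonneg (Real.log_nonneg hq) k) (Nat.cast_nonneg _)
  have h2 : (Real.log q ^ k / k.factorial) ^ 2 ≤ (q ^ (3 - x) / (3 - x) ^ k) ^ 2 :=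
    pow_le_pow_left₀ hl h1 2
  have h3 : Real.log q ^ (2 * k) / (2 * k).factorial ≤
      (2 * k + 1) / 4 ^ k * (Real.log q ^ k / k.factorial) ^ 2 := by
    have h4 := mul_le_mul_of_nonneg_left (fact_ineq k) (pow_nonneg (Real.log_nonneg hq) (2 * k))
    calc Real.log q ^ (2 * k) / (2 * k).factorial
        = Real.log q ^ (2 * k) * (1 / (2 * k).factorial) := by ring
      _ ≤ Real.log q ^ (2 * k) * ((2 * k + 1) / 4 ^ k * (1 / k.factorial) ^ 2) := h4
      _ = _ := by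
        rw [pow_mul' _ 2 k]
        ring
  have h5 : (0 : ℝ) ≤ (2 * k + 1) / 4 ^ k := by positivity
  calc q ^ (-(5 : ℝ)) * (Real.log q ^ (2 * k) / (2 * k).factorial)
      ≤ q ^ (-(5 : ℝ)) * ((2 * k + 1) / 4 ^ k * (q ^ (3 - x) / (3 - x) ^ k) ^ 2) :=
        mul_le_mul_of_nonneg_left (h3.trans (mul_le_mul_of_nonneg_left h2 h5))
          (Real.rpow_nonneg hq0.le _)
    _ = (q ^ (-(5 : ℝ)) * (q ^ (3 - x)) ^ 2) * ((2 * k + 1) / (4 * (3 - x) ^ 2) ^ k) := by
        rw [div_pow, mul_pow, ← pow_mul, ← pow_mul, mul_comm k 2]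
        field_simp
    _ = q ^ (1 - 2 * x) * ((2 * k + 1) / (4 * (3 - x) ^ 2) ^ k) := by
        congr 1
        rw [← Real.rpow_natCast, ← Real.rpow_mul hq0.le, ← Real.rpow_add hq0]
        congr 1
        push_cast
        ring

theorem pow_ineq {q ρ : ℝ} (hq : 1 ≤ q) (hρ : 17 / 4 ≤ ρ) (k : ℕ) :
    q ^ (-(5 : ℝ)) * (Real.log q ^ k / k.factorial) ≤ q ^ (ρ - 5) / (17 / 4) ^ k := by
  have h1 := uni hq (by linarith : 0 < ρ) k
  have hq0 : 0 < q := by linarith
  calc q ^ (-(5 : ℝ)) * (Real.log q ^ k / k.factorial)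
      ≤ q ^ (-(5 : ℝ)) * (q ^ ρ / ρ ^ k) := mul_le_mul_of_nonneg_left h1 (Real.rpow_nonneg hq0.le _)
    _ = q ^ (ρ - 5) / ρ ^ k := by
        rw [sub_eq_add_neg, add_comm ρ, Real.rpow_add hq0]
        ring
    _ ≤ q ^ (ρ - 5) / (17 / 4) ^ k :=
        div_le_div_of_nonneg_left (Real.rpow_nonneg hq0.le _) (by positivity)
          (pow_le_pow_left₀ (by norm_num) hρ k)

theorem tail_ineq {q : ℝ} (hq : 1 ≤ q) {k : ℕ} (hk : 2 * (k : ℝ) ≤ Real.log q) :
    q ^ (-(5 : ℝ)) * (Real.log q ^ k / k.factorial) ≤ q ^ (-(2 : ℝ)) / (17 / 4) ^ k := by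
  have hq0 : 0 < q := by linarith
  have h1 := exp_ineq hk
  have h2 : Real.exp (3 * Real.log q) = q ^ (3 : ℝ) := by
    rw [Real.rpow_def_of_pos hq0, mul_comm]
  rw [h2] at h1
  calc q ^ (-(5 : ℝ)) * (Real.log q ^ k / k.factorial)
      ≤ q ^ (-(5 : ℝ)) * (q ^ (3 : ℝ) / (17 / 4) ^ k) :=
        mul_le_mul_of_nonneg_left h1 (Real.rpow_nonneg hq0.le _)
    _ = q ^ (-(2 : ℝ)) / (17 / 4) ^ k := by
        rw [← mul_div_assoc, ← Real.rpow_add hq0]
        norm_num

end Real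

variable {K : Type} [Field K] [NumberField K]

theorem nm_two (v : HeightOneSpectrum (𝓞 K)) : (2 : ℝ) ≤ nm v := by
  exact_mod_cast (N1.exists_prime v).1

/-- Different prime numbers have disjoint sets of primes over them. -/
theorem ov_disj (h : S_Prim) {p q : ℕ} (hp : p.Prime) (hq : q.Prime) (hpq : p ≠ q) :
    Disjoint (Ov K p) (Ov K q) := by
  rw [Finset.disjoint_left]
  intro v hv hv'
  obtain ⟨f, hf1, -, hf⟩ := (h K p hp).2.2.2.2 v hv
  obtain ⟨g, -, -, hg⟩ := (h K q hq).2.2.2.2 v hv'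
  apply hpq
  have h1 : p ∣ q ^ g := by
    rw [← hg, hf]
    exact dvd_pow_self p (by omega)
  exact (Nat.prime_dvd_prime_iff_eq hp hq).1 (hp.dvd_of_dvd_pow h1)

open Classical in
/-- the weight of the primes of degree at least two -/
noncomputable def ew (v : HeightOneSpectrum (𝓞 K)) : ℝ :=
  if (nm v).Prime then 0 else (nm v : ℝ) ^ (-(3 / 4 : ℝ))

theorem ew_nonneg (v : HeightOneSpectrum (𝓞 K)) : 0 ≤ ew v := by
  unfold ew
  split_ifs
  · exact le_refl _
  · exact Real.rpow_nonneg (Nat.cast_nonneg _) _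

theorem ew_le (h : S_Prim) {p : ℕ} (hp : p.Prime) {v : HeightOneSpectrum (𝓞 K)}
    (hv : v ∈ Ov K p) : ew v ≤ (p : ℝ) ^ (-(3 / 2 : ℝ)) := by
  unfold ew
  split_ifs with h1
  · exact Real.rpow_nonneg (Nat.cast_nonneg _) _
  · obtain ⟨f, hf1, -, hf⟩ := (h K p hp).2.2.2.2 v hv
    have hf2 : 2 ≤ f := by
      by_contra hlt
      have h2 : f = 1 := by omega
      rw [h2, pow_one] at hf
      exact h1 (hf ▸ hp)
    have hp1 : (1 : ℝ) ≤ p := by exact_mod_cast hp.one_lt.le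
    have hp0 : (0 : ℝ) < p := by linarith
    have h3 : (p : ℝ) ^ 2 ≤ (nm v : ℝ) := by
      rw [hf]
      push_cast
      exact pow_le_pow_right₀ hp1 hf2
    calc (nm v : ℝ) ^ (-(3 / 4 : ℝ)) ≤ ((p : ℝ) ^ 2) ^ (-(3 / 4 : ℝ)) :=
          Real.rpow_le_rpow_of_nonpos (by positivity) h3 (by norm_num)
      _ = (p : ℝ) ^ (-(3 / 2 : ℝ)) := by
          rw [← Real.rpow_natCast, ← Real.rpow_mul hp0.le]
          norm_num

theorem summable_ew (h : S_Prim) : Summable (ew (K := K)) := by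
  classical
  have hs : Summable fun m : ℕ => (m : ℝ) ^ (-(3 / 2 : ℝ)) :=
    Real.summable_nat_rpow.2 (by norm_num)
  refine summable_of_sum_le (c := (Module.finrank ℚ K : ℝ) * ∑' m : ℕ, (m : ℝ) ^ (-(3 / 2 : ℝ)))
    ew_nonneg fun S => ?_
  set P : Finset ℕ := (Finset.range (S.sup nm + 1)).filter Nat.Prime with hP
  have hsub : S ⊆ P.biUnion (Ov K) := by
    intro v hv
    obtain ⟨p, hp, hple, hpv⟩ := (N1.exists_prime v).2
    have h1 : nm v ≤ S.sup nm := Finset.le_sup (f := nm) hv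
    exact Finset.mem_biUnion.2 ⟨p, Finset.mem_filter.2 ⟨Finset.mem_range.2 (by omega), hp⟩,
      ((h K p hp).1 v).2 hpv⟩
  have hdis : Set.PairwiseDisjoint (P : Set ℕ) (Ov K) := by
    intro p hp q hq hpq
    exact ov_disj h (Finset.mem_filter.1 (Finset.mem_coe.1 hp)).2
      (Finset.mem_filter.1 (Finset.mem_coe.1 hq)).2 hpq
  calc ∑ v ∈ S, ew v ≤ ∑ v ∈ P.biUnion (Ov K), ew v :=
        Finset.sum_le_sum_of_subset_of_nonneg hsub fun v _ _ => ew_nonneg v
    _ = ∑ p ∈ P, ∑ v ∈ Ov K p, ew v := Finset.sum_biUnion hdis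
    _ ≤ ∑ p ∈ P, (Module.finrank ℚ K : ℝ) * (p : ℝ) ^ (-(3 / 2 : ℝ)) := by
        refine Finset.sum_le_sum fun p hp => ?_
        have hp' := (Finset.mem_filter.1 hp).2
        have h1 : ((Ov K p).card : ℝ) ≤ Module.finrank ℚ K := by
          exact_mod_cast (h K p hp').2.2.2.1
        calc ∑ v ∈ Ov K p, ew v ≤ ∑ _v ∈ Ov K p, (p : ℝ) ^ (-(3 / 2 : ℝ)) :=
              Finset.sum_le_sum fun v hv => ew_le h hp' hv
          _ = ((Ov K p).card : ℝ) * (p : ℝ) ^ (-(3 / 2 : ℝ)) := by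
              rw [Finset.sum_const, nsmul_eq_mul]
          _ ≤ _ := mul_le_mul_of_nonneg_right h1 (Real.rpow_nonneg (Nat.cast_nonneg _) _)
    _ = (Module.finrank ℚ K : ℝ) * ∑ p ∈ P, (p : ℝ) ^ (-(3 / 2 : ℝ)) := by
        rw [Finset.mul_sum]
    _ ≤ _ := by
        refine mul_le_mul_of_nonneg_left ?_ (Nat.cast_nonneg _)
        exact hs.sum_le_tsum P fun m _ => Real.rpow_nonneg (Nat.cast_nonneg _) _

omit [NumberField K] in
open Classical in
theorem hasSum_ind (U : Finset (HeightOneSpectrum (𝓞 K))) :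
    HasSum (fun v => if v ∈ U then (1 : ℝ) else 0) (U.card : ℝ) := by
  have h : HasSum (fun v => if v ∈ U then (1 : ℝ) else 0)
      (∑ v ∈ U, (if v ∈ U then (1 : ℝ) else 0)) :=
    hasSum_sum_of_ne_finset_zero (fun v hv => if_neg hv)
  have h2 : ∑ v ∈ U, (if v ∈ U then (1 : ℝ) else 0) = U.card := by
    rw [Finset.sum_congr rfl (fun v hv => if_pos hv), Finset.sum_const, nsmul_eq_mul, mul_one]
  rwa [h2] at h

/-- the comparison of the whole series with the primes of degree one -/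
theorem psi_le (h1 : S_Psi) (h2 : S_Prim) (p₀ : ℕ) {x : ℝ} (hx : x < 1) :
    ∃ C : ℝ, 0 ≤ C ∧ ∀ k N : ℕ, 2 * ((2 * k : ℕ) : ℝ) ≤ Real.log N →
      Psi K (2 * k) ≤ (2 * k + 1) / (4 * (3 - x) ^ 2) ^ k *
        (∑ p ∈ pr p₀ N, ((D1 K p).card : ℝ) * (p : ℝ) ^ (1 - 2 * x)) +
          C / (17 / 4) ^ (2 * k) := by
  classical
  have hGs : Summable fun v : HeightOneSpectrum (𝓞 K) => (nm v : ℝ) ^ (-(2 : ℝ)) :=
    (zetaSum K).2.1 2 (by norm_num)
  set G : ℝ := ∑' v : HeightOneSpectrum (𝓞 K), (nm v : ℝ) ^ (-(2 : ℝ)) with hG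
  have hG0 : 0 ≤ G := tsum_nonneg fun v => Real.rpow_nonneg (Nat.cast_nonneg _) _
  set W : ℝ := ∑' v : HeightOneSpectrum (𝓞 K), ew v with hW
  have hW0 : 0 ≤ W := tsum_nonneg ew_nonneg
  set U : Finset (HeightOneSpectrum (𝓞 K)) :=
    ((Finset.range (p₀ + 1)).filter Nat.Prime).biUnion (Ov K) with hU
  refine ⟨U.card + W + G, by positivity, fun k N hkN => ?_⟩
  set T : Finset (HeightOneSpectrum (𝓞 K)) := (pr p₀ N).biUnion (D1 K) with hT
  set g : HeightOneSpectrum (𝓞 K) → ℝ := fun v =>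
    (nm v : ℝ) ^ (-(5 : ℝ)) * (Real.log (nm v) ^ (2 * k) / (2 * k).factorial) with hg
  have hg0 : ∀ v, 0 ≤ g v := by
    intro v
    have h3 := nm_two v
    exact mul_nonneg (Real.rpow_nonneg (Nat.cast_nonneg _) _)
      (div_nonneg (pow_nonneg (Real.log_nonneg (by linarith)) _) (Nat.cast_nonneg _))
  set c : ℝ := 1 / (17 / 4) ^ (2 * k) with hc
  have hc0 : 0 ≤ c := by positivity
  set B : HeightOneSpectrum (𝓞 K) → ℝ := fun v =>
    (if v ∈ T then g v else 0) + c * ((if v ∈ U then (1 : ℝ) else 0) + ew v +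
      (nm v : ℝ) ^ (-(2 : ℝ))) with hB
  have hTs : HasSum (fun v => if v ∈ T then g v else 0) (∑ v ∈ T, g v) := by
    have h3 : HasSum (fun v => if v ∈ T then g v else 0) (∑ v ∈ T, (if v ∈ T then g v else 0)) :=
      hasSum_sum_of_ne_finset_zero (fun v hv => if_neg hv)
    have h4 : ∑ v ∈ T, (if v ∈ T then g v else 0) = ∑ v ∈ T, g v :=
      Finset.sum_congr rfl fun v hv => if_pos hv
    rwa [h4] at h3
  have hBs : HasSum B (∑ v ∈ T, g v + c * (U.card + W + G)) :=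
    hTs.add ((((hasSum_ind U).add (summable_ew h2).hasSum).add hGs.hasSum).mul_left c)
  have hgB : ∀ v, g v ≤ B v := by
    intro v
    have hn2 := nm_two v
    have hn1 : (1 : ℝ) ≤ nm v := by linarith
    have he := ew_nonneg v
    have hi : (0 : ℝ) ≤ if v ∈ U then (1 : ℝ) else 0 := by split_ifs <;> norm_num
    have hiT : (0 : ℝ) ≤ if v ∈ T then g v else 0 := by
      split_ifs
      · exact hg0 v
      · exact le_refl _
    have hq : 0 ≤ (nm v : ℝ) ^ (-(2 : ℝ)) := Real.rpow_nonneg (Nat.cast_nonneg _) _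
    by_cases hvT : v ∈ T
    · have h3 : B v = g v + c * ((if v ∈ U then (1 : ℝ) else 0) + ew v +
          (nm v : ℝ) ^ (-(2 : ℝ))) := by
        simp only [hB, if_pos hvT]
      rw [h3]
      have h4 : 0 ≤ c * ((if v ∈ U then (1 : ℝ) else 0) + ew v + (nm v : ℝ) ^ (-(2 : ℝ))) :=
        mul_nonneg hc0 (by linarith)
      linarith
    · by_cases hpr : (nm v).Prime
      · by_cases hle : nm v ≤ p₀
        · -- small primes
          have h3 : v ∈ U := by
            refine Finset.mem_biUnion.2 ⟨nm v, Finset.mem_filter.2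
              ⟨Finset.mem_range.2 (by omega), hpr⟩, ?_⟩
            exact (h2 K (nm v) hpr).2.2.1 (((h2 K (nm v) hpr).2.1 v).2 rfl)
          have h4 : g v ≤ c := by
            have h5 := pow_ineq hn1 (by norm_num : (17 : ℝ) / 4 ≤ 5) (2 * k)
            have h6 : (nm v : ℝ) ^ ((5 : ℝ) - 5) = 1 := by
              rw [sub_self, Real.rpow_zero]
            rw [h6] at h5
            exact h5
          simp only [hB, if_pos h3]
          nlinarith [mul_nonneg hc0 he, mul_nonneg hc0 hq]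
        · -- large primes
          have h3 : N < nm v := by
            by_contra hle2
            refine hvT (Finset.mem_biUnion.2 ⟨nm v, Finset.mem_filter.2
              ⟨Finset.mem_Ioc.2 ⟨by omega, by omega⟩, hpr⟩, ?_⟩)
            exact ((h2 K (nm v) hpr).2.1 v).2 rfl
          have h4 : 2 * ((2 * k : ℕ) : ℝ) ≤ Real.log (nm v) := by
            rcases Nat.eq_zero_or_pos N with hN | hN
            · rw [hN] at hkN
              simp only [Nat.cast_zero, Real.log_zero] at hkN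
              exact hkN.trans (Real.log_nonneg hn1)
            · refine hkN.trans (Real.log_le_log (by exact_mod_cast hN) ?_)
              exact_mod_cast h3.le
          have h5 := tail_ineq hn1 h4
          have h6 : g v ≤ c * (nm v : ℝ) ^ (-(2 : ℝ)) := by
            refine h5.trans (le_of_eq ?_)
            rw [hc]
            ring
          simp only [hB]
          nlinarith [mul_nonneg hc0 he, mul_nonneg hc0 hi]
      · have h3 : ew v = (nm v : ℝ) ^ (-(3 / 4 : ℝ)) := by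
          simp only [ew, if_neg hpr]
        have h5 := pow_ineq hn1 (le_refl ((17 : ℝ) / 4)) (2 * k)
        have h6 : g v ≤ c * ew v := by
          refine h5.trans (le_of_eq ?_)
          rw [hc, h3]
          norm_num
          ring
        simp only [hB]
        nlinarith [mul_nonneg hc0 hq, mul_nonneg hc0 hi]
  have hPsi : Psi K (2 * k) ≤ ∑ v ∈ T, g v + c * (U.card + W + G) := by
    have h3 : Psi K (2 * k) = ∑' v, g v := rfl
    rw [h3, ← hBs.tsum_eq]
    exact ((h1 K).1 (2 * k)).tsum_le_tsum hgB hBs.summable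
  have hdis : Set.PairwiseDisjoint (pr p₀ N : Set ℕ) (D1 K) := by
    intro p hp q hq hpq
    have hp' := (Finset.mem_filter.1 (Finset.mem_coe.1 hp)).2
    have hq' := (Finset.mem_filter.1 (Finset.mem_coe.1 hq)).2
    exact (ov_disj h2 hp' hq' hpq).mono (h2 K p hp').2.2.1 (h2 K q hq').2.2.1
  have hsum : ∑ v ∈ T, g v ≤ (2 * k + 1) / (4 * (3 - x) ^ 2) ^ k *
      (∑ p ∈ pr p₀ N, ((D1 K p).card : ℝ) * (p : ℝ) ^ (1 - 2 * x)) := by
    rw [hT, Finset.sum_biUnion hdis, Finset.mul_sum]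
    refine Finset.sum_le_sum fun p hp => ?_
    have hp' := (Finset.mem_filter.1 hp).2
    have hp1 : (1 : ℝ) ≤ p := by exact_mod_cast hp'.one_lt.le
    calc ∑ v ∈ D1 K p, g v ≤ ∑ _v ∈ D1 K p, (p : ℝ) ^ (1 - 2 * x) *
          ((2 * k + 1) / (4 * (3 - x) ^ 2) ^ k) := by
          refine Finset.sum_le_sum fun v hv => ?_
          have h3 : nm v = p := ((h2 K p hp').2.1 v).1 hv
          simp only [hg, h3]
          exact main_ineq hp1 hx k
      _ = (2 * k + 1) / (4 * (3 - x) ^ 2) ^ k * (((D1 K p).card : ℝ) * (p : ℝ) ^ (1 - 2 * x)) := by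
          rw [Finset.sum_const, nsmul_eq_mul]
          ring
  have hlast : c * (U.card + W + G) = (U.card + W + G) / (17 / 4) ^ (2 * k) := by
    rw [hc]
    ring
  rw [← hlast]
  linarith

end DegOneM

open DegOneM

theorem degOne (h1 : S_Psi) (h2 : S_Prim) : S_DegOne := by
  intro K _ _ x p₀ hx hx1
  obtain ⟨C, hC, hmain⟩ := psi_le (K := K) h1 h2 p₀ hx1
  obtain ⟨m₀, hm₀⟩ := (h1 K).2
  set s : ℝ := (3 - x) / 2 with hs
  have hs1 : 1 < s := by rw [hs]; linarith
  have hs0 : 0 < s := by linarith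
  have hlog : 0 < Real.log s := Real.log_pos hs1
  -- conditions on `k`
  have hk1 : ∀ᶠ k : ℕ in atTop, C * (8 * k) * 16 ^ k ≤ (289 / 16 : ℝ) ^ k := by
    have h3 : Tendsto (fun k : ℕ => (k : ℝ) ^ 1 * (256 / 289 : ℝ) ^ k) atTop (𝓝 0) :=
      tendsto_pow_const_mul_const_pow_of_abs_lt_one 1 (by rw [abs_of_pos] <;> norm_num)
    have h4 : ∀ᶠ k : ℕ in atTop, (k : ℝ) ^ 1 * (256 / 289 : ℝ) ^ k < 1 / (8 * C + 1) :=
      h3.eventually_lt_const (by positivity)
    filter_upwards [h4] with k hk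
    rw [lt_div_iff₀ (by positivity), pow_one] at hk
    have h5 : (0 : ℝ) < (289 / 16) ^ k := by positivity
    have h6 : (256 / 289 : ℝ) ^ k * (289 / 16) ^ k = 16 ^ k := by
      rw [← mul_pow]
      norm_num
    have h7 : (0 : ℝ) ≤ (k : ℝ) * (256 / 289) ^ k := by positivity
    have h8 : C * (8 * k) * 16 ^ k = ((k : ℝ) * (256 / 289) ^ k * (8 * C)) * (289 / 16) ^ k := by
      rw [← h6]
      ring
    rw [h8]
    have h9 : (k : ℝ) * (256 / 289) ^ k * (8 * C) ≤ 1 := by nlinarith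
    nlinarith
  have hk2 : ∀ᶠ k : ℕ in atTop, 8 * (k : ℝ) * (2 * k + 1) ≤ s ^ k := by
    have h3 : Tendsto (fun k : ℕ => (k : ℝ) ^ 2 * (s⁻¹) ^ k) atTop (𝓝 0) :=
      tendsto_pow_const_mul_const_pow_of_abs_lt_one 2
        (by rw [abs_of_pos (by positivity)]; exact inv_lt_one_of_one_lt₀ hs1)
    have h4 : ∀ᶠ k : ℕ in atTop, (k : ℝ) ^ 2 * (s⁻¹) ^ k < 1 / 24 :=
      h3.eventually_lt_const (by norm_num)
    filter_upwards [h4, eventually_ge_atTop 1] with k hk hk1
    have hk' : (1 : ℝ) ≤ k := by exact_mod_cast hk1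
    have h5 : 0 < s ^ k := by positivity
    have h6 : (s⁻¹) ^ k * s ^ k = 1 := by
      rw [← mul_pow, inv_mul_cancel₀ hs0.ne', one_pow]
    have h7 : (k : ℝ) ^ 2 ≤ 1 / 24 * s ^ k := by
      calc (k : ℝ) ^ 2 = (k : ℝ) ^ 2 * (s⁻¹) ^ k * s ^ k := by rw [mul_assoc, h6, mul_one]
        _ ≤ 1 / 24 * s ^ k := mul_le_mul_of_nonneg_right hk.le h5.le
    nlinarith
  have hkev : ∀ᶠ k : ℕ in atTop, (C * (8 * k) * 16 ^ k ≤ (289 / 16 : ℝ) ^ k ∧
      8 * (k : ℝ) * (2 * k + 1) ≤ s ^ k) ∧ m₀ ≤ 2 * k ∧ 1 ≤ k := by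
    filter_upwards [hk1, hk2, eventually_ge_atTop (m₀ + 1)] with k h3 h4 h5
    exact ⟨⟨h3, h4⟩, by omega, by omega⟩
  -- the choice of `k` for `N`
  have htend : Tendsto (fun N : ℕ => ⌊Real.log N / 4⌋₊) atTop atTop :=
    tendsto_nat_floor_atTop.comp
      ((Real.tendsto_log_atTop.comp tendsto_natCast_atTop_atTop).atTop_div_const (by norm_num))
  have hev := (htend.eventually hkev).and (eventually_ge_atTop 1)
  obtain ⟨N₀, hN₀⟩ := eventually_atTop.1 hev
  refine ⟨Real.log s / 8, N₀, by positivity, fun N hN => ?_⟩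
  obtain ⟨⟨⟨hA, hB⟩, hm, hkpos⟩, hN1⟩ := hN₀ N hN
  set k : ℕ := ⌊Real.log N / 4⌋₊ with hk
  have hN1' : (1 : ℝ) ≤ N := by exact_mod_cast hN1
  have hN0 : (0 : ℝ) < N := by linarith
  have hlN : 0 ≤ Real.log N := Real.log_nonneg hN1'
  have hkle : (k : ℝ) ≤ Real.log N / 4 := Nat.floor_le (by positivity)
  have hklt : Real.log N / 4 < k + 1 := Nat.lt_floor_add_one _
  have hkpos' : (1 : ℝ) ≤ k := by exact_mod_cast hkpos
  set Sg : ℝ := ∑ p ∈ pr p₀ N, ((D1 K p).card : ℝ) * (p : ℝ) ^ (1 - 2 * x) with hSg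
  have h3 := hmain k N (by push_cast; linarith)
  have h4 := hm₀ (2 * k) hm
  -- powers
  have hr : 4 * (3 - x) ^ 2 = 16 * s ^ 2 := by rw [hs]; ring
  rw [hr] at h3
  have h16 : (0 : ℝ) < 16 ^ k := by positivity
  have hsk : 0 < s ^ k := by positivity
  have h5 : (4 : ℝ) ^ (2 * k) = 16 ^ k := by
    rw [pow_mul]
    norm_num
  have h6 : ((17 : ℝ) / 4) ^ (2 * k) = (289 / 16) ^ k := by
    rw [pow_mul]
    norm_num
  rw [h5] at h4
  rw [h6] at h3
  have h7 : C / (289 / 16 : ℝ) ^ k ≤ 1 / (8 * k * 16 ^ k) := by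
    rw [div_le_div_iff₀ (by positivity) (by positivity), one_mul]
    calc C * (8 * k * 16 ^ k) = C * (8 * k) * 16 ^ k := by ring
      _ ≤ _ := hA
  have h8 : 1 / (8 * k * 16 ^ k) ≤ (2 * k + 1) / (16 * s ^ 2) ^ k * Sg := by
    have h9 : 1 / (2 * ((2 * k : ℕ) : ℝ) * 16 ^ k) = 1 / (8 * k * 16 ^ k) + 1 / (8 * k * 16 ^ k) := by
      push_cast
      field_simp
      norm_num
    rw [h9] at h4
    linarith
  have h10 : s ^ k ≤ Sg := by
    have h11 : (16 * s ^ 2 : ℝ) ^ k = 16 ^ k * (s ^ k * s ^ k) := by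
      rw [mul_pow, ← pow_mul, ← pow_add]
      ring_nf
    rw [h11, div_mul_eq_mul_div, div_le_div_iff₀ (by positivity) (by positivity)] at h8
    have h12 : s ^ k * s ^ k ≤ (8 * k * (2 * k + 1)) * Sg := by
      have h13 : 16 ^ k * (s ^ k * s ^ k) ≤ 16 ^ k * ((8 * k * (2 * k + 1)) * Sg) := by
        calc 16 ^ k * (s ^ k * s ^ k) = 1 * (16 ^ k * (s ^ k * s ^ k)) := by ring
          _ ≤ (2 * k + 1) * Sg * (8 * k * 16 ^ k) := h8
          _ = _ := by ring
      exact le_of_mul_le_mul_left h13 h16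
    have hSg0 : 0 ≤ Sg := Finset.sum_nonneg fun p _ =>
      mul_nonneg (Nat.cast_nonneg _) (Real.rpow_nonneg (Nat.cast_nonneg _) _)
    have h14 : s ^ k * s ^ k ≤ s ^ k * Sg := h12.trans (mul_le_mul_of_nonneg_right hB hSg0)
    exact le_of_mul_le_mul_left h14 hsk
  refine le_trans ?_ h10
  rw [Real.rpow_def_of_pos hN0]
  have h15 : s ^ k = Real.exp (Real.log s * k) := by
    rw [mul_comm, Real.exp_nat_mul, Real.exp_log hs0]
  rw [h15, Real.exp_le_exp]
  have h16' : Real.log N ≤ 8 * k := by linarith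
  calc Real.log N * (Real.log s / 8) = Real.log s * (Real.log N / 8) := by ring
    _ ≤ Real.log s * k := mul_le_mul_of_nonneg_left (by linarith) hlog.le

end MP7ed9c3.Tz
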