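import Pool.Agent.Lib.MP_7ed9c3_nt.Tz.SpecL
import Pool.Agent.Lib.MP_7ed9c3_nt.Zs.Over

/-!
# MP_7ed9c3_nt, part Tz, L3: the primes over `p`
-/

set_option autoImplicit false

namespace MP7ed9c3.Tz

open NumberField IsDedekindDomain Filter Topology MP7ed9c3.Tw MP7ed9c3.Zs

theorem PrimM.mem_Ov {K : Type} [Field K] [NumberField K] {p : ℕ} (hp : p.Prime)
    (v : HeightOneSpectrum (𝓞 K)) : v ∈ Ov K p ↔ ((p : ℕ) : 𝓞 K) ∈ v.asIdeal := by
  classical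
  have hp0 : ((p : ℕ) : 𝓞 K) ≠ 0 := by exact_mod_cast hp.ne_zero
  have hfin := N5.finite_mem hp0
  have h : {v : HeightOneSpectrum (𝓞 K) | ((p : ℕ) : 𝓞 K) ∈ v.asIdeal}.Finite := hfin
  unfold Ov
  rw [dif_pos h, Set.Finite.mem_toFinset]
  rfl

theorem prim : S_Prim := by
  classical
  intro K _ _ p hp
  obtain ⟨s, f, ⟨hs1, hs2⟩, _, hsum⟩ := overz K p hp
  have hOv : ∀ v : HeightOneSpectrum (𝓞 K), v ∈ Ov K p ↔ ((p : ℕ) : 𝓞 K) ∈ v.asIdeal :=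
    fun v => PrimM.mem_Ov hp v
  have hsO : ∀ v, v ∈ Ov K p → v ∈ s := by
    intro v hv
    obtain ⟨k, hk⟩ := Z3.nm_pow v hp ((hOv v).1 hv)
    exact hs2 v k hk
  have hsub : Ov K p ⊆ s := fun v hv => hsO v hv
  have hle : ∀ v ∈ s, f v ≤ Module.finrank ℚ K := by
    intro v hv
    exact (Finset.single_le_sum (fun i _ => Nat.zero_le (f i)) hv).trans hsum
  have hD : ∀ v, v ∈ D1 K p ↔ nm v = p := by
    intro v
    unfold D1
    rw [Set.Finite.mem_toFinset]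
    rfl
  refine ⟨hOv, hD, ?_, ?_, ?_⟩
  · intro v hv
    rw [hOv]
    exact overz_mem v (k := 1) (by rw [(hD v).1 hv, pow_one])
  · calc (Ov K p).card ≤ s.card := Finset.card_le_card hsub
      _ = ∑ _v ∈ s, 1 := by simp
      _ ≤ ∑ v ∈ s, f v := Finset.sum_le_sum fun v hv => (hs1 v hv).1
      _ ≤ _ := hsum
  · intro v hv
    have hv' := hsO v hv
    exact ⟨f v, (hs1 v hv').1, hle v hv', (hs1 v hv').2⟩

end MP7ed9c3.Tz
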