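import Pool.Agent.Lib.MP_7ed9c3_nt.Tz.SpecA
import Pool.Agent.Lib.MP_7ed9c3_nt.Zs.Line
import Pool.Agent.Lib.MP_7ed9c3_nt.Zs.Rect
import Pool.Agent.Lib.MP_7ed9c3_nt.Zs.Dual
import Pool.Agent.Lib.MP_7ed9c3_nt.Zs.Core
import Pool.Agent.Lib.MP_7ed9c3_nt.Zs.LogBall
import Pool.Agent.Lib.MP_7ed9c3_nt.Zs.Box

/-!
# MP_7ed9c3_nt, part Tz: what a function without zeros in a box gives
-/

set_option autoImplicit false

namespace MP7ed9c3.Tz

open NumberField IsDedekindDomain Filter Topology MP7ed9c3.Tw MP7ed9c3.Zs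

namespace BoxInfoM

open Metric

/-- The balls around the line `Re s = 3` lie in the large ball. -/
theorem ball_sub {a x' X U t₀ t : ℝ} (ha0 : 0 ≤ a) (ha : a < x') (hx3 : x' < 3) (hU : 0 ≤ U)
    (hX : X = 10 + (U + 6) ^ 2 / (x' - a)) (ht : |t - t₀| ≤ U) :
    ball (3 + t * Complex.I) (3 - x') ⊆ ball ((X : ℂ) + t₀ * Complex.I) (X - a) := by
  intro z hz
  rw [mem_ball, dist_eq_norm] at hz ⊢
  have h1 : |z.re - 3| < 3 - x' := by
    refine lt_of_le_of_lt ?_ hz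
    have := Complex.abs_re_le_norm (z - (3 + t * Complex.I))
    simpa using this
  have h2 : |z.im - t| < 3 - x' := by
    refine lt_of_le_of_lt ?_ hz
    have := Complex.abs_im_le_norm (z - (3 + t * Complex.I))
    simpa using this
  rw [abs_lt] at h1 h2
  rw [abs_le] at ht
  have hδ : 0 < x' - a := by linarith
  have h3 : (z.im - t₀) ^ 2 ≤ (U + 6) ^ 2 := by
    refine sq_le_sq' ?_ ?_ <;> nlinarith [ht.1, ht.2, h2.1, h2.2]
  have h4 : (x' - a) * (2 * X - 9) = 11 * (x' - a) + 2 * (U + 6) ^ 2 := by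
    rw [hX]
    field_simp
    ring
  have h5 : (X - a) ^ 2 - (z.re - X) ^ 2 = (z.re - a) * (2 * X - a - z.re) := by ring
  have hX4 : 10 ≤ X := by
    rw [hX]
    have : 0 ≤ (U + 6) ^ 2 / (x' - a) := by positivity
    linarith
  have h6 : (x' - a) * (2 * X - 9) ≤ (z.re - a) * (2 * X - a - z.re) := by
    refine mul_le_mul (by linarith [h1.1]) (by linarith [h1.2]) (by linarith) (by linarith [h1.1])
  have h7 : ‖z - ((X : ℂ) + t₀ * Complex.I)‖ ^ 2 = (z.re - X) ^ 2 + (z.im - t₀) ^ 2 := by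
    rw [← Complex.normSq_eq_norm_sq, Complex.normSq_apply]
    simp
    ring
  have h8 : 0 ≤ (U + 6) ^ 2 := by positivity
  have h9 : ‖z - ((X : ℂ) + t₀ * Complex.I)‖ ^ 2 < (X - a) ^ 2 := by
    rw [h7]; nlinarith
  exact lt_of_pow_lt_pow_left₀ 2 (by linarith) h9

/-- The size of the parameters. -/
theorem param {c δ V : ℝ} {N : ℕ} (hc : 0 ≤ c) (hδ : 0 < δ) (hV1 : 1 ≤ V)
    (hV : 10 + 49 / δ ≤ V) (hN : (N : ℝ) ≤ V ^ c) :
    10 + ((N : ℝ) ^ 3 + 6) ^ 2 / δ ≤ V ^ (6 * c + 1) := by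
  have hV0 : 0 < V := by linarith
  have h1 : 1 ≤ V ^ c := Real.one_le_rpow hV1 hc
  have hN0 : (0 : ℝ) ≤ N := Nat.cast_nonneg N
  have h2 : (N : ℝ) ^ 3 + 6 ≤ 7 * (V ^ c) ^ 3 := by
    have h3 : (N : ℝ) ^ 3 ≤ (V ^ c) ^ 3 := pow_le_pow_left₀ hN0 hN 3
    have h4 : 1 ≤ (V ^ c) ^ 3 := one_le_pow₀ h1
    linarith
  have h3 : ((N : ℝ) ^ 3 + 6) ^ 2 ≤ 49 * V ^ (6 * c) := by
    have h4 : ((N : ℝ) ^ 3 + 6) ^ 2 ≤ (7 * (V ^ c) ^ 3) ^ 2 :=
      pow_le_pow_left₀ (by positivity) h2 2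
    have h5 : (7 * (V ^ c) ^ 3) ^ 2 = 49 * V ^ (6 * c) := by
      have h6 : V ^ (6 * c) = (V ^ c) ^ 6 := by
        rw [← Real.rpow_natCast, ← Real.rpow_mul hV0.le]
        congr 1
        push_cast
        ring
      rw [h6]
      ring
    linarith
  have h4 : 1 ≤ V ^ (6 * c) := Real.one_le_rpow hV1 (by positivity)
  have h5 : ((N : ℝ) ^ 3 + 6) ^ 2 / δ ≤ 49 / δ * V ^ (6 * c) := by
    rw [div_mul_eq_mul_div]
    exact div_le_div_of_nonneg_right h3 hδ.le
  rw [Real.rpow_add hV0, Real.rpow_one, mul_comm]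
  have h6 : (10 + 49 / δ) * V ^ (6 * c) ≤ V * V ^ (6 * c) :=
    mul_le_mul_of_nonneg_right hV (by positivity)
  nlinarith

/-- The logarithm on the large ball, bounded on the balls around the line `Re s = 3`. -/
theorem logball2 (F L : ℂ → ℂ) (w : ℂ) (R x x' U V B t₀ : ℝ) (hx'x : x' < x)
    (hx3 : x < 3) (hx'0 : 0 < x') (hU : 0 ≤ U) (hV : 0 ≤ V)
    (hF : DifferentiableOn ℂ F (ball w R)) (hne : ∀ z ∈ ball w R, F z ≠ 0)
    (hFV : ∀ z ∈ ball w R, ‖F z‖ ≤ Real.exp V)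
    (hball : ∀ t : ℝ, |t - t₀| ≤ U → ball (3 + t * Complex.I) (3 - x') ⊆ ball w R)
    (hL : ContinuousOn (fun t : ℝ => L (3 + t * Complex.I)) (Set.Icc (t₀ - U) (t₀ + U)))
    (hLB : ∀ t : ℝ, |t - t₀| ≤ U → F (3 + t * Complex.I) = Complex.exp (L (3 + t * Complex.I)) ∧
      ‖L (3 + t * Complex.I)‖ ≤ B) :
    ∃ G : ℂ → ℂ, DifferentiableOn ℂ G (ball w R) ∧
      (∀ t : ℝ, |t - t₀| ≤ U → G (3 + t * Complex.I) = L (3 + t * Complex.I)) ∧
      ∀ t : ℝ, |t - t₀| ≤ U → ∀ s : ℂ, ‖s - (3 + t * Complex.I)‖ ≤ 3 - x →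
        s ∈ ball w R ∧ ‖G s‖ ≤ B + 6 * (V + B + 1) / (x - x') := by
  have hU' : |t₀ - t₀| ≤ U := by rwa [sub_self, abs_zero]
  have hρ : 0 < 3 - x' := by linarith
  have hmem : ∀ t : ℝ, |t - t₀| ≤ U → (3 + t * Complex.I : ℂ) ∈ ball w R := fun t ht =>
    hball t ht (mem_ball_self hρ)
  have hR : 0 < R := by
    have := hmem t₀ hU'
    exact dist_nonneg.trans_lt (mem_ball.1 this)
  obtain ⟨g, hgd, hg⟩ := logballz_exists hR hF hne
  set h : ℝ → ℂ := fun t => g (3 + t * Complex.I) - L (3 + t * Complex.I) with hh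
  have hIcc : ∀ t ∈ Set.Icc (t₀ - U) (t₀ + U), |t - t₀| ≤ U := fun t ht => by
    rw [abs_le]
    exact ⟨by linarith [ht.1], by linarith [ht.2]⟩
  have hIcc' : ∀ t : ℝ, |t - t₀| ≤ U → t ∈ Set.Icc (t₀ - U) (t₀ + U) := fun t ht => by
    rw [abs_le] at ht
    exact ⟨by linarith [ht.1], by linarith [ht.2]⟩
  have hhc : ContinuousOn h (Set.Icc (t₀ - U) (t₀ + U)) := by
    refine ContinuousOn.sub ?_ hL
    refine hgd.continuousOn.comp (Continuous.continuousOn (by fun_prop)) ?_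
    intro t ht
    exact hmem t (hIcc t ht)
  have hh1 : ∀ t ∈ Set.Icc (t₀ - U) (t₀ + U), Complex.exp (h t) = 1 := by
    intro t ht
    simp only [hh]
    rw [Complex.exp_sub, hg _ (hmem t (hIcc t ht)), (hLB t (hIcc t ht)).1,
      div_self (Complex.exp_ne_zero _)]
  have ht₀ : t₀ ∈ Set.Icc (t₀ - U) (t₀ + U) := ⟨by linarith, by linarith⟩
  refine ⟨fun z => g z - h t₀, hgd.sub_const _, ?_, ?_⟩
  · intro t ht
    have h2 := logballz_const hhc hh1 (hIcc' t ht) ht₀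
    show g (3 + t * Complex.I) - h t₀ = L (3 + t * Complex.I)
    rw [← h2]
    simp only [hh]
    ring
  · intro t hst s hs
    set z₀ : ℂ := 3 + t * Complex.I with hz₀
    have hexpG : ∀ z ∈ ball w R, Complex.exp (g z - h t₀) = F z := by
      intro z hz
      rw [Complex.exp_sub, hg z hz, hh1 t₀ ht₀, div_one]
    have hGz₀ : g z₀ - h t₀ = L z₀ := by
      have h2 := logballz_const hhc hh1 (hIcc' t hst) ht₀
      rw [← h2]
      simp only [hh, hz₀]
      ring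
    have hmemball : s ∈ ball z₀ (3 - x') := by
      rw [mem_ball, dist_eq_norm]
      linarith
    have hsub := hball t hst
    refine ⟨hsub hmemball, ?_⟩
    set φ : ℂ → ℂ := fun z => (g (z₀ + z) - h t₀) - (g z₀ - h t₀) with hφ
    have hmaps : ∀ z ∈ ball (0 : ℂ) (3 - x'), z₀ + z ∈ ball w R := by
      intro z hz
      refine hsub ?_
      rw [mem_ball, dist_eq_norm]
      rw [mem_ball, dist_zero_right] at hz
      rwa [show 3 + (t : ℂ) * Complex.I = z₀ from rfl, add_sub_cancel_left]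
    have hφd : DifferentiableOn ℂ φ (ball 0 (3 - x')) := by
      refine DifferentiableOn.sub_const ?_ _
      refine DifferentiableOn.sub_const ?_ _
      refine hgd.comp (Differentiable.differentiableOn (by fun_prop)) ?_
      intro z hz
      exact hmaps z hz
    have hB0 : 0 ≤ B := (norm_nonneg _).trans (hLB t₀ hU').2
    have hM : 0 < V + B + 1 := by linarith
    have hre : ∀ z ∈ ball w R, (g z - h t₀).re ≤ V := by
      intro z hz
      have h2 := hFV z hz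
      rw [← hexpG z hz, Complex.norm_exp] at h2
      exact Real.exp_le_exp.1 h2
    have hz₀B : ‖g z₀ - h t₀‖ ≤ B := by
      rw [hGz₀]
      exact (hLB t hst).2
    have hφm : Set.MapsTo φ (ball 0 (3 - x')) {z | z.re ≤ V + B + 1} := by
      intro z hz
      show (φ z).re ≤ V + B + 1
      simp only [hφ]
      rw [Complex.sub_re]
      have h2 := hre _ (hmaps z hz)
      have h3 := (neg_le_abs _).trans ((Complex.abs_re_le_norm (g z₀ - h t₀)).trans hz₀B)
      linarith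
    have hz : (s - z₀) ∈ ball (0 : ℂ) (3 - x') := by
      rw [mem_ball, dist_zero_right]
      linarith
    have hBC := Complex.borelCaratheodory_zero hM hφd hφm hρ hz (by simp [hφ])
    have hφs : φ (s - z₀) = (g s - h t₀) - (g z₀ - h t₀) := by
      simp only [hφ]
      rw [add_sub_cancel]
    rw [hφs] at hBC
    have hn0 : 0 ≤ ‖s - z₀‖ := norm_nonneg _
    have h2 : 2 * (V + B + 1) * ‖s - z₀‖ / (3 - x' - ‖s - z₀‖) ≤
        6 * (V + B + 1) / (x - x') := by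
      have h4 : 0 < x - x' := by linarith
      have h5 : x - x' ≤ 3 - x' - ‖s - z₀‖ := by linarith
      calc 2 * (V + B + 1) * ‖s - z₀‖ / (3 - x' - ‖s - z₀‖)
          ≤ 6 * (V + B + 1) / (3 - x' - ‖s - z₀‖) := by
            apply div_le_div_of_nonneg_right _ (by linarith)
            nlinarith
        _ ≤ 6 * (V + B + 1) / (x - x') := by
            apply div_le_div_of_nonneg_left (by positivity) h4 h5
    have h6 : ‖g s - h t₀‖ ≤ ‖(g s - h t₀) - (g z₀ - h t₀)‖ + ‖g z₀ - h t₀‖ := by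
      have := norm_add_le ((g s - h t₀) - (g z₀ - h t₀)) (g z₀ - h t₀)
      rwa [sub_add_cancel] at this
    show ‖g s - h t₀‖ ≤ _
    linarith

theorem sum3 {ι : Type} {lam : ι → ℕ} {τ : ι → ℂ} {B : ℝ} (h : ∀ i, 1 ≤ lam i)
    (hs : Summable (fun i => ‖τ i‖ / (lam i : ℝ) ^ (5 / 2 : ℝ)))
    (hB : ∑' i, ‖τ i‖ / (lam i : ℝ) ^ (5 / 2 : ℝ) ≤ B) :
    Summable (fun i => ‖τ i‖ / (lam i : ℝ) ^ 3) ∧ ∑' i, ‖τ i‖ / (lam i : ℝ) ^ 3 ≤ B := by
  have h1 : ∀ i, ‖τ i‖ / (lam i : ℝ) ^ 3 ≤ ‖τ i‖ / (lam i : ℝ) ^ (5 / 2 : ℝ) := by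
    intro i
    have h2 : (1 : ℝ) ≤ lam i := by exact_mod_cast h i
    have h3 : (lam i : ℝ) ^ (5 / 2 : ℝ) ≤ (lam i : ℝ) ^ 3 := by
      rw [← Real.rpow_natCast]
      exact Real.rpow_le_rpow_of_exponent_le h2 (by norm_num)
    exact div_le_div_of_nonneg_left (norm_nonneg _) (Real.rpow_pos_of_pos (by linarith) _) h3
  have h2 : Summable (fun i => ‖τ i‖ / (lam i : ℝ) ^ 3) :=
    Summable.of_nonneg_of_le (fun i => by positivity) h1 hs
  exact ⟨h2, (h2.tsum_le_tsum h1 hs).trans hB⟩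

end BoxInfoM

open BoxInfoM in
theorem boxInfo (h : S_Taylor) : S_BoxInfo := by
  intro σ₁ x B₀ c₀ hσx hx0 hx3
  obtain ⟨K₄, hK₄, h4⟩ := corez linez rectz dualz
  set B : ℝ := max B₀ 0 with hB
  have hB0 : 0 ≤ B := le_max_right _ _
  set c : ℝ := max c₀ 0 with hc
  have hc0 : 0 ≤ c := le_max_right _ _
  set a : ℝ := max σ₁ 0 with ha
  have hax : a < x := max_lt hσx hx0
  have ha0 : 0 ≤ a := le_max_right _ _
  have haσ : σ₁ ≤ a := le_max_left _ _
  set x' : ℝ := (a + x) / 2 with hx'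
  have hax' : a < x' := by rw [hx']; linarith
  have hx'x : x' < x := by rw [hx']; linarith
  have hxx : 0 < x - x' := by linarith
  have hδ : 0 < x' - a := by linarith
  set C₁ : ℝ := 2 * B + 6 * (B + 2) / (x - x') with hC₁
  have hC₁0 : 0 ≤ C₁ := by positivity
  refine ⟨6 * c + 1, (K₄ * C₁) ^ 2 + C₁ + 1, 1 + (10 + 49 / (x' - a)), by positivity,
    by positivity, ?_⟩
  intro V t₀ N hV hN1 hN ι lam τ hlam hsum52 hB52 F hFd hFb hFp
  have hp : 0 ≤ 10 + 49 / (x' - a) := by positivity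
  have hV1 : 1 ≤ V := by linarith
  have hV0 : 0 < V := by linarith
  have hN' : (N : ℝ) ≤ V ^ c :=
    hN.trans (Real.rpow_le_rpow_of_exponent_le hV1 (le_max_left _ _))
  obtain ⟨hsum, hsumB⟩ := sum3 hlam hsum52 (hB52.trans (le_max_left B₀ 0))
  set U : ℝ := (N : ℝ) ^ 3 with hU
  have hN1' : (1 : ℝ) ≤ N := by exact_mod_cast hN1
  have hU1 : 1 ≤ U := one_le_pow₀ hN1'
  have hU0 : 0 ≤ U := by linarith
  set X : ℝ := 10 + (U + 6) ^ 2 / (x' - a) with hX
  have hXV : X ≤ V ^ (6 * c + 1) := param hc0 hδ hV1 (by linarith) hN'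
  have hbox : ∀ z ∈ Metric.ball ((X : ℂ) + t₀ * Complex.I) (X - a),
      z ∈ box σ₁ t₀ (V ^ (6 * c + 1)) := by
    intro z hz
    obtain ⟨h1, h2⟩ := ball_box hz
    exact ⟨by linarith, by linarith⟩
  have hballs : ∀ t : ℝ, |t - t₀| ≤ U →
      Metric.ball (3 + t * Complex.I) (3 - x') ⊆
        Metric.ball ((X : ℂ) + t₀ * Complex.I) (X - a) := fun t ht =>
    BoxInfoM.ball_sub ha0 hax' (by linarith) hU0 hX ht
  have hline : ∀ t : ℝ, |t - t₀| ≤ U →
      F (3 + t * Complex.I) = Complex.exp (ser lam τ (3 + t * Complex.I)) ∧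
      ‖ser lam τ (3 + t * Complex.I)‖ ≤ B := by
    intro t ht
    have hin : (3 + (t : ℂ) * Complex.I) ∈
        Metric.ball ((X : ℂ) + t₀ * Complex.I) (X - a) :=
      hballs t ht (Metric.mem_ball_self (by linarith))
    have hin2 := (hbox _ hin).2
    have him : (3 + (t : ℂ) * Complex.I).im = t := by simp
    rw [him] at hin2
    exact ⟨hFp t hin2, (ser_bound hlam hsum t).trans hsumB⟩
  obtain ⟨G, hGd, hGL, hGb⟩ := logball2 F (ser lam τ) ((X : ℂ) + t₀ * Complex.I)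
    (X - a) x x' U V B t₀ hx'x hx3 (by linarith) hU0 hV0.le
    (hFd.mono hbox)
    (fun z hz => (hFb z (hbox z hz)).2)
    (fun z hz => (hFb z (hbox z hz)).1)
    hballs (ser_cont hlam hsum).continuousOn hline
  have hC : B + 6 * (V + B + 1) / (x - x') + B ≤ C₁ * V := by
    have h1 : 6 * (V + B + 1) / (x - x') ≤ 6 * (B + 2) / (x - x') * V := by
      rw [div_mul_eq_mul_div]
      refine div_le_div_of_nonneg_right ?_ hxx.le
      nlinarith
    have h2 : 2 * B ≤ 2 * B * V := by nlinarith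
    rw [hC₁, add_mul]
    linarith
  have hrect : ∀ s ∈ rect N x t₀, s ∈ Metric.ball ((X : ℂ) + t₀ * Complex.I) (X - a) ∧
      ‖G s‖ ≤ B + 6 * (V + B + 1) / (x - x') := by
    intro s hs
    obtain ⟨hs1, hs2, hs3⟩ := hs
    refine hGb s.im hs3 s ?_
    have hsz : s - (3 + (s.im : ℂ) * Complex.I) = ((s.re - 3 : ℝ) : ℂ) := by
      apply Complex.ext
      · simp
      · simp
    rw [hsz, Complex.norm_real, Real.norm_eq_abs, abs_sub_comm, abs_of_nonneg (by linarith)]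
    linarith
  constructor
  · intro S hS
    have hmain := h4 ι lam τ B hlam hsum hsumB G x (B + 6 * (V + B + 1) / (x - x')) t₀ N S hx0 hx3
      hN1 (hGd.mono fun s hs => (hrect s hs).1) (fun s hs => (hrect s hs).2) hGL hS
    refine hmain.trans ?_
    have h1 : (K₄ * (B + 6 * (V + B + 1) / (x - x') + B)) ^ 2 ≤ (K₄ * (C₁ * V)) ^ 2 := by
      refine pow_le_pow_left₀ (by positivity) ?_ 2
      exact mul_le_mul_of_nonneg_left hC hK₄
    have h2 : (K₄ * (C₁ * V)) ^ 2 = (K₄ * C₁) ^ 2 * V ^ 2 := by ring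
    have h3 : 0 ≤ (C₁ + 1) * V ^ 2 := by positivity
    rw [h2] at h1
    linarith
  · intro k
    have hz : ∀ z ∈ Metric.ball ((3 : ℂ) + t₀ * Complex.I) (3 - x),
        z ∈ Metric.ball ((X : ℂ) + t₀ * Complex.I) (X - a) ∧
        ‖G z‖ ≤ B + 6 * (V + B + 1) / (x - x') := by
      intro z hz
      refine hGb t₀ (by rw [sub_self, abs_zero]; exact hU0) z ?_
      rw [Metric.mem_ball, dist_eq_norm] at hz
      exact hz.le
    have h1 := h ι lam τ hlam hsum52 G t₀ U (3 - x) (B + 6 * (V + B + 1) / (x - x'))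
      (by linarith) (by linarith) (hGd.mono fun z hz' => (hz z hz').1)
      (fun z hz' => (hz z hz').2) hGL k
    refine h1.trans (div_le_div_of_nonneg_right ?_ (pow_nonneg (by linarith) k))
    have h2 : 0 ≤ ((K₄ * C₁) ^ 2 + 1) * V := by positivity
    nlinarith

end MP7ed9c3.Tz
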