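import Pool.Agent.Lib.MP_7ed9c3_nt.Tz.SpecL

/-!
# MP_7ed9c3_nt, part Tz, L7: mean values of the quadratic characters
-/

set_option autoImplicit false

namespace MP7ed9c3.Tz

open NumberField IsDedekindDomain Filter Topology MP7ed9c3.Tw MP7ed9c3.Zs

namespace ChiMeanM

open Classical in
/-- The quadratic character, with real values, of a ring. -/
noncomputable def cf (F : Type) [CommRing F] (g : F) : ℝ :=
  if g = 0 then 0 else if IsSquare g then 1 else -1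

theorem cf_eq (F : Type) [Field F] [Fintype F] [DecidableEq F] (g : F) :
    cf F g = ((quadraticChar F g : ℤ) : ℝ) := by
  unfold cf
  rw [quadraticChar_apply, quadraticCharFun]
  by_cases h0 : g = 0
  · simp [h0]
  · rw [if_neg h0, if_neg h0]
    by_cases hs : IsSquare g
    · simp [hs]
    · simp [hs]

theorem cf_sum (F : Type) [Field F] [Fintype F] (h2 : (2 : F) ≠ 0) : ∑ g, cf F g = 0 := by
  classical
  have h3 : ringChar F ≠ 2 := by
    intro h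
    apply h2
    have h4 := ringChar.Nat.cast_ringChar (R := F)
    rw [h] at h4
    exact_mod_cast h4
  rw [Finset.sum_congr rfl fun g _ => cf_eq F g, ← Int.cast_sum, quadraticChar_sum_zero h3,
    Int.cast_zero]

theorem cf_sq (F : Type) [Field F] [Fintype F] :
    ∑ g, cf F g ^ 2 = (Fintype.card F : ℝ) - 1 := by
  classical
  have h1 : ∀ g : F, cf F g ^ 2 = 1 - (if g = 0 then 1 else 0) := by
    intro g
    unfold cf
    by_cases h0 : g = 0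
    · simp [h0]
    · by_cases hs : IsSquare g
      · simp [h0, hs]
      · simp [h0, hs]
  rw [Finset.sum_congr rfl fun g _ => h1 g, Finset.sum_sub_distrib]
  simp

theorem chiv_eq {K : Type} [Field K] [NumberField K] (v : HeightOneSpectrum (𝓞 K)) (d : 𝓞 K) :
    chiv d v = cf (𝓞 K ⧸ v.asIdeal) (Ideal.Quotient.mk v.asIdeal d) := by
  unfold chiv cf
  by_cases h : d ∈ v.asIdeal
  · rw [if_pos h, if_pos (Ideal.Quotient.eq_zero_iff_mem.mpr h)]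
  · rw [if_neg h, if_neg fun h0 => h (Ideal.Quotient.eq_zero_iff_mem.mp h0)]

/-- `pt` as a homomorphism. -/
noncomputable def ptH (K : Type) [Field K] [NumberField K] : (Ix K → ℤ) →+ 𝓞 K :=
  AddMonoidHom.mk' pt (by
    intro a b
    unfold pt
    rw [← Finset.sum_add_distrib]
    exact Finset.sum_congr rfl fun i _ => by rw [Pi.add_apply, add_smul])

theorem ptH_surj (K : Type) [Field K] [NumberField K] : Function.Surjective (ptH K) := by
  intro x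
  refine ⟨fun i => (RingOfIntegers.basis K).repr x i, ?_⟩
  change pt _ = x
  unfold pt
  exact (RingOfIntegers.basis K).sum_repr x

theorem mem_of_Ov {K : Type} [Field K] [NumberField K] {p : ℕ} {v : HeightOneSpectrum (𝓞 K)}
    (hv : v ∈ Ov K p) : ((p : ℕ) : 𝓞 K) ∈ v.asIdeal := by
  classical
  unfold Ov at hv
  split_ifs at hv with h
  · exact h.mem_toFinset.1 hv
  · exact absurd hv (Finset.notMem_empty v)

theorem smul_zero' {K : Type} [Field K] [NumberField K] {p : ℕ} {v : HeightOneSpectrum (𝓞 K)}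
    (hv : ((p : ℕ) : 𝓞 K) ∈ v.asIdeal) (g : 𝓞 K ⧸ v.asIdeal) : p • g = 0 := by
  obtain ⟨x, rfl⟩ := Ideal.Quotient.mk_surjective g
  rw [← map_nsmul, nsmul_eq_mul]
  exact Ideal.Quotient.eq_zero_iff_mem.mpr (v.asIdeal.mul_mem_right _ hv)

theorem two_ne {K : Type} [Field K] [NumberField K] {p : ℕ} (hp : p.Prime) (h2 : 2 < p)
    {v : HeightOneSpectrum (𝓞 K)} (hv : ((p : ℕ) : 𝓞 K) ∈ v.asIdeal) :
    (2 : 𝓞 K ⧸ v.asIdeal) ≠ 0 := by
  intro h0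
  have h3 : (2 : 𝓞 K) ∈ v.asIdeal := by
    refine Ideal.Quotient.eq_zero_iff_mem.mp ?_
    rw [map_ofNat]
    exact h0
  obtain ⟨k, hk⟩ := hp.odd_of_ne_two (by omega)
  have h4 : (1 : 𝓞 K) = ((p : ℕ) : 𝓞 K) - (k : 𝓞 K) * 2 := by
    rw [hk]
    push_cast
    ring
  apply v.isPrime.ne_top
  rw [Ideal.eq_top_iff_one, h4]
  exact v.asIdeal.sub_mem hv (v.asIdeal.mul_mem_left _ h3)

theorem surj2 {K : Type} [Field K] [NumberField K] {v w : HeightOneSpectrum (𝓞 K)}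
    (hvw : w ≠ v) (x y : 𝓞 K) : ∃ z : 𝓞 K,
      Ideal.Quotient.mk v.asIdeal z = Ideal.Quotient.mk v.asIdeal x ∧
      Ideal.Quotient.mk w.asIdeal z = Ideal.Quotient.mk w.asIdeal y := by
  have h1 : v.asIdeal ⊔ w.asIdeal = ⊤ :=
    Ideal.IsMaximal.coprime_of_ne v.isMaximal w.isMaximal
      fun h => hvw (HeightOneSpectrum.ext h.symm)
  obtain ⟨a, ha, b, hb, hab⟩ := Submodule.mem_sup.1
    (show (1 : 𝓞 K) ∈ v.asIdeal ⊔ w.asIdeal by rw [h1]; trivial)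
  refine ⟨x * b + y * a, ?_, ?_⟩
  · rw [Ideal.Quotient.mk_eq_mk_iff_sub_mem]
    have h2 : x * b + y * a - x = (y - x) * a := by
      linear_combination (x) * hab
    rw [h2]
    exact v.asIdeal.mul_mem_left _ ha
  · rw [Ideal.Quotient.mk_eq_mk_iff_sub_mem]
    have h2 : x * b + y * a - y = (x - y) * b := by
      linear_combination (y) * hab
    rw [h2]
    exact w.asIdeal.mul_mem_left _ hb

end ChiMeanM

open ChiMeanM in
theorem chiMean (h : S_Hom) : S_ChiMean := by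
  classical
  intro K _ _ p hp hp2 v hv
  have hpv := mem_of_Ov hv
  let _ : Field (𝓞 K ⧸ v.asIdeal) := Ideal.Quotient.field v.asIdeal
  have : Finite (𝓞 K ⧸ v.asIdeal) := Ideal.finiteQuotientOfFreeOfNeBot v.asIdeal v.ne_bot
  let _ : Fintype (𝓞 K ⧸ v.asIdeal) := Fintype.ofFinite _
  let φ : (Ix K → ℤ) →+ 𝓞 K ⧸ v.asIdeal :=
    (Ideal.Quotient.mk v.asIdeal).toAddMonoidHom.comp (ptH K)
  have hφ : Function.Surjective φ := fun g => by
    obtain ⟨x, rfl⟩ := Ideal.Quotient.mk_surjective g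
    obtain ⟨a, rfl⟩ := ptH_surj K x
    exact ⟨a, rfl⟩
  have e1 : (fun a : Ix K → ℤ => chiv (pt a) v) = fun a => cf (𝓞 K ⧸ v.asIdeal) (φ a) :=
    funext fun a => chiv_eq v (pt a)
  have e2 : (fun a : Ix K → ℤ => chiv (pt a) v ^ 2) =
      fun a => (fun g => cf (𝓞 K ⧸ v.asIdeal) g ^ 2) (φ a) :=
    funext fun a => by rw [chiv_eq v (pt a)]; rfl
  obtain ⟨h1, h2⟩ := h (Ix K) (𝓞 K ⧸ v.asIdeal) φ p (cf (𝓞 K ⧸ v.asIdeal)) hφ hp.pos
    (smul_zero' hpv)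
  obtain ⟨-, h3⟩ := h (Ix K) (𝓞 K ⧸ v.asIdeal) φ p (fun g => cf (𝓞 K ⧸ v.asIdeal) g ^ 2) hφ
    hp.pos (smul_zero' hpv)
  have hsum : ∑ g : 𝓞 K ⧸ v.asIdeal, cf (𝓞 K ⧸ v.asIdeal) g = 0 :=
    cf_sum (𝓞 K ⧸ v.asIdeal) (two_ne hp hp2 hpv)
  have hsq : ∑ g : 𝓞 K ⧸ v.asIdeal, cf (𝓞 K ⧸ v.asIdeal) g ^ 2 =
      (Fintype.card (𝓞 K ⧸ v.asIdeal) : ℝ) - 1 := cf_sq (𝓞 K ⧸ v.asIdeal)
  refine ⟨?_, ?_, ?_, ?_⟩
  · rw [e1]
    exact h1
  · rw [e1, h2, hsum, zero_div]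
  · rw [e2, h3, hsq]
    have h4 : (2 : ℝ) ≤ Fintype.card (𝓞 K ⧸ v.asIdeal) := by
      exact_mod_cast Fintype.one_lt_card (α := 𝓞 K ⧸ v.asIdeal)
    rw [div_le_div_iff₀ (by norm_num) (by linarith)]
    linarith
  · intro w hw hwv
    have hpw := mem_of_Ov hw
    have : Finite (𝓞 K ⧸ w.asIdeal) := Ideal.finiteQuotientOfFreeOfNeBot w.asIdeal w.ne_bot
    let _ : Fintype (𝓞 K ⧸ w.asIdeal) := Fintype.ofFinite _
    let ψ : (Ix K → ℤ) →+ 𝓞 K ⧸ w.asIdeal :=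
      (Ideal.Quotient.mk w.asIdeal).toAddMonoidHom.comp (ptH K)
    have hs : Function.Surjective (φ.prod ψ) := by
      rintro ⟨g, g'⟩
      obtain ⟨x, rfl⟩ := Ideal.Quotient.mk_surjective g
      obtain ⟨y, rfl⟩ := Ideal.Quotient.mk_surjective g'
      obtain ⟨z, hz1, hz2⟩ := surj2 hwv x y
      obtain ⟨a, rfl⟩ := ptH_surj K z
      exact ⟨a, Prod.ext hz1 hz2⟩
    have e3 : (fun a : Ix K → ℤ => chiv (pt a) v * chiv (pt a) w) =
        fun a => (fun g : (𝓞 K ⧸ v.asIdeal) × (𝓞 K ⧸ w.asIdeal) =>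
          cf (𝓞 K ⧸ v.asIdeal) g.1 * cf (𝓞 K ⧸ w.asIdeal) g.2) (φ.prod ψ a) :=
      funext fun a => by rw [chiv_eq v (pt a), chiv_eq w (pt a)]; rfl
    obtain ⟨-, h5⟩ := h (Ix K) ((𝓞 K ⧸ v.asIdeal) × (𝓞 K ⧸ w.asIdeal)) (φ.prod ψ) p
      (fun g => cf (𝓞 K ⧸ v.asIdeal) g.1 * cf (𝓞 K ⧸ w.asIdeal) g.2) hs hp.pos
      (fun g => Prod.ext (smul_zero' hpv g.1) (smul_zero' hpw g.2))
    rw [e3, h5, Fintype.sum_prod_type]
    have h6 : ∀ x : 𝓞 K ⧸ v.asIdeal, ∑ y : 𝓞 K ⧸ w.asIdeal,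
        cf (𝓞 K ⧸ v.asIdeal) x * cf (𝓞 K ⧸ w.asIdeal) y =
        cf (𝓞 K ⧸ v.asIdeal) x * ∑ y : 𝓞 K ⧸ w.asIdeal, cf (𝓞 K ⧸ w.asIdeal) y :=
      fun x => by rw [Finset.mul_sum]
    rw [Finset.sum_congr rfl fun x _ => h6 x, ← Finset.sum_mul, hsum, zero_mul, zero_div]

end MP7ed9c3.Tz
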