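import Pool.Agent.Lib.MP_7ed9c3_nt.Tz.SpecL
import Pool.Agent.Lib.MP_7ed9c3_nt.Zs.Coef
import Pool.Agent.Lib.MP_7ed9c3_nt.Zs.Over

/-!
# MP_7ed9c3_nt, part Tz: the coefficient at a prime
-/

set_option autoImplicit false

namespace MP7ed9c3.Tz.CoefPM

open NumberField IsDedekindDomain Filter Topology MP7ed9c3.Tw MP7ed9c3.Zs

theorem mem_D1 {K : Type} [Field K] [NumberField K] {m : ℕ} {v : HeightOneSpectrum (𝓞 K)} :
    v ∈ D1 K m ↔ nm v = m := by
  rw [D1, Set.Finite.mem_toFinset]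
  rfl

theorem main {K : Type} [Field K] [NumberField K] (α β : HeightOneSpectrum (𝓞 K) → ℂ) {p : ℕ}
    (hp : p.Prime) : coef (lamE K) (tauE α β) p = ∑ v ∈ D1 K p, (α v + β v) := by
  classical
  obtain ⟨s, f, hover, -, -⟩ := overz K p hp
  have h1 := coefz K α β p hp s f hover 1 le_rfl
  rw [pow_one, Nat.cast_one, div_one] at h1
  rw [h1, psum]
  obtain ⟨hf, hall⟩ := hover
  have hset : D1 K p = s.filter fun v => f v ∣ 1 := by
    ext v
    rw [mem_D1, Finset.mem_filter, Nat.dvd_one]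
    constructor
    · intro hv
      have hvs : v ∈ s := hall v 1 (by rw [hv, pow_one])
      refine ⟨hvs, ?_⟩
      have h2 := (hf v hvs).2
      rw [hv] at h2
      exact (Nat.pow_right_injective hp.two_le (by simpa using h2)).symm
    · rintro ⟨hvs, hv⟩
      rw [(hf v hvs).2, hv, pow_one]
  rw [hset, Finset.sum_filter]
  refine Finset.sum_congr rfl fun v _ => ?_
  by_cases hv : f v ∣ 1
  · rw [if_pos hv, if_pos hv, Nat.dvd_one.1 hv]
    simp
  · rw [if_neg hv, if_neg hv]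

end MP7ed9c3.Tz.CoefPM

namespace MP7ed9c3.Tz

/-- **L10.** -/
theorem coefP : S_CoefP := by
  intro K _ _ α β p hp
  exact CoefPM.main α β hp

end MP7ed9c3.Tz
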