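import Pool.Agent.Lib.MP_7ed9c3_nt.Tz.SpecL

/-!
# MP_7ed9c3_nt, part Tz, L1: coordinates
-/

set_option autoImplicit false

namespace MP7ed9c3.Tz

open NumberField IsDedekindDomain Filter Topology MP7ed9c3.Tw MP7ed9c3.Zs

namespace CoordM

variable (K : Type) [Field K] [NumberField K]

/-- the dual basis of the integral basis for the trace form -/
noncomputable def db : Module.Basis (Ix K) ℚ K :=
  (Algebra.traceForm ℚ K).dualBasis (traceForm_nondegenerate ℚ K) (integralBasis K)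

theorem pt_eq (a : Ix K → ℤ) :
    (RingOfIntegers.basis K).equivFun.symm a = (pt a : 𝓞 K) := by
  rw [Module.Basis.equivFun_symm_apply]
  rfl

theorem repr_pt (a : Ix K → ℤ) (i : Ix K) : (RingOfIntegers.basis K).repr (pt a) i = a i := by
  rw [← pt_eq, ← Module.Basis.equivFun_apply, LinearEquiv.apply_symm_apply]

/-- a coordinate as a trace -/
theorem coord_trace (a : Ix K → ℤ) (i : Ix K) :
    (a i : ℚ) = Algebra.trace ℚ K (((pt a : 𝓞 K) : K) * db K i) := by
  have hsymm : (Algebra.traceForm ℚ K).IsSymm := Algebra.traceForm_isSymm ℚ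
  have h1 : ((Algebra.traceForm ℚ K).dualBasis (traceForm_nondegenerate ℚ K) (db K)).repr
      ((pt a : 𝓞 K) : K) i = Algebra.traceForm ℚ K ((pt a : 𝓞 K) : K) (db K i) :=
    LinearMap.BilinForm.dualBasis_repr_apply _ _ _ _
  have h2 : (Algebra.traceForm ℚ K).dualBasis (traceForm_nondegenerate ℚ K) (db K) =
      integralBasis K := LinearMap.BilinForm.dualBasis_dualBasis _ hsymm _
  rw [h2] at h1
  have h3 : (integralBasis K).repr ((pt a : 𝓞 K) : K) i =
      (algebraMap ℤ ℚ) ((RingOfIntegers.basis K).repr (pt a) i) :=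
    integralBasis_repr_apply K (pt a) i
  rw [h3, repr_pt] at h1
  rw [Algebra.traceForm_apply] at h1
  exact h1

/-- a coordinate as a sum over the embeddings -/
theorem coord_sum (a : Ix K → ℤ) (i : Ix K) :
    (a i : ℂ) = ∑ σ : K →ₐ[ℚ] ℂ, σ ((pt a : 𝓞 K) : K) * σ (db K i) := by
  have h1 := trace_eq_sum_embeddings (K := ℚ) (L := K) ℂ (x := ((pt a : 𝓞 K) : K) * db K i)
  rw [← coord_trace K a i] at h1
  simp only [map_mul] at h1
  rw [← h1]
  simp

end CoordM

open CoordM in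
theorem coord : S_Coord := by
  intro K _ _
  refine ⟨?_, ?_, ?_⟩
  · rw [← RingOfIntegers.rank K]
    exact (Module.finrank_eq_card_chooseBasisIndex ℤ (𝓞 K)).symm
  · intro d
    refine ⟨(RingOfIntegers.basis K).equivFun d, ?_, ?_⟩
    · show (pt _ : 𝓞 K) = d
      rw [← pt_eq, LinearEquiv.symm_apply_apply]
    · intro b hb
      rw [← hb, ← pt_eq, LinearEquiv.apply_symm_apply]
  · have hpos : ∀ i, 0 ≤ ∑ σ : K →ₐ[ℚ] ℂ, ‖σ (db K i)‖ := fun i =>
      Finset.sum_nonneg fun _ _ => norm_nonneg _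
    refine ⟨1 + ∑ i : Ix K, ∑ σ : K →ₐ[ℚ] ℂ, ‖σ (db K i)‖, ?_, ?_⟩
    · have := Finset.sum_nonneg (s := (Finset.univ : Finset (Ix K))) fun i _ => hpos i
      linarith
    · intro a Y hY i
      obtain ⟨φ⟩ : Nonempty (K →+* ℂ) := inferInstance
      have hY0 : 0 ≤ Y := (norm_nonneg _).trans (hY φ)
      have h1 : |(a i : ℝ)| = ‖(a i : ℂ)‖ := by
        rw [Complex.norm_intCast]
      have h2 : ‖(a i : ℂ)‖ ≤ ∑ σ : K →ₐ[ℚ] ℂ, Y * ‖σ (db K i)‖ := by
        rw [coord_sum K a i]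
        refine (norm_sum_le _ _).trans (Finset.sum_le_sum fun σ _ => ?_)
        rw [norm_mul]
        exact mul_le_mul_of_nonneg_right (hY (σ : K →+* ℂ)) (norm_nonneg _)
      have h3 : ∑ σ : K →ₐ[ℚ] ℂ, ‖σ (db K i)‖ ≤
          1 + ∑ i : Ix K, ∑ σ : K →ₐ[ℚ] ℂ, ‖σ (db K i)‖ := by
        have := Finset.single_le_sum (s := (Finset.univ : Finset (Ix K)))
          (f := fun i => ∑ σ : K →ₐ[ℚ] ℂ, ‖σ (db K i)‖) (fun i _ => hpos i) (Finset.mem_univ i)
        linarith
      rw [h1]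
      refine h2.trans ?_
      rw [← Finset.mul_sum, mul_comm]
      exact mul_le_mul_of_nonneg_right h3 hY0

end MP7ed9c3.Tz
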