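import Pool.Agent.Lib.MP_7ed9c3_nt.Tz.SpecZ

/-!
# MP_7ed9c3_nt, part Tz.  Z2, almost all curves

Proof of `S_Curves` from `S_MSCurve`, `S_Dich`, `S_DegOne`, `S_TrMean`, `S_Coord`, `S_Prim`.
-/

set_option autoImplicit false

namespace MP7ed9c3.Tz

open NumberField IsDedekindDomain Filter Topology MP7ed9c3.Tw MP7ed9c3.Zs

namespace CurvesM

theorem box_mono {σ₁ t₀ H H' : ℝ} (h : H' ≤ H) : box σ₁ t₀ H' ⊆ box σ₁ t₀ H :=
  fun _ hs => ⟨hs.1, lt_of_lt_of_le hs.2 h⟩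

theorem zeroFree_mono {K : Type} [Field K] [NumberField K] {E : WeierstrassCurve K}
    {σ₁ t₀ H H' V : ℝ} (h : H' ≤ H) (hz : ZeroFree E σ₁ t₀ H V) : ZeroFree E σ₁ t₀ H' V := by
  obtain ⟨M, F, hM, hF, hb, he⟩ := hz
  exact ⟨M, F, hM, hF.mono (box_mono h), fun s hs => hb s (box_mono h hs),
    fun s hs => he s (box_mono h hs)⟩

theorem mean_sum {ι : Type} [Fintype ι] {J : Type} (s : Finset J) (p : ℕ)
    (f : J → (ι → ℤ) → ℝ) :
    mean p (fun a => ∑ j ∈ s, f j a) = ∑ j ∈ s, mean p (f j) := by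
  classical
  unfold mean
  rw [Finset.sum_comm, Finset.sum_div]

theorem mean_sq {K : Type} [Field K] [NumberField K] (h4 : S_TrMean) {p : ℕ} (hp : p.Prime)
    (h3 : 3 < p) :
    mean p (fun a : Ix K ⊕ Ix K → ℤ => (∑ v ∈ D1 K p, trp v a) ^ 2) =
      ((D1 K p).card : ℝ) * ((p : ℝ) - 1) := by
  classical
  have e : (fun a : Ix K ⊕ Ix K → ℤ => (∑ v ∈ D1 K p, trp v a) ^ 2) =
      fun a => ∑ v ∈ D1 K p, ∑ w ∈ D1 K p, trp v a * trp w a := by
    funext a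
    rw [sq, Finset.sum_mul_sum]
  rw [e, mean_sum]
  have e2 : ∀ v ∈ D1 K p,
      mean p (fun a : Ix K ⊕ Ix K → ℤ => ∑ w ∈ D1 K p, trp v a * trp w a) = (p : ℝ) - 1 := by
    intro v hv
    rw [mean_sum]
    obtain ⟨-, -, h5, h6⟩ := h4 K p hp h3 v hv
    rw [Finset.sum_eq_single_of_mem v hv (fun w hw hwv => h6 w hw hwv), ← h5]
    congr 1
    funext a
    ring
  rw [Finset.sum_congr rfl e2, Finset.sum_const, nsmul_eq_mul]

theorem growth {c' C : ℝ} (hc : 0 < c') (hC : 0 < C) (N₀ : ℕ) :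
    ∃ V₀ : ℝ, 1 ≤ V₀ ∧ ∀ V : ℝ, V₀ ≤ V → N₀ ≤ ⌊V ^ (3 / c' + 1)⌋₊ ∧ 1 ≤ ⌊V ^ (3 / c' + 1)⌋₊ ∧
      4 * C * V ^ 2 < ((⌊V ^ (3 / c' + 1)⌋₊ : ℕ) : ℝ) ^ c' := by
  refine ⟨max (max 1 (2 * N₀)) (4 * C * 2 ^ c' + 1),
    le_trans (le_max_left _ _) (le_max_left _ _), fun V hV => ?_⟩
  have hV1 : 1 ≤ V := le_trans (le_trans (le_max_left _ _) (le_max_left _ _)) hV
  have hV2 : 2 * (N₀ : ℝ) ≤ V := le_trans (le_trans (le_max_right _ _) (le_max_left _ _)) hV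
  have hV3 : 4 * C * 2 ^ c' + 1 ≤ V := le_trans (le_max_right _ _) hV
  have hV0 : 0 < V := by linarith
  have h3c : 0 < 3 / c' := by positivity
  have hVc : V ≤ V ^ (3 / c' + 1) := by
    calc V = V ^ (1 : ℝ) := (Real.rpow_one V).symm
      _ ≤ V ^ (3 / c' + 1) := Real.rpow_le_rpow_of_exponent_le hV1 (by linarith)
  have hone : 1 ≤ ⌊V ^ (3 / c' + 1)⌋₊ := by
    rw [Nat.one_le_floor_iff]
    linarith
  have hfl : V ^ (3 / c' + 1) / 2 ≤ (⌊V ^ (3 / c' + 1)⌋₊ : ℝ) := by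
    have e1 := Nat.lt_floor_add_one (V ^ (3 / c' + 1))
    have e2 : (1 : ℝ) ≤ ⌊V ^ (3 / c' + 1)⌋₊ := by exact_mod_cast hone
    linarith
  refine ⟨?_, hone, ?_⟩
  · have : (N₀ : ℝ) ≤ ⌊V ^ (3 / c' + 1)⌋₊ := by linarith
    exact_mod_cast this
  · have h2c : (0 : ℝ) < 2 ^ c' := Real.rpow_pos_of_pos (by norm_num) _
    have e3 : 4 * C * V ^ 2 < V ^ 3 / 2 ^ c' := by
      rw [lt_div_iff₀ h2c]
      have e4 : 4 * C * 2 ^ c' < V := by linarith
      have e5 : 0 < V ^ 2 := by positivity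
      nlinarith
    have e6 : V ^ 3 / 2 ^ c' ≤ (V ^ (3 / c' + 1) / 2) ^ c' := by
      rw [Real.div_rpow (Real.rpow_nonneg hV0.le _) (by norm_num), ← Real.rpow_mul hV0.le]
      refine div_le_div_of_nonneg_right ?_ h2c.le
      have e7 : (3 / c' + 1) * c' = 3 + c' := by
        field_simp
      rw [e7, ← Real.rpow_natCast V 3]
      refine Real.rpow_le_rpow_of_exponent_le hV1 ?_
      push_cast
      linarith
    calc 4 * C * V ^ 2 < V ^ 3 / 2 ^ c' := e3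
      _ ≤ (V ^ (3 / c' + 1) / 2) ^ c' := e6
      _ ≤ _ := Real.rpow_le_rpow (by positivity) hfl hc.le

/-- The second alternative of `S_Dich` is impossible. -/
theorem lower {K : Type} [Field K] [NumberField K] (h4 : S_TrMean) {x c' : ℝ} {N : ℕ}
    (hdeg : (N : ℝ) ^ c' ≤ ∑ p ∈ pr 3 N, ((D1 K p).card : ℝ) * (p : ℝ) ^ (1 - 2 * x)) :
    (N : ℝ) ^ c' / 2 ≤ ∑ p ∈ pr 3 N, (p : ℝ) ^ (-(2 * x)) *
      mean p (fun a : Ix K ⊕ Ix K → ℤ => (∑ v ∈ D1 K p, trp v a) ^ 2) := by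
  calc (N : ℝ) ^ c' / 2
      ≤ (∑ p ∈ pr 3 N, ((D1 K p).card : ℝ) * (p : ℝ) ^ (1 - 2 * x)) / 2 := by linarith
    _ = ∑ p ∈ pr 3 N, ((D1 K p).card : ℝ) * (p : ℝ) ^ (1 - 2 * x) / 2 := Finset.sum_div _ _ _
    _ ≤ _ := by
      refine Finset.sum_le_sum fun p hp => ?_
      unfold pr at hp
      rw [Finset.mem_filter, Finset.mem_Ioc] at hp
      obtain ⟨⟨hp3, -⟩, hpp⟩ := hp
      rw [mean_sq h4 hpp hp3]
      have hp3' : (3 : ℝ) < p := by exact_mod_cast hp3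
      have hp0 : (0 : ℝ) < p := by linarith
      have e1 : (p : ℝ) ^ (1 - 2 * x) = (p : ℝ) ^ (-(2 * x)) * p := by
        rw [show (1 : ℝ) - 2 * x = -(2 * x) + 1 by ring, Real.rpow_add hp0, Real.rpow_one]
      rw [e1]
      have e2 : (0 : ℝ) ≤ (p : ℝ) ^ (-(2 * x)) := Real.rpow_nonneg hp0.le _
      have e3 : (0 : ℝ) ≤ ((D1 K p).card : ℝ) := Nat.cast_nonneg _
      have e4 : (0 : ℝ) ≤ ((D1 K p).card : ℝ) * (p : ℝ) ^ (-(2 * x)) := mul_nonneg e3 e2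
      nlinarith

end CurvesM

/-- **Z2, almost all curves.** -/
theorem curves (h1 : S_MSCurve) (h2 : S_Dich) (h3 : S_DegOne) (h4 : S_TrMean) (h5 : S_Coord)
    (h6 : S_Prim) : S_Curves := by
  intro K _ _ σ₁ hσ
  classical
  obtain ⟨hcard, hex, C₁, hC₁, hbd⟩ := h5 K
  haveI : Nonempty (Ix K) :=
    Fintype.card_pos_iff.1 (by rw [hcard]; exact Module.finrank_pos)
  obtain ⟨x, hx1, hx2, hx3⟩ : ∃ x : ℝ, σ₁ < x ∧ 7 / 8 ≤ x ∧ x < 1 :=
    ⟨max ((1 + σ₁) / 2) (7 / 8), lt_of_lt_of_le (by linarith) (le_max_left _ _),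
      le_max_right _ _, max_lt (by linarith) (by norm_num)⟩
  obtain ⟨c', N₀, hc', hdeg⟩ := h3 K x 3 hx2 hx3
  obtain ⟨κ₁, C, V₁, hκ₁, hC, hms⟩ := h1 K σ₁ x (3 / c' + 1) hx1 hx2 hx3
  obtain ⟨κ₂, δ, V₂, hκ₂, hδ, hdich⟩ := h2 (Ix K ⊕ Ix K) C₁ (3 / c' + 1) x
    (2 * (Module.finrank ℚ K : ℝ)) C (by linarith) hC (by positivity)
  obtain ⟨V₃, hV₃1, hV₃⟩ := CurvesM.growth hc' hC N₀
  refine ⟨max κ₁ κ₂, δ, max (max V₁ V₂) V₃, hδ, ?_⟩
  intro V Y hV hY hVY S hS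
  have hV1 : V₁ ≤ V := le_trans (le_trans (le_max_left _ _) (le_max_left _ _)) hV
  have hV2 : V₂ ≤ V := le_trans (le_trans (le_max_right _ _) (le_max_left _ _)) hV
  have hV3 : V₃ ≤ V := le_trans (le_max_right _ _) hV
  have hVone : 1 ≤ V := le_trans hV₃1 hV3
  have hY1 : 1 ≤ Y :=
    le_trans (Real.one_le_rpow hVone (le_trans hκ₁.le (le_max_left _ _))) hVY
  obtain ⟨g1, g2, g3⟩ := hV₃ V hV3
  obtain ⟨N, hN⟩ : ∃ N : ℕ, N = ⌊V ^ (3 / c' + 1)⌋₊ := ⟨_, rfl⟩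
  rw [← hN] at g1 g2 g3
  have hNle : (N : ℝ) ≤ V ^ (3 / c' + 1) := by
    rw [hN]
    exact Nat.floor_le (Real.rpow_nonneg (by linarith) _)
  choose co hco using fun d => (hex d).exists
  let emb : 𝓞 K × 𝓞 K → (Ix K ⊕ Ix K → ℤ) := fun z => Sum.elim (co z.1) (co z.2)
  have hemb : Function.Injective emb := by
    intro z w hzw
    have e1 : co z.1 = co w.1 := by
      funext i
      exact congrFun hzw (Sum.inl i)
    have e2 : co z.2 = co w.2 := by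
      funext i
      exact congrFun hzw (Sum.inr i)
    exact Prod.ext (by rw [← hco z.1, e1, hco]) (by rw [← hco z.2, e2, hco])
  have key := hdich V Y N hV2 hY
    (le_trans (Real.rpow_le_rpow_of_exponent_le hVone (le_max_right _ _)) hVY) hNle (pr 3 N)
    (fun p a => ∑ v ∈ D1 K p, trp v a) ?_ (S.image emb) ?_
  · rcases key with key | key
    · rw [Finset.card_image_of_injective _ hemb] at key
      have e : ((Fintype.card (Ix K ⊕ Ix K) : ℕ) : ℝ) = 2 * (Module.finrank ℚ K : ℝ) := by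
        rw [Fintype.card_sum, hcard]
        push_cast
        ring
      rw [e] at key
      exact key
    · exfalso
      have e := CurvesM.lower (K := K) h4 (hdeg N g1)
      have e' := le_trans e key
      linarith
  · intro p hp
    unfold pr at hp
    rw [Finset.mem_filter, Finset.mem_Ioc] at hp
    obtain ⟨⟨hp3, hpN⟩, hpp⟩ := hp
    obtain ⟨-, -, q3, q4, -⟩ := h6 K p hpp
    refine ⟨hpp, hpN, ?_, ?_⟩
    · intro a b
      exact Finset.sum_congr rfl fun v hv => (h4 K p hpp hp3 v hv).1 a b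
    · intro a
      have hcardD : ((D1 K p).card : ℝ) ≤ (Module.finrank ℚ K : ℝ) := by
        exact_mod_cast le_trans (Finset.card_le_card q3) q4
      calc |∑ v ∈ D1 K p, trp v a| ≤ ∑ v ∈ D1 K p, |trp v a| := Finset.abs_sum_le_sum_abs _ _
        _ ≤ ∑ v ∈ D1 K p, 2 * √(p : ℝ) :=
          Finset.sum_le_sum fun v hv => (h4 K p hpp hp3 v hv).2.1 a
        _ = ((D1 K p).card : ℝ) * (2 * √(p : ℝ)) := by rw [Finset.sum_const, nsmul_eq_mul]
        _ ≤ (Module.finrank ℚ K : ℝ) * (2 * √(p : ℝ)) :=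
          mul_le_mul_of_nonneg_right hcardD (by positivity)
        _ = 2 * (Module.finrank ℚ K : ℝ) * √(p : ℝ) := by ring
  · intro a ha
    rw [Finset.mem_image] at ha
    obtain ⟨z, hz, rfl⟩ := ha
    obtain ⟨hA, hB, hD, t₀, hZ⟩ := hS z hz
    refine ⟨?_, ?_⟩
    · intro i
      rcases i with i | i
      · exact hbd (co z.1) Y (by rw [hco]; exact hA) i
      · exact hbd (co z.2) Y (by rw [hco]; exact hB) i
    · have hZ' := CurvesM.zeroFree_mono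
        (Real.rpow_le_rpow_of_exponent_le hVone (le_max_left κ₁ κ₂)) hZ
      have e := hms V Y t₀ N hV1 hY1 hY g2 hNle z.1 z.2 hA hB hD hZ'
      have e2 : ∀ v : HeightOneSpectrum (𝓞 K), trp v (emb z) = (tr (short z.1 z.2) v : ℝ) := by
        intro v
        unfold trp
        have e3 : pt (fun i => emb z (Sum.inl i)) = z.1 := hco z.1
        have e4 : pt (fun i => emb z (Sum.inr i)) = z.2 := hco z.2
        rw [e3, e4]
      simp only [e2]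
      exact e

end MP7ed9c3.Tz
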