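import Pool.Agent.Lib.MP_7ed9c3_nt.Tz.SpecL
import Pool.Agent.Lib.MP_7ed9c3_nt.Tw.W2

/-!
# MP_7ed9c3_nt, part Tz, statement L8: all cubic equations over a finite field
-/

set_option autoImplicit false

namespace MP7ed9c3.Tz

open NumberField IsDedekindDomain Filter Topology MP7ed9c3.Tw MP7ed9c3.Zs

namespace FFM

/-- the quadratic character with real values -/
noncomputable def X {F : Type} [Field F] [Fintype F] [DecidableEq F] (u : F) : ℝ :=
  ((quadraticChar F u : ℤ) : ℝ)

variable {F : Type} [Field F] [Fintype F] [DecidableEq F]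

theorem count_X (h2 : (2 : F) ≠ 0) (a b : F) :
    (shortCount a b : ℝ) - Fintype.card F = ∑ x : F, X (x ^ 3 + a * x + b) := by
  have h := congrArg (fun z : ℤ => (z : ℝ)) (W2.count_eq h2 a b)
  simp only [Nat.card_eq_fintype_card] at h
  push_cast at h
  exact h

theorem sum_X (h2 : (2 : F) ≠ 0) : ∑ u : F, X u = 0 := by
  have h := congrArg (fun z : ℤ => (z : ℝ)) (quadraticChar_sum_zero (W2.ringChar_ne h2))
  push_cast at h
  exact h

theorem sum_X2 : ∑ u : F, X u ^ 2 = (Fintype.card F : ℝ) - 1 := by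
  have h1 : ∀ u : F, X u ^ 2 = 1 - (if u = 0 then 1 else 0) := by
    intro u
    unfold X
    split_ifs with h
    · subst h
      simp
    · rw [← Int.cast_pow, quadraticChar_sq_one h]
      simp
  rw [Finset.sum_congr rfl fun u _ => h1 u, Finset.sum_sub_distrib, Finset.sum_ite_eq',
    if_pos (Finset.mem_univ _), Finset.sum_const, Finset.card_univ]
  simp

omit [DecidableEq F] in
theorem sum_shift (g : F → ℝ) (c : F) : ∑ b : F, g (c + b) = ∑ u : F, g u :=
  Equiv.sum_comp (Equiv.addLeft c) g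

omit [DecidableEq F] in
theorem sum_affine (g : F → ℝ) (d c : F) (hd : d ≠ 0) : ∑ a : F, g (a * d + c) = ∑ u : F, g u :=
  Equiv.sum_comp ((Equiv.mulRight₀ d hd).trans (Equiv.addRight c)) g

/-- the mixed sums -/
theorem mixed (h2 : (2 : F) ≠ 0) (x y : F) :
    ∑ a : F, ∑ b : F, X (x ^ 3 + a * x + b) * X (y ^ 3 + a * y + b) =
      if x = y then (Fintype.card F : ℝ) * (Fintype.card F - 1) else 0 := by
  split_ifs with h
  · subst h
    have h1 : ∀ a : F, ∑ b : F, X (x ^ 3 + a * x + b) * X (x ^ 3 + a * x + b) =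
        (Fintype.card F : ℝ) - 1 := by
      intro a
      rw [sum_shift (fun u => X u * X u) (x ^ 3 + a * x), ← sum_X2]
      exact Finset.sum_congr rfl fun u _ => (pow_two _).symm
    rw [Finset.sum_congr rfl fun a _ => h1 a, Finset.sum_const, Finset.card_univ, nsmul_eq_mul]
  · have h1 : ∀ a : F, ∑ b : F, X (x ^ 3 + a * x + b) * X (y ^ 3 + a * y + b) =
        ∑ u : F, X (a * (x - y) + (x ^ 3 - y ^ 3 + u)) * X u := by
      intro a
      rw [← sum_shift (fun u => X (a * (x - y) + (x ^ 3 - y ^ 3 + u)) * X u) (y ^ 3 + a * y)]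
      refine Finset.sum_congr rfl fun b _ => ?_
      have e1 : x ^ 3 + a * x + b = a * (x - y) + (x ^ 3 - y ^ 3 + (y ^ 3 + a * y + b)) := by ring
      rw [e1]
    rw [Finset.sum_congr rfl fun a _ => h1 a, Finset.sum_comm]
    refine Finset.sum_eq_zero fun u _ => ?_
    rw [← Finset.sum_mul, sum_affine X (x - y) _ (sub_ne_zero.2 h), sum_X h2, zero_mul]

end FFM

open FFM in
/-- **L8** -/
theorem ff : S_FF := by
  intro F _ _ h2
  classical
  constructor
  · simp only [count_X h2]
    refine Finset.sum_eq_zero fun a _ => ?_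
    rw [Finset.sum_comm]
    refine Finset.sum_eq_zero fun x _ => ?_
    rw [sum_shift X (x ^ 3 + a * x), sum_X h2]
  · simp only [count_X h2]
    have e1 : ∀ a b : F, (∑ x : F, X (x ^ 3 + a * x + b)) ^ 2 =
        ∑ x : F, ∑ y : F, X (x ^ 3 + a * x + b) * X (y ^ 3 + a * y + b) := by
      intro a b
      rw [pow_two, Finset.sum_mul_sum]
    have e2 : ∑ a : F, ∑ b : F, (∑ x : F, X (x ^ 3 + a * x + b)) ^ 2 =
        ∑ x : F, ∑ y : F, ∑ a : F, ∑ b : F, X (x ^ 3 + a * x + b) * X (y ^ 3 + a * y + b) := by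
      simp only [e1]
      calc ∑ a : F, ∑ b : F, ∑ x : F, ∑ y : F, X (x ^ 3 + a * x + b) * X (y ^ 3 + a * y + b)
          = ∑ a : F, ∑ x : F, ∑ b : F, ∑ y : F, X (x ^ 3 + a * x + b) * X (y ^ 3 + a * y + b) :=
            Finset.sum_congr rfl fun a _ => Finset.sum_comm
        _ = ∑ x : F, ∑ a : F, ∑ b : F, ∑ y : F, X (x ^ 3 + a * x + b) * X (y ^ 3 + a * y + b) :=
            Finset.sum_comm
        _ = ∑ x : F, ∑ a : F, ∑ y : F, ∑ b : F, X (x ^ 3 + a * x + b) * X (y ^ 3 + a * y + b) :=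
            Finset.sum_congr rfl fun x _ => Finset.sum_congr rfl fun a _ => Finset.sum_comm
        _ = ∑ x : F, ∑ y : F, ∑ a : F, ∑ b : F, X (x ^ 3 + a * x + b) * X (y ^ 3 + a * y + b) :=
            Finset.sum_congr rfl fun x _ => Finset.sum_comm
    rw [e2]
    simp only [mixed h2]
    simp only [Finset.sum_ite_eq, Finset.mem_univ, if_true, Finset.sum_const, Finset.card_univ,
      nsmul_eq_mul]
    ring

end MP7ed9c3.Tz
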