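import Pool.Agent.Lib.MP_7ed9c3_nt.Tz.SpecM

/-!
# MP_7ed9c3_nt, part Tz, statement M4: few large values
-/

set_option autoImplicit false

namespace MP7ed9c3.Tz

namespace FewM

open Classical in
/-- The sum over a set of points in the box is at most the sum over the box. -/
theorem sum_le_bsum {ι : Type} [Fintype ι] (b : ℕ) (g : (ι → ℤ) → ℝ) (hg : ∀ a, 0 ≤ g a)
    (S : Finset (ι → ℤ)) (hS : ∀ a ∈ S, ∀ i, |a i| ≤ (b : ℤ)) :
    ∑ a ∈ S, g a ≤ bsum (2 * b + 1) (fun _ => -(b : ℤ)) g := by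
  unfold bsum
  have hmap : ∀ a ∈ S, ∃ ω : ι → Fin (2 * b + 1),
      (fun i => -(b : ℤ) + ((ω i : ℕ) : ℤ)) = a := by
    intro a ha
    have h1 : ∀ i, (a i + b).toNat < 2 * b + 1 := by
      intro i
      have := abs_le.mp (hS a ha i)
      omega
    refine ⟨fun i => ⟨(a i + b).toNat, h1 i⟩, ?_⟩
    funext i
    have := abs_le.mp (hS a ha i)
    simp only
    rw [Int.toNat_of_nonneg (by omega)]
    ring
  have hsub : S ⊆ Finset.univ.image
      (fun ω : ι → Fin (2 * b + 1) => (fun i => -(b : ℤ) + ((ω i : ℕ) : ℤ))) := by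
    intro a ha
    obtain ⟨ω, hω⟩ := hmap a ha
    exact Finset.mem_image.mpr ⟨ω, Finset.mem_univ _, hω⟩
  have hinj : Function.Injective
      (fun ω : ι → Fin (2 * b + 1) => (fun i => -(b : ℤ) + ((ω i : ℕ) : ℤ))) := by
    intro ω ω' h
    funext i
    have h2 : -(b : ℤ) + ((ω i : ℕ) : ℤ) = -(b : ℤ) + ((ω' i : ℕ) : ℤ) := congrFun h i
    apply Fin.ext
    omega
  calc ∑ a ∈ S, g a ≤ ∑ a ∈ Finset.univ.image
        (fun ω : ι → Fin (2 * b + 1) => (fun i => -(b : ℤ) + ((ω i : ℕ) : ℤ))), g a :=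
        Finset.sum_le_sum_of_subset_of_nonneg hsub (fun a _ _ => hg a)
    _ = _ := Finset.sum_image (fun x _ y _ h => hinj h)

end FewM

open FewM in
theorem few (hM : S_Moment) : S_Few := by
  intro ι _ _ C₁ c
  obtain ⟨C, hC1, hCC⟩ : ∃ C : ℝ, 1 ≤ C ∧ C₁ ≤ C := ⟨max C₁ 1, le_max_right _ _, le_max_left _ _⟩
  obtain ⟨d, hd1, hcd⟩ : ∃ d : ℝ, 1 ≤ d ∧ c ≤ d := ⟨max c 1, le_max_right _ _, le_max_left _ _⟩
  obtain ⟨n, hn⟩ : ∃ n, n = Fintype.card ι := ⟨_, rfl⟩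
  have hn1 : 1 ≤ n := by
    rw [hn]
    exact Fintype.card_pos
  have hd0 : 0 < d := by linarith
  have hC0 : 0 < C := by linarith
  refine ⟨24 * d, 1 / (24 * d), 3 + (2 * (n : ℝ)) ^ 2 + 2 * (5 * C) ^ n, by positivity,
    by positivity, ?_⟩
  intro V Y x hV hlY hVY hx P H h T hP hT hVT S hS
  rw [← hn]
  have hp1 : 0 ≤ (2 * (n : ℝ)) ^ 2 := by positivity
  have hp2 : 0 ≤ 2 * (5 * C) ^ n := by positivity
  have hV3 : 3 ≤ V := by linarith
  have hV0 : 0 < V := by linarith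
  have hV1 : 1 ≤ V := by linarith
  have hlogV : 1 ≤ Real.log V := by
    rw [Real.le_log_iff_exp_le hV0]
    have := Real.exp_one_lt_d9
    linarith
  have hYV : V ≤ Y := by
    refine le_trans ?_ hVY
    calc V = V ^ (1 : ℝ) := (Real.rpow_one V).symm
      _ ≤ V ^ (24 * d) := Real.rpow_le_rpow_of_exponent_le hV1 (by linarith)
  have hY0 : 0 < Y := by linarith
  have hY1 : 1 ≤ Y := by linarith
  have hlogY : 24 * d * Real.log V ≤ Real.log Y := by
    rw [← Real.log_rpow hV0]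
    exact Real.log_le_log (Real.rpow_pos_of_pos hV0 _) hVY
  -- the exponent
  obtain ⟨z, hz⟩ : ∃ z, z = Real.log Y / (6 * d * Real.log V) := ⟨_, rfl⟩
  have hden : 0 < 6 * d * Real.log V := by positivity
  have hzmul : z * (6 * d * Real.log V) = Real.log Y := by
    rw [hz, div_mul_cancel₀ _ hden.ne']
  have hz4 : 4 ≤ z := by
    rw [hz, le_div_iff₀ hden]
    linarith
  obtain ⟨J, hJ⟩ : ∃ J, J = ⌊z⌋₊ := ⟨_, rfl⟩
  have hJz : (J : ℝ) ≤ z := by
    rw [hJ]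
    exact Nat.floor_le (by linarith)
  have hzJ : z / 2 ≤ (J : ℝ) := by
    have h1 := Nat.lt_floor_add_one z
    rw [← hJ] at h1
    linarith
  have hJ1 : 1 ≤ J := by
    have h1 : (1 : ℝ) ≤ J := by linarith
    exact_mod_cast h1
  have hxJ : (x : ℝ) ^ (3 * J) ≤ √Y := by
    have h1 : (x : ℝ) ≤ V ^ d := le_trans hx (Real.rpow_le_rpow_of_exponent_le hV1 hcd)
    calc (x : ℝ) ^ (3 * J) ≤ (V ^ d) ^ (3 * J) := pow_le_pow_left₀ (by positivity) h1 _
      _ = Real.exp (((3 * J : ℕ) : ℝ) * (Real.log V * d)) := by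
          rw [Real.rpow_def_of_pos hV0, ← Real.exp_nat_mul]
      _ ≤ Real.exp (Real.log Y / 2) := by
          apply Real.exp_le_exp.mpr
          rw [← hzmul]
          push_cast
          have h2 : (J : ℝ) * (3 * (Real.log V * d)) ≤ z * (3 * (Real.log V * d)) :=
            mul_le_mul_of_nonneg_right hJz (by positivity)
          linarith
      _ = √Y := by rw [Real.exp_half, Real.exp_log hY0]
  have hnY : 2 * (n : ℝ) ≤ √Y := by
    apply Real.le_sqrt_of_sq_le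
    linarith
  -- the box
  obtain ⟨b, hb⟩ : ∃ b, b = ⌈C * Y⌉₊ := ⟨_, rfl⟩
  have hbge : C * Y ≤ b := by
    rw [hb]
    exact Nat.le_ceil _
  have hble : (b : ℝ) ≤ C * Y + 1 := by
    rw [hb]
    exact (Nat.ceil_lt_add_one (by positivity)).le
  have hCY : Y ≤ C * Y := by nlinarith
  have hL : 2 * Fintype.card ι * x ^ (3 * J) ≤ 2 * b + 1 := by
    rw [← hn]
    have h1 : 2 * (n : ℝ) * (x : ℝ) ^ (3 * J) ≤ 2 * (b : ℝ) + 1 := by
      calc 2 * (n : ℝ) * (x : ℝ) ^ (3 * J) ≤ √Y * √Y :=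
            mul_le_mul hnY hxJ (by positivity) (Real.sqrt_nonneg _)
        _ = Y := Real.mul_self_sqrt hY0.le
        _ ≤ 2 * (b : ℝ) + 1 := by linarith
    exact_mod_cast h1
  have hmom := hM ι x (2 * b + 1) J P H h (fun _ => -(b : ℤ)) hJ1 hP hL
  have hSb : ∀ a ∈ S, ∀ i, |a i| ≤ (b : ℤ) := by
    intro a ha i
    have h1 := (hS a ha).1 i
    have h2 : |((a i : ℤ) : ℝ)| ≤ (b : ℝ) := by
      have h3 : C₁ * Y ≤ C * Y := mul_le_mul_of_nonneg_right hCC hY0.le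
      linarith
    exact_mod_cast h2
  have hsum := sum_le_bsum b (fun a => (∑ p ∈ P, h p a) ^ (2 * J))
    (fun a => by rw [pow_mul]; positivity) S hSb
  have hlow : (S.card : ℝ) * T ^ (2 * J) ≤ ∑ a ∈ S, (∑ p ∈ P, h p a) ^ (2 * J) := by
    rw [← nsmul_eq_mul]
    apply Finset.card_nsmul_le_sum
    intro a ha
    have h1 := (hS a ha).2
    calc T ^ (2 * J) ≤ |∑ p ∈ P, h p a| ^ (2 * J) := pow_le_pow_left₀ hT.le h1 _
      _ = (∑ p ∈ P, h p a) ^ (2 * J) := by rw [pow_mul, sq_abs, ← pow_mul]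
  have hH0 : 0 ≤ ∑ p ∈ P, H p ^ 2 := Finset.sum_nonneg (fun p _ => sq_nonneg _)
  -- 6 J ≤ V
  have h6J : 6 * (J : ℝ) ≤ V := by
    have h1 : 6 * (J : ℝ) * (d * Real.log V) ≤ V := by
      have h2 : (J : ℝ) * (6 * d * Real.log V) ≤ z * (6 * d * Real.log V) :=
        mul_le_mul_of_nonneg_right hJz hden.le
      calc 6 * (J : ℝ) * (d * Real.log V) = (J : ℝ) * (6 * d * Real.log V) := by ring
        _ ≤ z * (6 * d * Real.log V) := h2
        _ = Real.log Y := hzmul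
        _ ≤ V := hlY
    have h3 : 1 ≤ d * Real.log V := by nlinarith
    have h4 : 0 ≤ 6 * (J : ℝ) := by positivity
    nlinarith
  have hbase : 6 * (J : ℝ) * ∑ p ∈ P, H p ^ 2 ≤ T ^ 2 / V := by
    rw [le_div_iff₀ hV0]
    calc 6 * (J : ℝ) * (∑ p ∈ P, H p ^ 2) * V ≤ V * (∑ p ∈ P, H p ^ 2) * V := by
          apply mul_le_mul_of_nonneg_right _ hV0.le
          exact mul_le_mul_of_nonneg_right h6J hH0
      _ = V ^ 2 * ∑ p ∈ P, H p ^ 2 := by ring
      _ ≤ T ^ 2 := hVT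
  have hT2 : 0 < T ^ (2 * J) := by positivity
  have hcard1 : (S.card : ℝ) ≤ 2 * ((2 * b + 1 : ℕ) : ℝ) ^ n * (V⁻¹) ^ J := by
    have h1 : (S.card : ℝ) * T ^ (2 * J) ≤
        (2 * ((2 * b + 1 : ℕ) : ℝ) ^ n * (V⁻¹) ^ J) * T ^ (2 * J) := by
      calc (S.card : ℝ) * T ^ (2 * J) ≤ ∑ a ∈ S, (∑ p ∈ P, h p a) ^ (2 * J) := hlow
        _ ≤ bsum (2 * b + 1) (fun _ => -(b : ℤ)) (fun a => (∑ p ∈ P, h p a) ^ (2 * J)) := hsum
        _ ≤ 2 * ((2 * b + 1 : ℕ) : ℝ) ^ Fintype.card ι * (6 * J * ∑ p ∈ P, H p ^ 2) ^ J := hmom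
        _ ≤ 2 * ((2 * b + 1 : ℕ) : ℝ) ^ n * (T ^ 2 / V) ^ J := by
            rw [← hn]
            apply mul_le_mul_of_nonneg_left _ (by positivity)
            exact pow_le_pow_left₀ (by positivity) hbase _
        _ = (2 * ((2 * b + 1 : ℕ) : ℝ) ^ n * (V⁻¹) ^ J) * T ^ (2 * J) := by
            rw [pow_mul T 2 J, div_eq_mul_inv, mul_pow]
            ring
    exact le_of_mul_le_mul_right h1 hT2
  have hLle : ((2 * b + 1 : ℕ) : ℝ) ≤ 5 * C * Y := by
    push_cast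
    nlinarith
  have hVJ : (V⁻¹) ^ J ≤ Y ^ (-(1 / (12 * d))) := by
    have h1 : (V⁻¹) ^ J = Real.exp (-((J : ℝ) * Real.log V)) := by
      rw [inv_pow, Real.exp_neg, Real.exp_nat_mul, Real.exp_log hV0]
    rw [h1, Real.rpow_def_of_pos hY0]
    apply Real.exp_le_exp.mpr
    have h2 : z / 2 * Real.log V ≤ (J : ℝ) * Real.log V :=
      mul_le_mul_of_nonneg_right hzJ (by linarith)
    have h3 : z / 2 * Real.log V = Real.log Y * (1 / (12 * d)) := by
      rw [← hzmul]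
      field_simp
      ring
    linarith
  have hbig : 2 * (5 * C) ^ n ≤ Y ^ (1 / (24 * d)) := by
    calc 2 * (5 * C) ^ n ≤ V := by linarith
      _ = (V ^ (24 * d)) ^ (1 / (24 * d)) := by
          rw [← Real.rpow_mul hV0.le, mul_one_div_cancel (by positivity), Real.rpow_one]
      _ ≤ Y ^ (1 / (24 * d)) :=
          Real.rpow_le_rpow (by positivity) hVY (by positivity)
  calc (S.card : ℝ) ≤ 2 * ((2 * b + 1 : ℕ) : ℝ) ^ n * (V⁻¹) ^ J := hcard1
    _ ≤ 2 * (5 * C * Y) ^ n * Y ^ (-(1 / (12 * d))) := by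
        apply mul_le_mul _ hVJ (by positivity) (by positivity)
        apply mul_le_mul_of_nonneg_left _ (by norm_num)
        exact pow_le_pow_left₀ (by positivity) hLle _
    _ = (2 * (5 * C) ^ n) * (Y ^ (n : ℝ) * Y ^ (-(1 / (12 * d)))) := by
        rw [mul_pow (5 * C) Y n, Real.rpow_natCast]
        ring
    _ ≤ Y ^ (1 / (24 * d)) * (Y ^ (n : ℝ) * Y ^ (-(1 / (12 * d)))) :=
        mul_le_mul_of_nonneg_right hbig (by positivity)
    _ = Y ^ ((n : ℝ) - 1 / (24 * d)) := by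
        rw [← Real.rpow_add hY0, ← Real.rpow_add hY0]
        congr 1
        field_simp
        ring

end MP7ed9c3.Tz
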