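import Pool.Agent.Lib.MP_7ed9c3_nt.Tz.SpecS

/-!
# MP_7ed9c3_nt, part Tz: the variance of the random part (`hSq`)
-/

set_option autoImplicit false

namespace MP7ed9c3.Tz

open NumberField IsDedekindDomain Filter Topology MP7ed9c3.Tw MP7ed9c3.Zs

namespace HSqM

variable {K : Type} [Field K] [NumberField K]

lemma wk_nonneg (k : ℕ) (v : HeightOneSpectrum (𝓞 K)) (hq : 1 ≤ (nm v : ℝ)) : 0 ≤ wk k v := by
  unfold wk
  have h0 : 0 ≤ Real.log (nm v : ℝ) := Real.log_nonneg hq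
  positivity

lemma wk_le {x : ℝ} (hx1 : x < 1) (k : ℕ) (v : HeightOneSpectrum (𝓞 K)) (hq : 1 ≤ (nm v : ℝ)) :
    wk k v ≤ (nm v : ℝ) ^ (-x) / (3 - x) ^ k := by
  have hr : (0 : ℝ) < 3 - x := by linarith
  have hq0 : (0 : ℝ) < nm v := by linarith
  have h1 := uni hq hr k
  unfold wk
  calc (nm v : ℝ) ^ (-(3 : ℝ)) * (Real.log (nm v) ^ k / k.factorial)
      ≤ (nm v : ℝ) ^ (-(3 : ℝ)) * ((nm v : ℝ) ^ (3 - x) / (3 - x) ^ k) :=
        mul_le_mul_of_nonneg_left h1 (by positivity)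
    _ = (nm v : ℝ) ^ (-x) / (3 - x) ^ k := by
        rw [← mul_div_assoc, ← Real.rpow_add hq0]
        congr 2
        ring

lemma wk_sq {x : ℝ} (hx1 : x < 1) (k : ℕ) (v : HeightOneSpectrum (𝓞 K)) (hq : 1 ≤ (nm v : ℝ)) :
    wk k v ^ 2 ≤ (nm v : ℝ) ^ (-(2 * x)) / (3 - x) ^ (2 * k) := by
  have hq0 : (0 : ℝ) < nm v := by linarith
  have hr : (0 : ℝ) < 3 - x := by linarith
  have h1 := pow_le_pow_left₀ (wk_nonneg k v hq) (wk_le hx1 k v hq) 2
  have h2 : ((nm v : ℝ) ^ (-x) / (3 - x) ^ k) ^ 2 = (nm v : ℝ) ^ (-(2 * x)) / (3 - x) ^ (2 * k) := by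
    rw [div_pow, ← pow_mul, mul_comm k 2, ← Real.rpow_natCast, ← Real.rpow_mul hq0.le]
    congr 2
    push_cast
    ring
  rw [h2] at h1
  exact h1

end HSqM

open HSqM in
theorem hSq (h : S_Prim) : S_HSq := by
  intro K _ _ D x p₀ _ hx0 hx1 hCut
  have hs : Summable (fun n : ℕ => (n : ℝ) ^ (-(3 / 2) : ℝ)) := by
    have := (Real.summable_nat_rpow (p := -(3 / 2))).2 (by norm_num)
    exact this
  set A : ℝ := ∑' n : ℕ, (n : ℝ) ^ (-(3 / 2) : ℝ) with hA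
  have hA0 : 0 ≤ A := tsum_nonneg fun n => by positivity
  set n : ℝ := (Module.finrank ℚ K : ℝ) with hn
  have hn0 : 0 ≤ n := by positivity
  have hr : (0 : ℝ) < 3 - x := by linarith
  refine ⟨n * (1 + 4 * n * A), by positivity, fun a k N ha => ?_⟩
  have hR : (0 : ℝ) < (3 - x) ^ (2 * k) := pow_pos hr _
  have key : ∀ p ∈ pr p₀ N, (∑ v ∈ Ov K p, |a v| * wk k v) ^ 2 ≤
      n * ((p : ℝ) ^ (-(2 * x)) * (∑ v ∈ D1 K p, a v ^ 2) + 4 * n * (p : ℝ) ^ (-(3 / 2) : ℝ)) /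
        (3 - x) ^ (2 * k) := by
    intro p hp
    unfold pr at hp
    rw [Finset.mem_filter, Finset.mem_Ioc] at hp
    obtain ⟨⟨hp0, _⟩, hpp⟩ := hp
    obtain ⟨hO, hD, hsub, hcard, hpow⟩ := h K p hpp
    have hp1 : (1 : ℝ) ≤ p := by exact_mod_cast hpp.one_lt.le
    have hpp0 : (0 : ℝ) < p := by linarith
    have hq1 : ∀ v ∈ Ov K p, 1 ≤ (nm v : ℝ) := by
      intro v hv
      obtain ⟨f, _, _, hf⟩ := hpow v hv
      rw [hf]
      push_cast
      exact one_le_pow₀ hp1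
    have hDv : ∀ v ∈ Ov K p, D ∉ v.asIdeal := by
      intro v hv hd
      have := hCut.2 v hd p hpp ((hO v).1 hv)
      omega
    have hcard' : ((Ov K p).card : ℝ) ≤ n := by
      rw [hn]
      exact_mod_cast hcard
    -- Cauchy
    have h1 : (∑ v ∈ Ov K p, |a v| * wk k v) ^ 2 ≤ ((Ov K p).card : ℝ) * ∑ v ∈ Ov K p, (|a v| * wk k v) ^ 2 :=
      sq_sum_le_card_mul_sum_sq
    have h2 : ∑ v ∈ Ov K p, (|a v| * wk k v) ^ 2 ≤
        ((p : ℝ) ^ (-(2 * x)) * (∑ v ∈ D1 K p, a v ^ 2) + 4 * n * (p : ℝ) ^ (-(3 / 2) : ℝ)) /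
          (3 - x) ^ (2 * k) := by
      classical
      rw [← Finset.sum_sdiff hsub, add_comm, add_div]
      refine add_le_add ?_ ?_
      · rw [Finset.mul_sum, Finset.sum_div]
        refine Finset.sum_le_sum fun v hv => ?_
        have hnm : nm v = p := (hD v).1 hv
        have h3 := wk_sq hx1 k v (hq1 v (hsub hv))
        rw [hnm] at h3
        rw [mul_pow, sq_abs]
        calc a v ^ 2 * wk k v ^ 2 ≤ a v ^ 2 * ((p : ℝ) ^ (-(2 * x)) / (3 - x) ^ (2 * k)) :=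
              mul_le_mul_of_nonneg_left h3 (sq_nonneg _)
          _ = (p : ℝ) ^ (-(2 * x)) * a v ^ 2 / (3 - x) ^ (2 * k) := by ring
      · have h4 : ∀ v ∈ Ov K p \ D1 K p, (|a v| * wk k v) ^ 2 ≤
            4 * (p : ℝ) ^ (-(3 / 2) : ℝ) / (3 - x) ^ (2 * k) := by
          intro v hv
          rw [Finset.mem_sdiff] at hv
          obtain ⟨hv1, hv2⟩ := hv
          obtain ⟨f, hf1, _, hf⟩ := hpow v hv1
          have hf2 : 2 ≤ f := by
            by_contra hc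
            have : f = 1 := by omega
            rw [this, pow_one] at hf
            exact hv2 ((hD v).2 hf)
          have hq := hq1 v hv1
          have hq0 : (0 : ℝ) < nm v := by linarith
          have h5 : a v ^ 2 ≤ 4 * nm v := by
            have h6 := ha v (hDv v hv1)
            have h7 := pow_le_pow_left₀ (abs_nonneg _) h6 2
            rw [sq_abs, mul_pow, Real.sq_sqrt hq0.le] at h7
            linarith
          have h8 : (nm v : ℝ) * (nm v : ℝ) ^ (-(2 * x)) ≤ (p : ℝ) ^ (-(3 / 2) : ℝ) := by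
            have e1 : (nm v : ℝ) * (nm v : ℝ) ^ (-(2 * x)) = (nm v : ℝ) ^ (1 + -(2 * x)) := by
              rw [Real.rpow_add hq0, Real.rpow_one]
            have e2 : (nm v : ℝ) ^ (1 + -(2 * x)) ≤ (nm v : ℝ) ^ (-(3 / 4) : ℝ) :=
              Real.rpow_le_rpow_of_exponent_le hq (by linarith)
            have e3 : (p : ℝ) ^ (2 : ℕ) ≤ nm v := by
              rw [hf]
              push_cast
              exact pow_le_pow_right₀ hp1 hf2
            have e4 : (nm v : ℝ) ^ (-(3 / 4) : ℝ) ≤ ((p : ℝ) ^ (2 : ℕ)) ^ (-(3 / 4) : ℝ) :=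
              Real.rpow_le_rpow_of_nonpos (pow_pos hpp0 2) e3 (by norm_num)
            have e5 : ((p : ℝ) ^ (2 : ℕ)) ^ (-(3 / 4) : ℝ) = (p : ℝ) ^ (-(3 / 2) : ℝ) := by
              rw [← Real.rpow_natCast, ← Real.rpow_mul hpp0.le]
              congr 1
              push_cast
              norm_num
            rw [e1]
            exact (e2.trans e4).trans_eq e5
          rw [mul_pow, sq_abs]
          calc a v ^ 2 * wk k v ^ 2
              ≤ (4 * nm v) * ((nm v : ℝ) ^ (-(2 * x)) / (3 - x) ^ (2 * k)) :=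
                mul_le_mul h5 (wk_sq hx1 k v hq) (sq_nonneg _) (by positivity)
            _ = 4 * ((nm v : ℝ) * (nm v : ℝ) ^ (-(2 * x))) / (3 - x) ^ (2 * k) := by ring
            _ ≤ 4 * (p : ℝ) ^ (-(3 / 2) : ℝ) / (3 - x) ^ (2 * k) :=
                div_le_div_of_nonneg_right (mul_le_mul_of_nonneg_left h8 (by norm_num)) hR.le
        have h9 := Finset.sum_le_card_nsmul _ _ _ h4
        rw [nsmul_eq_mul] at h9
        have h10 : (((Ov K p \ D1 K p).card : ℕ) : ℝ) ≤ n := by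
          have : ((Ov K p \ D1 K p).card : ℝ) ≤ (Ov K p).card := by
            exact_mod_cast Finset.card_le_card Finset.sdiff_subset
          linarith
        calc ∑ v ∈ Ov K p \ D1 K p, (|a v| * wk k v) ^ 2
            ≤ ((Ov K p \ D1 K p).card : ℝ) * (4 * (p : ℝ) ^ (-(3 / 2) : ℝ) / (3 - x) ^ (2 * k)) := h9
          _ ≤ n * (4 * (p : ℝ) ^ (-(3 / 2) : ℝ) / (3 - x) ^ (2 * k)) :=
              mul_le_mul_of_nonneg_right h10 (by positivity)
          _ = 4 * n * (p : ℝ) ^ (-(3 / 2) : ℝ) / (3 - x) ^ (2 * k) := by ring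
    have h11 : 0 ≤ ∑ v ∈ Ov K p, (|a v| * wk k v) ^ 2 := Finset.sum_nonneg fun _ _ => sq_nonneg _
    calc (∑ v ∈ Ov K p, |a v| * wk k v) ^ 2
        ≤ ((Ov K p).card : ℝ) * ∑ v ∈ Ov K p, (|a v| * wk k v) ^ 2 := h1
      _ ≤ n * ∑ v ∈ Ov K p, (|a v| * wk k v) ^ 2 := mul_le_mul_of_nonneg_right hcard' h11
      _ ≤ n * (((p : ℝ) ^ (-(2 * x)) * (∑ v ∈ D1 K p, a v ^ 2) + 4 * n * (p : ℝ) ^ (-(3 / 2) : ℝ)) /
          (3 - x) ^ (2 * k)) := mul_le_mul_of_nonneg_left h2 hn0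
      _ = _ := by ring
  have hS0 : 0 ≤ S2 x p₀ N a := by
    unfold S2
    exact Finset.sum_nonneg fun p _ => mul_nonneg (by positivity) (Finset.sum_nonneg fun _ _ => sq_nonneg _)
  have hsum : ∑ p ∈ pr p₀ N, (p : ℝ) ^ (-(3 / 2) : ℝ) ≤ A :=
    hs.sum_le_tsum _ fun n _ => by positivity
  calc ∑ p ∈ pr p₀ N, (∑ v ∈ Ov K p, |a v| * wk k v) ^ 2
      ≤ ∑ p ∈ pr p₀ N, n * ((p : ℝ) ^ (-(2 * x)) * (∑ v ∈ D1 K p, a v ^ 2) +
          4 * n * (p : ℝ) ^ (-(3 / 2) : ℝ)) / (3 - x) ^ (2 * k) := Finset.sum_le_sum key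
    _ = n * (S2 x p₀ N a + 4 * n * ∑ p ∈ pr p₀ N, (p : ℝ) ^ (-(3 / 2) : ℝ)) / (3 - x) ^ (2 * k) := by
        rw [← Finset.sum_div, ← Finset.mul_sum, Finset.sum_add_distrib, ← Finset.mul_sum]
        rfl
    _ ≤ n * (1 + 4 * n * A) * (S2 x p₀ N a + 1) / (3 - x) ^ (2 * k) := by
        refine div_le_div_of_nonneg_right ?_ hR.le
        rw [mul_assoc n (1 + 4 * n * A) (S2 x p₀ N a + 1)]
        refine mul_le_mul_of_nonneg_left ?_ hn0
        have h12 : 4 * n * ∑ p ∈ pr p₀ N, (p : ℝ) ^ (-(3 / 2) : ℝ) ≤ 4 * n * A :=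
          mul_le_mul_of_nonneg_left hsum (by positivity)
        have h13 : 0 ≤ 4 * n * A := by positivity
        nlinarith [mul_nonneg h13 hS0]

end MP7ed9c3.Tz
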