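import Pool.Agent.Lib.MP_7ed9c3_nt.Tz.SpecM

/-!
# MP_7ed9c3_nt, part Tz, M2: independent variables
-/

set_option autoImplicit false

namespace MP7ed9c3.Tz

namespace HoeffM

/-- The chord bound for `exp`. -/
theorem exp_chord (t y H : ℝ) (hy : |y| ≤ H) :
    Real.exp (t * y) ≤ Real.cosh (t * H) + y / H * Real.sinh (t * H) := by
  have hH : 0 ≤ H := (abs_nonneg y).trans hy
  rcases hH.eq_or_lt with h0 | hpos
  · subst h0
    have : y = 0 := abs_eq_zero.1 (le_antisymm hy (abs_nonneg y))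
    subst this
    simp
  · obtain ⟨h1, h2⟩ := abs_le.1 hy
    have ha : 0 ≤ (H + y) / (2 * H) := div_nonneg (by linarith) (by linarith)
    have hb : 0 ≤ (H - y) / (2 * H) := div_nonneg (by linarith) (by linarith)
    have hab : (H + y) / (2 * H) + (H - y) / (2 * H) = 1 := by
      field_simp
      ring
    have hc := convexOn_exp.2 (Set.mem_univ (t * H)) (Set.mem_univ (-(t * H))) ha hb hab
    have e1 : ((H + y) / (2 * H)) • (t * H) + ((H - y) / (2 * H)) • (-(t * H)) = t * y := by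
      simp only [smul_eq_mul]
      field_simp
      ring
    rw [e1] at hc
    refine hc.trans (le_of_eq ?_)
    rw [Real.cosh_eq, Real.sinh_eq]
    simp only [smul_eq_mul]
    field_simp
    ring

/-- One variable. -/
theorem one {Ω : Type} [Fintype Ω] (h : Ω → ℝ) (H t : ℝ) (h0 : ∑ ω, h ω = 0)
    (hH : ∀ ω, |h ω| ≤ H) :
    ∑ ω, Real.exp (t * h ω) ≤ (Fintype.card Ω : ℝ) * Real.exp (t ^ 2 * H ^ 2 / 2) := by
  calc ∑ ω, Real.exp (t * h ω)
      ≤ ∑ ω, (Real.cosh (t * H) + h ω / H * Real.sinh (t * H)) :=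
        Finset.sum_le_sum fun ω _ => exp_chord t (h ω) H (hH ω)
    _ = (Fintype.card Ω : ℝ) * Real.cosh (t * H) + (∑ ω, h ω) / H * Real.sinh (t * H) := by
        rw [Finset.sum_add_distrib, Finset.sum_const, ← Finset.sum_mul, ← Finset.sum_div]
        simp
    _ = (Fintype.card Ω : ℝ) * Real.cosh (t * H) := by rw [h0]; simp
    _ ≤ (Fintype.card Ω : ℝ) * Real.exp (t ^ 2 * H ^ 2 / 2) := by
        refine mul_le_mul_of_nonneg_left ?_ (Nat.cast_nonneg _)
        refine (Real.cosh_le_exp_half_sq (t * H)).trans (le_of_eq ?_)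
        congr 1
        ring

open Classical in
/-- Several variables. -/
theorem all {P : Type} [Fintype P] {Ω : P → Type} [∀ p, Fintype (Ω p)] (h : ∀ p, Ω p → ℝ)
    (H : P → ℝ) (t : ℝ) (h0 : ∀ p, ∑ ω, h p ω = 0) (hH : ∀ p ω, |h p ω| ≤ H p) :
    ∑ ω : (∀ p, Ω p), Real.exp (t * ∑ p, h p (ω p)) ≤
      (∏ p, (Fintype.card (Ω p) : ℝ)) * Real.exp (t ^ 2 * (∑ p, H p ^ 2) / 2) := by
  calc ∑ ω : (∀ p, Ω p), Real.exp (t * ∑ p, h p (ω p))
      = ∑ ω : (∀ p, Ω p), ∏ p, Real.exp (t * h p (ω p)) := by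
        refine Finset.sum_congr rfl fun ω _ => ?_
        rw [Finset.mul_sum, Real.exp_sum]
    _ = ∏ p, ∑ ω, Real.exp (t * h p ω) := by
        rw [Finset.prod_univ_sum, Fintype.piFinset_univ]
    _ ≤ ∏ p, ((Fintype.card (Ω p) : ℝ) * Real.exp (t ^ 2 * H p ^ 2 / 2)) :=
        Finset.prod_le_prod (fun p _ => Finset.sum_nonneg fun ω _ => (Real.exp_pos _).le)
          fun p _ => one (h p) (H p) t (h0 p) (hH p)
    _ = (∏ p, (Fintype.card (Ω p) : ℝ)) * Real.exp (t ^ 2 * (∑ p, H p ^ 2) / 2) := by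
        rw [Finset.prod_mul_distrib, ← Real.exp_sum, ← Finset.sum_div, ← Finset.mul_sum]

/-- One term of the series of `cosh`. -/
theorem pow_le_cosh (y : ℝ) (J : ℕ) : y ^ (2 * J) ≤ ((2 * J).factorial : ℝ) * Real.cosh y := by
  have h1 : y ^ (2 * J) / ((2 * J).factorial : ℝ) ≤ Real.cosh y := by
    refine le_hasSum (Real.hasSum_cosh y) J fun j _ => ?_
    refine div_nonneg ?_ (Nat.cast_nonneg _)
    rw [pow_mul]
    positivity
  have hf : (0 : ℝ) < ((2 * J).factorial : ℝ) := by exact_mod_cast Nat.factorial_pos _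
  rw [div_le_iff₀ hf] at h1
  linarith

end HoeffM

open HoeffM in
theorem hoeff : S_Hoeff := by
  classical
  intro P _ Ω _ h H J hJ h0 hH
  set S : ℝ := ∑ p, H p ^ 2 with hS
  set Q : ℝ := ∏ p, (Fintype.card (Ω p) : ℝ) with hQ
  have hQ0 : 0 ≤ Q := Finset.prod_nonneg fun p _ => Nat.cast_nonneg _
  have hS0 : 0 ≤ S := Finset.sum_nonneg fun p _ => sq_nonneg _
  have hJ' : (1 : ℝ) ≤ J := by exact_mod_cast hJ
  rcases hS0.eq_or_lt with hz | hpos
  · -- all `H p` vanish
    have hHz : ∀ p, H p = 0 := by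
      intro p
      have := (Finset.sum_eq_zero_iff_of_nonneg (fun p _ => sq_nonneg (H p))).1 hz.symm p
        (Finset.mem_univ p)
      exact pow_eq_zero_iff (two_ne_zero) |>.1 this
    have hhz : ∀ p ω, h p ω = 0 := by
      intro p ω
      have := hH p ω
      rw [hHz p] at this
      exact abs_eq_zero.1 (le_antisymm this (abs_nonneg _))
    have hL : ∑ ω : (∀ p, Ω p), (∑ p, h p (ω p)) ^ (2 * J) = 0 := by
      refine Finset.sum_eq_zero fun ω _ => ?_
      rw [Finset.sum_eq_zero fun p _ => hhz p (ω p)]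
      exact zero_pow (by omega)
    have hR : 0 ≤ Q * (6 * J * S) ^ J := by positivity
    exact hL.le.trans hR
  · set t : ℝ := √(2 * J / S) with ht
    have ht2 : t ^ 2 = 2 * J / S := Real.sq_sqrt (by positivity)
    have htpos : 0 < t := Real.sqrt_pos.2 (by positivity)
    have e1 := all h H t h0 hH
    have e2 := all h H (-t) h0 hH
    have e3 : ∑ ω : (∀ p, Ω p), Real.cosh (t * ∑ p, h p (ω p)) ≤
        Q * Real.exp (t ^ 2 * S / 2) := by
      have : ∑ ω : (∀ p, Ω p), Real.cosh (t * ∑ p, h p (ω p)) =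
          ((∑ ω : (∀ p, Ω p), Real.exp (t * ∑ p, h p (ω p))) +
            ∑ ω : (∀ p, Ω p), Real.exp (-t * ∑ p, h p (ω p))) / 2 := by
        rw [← Finset.sum_add_distrib, Finset.sum_div]
        refine Finset.sum_congr rfl fun ω _ => ?_
        rw [Real.cosh_eq, neg_mul]
      rw [this]
      have e2' : ∑ ω : (∀ p, Ω p), Real.exp (-t * ∑ p, h p (ω p)) ≤
          Q * Real.exp (t ^ 2 * S / 2) := by
        have h3 := e2
        rw [neg_sq] at h3
        exact h3
      have e1' : ∑ ω : (∀ p, Ω p), Real.exp (t * ∑ p, h p (ω p)) ≤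
          Q * Real.exp (t ^ 2 * S / 2) := e1
      linarith
    have e4 : t ^ (2 * J) * ∑ ω : (∀ p, Ω p), (∑ p, h p (ω p)) ^ (2 * J) ≤
        ((2 * J).factorial : ℝ) * (Q * Real.exp (t ^ 2 * S / 2)) := by
      calc t ^ (2 * J) * ∑ ω : (∀ p, Ω p), (∑ p, h p (ω p)) ^ (2 * J)
          = ∑ ω : (∀ p, Ω p), (t * ∑ p, h p (ω p)) ^ (2 * J) := by
            rw [Finset.mul_sum]
            refine Finset.sum_congr rfl fun ω _ => ?_
            rw [mul_pow]
        _ ≤ ∑ ω : (∀ p, Ω p), ((2 * J).factorial : ℝ) * Real.cosh (t * ∑ p, h p (ω p)) :=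
            Finset.sum_le_sum fun ω _ => pow_le_cosh _ J
        _ = ((2 * J).factorial : ℝ) * ∑ ω : (∀ p, Ω p), Real.cosh (t * ∑ p, h p (ω p)) := by
            rw [Finset.mul_sum]
        _ ≤ _ := mul_le_mul_of_nonneg_left e3 (Nat.cast_nonneg _)
    have hexp : t ^ 2 * S / 2 = (J : ℝ) := by
      rw [ht2]
      field_simp
    have hfac : ((2 * J).factorial : ℝ) ≤ (2 * J : ℝ) ^ (2 * J) := by
      have := Nat.factorial_le_pow (2 * J)
      exact_mod_cast this
    have hJe : Real.exp (J : ℝ) ≤ (3 : ℝ) ^ J := by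
      have : Real.exp (J : ℝ) = Real.exp 1 ^ J := by
        rw [← Real.exp_nat_mul, mul_one]
      rw [this]
      exact pow_le_pow_left₀ (Real.exp_pos _).le (Real.exp_one_lt_d9.le.trans (by norm_num)) J
    rw [hexp] at e4
    have e5 : ((2 * J).factorial : ℝ) * (Q * Real.exp (J : ℝ)) ≤
        (2 * J : ℝ) ^ (2 * J) * (Q * (3 : ℝ) ^ J) := by
      refine mul_le_mul hfac (mul_le_mul_of_nonneg_left hJe hQ0) ?_ (by positivity)
      exact mul_nonneg hQ0 (Real.exp_pos _).le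
    have e6 : (2 * J : ℝ) ^ (2 * J) * (Q * (3 : ℝ) ^ J) =
        t ^ (2 * J) * (Q * (6 * J * S) ^ J) := by
      rw [pow_mul t, ht2, pow_mul (2 * (J : ℝ))]
      have : ((2 * (J : ℝ)) ^ 2) ^ J * (Q * (3 : ℝ) ^ J) = Q * (((2 * (J : ℝ)) ^ 2 * 3) ^ J) := by
        rw [mul_pow ((2 * (J : ℝ)) ^ 2) 3 J, mul_left_comm]
      rw [this]
      have h7 : (2 * (J : ℝ) / S) ^ J * (Q * (6 * J * S) ^ J) =
          Q * ((2 * (J : ℝ) / S * (6 * J * S)) ^ J) := by
        rw [mul_pow (2 * (J : ℝ) / S) (6 * J * S) J, mul_left_comm]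
      rw [h7]
      congr 2
      field_simp
      ring
    have e7 := (e4.trans e5).trans_eq e6
    exact le_of_mul_le_mul_left e7 (pow_pos htpos _)

end MP7ed9c3.Tz
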