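import Pool.Agent.Lib.MP_7ed9c3_nt.Tz.SpecS
import Pool.Agent.Lib.MP_7ed9c3_nt.Tw.D6a
import Pool.Agent.Lib.MP_7ed9c3_nt.N1
import Pool.Agent.Lib.MP_7ed9c3_nt.N5

/-!
# MP_7ed9c3_nt, part Tz, S1: the first order sum
-/

set_option autoImplicit false

namespace MP7ed9c3.Tz

open NumberField IsDedekindDomain Filter Topology MP7ed9c3.Tw MP7ed9c3.Zs

namespace J1M

theorem exp_ineq {y r : ℝ} {k : ℕ} (hr0 : 0 < r) (hr : r ≤ 17 / 8) (hy : 4 * (k : ℝ) ≤ y) :
    y ^ k / k.factorial ≤ Real.exp y / r ^ k := by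
  rcases Nat.eq_zero_or_pos k with hk | hk
  · subst hk
    have h0 : 0 ≤ y := by simpa using hy
    simpa using Real.one_le_exp h0
  · have hk' : (0 : ℝ) < k := by exact_mod_cast hk
    obtain ⟨u, hyu⟩ : ∃ u : ℝ, y = u * k := ⟨y / k, by field_simp⟩
    subst hyu
    have hu4 : 4 ≤ u := le_of_mul_le_mul_right hy hk'
    have h1 : r * u ≤ Real.exp (u - 1) := by
      have h2 := Real.quadratic_le_exp_of_nonneg (x := u - 1) (by linarith)
      nlinarith
    have h2 : (k : ℝ) ^ k / k.factorial ≤ Real.exp k :=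
      Real.pow_div_factorial_le_exp _ hk'.le k
    have h3 : (0 : ℝ) ≤ r * u := mul_nonneg hr0.le (by linarith)
    rw [le_div_iff₀ (pow_pos hr0 k)]
    calc (u * k) ^ k / k.factorial * r ^ k = (r * u) ^ k * ((k : ℝ) ^ k / k.factorial) := by ring
      _ ≤ Real.exp (u - 1) ^ k * Real.exp k :=
          mul_le_mul (pow_le_pow_left₀ h3 h1 k) h2 (by positivity) (by positivity)
      _ = Real.exp (u * k) := by
          rw [← Real.exp_nat_mul, ← Real.exp_add]
          congr 1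
          ring

variable {K : Type} [Field K] [NumberField K]

theorem nm_two (v : HeightOneSpectrum (𝓞 K)) : (2 : ℝ) ≤ nm v := by
  exact_mod_cast (N1.exists_prime v).1

theorem wk_nonneg (k : ℕ) (v : HeightOneSpectrum (𝓞 K)) : 0 ≤ wk k v := by
  unfold wk
  have h0 := nm_two v
  have h1 : 0 ≤ Real.log (nm v) := Real.log_nonneg (by linarith)
  exact mul_nonneg (Real.rpow_nonneg (by linarith) _)
    (div_nonneg (pow_nonneg h1 k) (Nat.cast_nonneg _))

theorem wk_le {x : ℝ} (hx : 7 / 8 ≤ x) (hx1 : x < 1) (k : ℕ) (v : HeightOneSpectrum (𝓞 K)) :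
    √(nm v : ℝ) * wk k v ≤ 1 / (3 - x) ^ k := by
  have h2 := nm_two v
  have hr : 0 < 3 - x := by linarith
  have h3 : 0 < (nm v : ℝ) := by linarith
  have h1 := uni (z := (nm v : ℝ)) (ρ := 3 - x) (by linarith) hr k
  unfold wk
  calc √(nm v : ℝ) * ((nm v : ℝ) ^ (-(3 : ℝ)) * (Real.log (nm v) ^ k / k.factorial))
      ≤ √(nm v : ℝ) * ((nm v : ℝ) ^ (-(3 : ℝ)) * ((nm v : ℝ) ^ (3 - x) / (3 - x) ^ k)) :=
        mul_le_mul_of_nonneg_left (mul_le_mul_of_nonneg_left h1 (Real.rpow_nonneg h3.le _))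
          (Real.sqrt_nonneg _)
    _ = (nm v : ℝ) ^ (1 / 2 + -3 + (3 - x)) / (3 - x) ^ k := by
        rw [Real.sqrt_eq_rpow, Real.rpow_add h3, Real.rpow_add h3]
        ring
    _ ≤ 1 / (3 - x) ^ k := by
        refine div_le_div_of_nonneg_right ?_ (pow_pos hr k).le
        exact Real.rpow_le_one_of_one_le_of_nonpos (by linarith) (by linarith)

theorem wk_tail {x : ℝ} (hx : 7 / 8 ≤ x) (hx1 : x < 1) (k : ℕ) (v : HeightOneSpectrum (𝓞 K))
    (hv : Real.exp (4 * k) ≤ nm v) :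
    √(nm v : ℝ) * wk k v ≤ (nm v : ℝ) ^ (-(3 / 2 : ℝ)) / (3 - x) ^ k := by
  have h2 := nm_two v
  have hr : 0 < 3 - x := by linarith
  have h3 : 0 < (nm v : ℝ) := by linarith
  have hy : 4 * (k : ℝ) ≤ Real.log (nm v) := by
    rw [Real.le_log_iff_exp_le h3]
    exact hv
  have h1 := exp_ineq (r := 3 - x) hr (by linarith) hy
  rw [Real.exp_log h3] at h1
  unfold wk
  calc √(nm v : ℝ) * ((nm v : ℝ) ^ (-(3 : ℝ)) * (Real.log (nm v) ^ k / k.factorial))
      ≤ √(nm v : ℝ) * ((nm v : ℝ) ^ (-(3 : ℝ)) * ((nm v : ℝ) / (3 - x) ^ k)) :=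
        mul_le_mul_of_nonneg_left (mul_le_mul_of_nonneg_left h1 (Real.rpow_nonneg h3.le _))
          (Real.sqrt_nonneg _)
    _ = (nm v : ℝ) ^ (1 / 2 + -3 + (1 : ℝ)) / (3 - x) ^ k := by
        rw [Real.sqrt_eq_rpow, Real.rpow_add h3, Real.rpow_add h3, Real.rpow_one]
        ring
    _ = (nm v : ℝ) ^ (-(3 / 2 : ℝ)) / (3 - x) ^ k := by norm_num

theorem norm_term {α β : ℂ} {q w : ℝ} (hα : ‖α‖ ≤ √q) (hβ : ‖β‖ ≤ √q) (hw : 0 ≤ w) :
    ‖(α + β) * (w : ℂ)‖ ≤ 2 * (√q * w) := by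
  rw [norm_mul, Complex.norm_real, Real.norm_of_nonneg hw]
  have h1 : ‖α + β‖ ≤ 2 * √q := (norm_add_le _ _).trans (by linarith)
  calc ‖α + β‖ * w ≤ 2 * √q * w := mul_le_mul_of_nonneg_right h1 hw
    _ = 2 * (√q * w) := by ring

/-- Different prime numbers have disjoint sets of primes over them. -/
theorem ov_disj (h : S_Prim) {p q : ℕ} (hp : p.Prime) (hq : q.Prime) (hpq : p ≠ q) :
    Disjoint (Ov K p) (Ov K q) := by
  rw [Finset.disjoint_left]
  intro v hv hv'
  obtain ⟨f, hf1, -, hf⟩ := (h K p hp).2.2.2.2 v hv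
  obtain ⟨g, -, -, hg⟩ := (h K q hq).2.2.2.2 v hv'
  apply hpq
  have h1 : p ∣ q ^ g := by
    rw [← hg, hf]
    exact dvd_pow_self p (by omega)
  exact (Nat.prime_dvd_prime_iff_eq hp hq).1 (hp.dvd_of_dvd_pow h1)

omit [NumberField K] in
open Classical in
theorem hasSum_ind (U : Finset (HeightOneSpectrum (𝓞 K))) :
    HasSum (fun v => if v ∈ U then (1 : ℝ) else 0) (U.card : ℝ) := by
  have h : HasSum (fun v => if v ∈ U then (1 : ℝ) else 0)
      (∑ v ∈ U, (if v ∈ U then (1 : ℝ) else 0)) :=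
    hasSum_sum_of_ne_finset_zero (fun v hv => if_neg hv)
  have h2 : ∑ v ∈ U, (if v ∈ U then (1 : ℝ) else 0) = U.card := by
    rw [Finset.sum_congr rfl (fun v hv => if_pos hv), Finset.sum_const, nsmul_eq_mul, mul_one]
  rwa [h2] at h

end J1M

open J1M

theorem j1 (h : S_Prim) : S_J1 := by
  classical
  intro K _ _ D x p₀ hD hx hx1 hcut
  set G : ℝ := ∑' v : HeightOneSpectrum (𝓞 K), (nm v : ℝ) ^ (-(3 / 2 : ℝ)) with hG
  have hGs : Summable fun v : HeightOneSpectrum (𝓞 K) => (nm v : ℝ) ^ (-(3 / 2 : ℝ)) :=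
    (zetaSum K).2.1 (3 / 2) (by norm_num)
  have hG0 : 0 ≤ G := tsum_nonneg fun v => Real.rpow_nonneg (Nat.cast_nonneg _) _
  set U : Finset (HeightOneSpectrum (𝓞 K)) :=
    ((Finset.range (p₀ + 1)).filter Nat.Prime).biUnion (Ov K) with hU
  have hr : 0 < 3 - x := by linarith
  refine ⟨2 * (U.card + G + 1), by positivity, ?_⟩
  intro a d α β k N hd hN hab hchi
  set Fd : Finset (HeightOneSpectrum (𝓞 K)) := (N5.finite_mem hd).toFinset with hFd
  have hFdc : (Fd.card : ℝ) = om d := by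
    rw [om, Set.ncard_eq_toFinset_card _ (N5.finite_mem hd)]
  have hmFd : ∀ v, v ∈ Fd ↔ d ∈ v.asIdeal := by
    intro v
    rw [hFd, Set.Finite.mem_toFinset]
    exact Iff.rfl
  set T : Finset (HeightOneSpectrum (𝓞 K)) := (pr p₀ N).biUnion (Ov K) with hT
  set c : ℝ := 1 / (3 - x) ^ k with hc
  have hc0 : 0 ≤ c := by positivity
  set f : HeightOneSpectrum (𝓞 K) → ℂ := fun v =>
    if D ∈ v.asIdeal then 0 else (α v + β v) * (wk k v : ℝ) with hf
  set z : HeightOneSpectrum (𝓞 K) → ℂ := fun v =>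
    if v ∈ T then ((chiv d v * a v * wk k v : ℝ) : ℂ) else 0 with hz
  set B : HeightOneSpectrum (𝓞 K) → ℝ := fun v =>
    2 * c * ((if v ∈ U then (1 : ℝ) else 0) + (if v ∈ Fd then (1 : ℝ) else 0) +
      (nm v : ℝ) ^ (-(3 / 2 : ℝ))) with hB
  have hBs : HasSum B (2 * c * (U.card + Fd.card + G)) :=
    (((hasSum_ind U).add (hasSum_ind Fd)).add hGs.hasSum).mul_left _
  -- the sum over the middle range
  have hzs : HasSum z ((Zd k p₀ N a d : ℝ) : ℂ) := by
    have h1 : HasSum z (∑ v ∈ T, z v) := hasSum_sum_of_ne_finset_zero (fun v hv => if_neg hv)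
    have h2 : ∑ v ∈ T, z v = ((Zd k p₀ N a d : ℝ) : ℂ) := by
      have h3 : ∑ v ∈ T, z v = ∑ v ∈ T, ((chiv d v * a v * wk k v : ℝ) : ℂ) :=
        Finset.sum_congr rfl fun v hv => if_pos hv
      rw [h3, ← Complex.ofReal_sum, hT, Finset.sum_biUnion]
      · rfl
      · intro p hp q hq hpq
        have hp' := (Finset.mem_filter.1 (Finset.mem_coe.1 hp)).2
        have hq' := (Finset.mem_filter.1 (Finset.mem_coe.1 hq)).2
        exact ov_disj h hp' hq' hpq
    rwa [h2] at h1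
  -- the termwise bound
  have hbound : ∀ v, ‖f v - z v‖ ≤ B v := by
    intro v
    have hg0 : 0 ≤ (nm v : ℝ) ^ (-(3 / 2 : ℝ)) := Real.rpow_nonneg (Nat.cast_nonneg _) _
    have hi1 : (0 : ℝ) ≤ if v ∈ U then (1 : ℝ) else 0 := by split_ifs <;> norm_num
    have hi2 : (0 : ℝ) ≤ if v ∈ Fd then (1 : ℝ) else 0 := by split_ifs <;> norm_num
    have hB0 : 0 ≤ B v := by
      simp only [hB]
      positivity
    by_cases hDv : D ∈ v.asIdeal
    · have hvT : v ∉ T := by
        intro hvT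
        obtain ⟨p, hp, hpv⟩ := Finset.mem_biUnion.1 hvT
        obtain ⟨hp1, hp2⟩ := Finset.mem_filter.1 hp
        have h1 := hcut.2 v hDv p hp2 (((h K p hp2).1 v).1 hpv)
        have h2 := (Finset.mem_Ioc.1 hp1).1
        omega
      simp only [hf, hz, if_pos hDv, if_neg hvT, sub_zero, norm_zero]
      exact hB0
    · have hfv : ‖f v‖ ≤ 2 * (√(nm v : ℝ) * wk k v) := by
        simp only [hf, if_neg hDv]
        exact norm_term (hab v hDv).2.1 (hab v hDv).2.2 (wk_nonneg k v)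
      have hw := wk_le hx hx1 k v
      by_cases hvT : v ∈ T
      · by_cases hdv : d ∈ v.asIdeal
        · have hz0 : z v = 0 := by
            simp only [hz, if_pos hvT, chiv, if_pos hdv, zero_mul, Complex.ofReal_zero]
          rw [hz0, sub_zero]
          have h1 : v ∈ Fd := (hmFd v).2 hdv
          have h2 : B v = 2 * c * ((if v ∈ U then (1 : ℝ) else 0) + 1 +
              (nm v : ℝ) ^ (-(3 / 2 : ℝ))) := by
            simp only [hB, if_pos h1]
          rw [h2]
          nlinarith [mul_nonneg hc0 hi1, mul_nonneg hc0 hg0]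
        · have h0 : f v - z v = 0 := by
            simp only [hf, hz, if_neg hDv, if_pos hvT]
            rw [hchi v hDv hdv]
            push_cast
            ring
          rw [h0, norm_zero]
          exact hB0
      · have hz0 : z v = 0 := if_neg hvT
        rw [hz0, sub_zero]
        obtain ⟨p, hp, hple, hpv⟩ := (N1.exists_prime v).2
        have hpO : v ∈ Ov K p := ((h K p hp).1 v).2 hpv
        by_cases hpp : p ≤ p₀
        · have h1 : v ∈ U := Finset.mem_biUnion.2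
            ⟨p, Finset.mem_filter.2 ⟨Finset.mem_range.2 (by omega), hp⟩, hpO⟩
          have h2 : B v = 2 * c * (1 + (if v ∈ Fd then (1 : ℝ) else 0) +
              (nm v : ℝ) ^ (-(3 / 2 : ℝ))) := by
            simp only [hB, if_pos h1]
          rw [h2]
          nlinarith [mul_nonneg hc0 hi2, mul_nonneg hc0 hg0]
        · have h1 : N < p := by
            by_contra hle
            exact hvT (Finset.mem_biUnion.2
              ⟨p, Finset.mem_filter.2 ⟨Finset.mem_Ioc.2 ⟨by omega, by omega⟩, hp⟩, hpO⟩)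
          have h2 : Real.exp (4 * k) ≤ nm v := by
            refine hN.trans ?_
            have h3 : N ≤ nm v := by omega
            exact_mod_cast h3
          have h3 := wk_tail hx hx1 k v h2
          have h4 : (nm v : ℝ) ^ (-(3 / 2 : ℝ)) / (3 - x) ^ k = c * (nm v : ℝ) ^ (-(3 / 2 : ℝ)) := by
            rw [hc]
            ring
          rw [h4] at h3
          simp only [hB]
          nlinarith [mul_nonneg hc0 hi1, mul_nonneg hc0 hi2]
  have hfz : Summable fun v => f v - z v := Summable.of_norm_bounded hBs.summable hbound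
  have hT1 : T1 k D α β - ((Zd k p₀ N a d : ℝ) : ℂ) = ∑' v, (f v - z v) := by
    have h1 : HasSum f (∑' v, (f v - z v) + ((Zd k p₀ N a d : ℝ) : ℂ)) := by
      have h2 := hfz.hasSum.add hzs
      simpa only [sub_add_cancel] using h2
    have h3 : T1 k D α β = ∑' v, f v := rfl
    rw [h3, h1.tsum_eq, add_sub_cancel_right]
  rw [hT1]
  have h5 : ‖∑' v, (f v - z v)‖ ≤ 2 * c * (U.card + Fd.card + G) := by
    have h6 := tsum_of_norm_bounded hBs hbound
    exact h6
  refine h5.trans ?_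
  have hom : 0 ≤ om d := by
    rw [← hFdc]
    exact Nat.cast_nonneg _
  have hUc : (0 : ℝ) ≤ U.card := Nat.cast_nonneg _
  rw [hFdc]
  have h7 : 2 * (U.card + G + 1) * (om d + 1) / (3 - x) ^ k =
      2 * c * ((U.card + G + 1) * (om d + 1)) := by
    rw [hc]
    ring
  rw [h7]
  refine mul_le_mul_of_nonneg_left ?_ (by positivity)
  nlinarith [mul_nonneg hUc hom, mul_nonneg hG0 hom]

end MP7ed9c3.Tz
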