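import Pool.Agent.Lib.MP_7ed9c3_nt.Tz.SpecS
import Pool.Agent.Lib.MP_7ed9c3_nt.Tw.D6a
import Pool.Agent.Lib.MP_7ed9c3_nt.N1
import Pool.Agent.Lib.MP_7ed9c3_nt.N5

/-!
# MP_7ed9c3_nt, part Tz, S2: the second order sum
-/

set_option autoImplicit false

namespace MP7ed9c3.Tz

open NumberField IsDedekindDomain Filter Topology MP7ed9c3.Tw MP7ed9c3.Zs

namespace J2M

variable {K : Type} [Field K] [NumberField K]

theorem nm_two (v : HeightOneSpectrum (𝓞 K)) : (2 : ℝ) ≤ nm v := by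
  exact_mod_cast (N1.exists_prime v).1

/-- The weight of the second order. -/
noncomputable def uk (k : ℕ) (v : HeightOneSpectrum (𝓞 K)) : ℝ :=
  (nm v : ℝ) ^ (-(6 : ℝ)) * ((2 * Real.log (nm v)) ^ k / k.factorial)

theorem uk_nonneg (k : ℕ) (v : HeightOneSpectrum (𝓞 K)) : 0 ≤ uk k v := by
  unfold uk
  have h0 := nm_two v
  have h1 : 0 ≤ Real.log (nm v) := Real.log_nonneg (by linarith)
  exact mul_nonneg (Real.rpow_nonneg (by linarith) _)
    (div_nonneg (pow_nonneg (by linarith) k) (Nat.cast_nonneg _))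

theorem uk_le {ρ : ℝ} (hρ : 0 < ρ) (k : ℕ) (v : HeightOneSpectrum (𝓞 K)) :
    (nm v : ℝ) * uk k v ≤ (nm v : ℝ) ^ (-5 + 2 * ρ) / ρ ^ k := by
  have h2 := nm_two v
  have h3 : 0 < (nm v : ℝ) := by linarith
  have h1 := uni (z := (nm v : ℝ) ^ 2) (ρ := ρ) (by nlinarith) hρ k
  rw [Real.log_pow] at h1
  push_cast at h1
  unfold uk
  calc (nm v : ℝ) * ((nm v : ℝ) ^ (-(6 : ℝ)) * ((2 * Real.log (nm v)) ^ k / k.factorial))
      ≤ (nm v : ℝ) * ((nm v : ℝ) ^ (-(6 : ℝ)) * (((nm v : ℝ) ^ 2) ^ ρ / ρ ^ k)) :=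
        mul_le_mul_of_nonneg_left (mul_le_mul_of_nonneg_left h1 (Real.rpow_nonneg h3.le _)) h3.le
    _ = (nm v : ℝ) ^ (1 + -6 + 2 * ρ) / ρ ^ k := by
        rw [Real.rpow_add h3, Real.rpow_add h3, Real.rpow_one, ← Real.rpow_natCast (nm v : ℝ) 2,
          ← Real.rpow_mul h3.le]
        push_cast
        ring
    _ = (nm v : ℝ) ^ (-5 + 2 * ρ) / ρ ^ k := by norm_num

theorem uk_sum (k : ℕ) (v : HeightOneSpectrum (𝓞 K)) :
    (nm v : ℝ) * uk k v ≤ 1 / (7 / 4 : ℝ) ^ k * (nm v : ℝ) ^ (-(3 / 2 : ℝ)) := by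
  have h := uk_le (ρ := 7 / 4) (by norm_num) k v
  have e : (-5 + 2 * (7 / 4) : ℝ) = -(3 / 2 : ℝ) := by norm_num
  rw [e] at h
  calc (nm v : ℝ) * uk k v ≤ (nm v : ℝ) ^ (-(3 / 2 : ℝ)) / (7 / 4 : ℝ) ^ k := h
    _ = 1 / (7 / 4 : ℝ) ^ k * (nm v : ℝ) ^ (-(3 / 2 : ℝ)) := by ring

theorem uk_one {x : ℝ} (hx : 7 / 8 ≤ x) (hx1 : x < 1) (k : ℕ) (v : HeightOneSpectrum (𝓞 K)) :
    (nm v : ℝ) * uk k v ≤ 1 / (3 - x) ^ k := by
  have hr : 0 < 3 - x := by linarith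
  have h2 := nm_two v
  refine (uk_le hr k v).trans ?_
  refine div_le_div_of_nonneg_right ?_ (pow_pos hr k).le
  exact Real.rpow_le_one_of_one_le_of_nonpos (by linarith) (by linarith)

theorem norm_al {α β : ℂ} {q : ℝ} (hq : 0 ≤ q) (hα : ‖α‖ ≤ √q) (hβ : ‖β‖ ≤ √q) :
    ‖(α ^ 2 + β ^ 2) / 2‖ ≤ q := by
  have h1 : ‖α‖ ^ 2 ≤ q := by
    have h := pow_le_pow_left₀ (norm_nonneg α) hα 2
    rwa [Real.sq_sqrt hq] at h
  have h2 : ‖β‖ ^ 2 ≤ q := by
    have h := pow_le_pow_left₀ (norm_nonneg β) hβ 2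
    rwa [Real.sq_sqrt hq] at h
  have h3 : ‖α ^ 2 + β ^ 2‖ ≤ 2 * q := by
    refine (norm_add_le _ _).trans ?_
    rw [norm_pow, norm_pow]
    linarith
  rw [norm_div]
  have h4 : ‖(2 : ℂ)‖ = 2 := by norm_num
  rw [h4]
  linarith

theorem abs_a {a q : ℝ} (hq : 0 ≤ q) (ha : |a| ≤ 2 * √q) : |(a ^ 2 - 2 * q) / 2| ≤ q := by
  have h1 : a ^ 2 ≤ 4 * q := by
    have h := pow_le_pow_left₀ (abs_nonneg a) ha 2
    rw [sq_abs, mul_pow, Real.sq_sqrt hq] at h
    linarith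
  have h2 : 0 ≤ a ^ 2 := sq_nonneg a
  rw [abs_le]
  constructor <;> linarith

theorem chi_sq {d : 𝓞 K} {v : HeightOneSpectrum (𝓞 K)} (hd : d ∉ v.asIdeal) :
    chiv d v ^ 2 = 1 := by
  unfold chiv
  rw [if_neg hd]
  split_ifs <;> norm_num

omit [NumberField K] in
open Classical in
theorem hasSum_ind (U : Finset (HeightOneSpectrum (𝓞 K))) :
    HasSum (fun v => if v ∈ U then (1 : ℝ) else 0) (U.card : ℝ) := by
  have h : HasSum (fun v => if v ∈ U then (1 : ℝ) else 0)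
      (∑ v ∈ U, (if v ∈ U then (1 : ℝ) else 0)) :=
    hasSum_sum_of_ne_finset_zero (fun v hv => if_neg hv)
  have h2 : ∑ v ∈ U, (if v ∈ U then (1 : ℝ) else 0) = U.card := by
    rw [Finset.sum_congr rfl (fun v hv => if_pos hv), Finset.sum_const, nsmul_eq_mul, mul_one]
  rwa [h2] at h

end J2M

open J2M

theorem j2 : S_J2 := by
  classical
  intro K _ _ D x hD hx hx1 a d α β k hd hab hchi
  have hGs : Summable fun v : HeightOneSpectrum (𝓞 K) => (nm v : ℝ) ^ (-(3 / 2 : ℝ)) :=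
    (zetaSum K).2.1 (3 / 2) (by norm_num)
  have hr : 0 < 3 - x := by linarith
  set Fd : Finset (HeightOneSpectrum (𝓞 K)) := (N5.finite_mem hd).toFinset with hFd
  have hFdc : (Fd.card : ℝ) = om d := by
    rw [om, Set.ncard_eq_toFinset_card _ (N5.finite_mem hd)]
  have hmFd : ∀ v, v ∈ Fd ↔ d ∈ v.asIdeal := by
    intro v
    rw [hFd, Set.Finite.mem_toFinset]
    exact Iff.rfl
  set c : ℝ := 1 / (3 - x) ^ k with hc
  have hc0 : 0 ≤ c := by positivity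
  set f : HeightOneSpectrum (𝓞 K) → ℂ := fun v =>
    if D ∈ v.asIdeal then 0 else (α v ^ 2 + β v ^ 2) / 2 * ((uk k v : ℝ) : ℂ) with hf
  set g : HeightOneSpectrum (𝓞 K) → ℝ := fun v =>
    if D ∈ v.asIdeal then 0 else (a v ^ 2 - 2 * nm v) / 2 * uk k v with hg
  have hq0 : ∀ v : HeightOneSpectrum (𝓞 K), (0 : ℝ) ≤ nm v := fun v => Nat.cast_nonneg _
  have hf1 : ∀ v, ‖f v‖ ≤ (nm v : ℝ) * uk k v := by
    intro v
    simp only [hf]
    split_ifs with h
    · rw [norm_zero]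
      exact mul_nonneg (hq0 v) (uk_nonneg k v)
    · rw [norm_mul, Complex.norm_real, Real.norm_of_nonneg (uk_nonneg k v)]
      exact mul_le_mul_of_nonneg_right (norm_al (hq0 v) (hab v h).2.1 (hab v h).2.2)
        (uk_nonneg k v)
  have hg1 : ∀ v, ‖g v‖ ≤ (nm v : ℝ) * uk k v := by
    intro v
    simp only [hg]
    split_ifs with h
    · rw [norm_zero]
      exact mul_nonneg (hq0 v) (uk_nonneg k v)
    · rw [norm_mul, Real.norm_of_nonneg (uk_nonneg k v), Real.norm_eq_abs]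
      exact mul_le_mul_of_nonneg_right (abs_a (hq0 v) (hab v h).1) (uk_nonneg k v)
  have hM : Summable fun v : HeightOneSpectrum (𝓞 K) =>
      1 / (7 / 4 : ℝ) ^ k * (nm v : ℝ) ^ (-(3 / 2 : ℝ)) := hGs.mul_left _
  have hfs : Summable f := Summable.of_norm_bounded hM fun v => (hf1 v).trans (uk_sum k v)
  have hgs : Summable g := Summable.of_norm_bounded hM fun v => (hg1 v).trans (uk_sum k v)
  have hgs' : Summable fun v => ((g v : ℝ) : ℂ) := Complex.summable_ofReal.2 hgs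
  have hT : T2 k D α β = ∑' v, f v := rfl
  have hQ : ((Qd k D a : ℝ) : ℂ) = ∑' v, ((g v : ℝ) : ℂ) := by
    rw [← Complex.ofReal_tsum]
    rfl
  set B : HeightOneSpectrum (𝓞 K) → ℝ := fun v =>
    2 * c * (if v ∈ Fd then (1 : ℝ) else 0) with hB
  have hBs : HasSum B (2 * c * Fd.card) := (hasSum_ind Fd).mul_left _
  have hbound : ∀ v, ‖f v - ((g v : ℝ) : ℂ)‖ ≤ B v := by
    intro v
    by_cases hdv : d ∈ v.asIdeal
    · have h1 : v ∈ Fd := (hmFd v).2 hdv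
      have h2 := uk_one hx hx1 k v
      have h3 : ‖((g v : ℝ) : ℂ)‖ ≤ (nm v : ℝ) * uk k v := by
        rw [Complex.norm_real]
        exact hg1 v
      simp only [hB, if_pos h1]
      refine (norm_sub_le _ _).trans ?_
      have h4 := hf1 v
      linarith
    · have h1 : v ∉ Fd := fun h => hdv ((hmFd v).1 h)
      simp only [hB, if_neg h1, mul_zero]
      by_cases hDv : D ∈ v.asIdeal
      · simp only [hf, hg, if_pos hDv, Complex.ofReal_zero, sub_zero, norm_zero, le_refl]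
      · obtain ⟨h2, h3⟩ := hchi v hDv hdv
        have h4 : (α v ^ 2 + β v ^ 2) / 2 = (((a v ^ 2 - 2 * nm v) / 2 : ℝ) : ℂ) := by
          have h5 : α v ^ 2 + β v ^ 2 = (α v + β v) ^ 2 - 2 * (α v * β v) := by ring
          have h6 : ((chiv d v : ℝ) : ℂ) ^ 2 = 1 := by
            rw [← Complex.ofReal_pow, chi_sq hdv, Complex.ofReal_one]
          rw [h5, h2, h3]
          push_cast
          rw [mul_pow, h6]
          ring
        have h7 : f v - ((g v : ℝ) : ℂ) = 0 := by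
          simp only [hf, hg, if_neg hDv]
          rw [h4]
          push_cast
          ring
        rw [h7, norm_zero]
  rw [hT, hQ, ← hfs.tsum_sub hgs']
  refine (tsum_of_norm_bounded hBs hbound).trans ?_
  rw [hFdc, hc]
  apply le_of_eq
  ring

end MP7ed9c3.Tz
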