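import Pool.Agent.Lib.MP_7ed9c3_nt.Tz.SpecS
import Pool.Agent.Lib.MP_7ed9c3_nt.Tw.D6a

/-!
# MP_7ed9c3_nt, part Tz, J3: the other terms
-/

set_option autoImplicit false

namespace MP7ed9c3.Tz

open NumberField IsDedekindDomain Filter Topology MP7ed9c3.Tw MP7ed9c3.Zs

namespace J3M

variable {K : Type} [Field K] [NumberField K]

theorem two_le (v : HeightOneSpectrum (𝓞 K)) : 2 ≤ nm v := (N1.exists_prime v).1

theorem two_le_real (v : HeightOneSpectrum (𝓞 K)) : (2 : ℝ) ≤ nm v := by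
  exact_mod_cast two_le v

theorem lam_pos (i : HeightOneSpectrum (𝓞 K) × ℕ) : 0 < lamE K i := by
  have := two_le i.1
  unfold lamE
  positivity

theorem lam_one (i : HeightOneSpectrum (𝓞 K) × ℕ) : (1 : ℝ) ≤ lamE K i := by
  exact_mod_cast lam_pos i

/-- The terms of the series. -/
noncomputable def t (α β : HeightOneSpectrum (𝓞 K) → ℂ) (k : ℕ)
    (i : HeightOneSpectrum (𝓞 K) × ℕ) : ℂ :=
  tauE α β i * (lamE K i : ℂ) ^ (-(3 + ((0 : ℝ) : ℂ) * Complex.I)) *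
    ((Real.log (lamE K i) ^ k / k.factorial : ℝ) : ℂ)

theorem norm_t (α β : HeightOneSpectrum (𝓞 K) → ℂ) (k : ℕ)
    (i : HeightOneSpectrum (𝓞 K) × ℕ) :
    ‖t α β k i‖ = ‖tauE α β i‖ * (lamE K i : ℝ) ^ (-(3 : ℝ)) *
      (Real.log (lamE K i) ^ k / k.factorial) := by
  unfold t
  rw [norm_mul, norm_mul, Complex.norm_natCast_cpow_of_pos (lam_pos i), Complex.norm_real,
    Real.norm_of_nonneg (div_nonneg (pow_nonneg (Real.log_nonneg (lam_one i)) k)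
      (Nat.cast_nonneg _))]
  simp

theorem bound (α β : HeightOneSpectrum (𝓞 K) → ℂ) (k : ℕ)
    (i : HeightOneSpectrum (𝓞 K) × ℕ) {ρ : ℝ} (hρ : 0 < ρ) :
    ‖t α β k i‖ ≤ ‖tauE α β i‖ * (lamE K i : ℝ) ^ (-(3 - ρ)) / ρ ^ k := by
  rw [norm_t]
  have h1 := uni (lam_one i) hρ k
  have h2 : (0 : ℝ) < lamE K i := lt_of_lt_of_le one_pos (lam_one i)
  have h3 : 0 ≤ ‖tauE α β i‖ * (lamE K i : ℝ) ^ (-(3 : ℝ)) :=
    mul_nonneg (norm_nonneg _) (Real.rpow_nonneg h2.le _)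
  calc ‖tauE α β i‖ * (lamE K i : ℝ) ^ (-(3 : ℝ)) * (Real.log (lamE K i) ^ k / k.factorial)
      ≤ ‖tauE α β i‖ * (lamE K i : ℝ) ^ (-(3 : ℝ)) * ((lamE K i : ℝ) ^ ρ / ρ ^ k) :=
        mul_le_mul_of_nonneg_left h1 h3
    _ = ‖tauE α β i‖ * ((lamE K i : ℝ) ^ (-(3 : ℝ)) * (lamE K i : ℝ) ^ ρ) / ρ ^ k := by ring
    _ = ‖tauE α β i‖ * (lamE K i : ℝ) ^ (-(3 - ρ)) / ρ ^ k := by
        rw [← Real.rpow_add h2]
        congr 3
        ring

theorem summable_t (h : S_SumBound) (α β : HeightOneSpectrum (𝓞 K) → ℂ) (k : ℕ)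
    (hb : ∀ v, ‖α v‖ ≤ nm v + 1 ∧ ‖β v‖ ≤ nm v + 1) : Summable (t α β k) := by
  obtain ⟨B, hB⟩ := h K
  have h1 := (hB α β hb).1
  refine Summable.of_norm_bounded (h1.mul_right ((2 : ℝ) ^ k)) fun i => ?_
  have h2 := bound α β k i (ρ := 1 / 2) (by norm_num)
  have h3 : (0 : ℝ) < lamE K i := lt_of_lt_of_le one_pos (lam_one i)
  refine h2.trans (le_of_eq ?_)
  have h4 : -(3 - (1 / 2 : ℝ)) = -(5 / 2 : ℝ) := by norm_num
  have h5 : ((1 / 2 : ℝ) ^ k)⁻¹ = 2 ^ k := by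
    rw [one_div, inv_pow, inv_inv]
  rw [h4, Real.rpow_neg h3.le, div_eq_mul_inv _ ((1 / 2 : ℝ) ^ k), h5]
  rfl

/-- The coefficients. -/
theorem tau_le (α β : HeightOneSpectrum (𝓞 K) → ℂ) (v : HeightOneSpectrum (𝓞 K)) (j : ℕ) {M : ℝ}
    (h1 : ‖α v‖ ≤ M) (h2 : ‖β v‖ ≤ M) : ‖tauE α β (v, j)‖ ≤ 2 * M ^ (j + 1) := by
  have hM : 0 ≤ M := (norm_nonneg _).trans h1
  unfold tauE
  simp only
  rw [norm_div]
  have h3 : ‖((j : ℂ) + 1)‖ = (j : ℝ) + 1 := by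
    have : ((j : ℂ) + 1) = (((j : ℝ) + 1 : ℝ) : ℂ) := by push_cast; rfl
    rw [this, Complex.norm_real, Real.norm_of_nonneg (by positivity)]
  rw [h3]
  have h4 : ‖α v ^ (j + 1) + β v ^ (j + 1)‖ ≤ 2 * M ^ (j + 1) := by
    refine (norm_add_le _ _).trans ?_
    rw [norm_pow, norm_pow]
    have := pow_le_pow_left₀ (norm_nonneg _) h1 (j + 1)
    have := pow_le_pow_left₀ (norm_nonneg _) h2 (j + 1)
    linarith
  refine (div_le_self (norm_nonneg _) ?_).trans h4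
  have : (0 : ℝ) ≤ j := Nat.cast_nonneg j
  linarith

theorem lam_rpow (v : HeightOneSpectrum (𝓞 K)) (j : ℕ) (y : ℝ) :
    (lamE K (v, j) : ℝ) ^ y = ((nm v : ℝ) ^ y) ^ (j + 1) := by
  unfold lamE
  simp only
  push_cast
  rw [← Real.rpow_natCast, ← Real.rpow_mul (Nat.cast_nonneg _), mul_comm,
    Real.rpow_mul (Nat.cast_nonneg _), Real.rpow_natCast]

/-- Terms with bounded roots. -/
theorem term_le (α β : HeightOneSpectrum (𝓞 K) → ℂ) (k : ℕ) (v : HeightOneSpectrum (𝓞 K)) (j : ℕ)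
    {x y : ℝ} (hx : x < 1) (h1 : ‖α v‖ ≤ (nm v : ℝ) ^ y) (h2 : ‖β v‖ ≤ (nm v : ℝ) ^ y) :
    ‖t α β k (v, j)‖ ≤ 2 * ((nm v : ℝ) ^ (-(x - y))) ^ (j + 1) / (3 - x) ^ k := by
  have hr : 0 < 3 - x := by linarith
  refine (bound α β k (v, j) hr).trans ?_
  have hq : (0 : ℝ) < nm v := lt_of_lt_of_le two_pos (two_le_real v)
  refine div_le_div_of_nonneg_right ?_ (pow_nonneg hr.le k)
  rw [show -(3 - (3 - x)) = -x by ring, lam_rpow]
  calc ‖tauE α β (v, j)‖ * ((nm v : ℝ) ^ (-x)) ^ (j + 1)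
      ≤ (2 * ((nm v : ℝ) ^ y) ^ (j + 1)) * ((nm v : ℝ) ^ (-x)) ^ (j + 1) :=
        mul_le_mul_of_nonneg_right (tau_le α β v j h1 h2)
          (pow_nonneg (Real.rpow_nonneg hq.le _) _)
    _ = 2 * (((nm v : ℝ) ^ y) * ((nm v : ℝ) ^ (-x))) ^ (j + 1) := by rw [mul_pow]; ring
    _ = 2 * ((nm v : ℝ) ^ (-(x - y))) ^ (j + 1) := by
        rw [← Real.rpow_add hq]
        congr 3
        ring

open Classical in
/-- The majorant. -/
noncomputable def maj (K : Type) [Field K] [NumberField K] (D : 𝓞 K) (x₀ x : ℝ)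
    (i : HeightOneSpectrum (𝓞 K) × ℕ) : ℝ :=
  (if D ∈ i.1.asIdeal then (1 : ℝ) else 0) * (2 * ((2 : ℝ) ^ (-(x - x₀))) ^ (i.2 + 1)) +
    (nm i.1 : ℝ) ^ (-(9 / 8 : ℝ)) * (4 * ((2 : ℝ) ^ (-(3 / 8 : ℝ))) ^ i.2)

open Classical in
theorem maj_nonneg (D : 𝓞 K) (x₀ x : ℝ) (i : HeightOneSpectrum (𝓞 K) × ℕ) :
    0 ≤ maj K D x₀ x i := by
  unfold maj
  have : (0 : ℝ) ≤ if D ∈ i.1.asIdeal then (1 : ℝ) else 0 := by
    split_ifs <;> norm_num
  have h2 : (0 : ℝ) ≤ (nm i.1 : ℝ) ^ (-(9 / 8 : ℝ)) := Real.rpow_nonneg (Nat.cast_nonneg _) _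
  positivity

open Classical in
theorem maj_summable {D : 𝓞 K} (hD : D ≠ 0) {x₀ x : ℝ} (hx : x₀ < x) :
    Summable (maj K D x₀ x) := by
  have hg1 : Summable fun j : ℕ => 2 * ((2 : ℝ) ^ (-(x - x₀))) ^ (j + 1) := by
    refine Summable.mul_left _ ?_
    refine (summable_nat_add_iff 1).2 (summable_geometric_of_lt_one
      (Real.rpow_nonneg (by norm_num) _) ?_)
    exact Real.rpow_lt_one_of_one_lt_of_neg (by norm_num) (by linarith)
  have hg2 : Summable fun j : ℕ => 4 * ((2 : ℝ) ^ (-(3 / 8 : ℝ))) ^ j := by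
    refine Summable.mul_left _ (summable_geometric_of_lt_one
      (Real.rpow_nonneg (by norm_num) _) ?_)
    exact Real.rpow_lt_one_of_one_lt_of_neg (by norm_num) (by norm_num)
  have hf1 : Summable fun v : HeightOneSpectrum (𝓞 K) =>
      if D ∈ v.asIdeal then (1 : ℝ) else 0 := by
    refine summable_of_hasFiniteSupport ?_
    refine (N5.finite_mem hD).subset fun v hv => ?_
    by_contra h
    exact hv (if_neg h)
  have hf2 : Summable fun v : HeightOneSpectrum (𝓞 K) => (nm v : ℝ) ^ (-(9 / 8 : ℝ)) :=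
    (zetaSum K).2.1 (9 / 8) (by norm_num)
  have hn1 : (0 : HeightOneSpectrum (𝓞 K) → ℝ) ≤ fun v : HeightOneSpectrum (𝓞 K) =>
      if D ∈ v.asIdeal then (1 : ℝ) else 0 := fun v => by
    show (0 : ℝ) ≤ if D ∈ v.asIdeal then (1 : ℝ) else 0
    split_ifs <;> norm_num
  have hn2 : (0 : HeightOneSpectrum (𝓞 K) → ℝ) ≤ fun v : HeightOneSpectrum (𝓞 K) =>
      (nm v : ℝ) ^ (-(9 / 8 : ℝ)) := fun v => Real.rpow_nonneg (Nat.cast_nonneg _) _
  have hm1 : (0 : ℕ → ℝ) ≤ fun j : ℕ => 2 * ((2 : ℝ) ^ (-(x - x₀))) ^ (j + 1) := fun j => by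
    show (0 : ℝ) ≤ 2 * ((2 : ℝ) ^ (-(x - x₀))) ^ (j + 1)
    positivity
  have hm2 : (0 : ℕ → ℝ) ≤ fun j : ℕ => 4 * ((2 : ℝ) ^ (-(3 / 8 : ℝ))) ^ j := fun j => by
    show (0 : ℝ) ≤ 4 * ((2 : ℝ) ^ (-(3 / 8 : ℝ))) ^ j
    positivity
  exact (hf1.mul_of_nonneg hg1 hn1 hm1).add (hf2.mul_of_nonneg hg2 hn2 hm2)

/-- The terms of index `j ≥ 2`. -/
theorem geo {q x : ℝ} (hq : 2 ≤ q) (hx : 7 / 8 ≤ x) {j : ℕ} (hj : 2 ≤ j) :
    2 * (q ^ (-(x - 1 / 2))) ^ (j + 1) ≤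
      q ^ (-(9 / 8 : ℝ)) * (4 * ((2 : ℝ) ^ (-(3 / 8 : ℝ))) ^ j) := by
  have hq0 : 0 < q := by linarith
  have h1 : q ^ (-(x - 1 / 2)) ≤ q ^ (-(3 / 8 : ℝ)) :=
    Real.rpow_le_rpow_of_exponent_le (by linarith) (by linarith)
  have h0 : 0 ≤ q ^ (-(x - 1 / 2)) := Real.rpow_nonneg hq0.le _
  have h2 : q ^ (-(3 / 8 : ℝ)) ≤ (2 : ℝ) ^ (-(3 / 8 : ℝ)) :=
    Real.rpow_le_rpow_of_nonpos (by norm_num) hq (by norm_num)
  have h3 : (q ^ (-(3 / 8 : ℝ))) ^ 3 = q ^ (-(9 / 8 : ℝ)) := by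
    rw [← Real.rpow_natCast, ← Real.rpow_mul hq0.le]
    norm_num
  have h4 : (1 / 2 : ℝ) ≤ ((2 : ℝ) ^ (-(3 / 8 : ℝ))) ^ 2 := by
    rw [← Real.rpow_natCast, ← Real.rpow_mul (by norm_num),
      show (1 / 2 : ℝ) = (2 : ℝ) ^ (-(1 : ℝ)) by rw [Real.rpow_neg_one]; norm_num]
    exact Real.rpow_le_rpow_of_exponent_le (by norm_num) (by norm_num)
  obtain ⟨m, rfl⟩ := Nat.exists_eq_add_of_le hj
  have h5 : 0 ≤ q ^ (-(3 / 8 : ℝ)) := Real.rpow_nonneg hq0.le _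
  have h6 : (0 : ℝ) ≤ (2 : ℝ) ^ (-(3 / 8 : ℝ)) := Real.rpow_nonneg (by norm_num) _
  calc 2 * (q ^ (-(x - 1 / 2))) ^ (2 + m + 1)
      ≤ 2 * (q ^ (-(3 / 8 : ℝ))) ^ (2 + m + 1) :=
        mul_le_mul_of_nonneg_left (pow_le_pow_left₀ h0 h1 _) (by norm_num)
    _ = 2 * ((q ^ (-(3 / 8 : ℝ))) ^ 3 * (q ^ (-(3 / 8 : ℝ))) ^ m) := by ring
    _ ≤ 2 * ((q ^ (-(3 / 8 : ℝ))) ^ 3 * ((2 : ℝ) ^ (-(3 / 8 : ℝ))) ^ m) := by
        refine mul_le_mul_of_nonneg_left (mul_le_mul_of_nonneg_left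
          (pow_le_pow_left₀ h5 h2 m) (by positivity)) (by norm_num)
    _ ≤ 4 * ((q ^ (-(3 / 8 : ℝ))) ^ 3 * (((2 : ℝ) ^ (-(3 / 8 : ℝ))) ^ m *
          ((2 : ℝ) ^ (-(3 / 8 : ℝ))) ^ 2)) := by
        have h7 : 0 ≤ (q ^ (-(3 / 8 : ℝ))) ^ 3 * ((2 : ℝ) ^ (-(3 / 8 : ℝ))) ^ m := by positivity
        nlinarith [mul_le_mul_of_nonneg_left h4 h7]
    _ = q ^ (-(9 / 8 : ℝ)) * (4 * ((2 : ℝ) ^ (-(3 / 8 : ℝ))) ^ (2 + m)) := by
        rw [h3]
        ring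

omit [NumberField K] in
/-- A series supported on the pairs `(v, j)`, `j` fixed. -/
theorem tsum_slice (f : HeightOneSpectrum (𝓞 K) × ℕ → ℂ) (j : ℕ)
    (hf : ∀ i, i.2 ≠ j → f i = 0) : ∑' i, f i = ∑' v : HeightOneSpectrum (𝓞 K), f (v, j) := by
  have hinj : Function.Injective fun v : HeightOneSpectrum (𝓞 K) => (v, j) := fun v w h =>
    (Prod.mk.inj h).1
  refine (hinj.tsum_eq (f := f) ?_).symm
  intro i hi
  have : i.2 = j := by
    by_contra h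
    exact hi (hf i h)
  exact ⟨i.1, by rw [← this]⟩

end J3M

open Classical in
theorem j3 (h : S_SumBound) : S_J3 := by
  intro K _ _ D x₀ x hD hx₀ hxx h78 hx1
  have hr : 0 < 3 - x := by linarith
  refine ⟨∑' i, J3M.maj K D x₀ x i, tsum_nonneg (J3M.maj_nonneg D x₀ x), ?_⟩
  intro α β k hb hb1 hb2
  have hst := J3M.summable_t h α β k hb
  set t := J3M.t α β k with ht
  let S₁ : Set (HeightOneSpectrum (𝓞 K) × ℕ) := {i | D ∉ i.1.asIdeal ∧ i.2 = 0}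
  let S₂ : Set (HeightOneSpectrum (𝓞 K) × ℕ) := {i | D ∉ i.1.asIdeal ∧ i.2 = 1}
  let S₃ : Set (HeightOneSpectrum (𝓞 K) × ℕ) := {i | D ∈ i.1.asIdeal ∨ 2 ≤ i.2}
  have e0 : ∀ i, t i = S₁.indicator t i + S₂.indicator t i + S₃.indicator t i := by
    rintro ⟨v, j⟩
    simp only [Set.indicator_apply, S₁, S₂, S₃, Set.mem_ofPred_eq]
    by_cases hv : D ∈ v.asIdeal
    · simp [hv]
    · rcases j with _ | _ | j
      · simp [hv]
      · simp [hv]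
      · simp [hv]
  have e1 : ∑' i, S₁.indicator t i = T1 k D α β := by
    rw [J3M.tsum_slice (S₁.indicator t) 0 (fun i hi => Set.indicator_of_notMem
      (fun h' => hi h'.2) _)]
    unfold T1
    refine tsum_congr fun v => ?_
    simp only [Set.indicator_apply, S₁, Set.mem_ofPred_eq]
    by_cases hv : D ∈ v.asIdeal
    · simp [hv]
    · rw [if_pos ⟨hv, trivial⟩, if_neg hv, ht]
      have hq : (0 : ℝ) ≤ nm v := Nat.cast_nonneg _
      unfold J3M.t tauE lamE wk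
      simp only [zero_add, pow_one, Complex.ofReal_zero, zero_mul, add_zero, Nat.cast_zero,
        div_one]
      push_cast
      rw [Complex.ofReal_cpow hq]
      push_cast
      ring
  have e2 : ∑' i, S₂.indicator t i = T2 k D α β := by
    rw [J3M.tsum_slice (S₂.indicator t) 1 (fun i hi => Set.indicator_of_notMem
      (fun h' => hi h'.2) _)]
    unfold T2
    refine tsum_congr fun v => ?_
    simp only [Set.indicator_apply, S₂, Set.mem_ofPred_eq]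
    by_cases hv : D ∈ v.asIdeal
    · simp [hv]
    · rw [if_pos ⟨hv, trivial⟩, if_neg hv, ht]
      have hq : (0 : ℝ) ≤ nm v := Nat.cast_nonneg _
      have hq2 : ((nm v ^ 2 : ℕ) : ℂ) ^ (-(3 + ((0 : ℝ) : ℂ) * Complex.I)) =
          (((nm v : ℝ) ^ (-(6 : ℝ)) : ℝ) : ℂ) := by
        have h1 : (-(3 + ((0 : ℝ) : ℂ) * Complex.I)) = ((-3 : ℝ) : ℂ) := by
          push_cast
          ring
        have h2 : ((nm v ^ 2 : ℕ) : ℂ) = (((nm v : ℝ) ^ (2 : ℕ) : ℝ) : ℂ) := by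
          push_cast
          rfl
        rw [h1, h2, ← Complex.ofReal_cpow (by positivity), ← Real.rpow_natCast,
          ← Real.rpow_mul hq]
        norm_num
      have hl : Real.log ((nm v ^ 2 : ℕ) : ℝ) = 2 * Real.log (nm v) := by
        push_cast
        rw [Real.log_pow]
        norm_num
      unfold J3M.t tauE lamE
      simp only
      rw [show (1 + 1 : ℕ) = 2 from rfl, hq2, hl]
      push_cast
      ring
  have e3 : ‖∑' i, S₃.indicator t i‖ ≤ (∑' i, J3M.maj K D x₀ x i) / (3 - x) ^ k := by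
    refine tsum_of_norm_bounded ((J3M.maj_summable hD hxx).hasSum.div_const _) ?_
    rintro ⟨v, j⟩
    have hmaj : 0 ≤ J3M.maj K D x₀ x (v, j) / (3 - x) ^ k :=
      div_nonneg (J3M.maj_nonneg D x₀ x _) (pow_nonneg hr.le k)
    by_cases hS : (v, j) ∈ S₃
    · rw [Set.indicator_of_mem hS]
      have hq2 := J3M.two_le_real v
      have hq0 : (0 : ℝ) < nm v := by linarith
      by_cases hv : D ∈ v.asIdeal
      · refine (J3M.term_le α β k v j hx1 (hb1 v hv).1 (hb1 v hv).2).trans ?_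
        refine div_le_div_of_nonneg_right ?_ (pow_nonneg hr.le k)
        unfold J3M.maj
        simp only
        rw [if_pos hv, one_mul]
        have h1 : (nm v : ℝ) ^ (-(x - x₀)) ≤ (2 : ℝ) ^ (-(x - x₀)) :=
          Real.rpow_le_rpow_of_nonpos (by norm_num) hq2 (by linarith)
        have h2 := pow_le_pow_left₀ (Real.rpow_nonneg hq0.le (-(x - x₀))) h1 (j + 1)
        have h3 : 0 ≤ (nm v : ℝ) ^ (-(9 / 8 : ℝ)) * (4 * ((2 : ℝ) ^ (-(3 / 8 : ℝ))) ^ j) := by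
          positivity
        linarith
      · have hj : 2 ≤ j := by
          rcases hS with h' | h'
          · exact absurd h' hv
          · exact h'
        have hs : √(nm v : ℝ) = (nm v : ℝ) ^ (1 / 2 : ℝ) := Real.sqrt_eq_rpow _
        refine (J3M.term_le α β k v j hx1 (hs ▸ (hb2 v hv).1) (hs ▸ (hb2 v hv).2)).trans ?_
        refine div_le_div_of_nonneg_right ?_ (pow_nonneg hr.le k)
        unfold J3M.maj
        simp only
        rw [if_neg hv, zero_mul, zero_add]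
        exact J3M.geo hq2 h78 hj
    · rw [Set.indicator_of_notMem hS, norm_zero]
      exact hmaj
  have e4 : tay (lamE K) (tauE α β) 0 k = ∑' i, t i := rfl
  have e5 : ∑' i, t i = ∑' i, S₁.indicator t i + ∑' i, S₂.indicator t i +
      ∑' i, S₃.indicator t i := by
    rw [← (hst.indicator S₁).tsum_add (hst.indicator S₂),
      ← ((hst.indicator S₁).add (hst.indicator S₂)).tsum_add (hst.indicator S₃)]
    exact tsum_congr e0
  rw [e4, e5, e1, e2, show T1 k D α β + T2 k D α β + ∑' i, S₃.indicator t i - T1 k D α β -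
    T2 k D α β = ∑' i, S₃.indicator t i by ring]
  exact e3

end MP7ed9c3.Tz
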