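import Pool.Agent.Lib.MP_7ed9c3_nt.Tz.SpecZ
import Pool.Agent.Lib.MP_7ed9c3_nt.Zs.Series

/-!
# MP_7ed9c3_nt, part Tz: the mean square for one curve of the family
-/

set_option autoImplicit false

namespace MP7ed9c3.Tz

open NumberField IsDedekindDomain Filter Topology MP7ed9c3.Tw MP7ed9c3.Zs

namespace MSCurveM

theorem root_bd (q : ℕ) : max (√(q : ℝ)) ((q : ℝ) - 1) ≤ (q : ℝ) + 1 := by
  have h0 : (0 : ℝ) ≤ q := Nat.cast_nonneg q
  refine max_le ?_ (by linarith)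
  rw [Real.sqrt_le_iff]
  exact ⟨by linarith, by nlinarith⟩

/-- The conjugates of `4 A³ + 27 B²`. -/
theorem house_e {K : Type} [Field K] [NumberField K] {A B : 𝓞 K} {Y : ℝ} (hY : 1 ≤ Y)
    (hA : House A Y) (hB : House B Y) : House (4 * A ^ 3 + 27 * B ^ 2) (31 * Y ^ 3) := by
  intro φ
  have e1 : φ (((4 * A ^ 3 + 27 * B ^ 2 : 𝓞 K)) : K) =
      4 * φ (A : K) ^ 3 + 27 * φ (B : K) ^ 2 := by
    have e0 : (((4 * A ^ 3 + 27 * B ^ 2 : 𝓞 K)) : K) = 4 * (A : K) ^ 3 + 27 * (B : K) ^ 2 := by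
      change algebraMap (𝓞 K) K (4 * A ^ 3 + 27 * B ^ 2) =
        4 * algebraMap (𝓞 K) K A ^ 3 + 27 * algebraMap (𝓞 K) K B ^ 2
      rw [map_add, map_mul, map_mul, map_pow, map_pow, map_ofNat, map_ofNat]
    rw [e0, map_add, map_mul, map_mul, map_pow, map_pow, map_ofNat, map_ofNat]
  rw [e1]
  have hY0 : 0 ≤ Y := by linarith
  have a1 : ‖φ (A : K)‖ ^ 3 ≤ Y ^ 3 := pow_le_pow_left₀ (norm_nonneg _) (hA φ) 3
  have b1 : ‖φ (B : K)‖ ^ 2 ≤ Y ^ 2 := pow_le_pow_left₀ (norm_nonneg _) (hB φ) 2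
  have hY2 : Y ^ 2 ≤ Y ^ 3 := pow_le_pow_right₀ hY (by norm_num)
  calc ‖4 * φ (A : K) ^ 3 + 27 * φ (B : K) ^ 2‖ ≤
      ‖4 * φ (A : K) ^ 3‖ + ‖27 * φ (B : K) ^ 2‖ := norm_add_le _ _
    _ = 4 * ‖φ (A : K)‖ ^ 3 + 27 * ‖φ (B : K)‖ ^ 2 := by
        rw [norm_mul, norm_mul, norm_pow, norm_pow]
        norm_num
    _ ≤ 31 * Y ^ 3 := by linarith

theorem log_e {Y V : ℝ} (hY : 1 ≤ Y) (hV : 1 ≤ V) (hl : Real.log Y ≤ V) :
    Real.log (31 * Y ^ 3) ≤ 7 * V := by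
  have hY0 : 0 < Y := by linarith
  rw [Real.log_mul (by norm_num) (by positivity), Real.log_pow]
  have h31 : Real.log 31 ≤ 4 := by
    have h1 : Real.log 31 ≤ Real.log 32 := Real.log_le_log (by norm_num) (by norm_num)
    have h2 : Real.log 32 = 5 * Real.log 2 := by
      rw [show (32 : ℝ) = 2 ^ 5 by norm_num, Real.log_pow]
      norm_num
    have h3 := Real.log_two_lt_d9
    linarith
  push_cast
  linarith

/-- `6` is not in a prime over `p > 3`. -/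
theorem six_nmem {K : Type} [Field K] [NumberField K] (v : HeightOneSpectrum (𝓞 K)) {p : ℕ}
    (hp : p.Prime) (h3 : 3 < p) (hm : ((p : ℕ) : 𝓞 K) ∈ v.asIdeal) : (6 : 𝓞 K) ∉ v.asIdeal := by
  intro h6
  have hc : Nat.Coprime 6 p := by
    rw [Nat.coprime_comm, Nat.Prime.coprime_iff_not_dvd hp]
    intro hd
    have h62 : (6 : ℕ) = 2 * 3 := by norm_num
    rw [h62, hp.dvd_mul] at hd
    rcases hd with h | h
    · exact absurd (Nat.le_of_dvd (by norm_num) h) (by omega)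
    · exact absurd (Nat.le_of_dvd (by norm_num) h) (by omega)
  obtain ⟨a, b, hab⟩ := (Nat.isCoprime_iff_coprime.mpr hc)
  have h1 : (1 : 𝓞 K) ∈ v.asIdeal := by
    have e : (a : 𝓞 K) * 6 + (b : 𝓞 K) * ((p : ℕ) : 𝓞 K) = 1 := by
      exact_mod_cast congrArg (Int.cast : ℤ → 𝓞 K) hab
    rw [← e]
    exact v.asIdeal.add_mem (v.asIdeal.mul_mem_left _ h6) (v.asIdeal.mul_mem_left _ hm)
  exact v.isPrime.ne_top ((Ideal.eq_top_iff_one _).mpr h1)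

theorem mem_pr {p₀ N p : ℕ} : p ∈ pr p₀ N ↔ (p₀ < p ∧ p ≤ N) ∧ p.Prime := by
  rw [pr, Finset.mem_filter, Finset.mem_Ioc]

/-- The trace of a curve of the family. -/
theorem tr_le (h6 : S_TrMean) (h9 : S_Coord) {K : Type} [Field K] [NumberField K] (A B : 𝓞 K)
    {p : ℕ} (hp : p.Prime) (h3 : 3 < p) (v : HeightOneSpectrum (𝓞 K)) (hv : v ∈ D1 K p) :
    |(tr (short A B) v : ℝ)| ≤ 2 * √(p : ℝ) := by
  obtain ⟨a, ha, -⟩ := (h9 K).2.1 A
  obtain ⟨b, hb, -⟩ := (h9 K).2.1 B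
  have h := (h6 K p hp h3 v hv).2.1 (Sum.elim a b)
  have e : trp v (Sum.elim a b) = (tr (short A B) v : ℝ) := by
    have e1 : trp v (Sum.elim a b) = (tr (short (pt a) (pt b)) v : ℝ) := rfl
    rw [e1]
    have ha' : pt a = A := ha
    have hb' : pt b = B := hb
    rw [ha', hb']
  rwa [e] at h

/-- The sum of the roots is the trace of the given equation. -/
theorem sum_eq (h5 : S_TrGood) (h10 : S_Prim) {K : Type} [Field K] [NumberField K] (A B : 𝓞 K)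
    (M : HeightOneSpectrum (𝓞 K) → WeierstrassCurve (𝓞 K)) (α β : HeightOneSpectrum (𝓞 K) → ℂ)
    (hM : ∀ v, IsMinAt (crv A B) v (M v)) (hαβ : ∀ v, α v + β v = (tr (M v) v : ℂ))
    {p : ℕ} (hp : p.Prime) (h3 : 3 < p) (v : HeightOneSpectrum (𝓞 K)) (hv : v ∈ D1 K p)
    (he : 4 * A ^ 3 + 27 * B ^ 2 ∉ v.asIdeal) :
    α v + β v = ((tr (short A B) v : ℝ) : ℂ) := by
  have hpv : ((p : ℕ) : 𝓞 K) ∈ v.asIdeal := ((h10 K p hp).1 v).1 ((h10 K p hp).2.2.1 hv)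
  have h6v := six_nmem v hp h3 hpv
  have hne : 6 * (4 * A ^ 3 + 27 * B ^ 2) ∉ v.asIdeal := by
    intro h
    rcases v.isPrime.mem_or_mem h with h | h
    · exact h6v h
    · exact he h
  have h := ((h5 K A B v (M v) hne).1 (hM v)).2
  have h' : tr (M v) v = tr (short A B) v := by exact_mod_cast h
  rw [hαβ v, h']
  push_cast
  rfl

end MSCurveM

open MSCurveM in
theorem msCurve (h1 : S_BoxInfo) (h2 : S_SumBound) (h3 : S_Loc) (h4 : S_CoefP) (h5 : S_TrGood)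
    (h6 : S_TrMean) (h7 : S_Transfer) (h8 : S_Div) (h9 : S_Coord) (h10 : S_Prim) : S_MSCurve := by
  intro K _ _ σ₁ x c hσ hx78 hx1
  obtain ⟨B₀, hB₀⟩ := h2 K
  obtain ⟨κ, C₀, V₀, hκ, hC₀, hbox⟩ := h1 σ₁ x B₀ c hσ (by linarith) (by linarith)
  refine ⟨κ, C₀ + 56 * (Module.finrank ℚ K : ℝ) ^ 3, max V₀ 1, hκ, by positivity, ?_⟩
  intro V Y t₀ N hV hY hlY hN hNV A B hA hB hAB hzf
  have hV₀ : V₀ ≤ V := le_trans (le_max_left _ _) hV
  have hV1 : 1 ≤ V := le_trans (le_max_right _ _) hV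
  obtain ⟨M, F, hM, hFd, hFb, hFe⟩ := hzf
  obtain ⟨α, β, hloc, hbd, -, htr⟩ := h3 K M
  have hbd' : ∀ v, ‖α v‖ ≤ nm v + 1 ∧ ‖β v‖ ≤ nm v + 1 := fun v =>
    ⟨le_trans (hbd v).1 (root_bd (nm v)), le_trans (hbd v).2 (root_bd (nm v))⟩
  obtain ⟨hsum, hle⟩ := hB₀ α β hbd'
  obtain ⟨-, hexp⟩ := seriesz K α β M hloc hbd'
  have hlam : ∀ i, 1 ≤ lamE K i := by
    intro i
    have h := (N1.exists_prime i.1).1
    exact Nat.one_le_iff_ne_zero.mpr (pow_ne_zero _ (by omega))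
  have hline : ∀ t : ℝ, |t - t₀| < V ^ κ → F (3 + t * Complex.I) =
      Complex.exp (ser (lamE K) (tauE α β) (3 + t * Complex.I)) := by
    intro t ht
    have hre : ((3 : ℂ) + t * Complex.I).re = 3 := by simp
    have him : ((3 : ℂ) + t * Complex.I).im = t := by simp
    have hmem : (3 : ℂ) + t * Complex.I ∈ box σ₁ t₀ (V ^ κ) := by
      refine ⟨?_, ?_⟩
      · rw [hre]
        linarith
      · rw [him]
        exact ht
    rw [hFe _ hmem (by rw [hre]; norm_num)]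
    exact hexp _ hre
  have hmain := (hbox V t₀ N hV₀ hN hNV _ (lamE K) (tauE α β) hlam hsum hle F hFd hFb hline).1
    (pr 3 N) (by
      intro m hm
      have hm' := mem_pr.mp hm
      exact ⟨by omega, hm'.1.2⟩)
  have htrans := h7 K x (pr 3 N) (4 * A ^ 3 + 27 * B ^ 2) (fun v => α v + β v)
    (fun v => (tr (short A B) v : ℝ)) (by linarith) hAB (fun p hp => (mem_pr.mp hp).2) (by
      intro p hp v hv
      have hp' := mem_pr.mp hp
      exact ⟨tr_le h6 h9 A B hp'.2 hp'.1.1 v hv, fun he =>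
        sum_eq h5 h10 A B M α β hM (fun v => (htr v).1) hp'.2 hp'.1.1 v hv he⟩)
  have hdiv := (h8 K (4 * A ^ 3 + 27 * B ^ 2) (31 * Y ^ 3) hAB (by
    have : (1 : ℝ) ≤ Y ^ 3 := one_le_pow₀ hY
    linarith) (house_e hY hA hB)).2
  have hlog := log_e hY hV1 hlY
  have hcoef : ∑ p ∈ pr 3 N, ‖∑ v ∈ D1 K p, (α v + β v)‖ ^ 2 * (p : ℝ) ^ (-(2 * x)) =
      ∑ p ∈ pr 3 N, ‖coef (lamE K) (tauE α β) p‖ ^ 2 * (p : ℝ) ^ (-(2 * x)) := by
    refine Finset.sum_congr rfl fun p hp => ?_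
    rw [h4 K α β p (mem_pr.mp hp).2]
  have hn : (0 : ℝ) ≤ Module.finrank ℚ K := Nat.cast_nonneg _
  have hom : ({v : HeightOneSpectrum (𝓞 K) | 4 * A ^ 3 + 27 * B ^ 2 ∈ v.asIdeal}.ncard : ℝ) ≤
      14 * (Module.finrank ℚ K : ℝ) * V ^ 2 := by
    have hVV : V ≤ V ^ 2 := by nlinarith
    calc ({v : HeightOneSpectrum (𝓞 K) | 4 * A ^ 3 + 27 * B ^ 2 ∈ v.asIdeal}.ncard : ℝ) ≤
        2 * Module.finrank ℚ K * Real.log (31 * Y ^ 3) := hdiv
      _ ≤ 2 * Module.finrank ℚ K * (7 * V ^ 2) := by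
          refine mul_le_mul_of_nonneg_left ?_ (by positivity)
          linarith
      _ = 14 * (Module.finrank ℚ K : ℝ) * V ^ 2 := by ring
  calc ∑ p ∈ pr 3 N, (p : ℝ) ^ (-(2 * x)) * (∑ v ∈ D1 K p, (tr (short A B) v : ℝ)) ^ 2 ≤
      ∑ p ∈ pr 3 N, ‖∑ v ∈ D1 K p, (α v + β v)‖ ^ 2 * (p : ℝ) ^ (-(2 * x)) +
        4 * (Module.finrank ℚ K : ℝ) ^ 2 *
          ({v : HeightOneSpectrum (𝓞 K) | 4 * A ^ 3 + 27 * B ^ 2 ∈ v.asIdeal}.ncard : ℝ) := htrans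
    _ ≤ C₀ * V ^ 2 + 4 * (Module.finrank ℚ K : ℝ) ^ 2 *
          (14 * (Module.finrank ℚ K : ℝ) * V ^ 2) := by
        rw [hcoef]
        exact add_le_add hmain (mul_le_mul_of_nonneg_left hom (by positivity))
    _ = (C₀ + 56 * (Module.finrank ℚ K : ℝ) ^ 3) * V ^ 2 := by ring

end MP7ed9c3.Tz
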