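import Pool.Agent.Lib.MP_7ed9c3_nt.Tz.SpecM

/-!
# MP_7ed9c3_nt, part Tz: the moments of a sum of periodic functions
-/

set_option autoImplicit false

namespace MP7ed9c3.Tz

namespace MomentM

/-- multiplicity of a value -/
def mu {N : ℕ} {α : Type} [DecidableEq α] (t : Fin N → α) (p : α) : ℕ :=
  (Finset.univ.filter (fun i => t i = p)).card

theorem mu_zero {N : ℕ} {α : Type} [DecidableEq α] (t : Fin N → α) (p : α)
    (h : p ∉ Finset.univ.image t) : mu t p = 0 := by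
  unfold mu
  rw [Finset.card_eq_zero, Finset.filter_eq_empty_iff]
  intro i _ hi
  exact h (Finset.mem_image.2 ⟨i, Finset.mem_univ i, hi⟩)

theorem prod_image {N : ℕ} {α : Type} [DecidableEq α] (t : Fin N → α) (g : α → ℝ) :
    ∏ i, g (t i) = ∏ p ∈ Finset.univ.image t, g p ^ mu t p := Finset.prod_comp g t

theorem prod_all {N : ℕ} {α : Type} [DecidableEq α] [Fintype α] (t : Fin N → α) (g : α → ℝ) :
    ∏ i, g (t i) = ∏ p, g p ^ mu t p := by
  rw [prod_image]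
  refine Finset.prod_subset (Finset.subset_univ _) fun p _ hp => ?_
  rw [mu_zero t p hp, pow_zero]

variable {ι : Type} [Fintype ι]

theorem bsum_sum {κ : Type} [Fintype κ] (L : ℕ) (A₀ : ι → ℤ) (F : κ → (ι → ℤ) → ℝ) :
    bsum L A₀ (fun a => ∑ k, F k a) = ∑ k, bsum L A₀ (F k) := by
  unfold bsum
  rw [Finset.sum_comm]

theorem mean_one {p : ℕ} (hp : 0 < p) : mean p (fun _ : ι → ℤ => (1 : ℝ)) = 1 := by
  classical
  have hp' : (p : ℝ) ≠ 0 := by exact_mod_cast hp.ne'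
  unfold mean
  rw [Finset.sum_const, Finset.card_univ, nsmul_eq_mul, mul_one, Fintype.card_fun,
    Fintype.card_fin]
  push_cast
  exact div_self (pow_ne_zero _ hp')

open Classical in
theorem sum_eq_mean {p : ℕ} (hp : 0 < p) (h : (ι → ℤ) → ℝ) :
    ∑ a : ι → Fin p, h (fun i => ((a i : ℕ) : ℤ)) = (p : ℝ) ^ Fintype.card ι * mean p h := by
  have hp' : (p : ℝ) ≠ 0 := by exact_mod_cast hp.ne'
  unfold mean
  field_simp

theorem sum_inst {α : Type} (i j : Fintype α) (f : α → ℝ) :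
    @Finset.sum α ℝ _ (@Finset.univ α i) f = @Finset.sum α ℝ _ (@Finset.univ α j) f := by
  rw [Subsingleton.elim i j]

end MomentM

open MomentM in
open Classical in
theorem moment (h1 : S_Equi) (h2 : S_Hoeff) : S_Moment := by
  intro ι _ _ x L J P H h A₀ hJ hP hL
  rcases Nat.eq_zero_or_pos L with hL0 | hLpos
  · subst hL0
    obtain ⟨i0⟩ := (inferInstance : Nonempty ι)
    have hem : IsEmpty (ι → Fin 0) := ⟨fun a => (a i0).elim0⟩
    unfold bsum
    rw [Finset.univ_eq_empty, Finset.sum_empty]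
    positivity
  have hL' : (0 : ℝ) < L := by exact_mod_cast hLpos
  set n := Fintype.card ι with hn
  have hn1 : 1 ≤ n := Fintype.card_pos
  have hH0 : ∀ p ∈ P, 0 ≤ H p := fun p hp =>
    (abs_nonneg (h p 0)).trans ((hP p hp).2.2.2.1 0)
  have hpos : ∀ p ∈ P, 0 < p := fun p hp => (hP p hp).1.pos
  -- the expansion
  have hexp : (fun a : ι → ℤ => (∑ p ∈ P, h p a) ^ (2 * J)) =
      fun a => ∑ τ : Fin (2 * J) → P, ∏ i, h (τ i) a := by
    funext a
    rw [← Finset.sum_coe_sort, Fintype.sum_pow]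
  set E : (Fin (2 * J) → P) → ℝ := fun τ => ∏ p : P, mean (p : ℕ) (fun a => h p a ^ mu τ p) with hE
  -- one term
  have hterm : ∀ τ : Fin (2 * J) → P, bsum L A₀ (fun a => ∏ i, h (τ i) a) * L ≤
      (L : ℝ) ^ n * E τ * L + 2 * n * (x : ℝ) ^ (2 * J) * (L : ℝ) ^ n * ∏ i, H (τ i) := by
    intro τ
    let t : Fin (2 * J) → ℕ := fun i => (τ i : ℕ)
    have ht : ∀ i, t i ∈ P := fun i => (τ i).2
    have hmu : ∀ p : P, mu t (p : ℕ) = mu τ p := by
      intro p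
      unfold mu
      congr 1
      ext i
      simp only [Finset.mem_filter, Finset.mem_univ, true_and, t]
      exact ⟨fun h => Subtype.ext h, fun h => by rw [h]⟩
    set T := Finset.univ.image t with hT
    have hTP : T ⊆ P := by
      intro p hp
      obtain ⟨i, -, rfl⟩ := Finset.mem_image.1 hp
      exact ht i
    have hTc : T.card ≤ 2 * J := by
      refine Finset.card_image_le.trans ?_
      rw [Finset.card_univ, Fintype.card_fin]
    have hx1 : 1 ≤ x := by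
      have i0 : Fin (2 * J) := ⟨0, by omega⟩
      exact (hpos _ (ht i0)).trans_le ((hP _ (ht i0)).2.1)
    have hTx : ∏ p ∈ T, p ≤ x ^ (2 * J) := by
      refine (Finset.prod_le_pow_card T (fun p => p) x fun p hp => (hP p (hTP hp)).2.1).trans ?_
      exact Nat.pow_le_pow_right hx1 hTc
    have hTL : ∏ p ∈ T, p ≤ L := by
      refine hTx.trans (le_trans ?_ hL)
      have h3 : x ^ (2 * J) ≤ x ^ (3 * J) := Nat.pow_le_pow_right hx1 (by omega)
      nlinarith [Nat.one_le_pow (3 * J) x hx1]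
    have h3 := h1 ι T (fun p a => h p a ^ mu t p) (fun p => H p ^ mu t p) L A₀
      (fun p hp => ⟨(hP p (hTP hp)).1, fun a b => by
        have h4 := (hP p (hTP hp)).2.2.1 a b
        change h p (a + (p : ℤ) • b) ^ mu t p = h p a ^ mu t p
        rw [h4], fun a => by
        rw [abs_pow]
        exact pow_le_pow_left₀ (abs_nonneg _) ((hP p (hTP hp)).2.2.2.1 a) _⟩) hTL
    have e1 : (fun a : ι → ℤ => ∏ p ∈ T, h p a ^ mu t p) = fun a => ∏ i, h (τ i) a := by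
      funext a
      exact (prod_image t (fun p => h p a)).symm
    have e2 : ∏ p ∈ T, H p ^ mu t p = ∏ i, H (τ i) := (prod_image t H).symm
    have e3 : ∏ p ∈ T, mean p (fun a : ι → ℤ => h p a ^ mu t p) = E τ := by
      rw [Finset.prod_subset hTP, ← Finset.prod_coe_sort, hE]
      · refine Finset.prod_congr rfl fun p _ => ?_
        rw [hmu p]
      · intro p hp hpT
        rw [mu_zero t p hpT]
        simp only [pow_zero]
        exact mean_one (hpos p hp)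
    rw [e1, e2, e3, ← hn] at h3
    have h5 : 0 ≤ ∏ i, H (τ i) := Finset.prod_nonneg fun i _ => hH0 _ (τ i).2
    have h6 : (∏ p ∈ T, (p : ℝ)) ≤ (x : ℝ) ^ (2 * J) := by
      have h9 := (Nat.cast_le (α := ℝ)).2 hTx
      rw [Nat.cast_prod, Nat.cast_pow] at h9
      exact h9
    have h7 : 2 * (n : ℝ) * (∏ p ∈ T, (p : ℝ)) * (L : ℝ) ^ n * ∏ i, H (τ i) ≤
        2 * n * (x : ℝ) ^ (2 * J) * (L : ℝ) ^ n * ∏ i, H (τ i) := by
      refine mul_le_mul_of_nonneg_right (mul_le_mul_of_nonneg_right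
        (mul_le_mul_of_nonneg_left h6 (by positivity)) (by positivity)) h5
    have h8 := mul_le_mul_of_nonneg_right (le_abs_self
      (bsum L A₀ (fun a => ∏ i, h (τ i) a) - (L : ℝ) ^ n * E τ)) hL'.le
    rw [sub_mul] at h8
    linarith
  -- the sum of the main terms
  have hmain : ∑ τ : Fin (2 * J) → P, E τ ≤ (6 * J * ∑ p ∈ P, H p ^ 2) ^ J := by
    have h3 := h2 P (fun p => ι → Fin (p : ℕ)) (fun p ω => h p (fun i => ((ω i : ℕ) : ℤ)))
      (fun p => H p) J hJ (fun p => by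
        rw [sum_eq_mean (hpos _ p.2) (h p), (hP _ p.2).2.2.2.2, mul_zero])
      (fun p ω => (hP _ p.2).2.2.2.1 _)
    have hcard : ∀ p : P, (Fintype.card (ι → Fin (p : ℕ)) : ℝ) = (p : ℝ) ^ n := by
      intro p
      rw [Fintype.card_fun, Fintype.card_fin]
      push_cast
      rfl
    have h4 : ∑ ω : (∀ p : P, ι → Fin (p : ℕ)),
        (∑ p : P, h p (fun i => ((ω p i : ℕ) : ℤ))) ^ (2 * J) =
        (∏ p : P, (p : ℝ) ^ n) * ∑ τ : Fin (2 * J) → P, E τ := by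
      have h5 : ∀ ω : (∀ p : P, ι → Fin (p : ℕ)),
          (∑ p : P, h p (fun i => ((ω p i : ℕ) : ℤ))) ^ (2 * J) =
          ∑ τ : Fin (2 * J) → P, ∏ p : P, h p (fun i => ((ω p i : ℕ) : ℤ)) ^ mu τ p := by
        intro ω
        rw [Fintype.sum_pow]
        exact Finset.sum_congr rfl fun τ _ =>
          prod_all τ (fun p : P => h p (fun i => ((ω p i : ℕ) : ℤ)))
      rw [Finset.sum_congr rfl fun ω _ => h5 ω, Finset.sum_comm, Finset.mul_sum]
      refine Finset.sum_congr rfl fun τ _ => ?_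
      have h6 : ∑ ω : (∀ p : P, ι → Fin (p : ℕ)),
          ∏ p : P, h p (fun i => ((ω p i : ℕ) : ℤ)) ^ mu τ p =
          ∏ p : P, ∑ a : ι → Fin (p : ℕ), h p (fun i => ((a i : ℕ) : ℤ)) ^ mu τ p := by
        rw [Finset.prod_univ_sum, Fintype.piFinset_univ]
      rw [h6, hE, ← Finset.prod_mul_distrib]
      refine Finset.prod_congr rfl fun p _ => ?_
      exact sum_eq_mean (hpos _ p.2) (fun a => h p a ^ mu τ p)
    have h3' : ∑ ω : (∀ p : P, ι → Fin (p : ℕ)),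
        (∑ p : P, h p (fun i => ((ω p i : ℕ) : ℤ))) ^ (2 * J) ≤
        (∏ p : P, (Fintype.card (ι → Fin (p : ℕ)) : ℝ)) * (6 * J * ∑ p : P, H p ^ 2) ^ J := by
      exact (sum_inst _ _ _).trans_le h3
    rw [h4, Finset.prod_congr rfl fun p _ => hcard p] at h3'
    have h5 : 0 < ∏ p : P, (p : ℝ) ^ n := Finset.prod_pos fun p _ =>
      pow_pos (by exact_mod_cast hpos _ p.2) _
    have h6 := le_of_mul_le_mul_left h3' h5
    have h7 : ∑ p : P, H p ^ 2 = ∑ p ∈ P, H p ^ 2 := Finset.sum_coe_sort P (fun p => H p ^ 2)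
    rw [h7] at h6
    exact h6
  -- the sum of the errors
  have hS0 : 0 ≤ ∑ p ∈ P, H p ^ 2 := Finset.sum_nonneg fun p _ => sq_nonneg _
  have herr : ∑ τ : Fin (2 * J) → P, ∏ i, H (τ i) ≤ (x : ℝ) ^ J * (∑ p ∈ P, H p ^ 2) ^ J := by
    have h3 : ∑ τ : Fin (2 * J) → P, ∏ i, H (τ i) = (∑ p ∈ P, H p) ^ (2 * J) := by
      rw [← Finset.sum_coe_sort P (fun p => H p), Fintype.sum_pow]
    have hcard : (P.card : ℝ) ≤ x := by
      have h4 : P ⊆ Finset.Icc 1 x := fun p hp =>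
        Finset.mem_Icc.2 ⟨hpos p hp, (hP p hp).2.1⟩
      have h5 := Finset.card_le_card h4
      rw [Nat.card_Icc, Nat.add_sub_cancel] at h5
      exact_mod_cast h5
    rw [h3, pow_mul, ← mul_pow]
    refine pow_le_pow_left₀ (sq_nonneg _) ?_ J
    exact (sq_sum_le_card_mul_sum_sq (s := P) (f := H)).trans
      (mul_le_mul_of_nonneg_right hcard hS0)
  -- assembly
  rw [hexp, bsum_sum]
  have h3 : (∑ τ : Fin (2 * J) → P, bsum L A₀ (fun a => ∏ i, h (τ i) a)) * L ≤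
      (L : ℝ) ^ n * (∑ τ : Fin (2 * J) → P, E τ) * L +
        2 * n * (x : ℝ) ^ (2 * J) * (L : ℝ) ^ n * ∑ τ : Fin (2 * J) → P, ∏ i, H (τ i) := by
    rw [Finset.sum_mul, Finset.mul_sum, Finset.sum_mul, Finset.mul_sum, ← Finset.sum_add_distrib]
    exact Finset.sum_le_sum fun τ _ => hterm τ
  have h4 : 2 * n * (x : ℝ) ^ (2 * J) * (L : ℝ) ^ n * ∑ τ : Fin (2 * J) → P, ∏ i, H (τ i) ≤
      (L : ℝ) ^ n * (∑ p ∈ P, H p ^ 2) ^ J * L := by
    have h5 : 2 * (n : ℝ) * (x : ℝ) ^ (3 * J) ≤ L := by exact_mod_cast hL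
    have h6 : (x : ℝ) ^ (2 * J) * (x : ℝ) ^ J = (x : ℝ) ^ (3 * J) := by
      rw [← pow_add]
      congr 1
      omega
    calc 2 * n * (x : ℝ) ^ (2 * J) * (L : ℝ) ^ n * ∑ τ : Fin (2 * J) → P, ∏ i, H (τ i)
        ≤ 2 * n * (x : ℝ) ^ (2 * J) * (L : ℝ) ^ n * ((x : ℝ) ^ J * (∑ p ∈ P, H p ^ 2) ^ J) :=
          mul_le_mul_of_nonneg_left herr (by positivity)
      _ = (L : ℝ) ^ n * (∑ p ∈ P, H p ^ 2) ^ J * (2 * n * (x : ℝ) ^ (3 * J)) := by
          rw [← h6]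
          ring
      _ ≤ (L : ℝ) ^ n * (∑ p ∈ P, H p ^ 2) ^ J * L :=
          mul_le_mul_of_nonneg_left h5 (by positivity)
  have h5 : (∑ p ∈ P, H p ^ 2) ^ J ≤ (6 * J * ∑ p ∈ P, H p ^ 2) ^ J := by
    refine pow_le_pow_left₀ hS0 ?_ J
    have hJ' : (1 : ℝ) ≤ J := by exact_mod_cast hJ
    nlinarith
  have h6 : (L : ℝ) ^ n * (∑ τ : Fin (2 * J) → P, E τ) * L ≤
      (L : ℝ) ^ n * (6 * J * ∑ p ∈ P, H p ^ 2) ^ J * L :=
    mul_le_mul_of_nonneg_right (mul_le_mul_of_nonneg_left hmain (by positivity)) hL'.le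
  have h7 : (L : ℝ) ^ n * (∑ p ∈ P, H p ^ 2) ^ J * L ≤
      (L : ℝ) ^ n * (6 * J * ∑ p ∈ P, H p ^ 2) ^ J * L :=
    mul_le_mul_of_nonneg_right (mul_le_mul_of_nonneg_left h5 (by positivity)) hL'.le
  refine le_of_mul_le_mul_right ?_ hL'
  calc (∑ τ : Fin (2 * J) → P, bsum L A₀ (fun a => ∏ i, h (τ i) a)) * L ≤ _ := h3
    _ ≤ (L : ℝ) ^ n * (6 * J * ∑ p ∈ P, H p ^ 2) ^ J * L +
        (L : ℝ) ^ n * (6 * J * ∑ p ∈ P, H p ^ 2) ^ J * L := add_le_add h6 (h4.trans h7)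
    _ = 2 * (L : ℝ) ^ n * (6 * J * ∑ p ∈ P, H p ^ 2) ^ J * L := by ring

end MP7ed9c3.Tz
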