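import Pool.Agent.Lib.MP_7ed9c3_nt.Tz.SpecS
import Pool.Agent.Lib.MP_7ed9c3_nt.Tw.D6a
import Pool.Agent.Lib.MP_7ed9c3_nt.N1
import Pool.Agent.Lib.MP_7ed9c3_nt.N5

/-!
# MP_7ed9c3_nt, part Tz, S4: the size of the second order part
-/

set_option autoImplicit false

namespace MP7ed9c3.Tz

open NumberField IsDedekindDomain Filter Topology MP7ed9c3.Tw MP7ed9c3.Zs

namespace QM

theorem exp_three : (20 : ℝ) ≤ Real.exp 3 := by
  have h1 := Real.exp_one_gt_d9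
  have h2 : Real.exp 3 = Real.exp 1 ^ 3 := by
    rw [← Real.exp_nat_mul]
    norm_num
  rw [h2]
  have h3 : (2.7182818283 : ℝ) ^ 3 ≤ Real.exp 1 ^ 3 :=
    pow_le_pow_left₀ (by norm_num) h1.le 3
  refine le_trans ?_ h3
  norm_num

theorem exp_ineq {y r : ℝ} {l : ℕ} (hr0 : 0 < r) (hr : r ≤ 17 / 8) (hy : 8 * (l : ℝ) ≤ y) :
    y ^ l / l.factorial ≤ Real.exp (y / 2) / r ^ l := by
  rcases Nat.eq_zero_or_pos l with hk | hk
  · subst hk
    have h0 : 0 ≤ y / 2 := by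
      have : 0 ≤ y := by simpa using hy
      linarith
    simpa using Real.one_le_exp h0
  · have hk' : (0 : ℝ) < l := by exact_mod_cast hk
    obtain ⟨u, hyu⟩ : ∃ u : ℝ, y = u * l := ⟨y / l, by field_simp⟩
    subst hyu
    have hu8 : 8 ≤ u := le_of_mul_le_mul_right hy hk'
    have h1 : r * u ≤ Real.exp (u / 2 - 1) := by
      have h2 : Real.exp (u / 2 - 1) = Real.exp 3 * Real.exp (u / 2 - 4) := by
        rw [← Real.exp_add]
        congr 1
        ring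
      have h3 := Real.add_one_le_exp (u / 2 - 4)
      have h4 := exp_three
      have h5 : 20 * (u / 2 - 3) ≤ Real.exp 3 * Real.exp (u / 2 - 4) :=
        mul_le_mul h4 (by linarith) (by linarith) (Real.exp_pos _).le
      rw [h2]
      nlinarith
    have h2 : (l : ℝ) ^ l / l.factorial ≤ Real.exp l :=
      Real.pow_div_factorial_le_exp _ hk'.le l
    have h3 : (0 : ℝ) ≤ r * u := mul_nonneg hr0.le (by linarith)
    rw [le_div_iff₀ (pow_pos hr0 l)]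
    calc (u * l) ^ l / l.factorial * r ^ l = (r * u) ^ l * ((l : ℝ) ^ l / l.factorial) := by ring
      _ ≤ Real.exp (u / 2 - 1) ^ l * Real.exp l :=
          mul_le_mul (pow_le_pow_left₀ h3 h1 l) h2 (by positivity) (by positivity)
      _ = Real.exp (u * l / 2) := by
          rw [← Real.exp_nat_mul, ← Real.exp_add]
          congr 1
          ring

theorem central (L : ℝ) (l : ℕ) :
    (2 * L) ^ (2 * l) / (2 * l).factorial ≤ (2 * l + 1) * (L ^ l / l.factorial) ^ 2 := by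
  have h1 : (4 : ℝ) ^ l ≤ (2 * l + 1) * l.centralBinom := by
    rcases Nat.eq_zero_or_pos l with hk | hk
    · subst hk
      simp
    · have h2 := Nat.four_pow_le_two_mul_self_mul_centralBinom l hk
      have h3 : (4 : ℝ) ^ l ≤ 2 * l * l.centralBinom := by exact_mod_cast h2
      have h4 : (0 : ℝ) ≤ l.centralBinom := Nat.cast_nonneg _
      nlinarith
  have h2 : ((2 * l).factorial : ℝ) = l.centralBinom * (l.factorial : ℝ) ^ 2 := by
    have h3 := Nat.choose_mul_factorial_mul_factorial (n := 2 * l) (k := l) (by omega)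
    have h4 : 2 * l - l = l := by omega
    rw [h4] at h3
    rw [Nat.centralBinom_eq_two_mul_choose, ← h3]
    push_cast
    ring
  have hf : (0 : ℝ) < l.factorial := by exact_mod_cast Nat.factorial_pos l
  have hc : (0 : ℝ) < l.centralBinom := by exact_mod_cast Nat.centralBinom_pos l
  have h5 : (2 * L) ^ (2 * l) = 4 ^ l * (L ^ l) ^ 2 := by
    rw [pow_mul, mul_pow, mul_pow]
    norm_num
    rw [← pow_mul, ← pow_mul, mul_comm]
  rw [h2, h5, div_le_iff₀ (by positivity)]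
  have h6 : (2 * (l : ℝ) + 1) * (L ^ l / l.factorial) ^ 2 * (l.centralBinom * (l.factorial : ℝ) ^ 2) =
      (2 * l + 1) * l.centralBinom * (L ^ l) ^ 2 := by
    field_simp
  rw [h6]
  exact mul_le_mul_of_nonneg_right h1 (by positivity)

theorem final_alg {F U G H S L c : ℝ} (hF : 0 ≤ F) (hU : 0 ≤ U) (hG : 0 ≤ G) (hH : 0 ≤ H)
    (hS : 0 ≤ S) (hL : 0 ≤ L) (hc : 0 ≤ c) :
    F * c + (2 * L + 1) * c * (S + 4 * U + 4 * G + 4 * H) ≤
      c * ((F + 1 + (4 * U + 4 * G + 4 * H)) * ((2 * L + 1) * (S + 1))) := by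
  obtain ⟨W, hW⟩ : ∃ W : ℝ, W = 4 * U + 4 * G + 4 * H := ⟨_, rfl⟩
  have hW0 : 0 ≤ W := by linarith
  have e1 : S + 4 * U + 4 * G + 4 * H = S + W := by linarith
  rw [e1, ← hW]
  have e2 : F * c + (2 * L + 1) * c * (S + W) = c * (F + (2 * L + 1) * (S + W)) := by ring
  rw [e2]
  refine mul_le_mul_of_nonneg_left ?_ hc
  have h1 : (1 : ℝ) ≤ (2 * L + 1) * (S + 1) :=
    one_le_mul_of_one_le_of_one_le (by linarith) (by linarith)
  have h2 : F ≤ F * ((2 * L + 1) * (S + 1)) := le_mul_of_one_le_right hF h1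
  have h3 : S + W ≤ (1 + W) * (S + 1) := by
    have h4 := mul_nonneg hW0 hS
    have e3 : (1 + W) * (S + 1) = S + W + (1 + W * S) := by ring
    rw [e3]
    linarith
  have h5 : (2 * L + 1) * (S + W) ≤ (2 * L + 1) * ((1 + W) * (S + 1)) :=
    mul_le_mul_of_nonneg_left h3 (by linarith)
  have e4 : (F + 1 + W) * ((2 * L + 1) * (S + 1)) =
      F * ((2 * L + 1) * (S + 1)) + (2 * L + 1) * ((1 + W) * (S + 1)) := by ring
  rw [e4]
  exact add_le_add h2 h5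

theorem two_pow_le {r : ℝ} (hr0 : 0 < r) (hr : 2 * r ≤ 5) (k : ℕ) :
    (2 : ℝ) ^ k * (1 / 5 ^ k) ≤ 1 / r ^ k := by
  rw [mul_one_div, div_le_div_iff₀ (by positivity) (by positivity), one_mul, ← mul_pow]
  exact pow_le_pow_left₀ (by positivity) hr _

theorem lead_eq (k : ℕ) : 1 / (2 * (k : ℝ) * 2 ^ k) = (2 : ℝ) ^ k * (1 / (2 * (k : ℝ) * 4 ^ k)) := by
  have h11 : (4 : ℝ) ^ k = 2 ^ k * 2 ^ k := by
    rw [← mul_pow]
    norm_num
  rw [h11]
  rcases Nat.eq_zero_or_pos k with hk | hk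
  · subst hk
    simp
  · have hk' : (k : ℝ) ≠ 0 := by exact_mod_cast hk.ne'
    field_simp

variable {K : Type} [Field K] [NumberField K]

theorem nm_two (v : HeightOneSpectrum (𝓞 K)) : (2 : ℝ) ≤ nm v := by
  exact_mod_cast (N1.exists_prime v).1

theorem wk_nonneg (k : ℕ) (v : HeightOneSpectrum (𝓞 K)) : 0 ≤ wk k v := by
  unfold wk
  have h0 := nm_two v
  have h1 : 0 ≤ Real.log (nm v) := Real.log_nonneg (by linarith)
  exact mul_nonneg (Real.rpow_nonneg (by linarith) _)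
    (div_nonneg (pow_nonneg h1 k) (Nat.cast_nonneg _))

/-- The weight of the second order part. -/
noncomputable def uk (k : ℕ) (v : HeightOneSpectrum (𝓞 K)) : ℝ :=
  (nm v : ℝ) ^ (-(6 : ℝ)) * ((2 * Real.log (nm v)) ^ k / k.factorial)

theorem uk_nonneg (k : ℕ) (v : HeightOneSpectrum (𝓞 K)) : 0 ≤ uk k v := by
  unfold uk
  have h0 := nm_two v
  have h1 : 0 ≤ Real.log (nm v) := Real.log_nonneg (by linarith)
  exact mul_nonneg (Real.rpow_nonneg (by linarith) _)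
    (div_nonneg (pow_nonneg (by linarith) k) (Nat.cast_nonneg _))

theorem uk_le (l : ℕ) (v : HeightOneSpectrum (𝓞 K)) :
    uk (2 * l) v ≤ (2 * l + 1) * wk l v ^ 2 := by
  have h0 := nm_two v
  have h3 : 0 < (nm v : ℝ) := by linarith
  unfold uk wk
  calc (nm v : ℝ) ^ (-(6 : ℝ)) * ((2 * Real.log (nm v)) ^ (2 * l) / (2 * l).factorial)
      ≤ (nm v : ℝ) ^ (-(6 : ℝ)) * ((2 * l + 1) * (Real.log (nm v) ^ l / l.factorial) ^ 2) :=
        mul_le_mul_of_nonneg_left (central _ l) (Real.rpow_nonneg h3.le _)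
    _ = _ := by
        have h4 : (nm v : ℝ) ^ (-(6 : ℝ)) = ((nm v : ℝ) ^ (-(3 : ℝ))) ^ 2 := by
          rw [← Real.rpow_natCast, ← Real.rpow_mul h3.le]
          norm_num
        rw [h4]
        ring

/-- The term of `Psi`. -/
noncomputable def ps (k : ℕ) (v : HeightOneSpectrum (𝓞 K)) : ℝ :=
  (nm v : ℝ) ^ (-(5 : ℝ)) * (Real.log (nm v) ^ k / k.factorial)

theorem nm_uk (k : ℕ) (v : HeightOneSpectrum (𝓞 K)) : (nm v : ℝ) * uk k v = 2 ^ k * ps k v := by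
  have h0 := nm_two v
  have h3 : 0 < (nm v : ℝ) := by linarith
  unfold uk ps
  have h4 : (nm v : ℝ) ^ (-(5 : ℝ)) = nm v * (nm v : ℝ) ^ (-(6 : ℝ)) := by
    nth_rewrite 2 [← Real.rpow_one (nm v : ℝ)]
    rw [← Real.rpow_add h3]
    norm_num
  rw [h4, mul_pow]
  ring

theorem ps_le (k : ℕ) (v : HeightOneSpectrum (𝓞 K)) : ps k v ≤ 1 / 5 ^ k := by
  have h0 := nm_two v
  have h3 : 0 < (nm v : ℝ) := by linarith
  have h1 := uni (z := (nm v : ℝ)) (ρ := 5) (by linarith) (by norm_num) k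
  unfold ps
  calc (nm v : ℝ) ^ (-(5 : ℝ)) * (Real.log (nm v) ^ k / k.factorial)
      ≤ (nm v : ℝ) ^ (-(5 : ℝ)) * ((nm v : ℝ) ^ (5 : ℝ) / 5 ^ k) :=
        mul_le_mul_of_nonneg_left h1 (Real.rpow_nonneg h3.le _)
    _ = 1 / 5 ^ k := by
        rw [Real.rpow_neg h3.le, mul_div_assoc', inv_mul_cancel₀ (Real.rpow_pos_of_pos h3 _).ne']

theorem wsq_le {x : ℝ} (hx1 : x < 1) (l : ℕ) (v : HeightOneSpectrum (𝓞 K)) :
    wk l v ^ 2 ≤ (nm v : ℝ) ^ (-(2 * x)) / (3 - x) ^ (2 * l) := by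
  have h2 := nm_two v
  have hr : 0 < 3 - x := by linarith
  have h3 : 0 < (nm v : ℝ) := by linarith
  have h1 := uni (z := (nm v : ℝ)) (ρ := 3 - x) (by linarith) hr l
  have h4 : wk l v ≤ (nm v : ℝ) ^ (-x) / (3 - x) ^ l := by
    unfold wk
    calc (nm v : ℝ) ^ (-(3 : ℝ)) * (Real.log (nm v) ^ l / l.factorial)
        ≤ (nm v : ℝ) ^ (-(3 : ℝ)) * ((nm v : ℝ) ^ (3 - x) / (3 - x) ^ l) :=
          mul_le_mul_of_nonneg_left h1 (Real.rpow_nonneg h3.le _)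
      _ = (nm v : ℝ) ^ (-(3 : ℝ) + (3 - x)) / (3 - x) ^ l := by
          rw [Real.rpow_add h3]
          ring
      _ = (nm v : ℝ) ^ (-x) / (3 - x) ^ l := by
          congr 2
          ring
  calc wk l v ^ 2 ≤ ((nm v : ℝ) ^ (-x) / (3 - x) ^ l) ^ 2 :=
        pow_le_pow_left₀ (wk_nonneg l v) h4 2
    _ = (nm v : ℝ) ^ (-(2 * x)) / (3 - x) ^ (2 * l) := by
        rw [div_pow, ← pow_mul, mul_comm l 2, ← Real.rpow_natCast, ← Real.rpow_mul h3.le]
        congr 2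
        push_cast
        ring

theorem wsq_tail {x : ℝ} (hx : 7 / 8 ≤ x) (hx1 : x < 1) (l : ℕ) (v : HeightOneSpectrum (𝓞 K))
    (hv : Real.exp (8 * l) ≤ nm v) :
    wk l v ^ 2 ≤ (nm v : ℝ) ^ (-(5 : ℝ)) / (3 - x) ^ (2 * l) := by
  have h2 := nm_two v
  have hr : 0 < 3 - x := by linarith
  have h3 : 0 < (nm v : ℝ) := by linarith
  have hy : 8 * (l : ℝ) ≤ Real.log (nm v) := by
    rw [Real.le_log_iff_exp_le h3]
    exact hv
  have h1 := exp_ineq (r := 3 - x) hr (by linarith) hy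
  have h5 : Real.exp (Real.log (nm v) / 2) = (nm v : ℝ) ^ (1 / 2 : ℝ) := by
    rw [Real.rpow_def_of_pos h3]
    congr 1
    ring
  rw [h5] at h1
  have h4 : wk l v ≤ (nm v : ℝ) ^ (-(5 / 2) : ℝ) / (3 - x) ^ l := by
    unfold wk
    calc (nm v : ℝ) ^ (-(3 : ℝ)) * (Real.log (nm v) ^ l / l.factorial)
        ≤ (nm v : ℝ) ^ (-(3 : ℝ)) * ((nm v : ℝ) ^ (1 / 2 : ℝ) / (3 - x) ^ l) :=
          mul_le_mul_of_nonneg_left h1 (Real.rpow_nonneg h3.le _)
      _ = (nm v : ℝ) ^ (-(3 : ℝ) + 1 / 2) / (3 - x) ^ l := by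
          rw [Real.rpow_add h3]
          ring
      _ = (nm v : ℝ) ^ (-(5 / 2) : ℝ) / (3 - x) ^ l := by
          congr 2
          norm_num
  calc wk l v ^ 2 ≤ ((nm v : ℝ) ^ (-(5 / 2) : ℝ) / (3 - x) ^ l) ^ 2 :=
        pow_le_pow_left₀ (wk_nonneg l v) h4 2
    _ = (nm v : ℝ) ^ (-(5 : ℝ)) / (3 - x) ^ (2 * l) := by
        rw [div_pow, ← pow_mul, mul_comm l 2, ← Real.rpow_natCast, ← Real.rpow_mul h3.le]
        norm_num

theorem sq_le {a q : ℝ} (hq : 0 ≤ q) (h : |a| ≤ 2 * √q) : a ^ 2 ≤ 4 * q := by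
  have h1 : |a| ^ 2 ≤ (2 * √q) ^ 2 := pow_le_pow_left₀ (abs_nonneg a) h 2
  rw [sq_abs, mul_pow, Real.sq_sqrt hq] at h1
  linarith

/-- General bound of a term. -/
theorem term_le {x a : ℝ} (hx1 : x < 1) (l : ℕ) (v : HeightOneSpectrum (𝓞 K))
    (ha : |a| ≤ 2 * √(nm v : ℝ)) :
    a ^ 2 * wk l v ^ 2 ≤ 4 * (nm v : ℝ) ^ (1 - 2 * x) / (3 - x) ^ (2 * l) := by
  have h2 := nm_two v
  have h3 : 0 < (nm v : ℝ) := by linarith
  calc a ^ 2 * wk l v ^ 2
      ≤ (4 * nm v) * ((nm v : ℝ) ^ (-(2 * x)) / (3 - x) ^ (2 * l)) :=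
        mul_le_mul (sq_le h3.le ha) (wsq_le hx1 l v) (sq_nonneg _) (by linarith)
    _ = 4 * (nm v : ℝ) ^ (1 - 2 * x) / (3 - x) ^ (2 * l) := by
        rw [show (1 : ℝ) - 2 * x = 1 + -(2 * x) by ring, Real.rpow_add h3, Real.rpow_one]
        ring

theorem term_tail {x a : ℝ} (hx : 7 / 8 ≤ x) (hx1 : x < 1) (l : ℕ) (v : HeightOneSpectrum (𝓞 K))
    (ha : |a| ≤ 2 * √(nm v : ℝ)) (hv : Real.exp (8 * l) ≤ nm v) :
    a ^ 2 * wk l v ^ 2 ≤ 4 * (nm v : ℝ) ^ (-(4 : ℝ)) / (3 - x) ^ (2 * l) := by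
  have h2 := nm_two v
  have h3 : 0 < (nm v : ℝ) := by linarith
  calc a ^ 2 * wk l v ^ 2
      ≤ (4 * nm v) * ((nm v : ℝ) ^ (-(5 : ℝ)) / (3 - x) ^ (2 * l)) :=
        mul_le_mul (sq_le h3.le ha) (wsq_tail hx hx1 l v hv) (sq_nonneg _) (by linarith)
    _ = 4 * (nm v : ℝ) ^ (-(4 : ℝ)) / (3 - x) ^ (2 * l) := by
        rw [show (-(4 : ℝ)) = 1 + -(5 : ℝ) by norm_num, Real.rpow_add h3, Real.rpow_one]
        ring

/-- Different prime numbers have disjoint sets of primes of this norm. -/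
theorem d1_disj (h : S_Prim) {p q : ℕ} (hp : p.Prime) (hq : q.Prime) (hpq : p ≠ q) :
    Disjoint (D1 K p) (D1 K q) := by
  rw [Finset.disjoint_left]
  intro v hv hv'
  exact hpq ((((h K p hp).2.1 v).1 hv).symm.trans (((h K q hq).2.1 v).1 hv'))

omit [NumberField K] in
open Classical in
theorem hasSum_ind (U : Finset (HeightOneSpectrum (𝓞 K))) :
    HasSum (fun v => if v ∈ U then (1 : ℝ) else 0) (U.card : ℝ) := by
  have h : HasSum (fun v => if v ∈ U then (1 : ℝ) else 0)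
      (∑ v ∈ U, (if v ∈ U then (1 : ℝ) else 0)) :=
    hasSum_sum_of_ne_finset_zero (fun v hv => if_neg hv)
  have h2 : ∑ v ∈ U, (if v ∈ U then (1 : ℝ) else 0) = U.card := by
    rw [Finset.sum_congr rfl (fun v hv => if_pos hv), Finset.sum_const, nsmul_eq_mul, mul_one]
  rwa [h2] at h

/-- The terms of norm not prime. -/
noncomputable def gg (v : HeightOneSpectrum (𝓞 K)) : ℝ :=
  if (nm v).Prime then 0 else (nm v : ℝ) ^ (-(3 / 4 : ℝ))

theorem gg_nonneg (v : HeightOneSpectrum (𝓞 K)) : 0 ≤ gg v := by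
  unfold gg
  split_ifs
  · exact le_rfl
  · exact Real.rpow_nonneg (Nat.cast_nonneg _) _

theorem gg_le (h : S_Prim) {p : ℕ} (hp : p.Prime) {v : HeightOneSpectrum (𝓞 K)}
    (hv : v ∈ Ov K p) : gg v ≤ (p : ℝ) ^ (-(3 / 2 : ℝ)) := by
  have hp0 : (0 : ℝ) < p := by exact_mod_cast hp.pos
  unfold gg
  split_ifs with hpr
  · exact Real.rpow_nonneg hp0.le _
  · obtain ⟨f, hf1, -, hf⟩ := (h K p hp).2.2.2.2 v hv
    have hf2 : 2 ≤ f := by
      by_contra hlt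
      have : f = 1 := by omega
      rw [this, pow_one] at hf
      exact hpr (hf ▸ hp)
    have h1 : p ^ 2 ≤ nm v := by
      rw [hf]
      exact Nat.pow_le_pow_right hp.pos hf2
    have h2 : (p : ℝ) ^ 2 ≤ nm v := by exact_mod_cast h1
    calc (nm v : ℝ) ^ (-(3 / 4 : ℝ)) ≤ ((p : ℝ) ^ 2) ^ (-(3 / 4 : ℝ)) :=
          Real.rpow_le_rpow_of_nonpos (by positivity) h2 (by norm_num)
      _ = (p : ℝ) ^ (-(3 / 2 : ℝ)) := by
          rw [← Real.rpow_natCast, ← Real.rpow_mul hp0.le]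
          norm_num

theorem gg_summable (h : S_Prim) : Summable (gg (K := K)) := by
  classical
  have hex : ∀ v : HeightOneSpectrum (𝓞 K), ∃ p : ℕ, p.Prime ∧ v ∈ Ov K p := by
    intro v
    obtain ⟨p, hp, -, hpv⟩ := (N1.exists_prime v).2
    exact ⟨p, hp, ((h K p hp).1 v).2 hpv⟩
  choose pv hpv hvO using hex
  have hs : Summable fun p : ℕ => (Module.finrank ℚ K : ℝ) * (p : ℝ) ^ (-(3 / 2 : ℝ)) :=
    (Real.summable_nat_rpow.2 (by norm_num)).mul_left _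
  refine summable_of_sum_le (c := ∑' p : ℕ, (Module.finrank ℚ K : ℝ) * (p : ℝ) ^ (-(3 / 2 : ℝ)))
    gg_nonneg fun u => ?_
  rw [← Finset.sum_fiberwise_of_maps_to (g := pv) (t := u.image pv)
    (fun v hv => Finset.mem_image_of_mem pv hv)]
  refine le_trans (Finset.sum_le_sum ?_) (hs.sum_le_tsum (u.image pv) fun p _ => by positivity)
  intro p hp
  obtain ⟨w, -, hw⟩ := Finset.mem_image.1 hp
  have hpp : p.Prime := hw ▸ hpv w
  have hsub : (u.filter fun v => pv v = p) ⊆ Ov K p := by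
    intro v hv
    rw [← (Finset.mem_filter.1 hv).2]
    exact hvO v
  calc ∑ v ∈ u.filter (fun v => pv v = p), gg v
      ≤ ∑ _v ∈ u.filter (fun v => pv v = p), (p : ℝ) ^ (-(3 / 2 : ℝ)) :=
        Finset.sum_le_sum fun v hv => gg_le h hpp (hsub hv)
    _ = ((u.filter fun v => pv v = p).card : ℝ) * (p : ℝ) ^ (-(3 / 2 : ℝ)) := by
        rw [Finset.sum_const, nsmul_eq_mul]
    _ ≤ (Module.finrank ℚ K : ℝ) * (p : ℝ) ^ (-(3 / 2 : ℝ)) := by
        refine mul_le_mul_of_nonneg_right ?_ (Real.rpow_nonneg (Nat.cast_nonneg _) _)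
        exact_mod_cast (Finset.card_le_card hsub).trans (h K p hpp).2.2.2.1

open Classical in
/-- The primes over the prime numbers `≤ p₀`. -/
noncomputable def Us (K : Type) [Field K] [NumberField K] (p₀ : ℕ) :
    Finset (HeightOneSpectrum (𝓞 K)) :=
  ((Finset.range (p₀ + 1)).filter Nat.Prime).biUnion (Ov K)

open Classical in
/-- The primes of prime norm `p`, `p₀ < p ≤ N`. -/
noncomputable def Ts (K : Type) [Field K] [NumberField K] (p₀ N : ℕ) :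
    Finset (HeightOneSpectrum (𝓞 K)) := (pr p₀ N).biUnion (D1 K)

open Classical in
/-- The indicator function of `Us`. -/
noncomputable def iu (p₀ : ℕ) (v : HeightOneSpectrum (𝓞 K)) : ℝ := if v ∈ Us K p₀ then 1 else 0

open Classical in
/-- The terms of `S2`. -/
noncomputable def zz (x : ℝ) (p₀ N : ℕ) (a : HeightOneSpectrum (𝓞 K) → ℝ)
    (v : HeightOneSpectrum (𝓞 K)) : ℝ :=
  if v ∈ Ts K p₀ N then (nm v : ℝ) ^ (-(2 * x)) * a v ^ 2 else 0

theorem iu_nonneg (p₀ : ℕ) (v : HeightOneSpectrum (𝓞 K)) : 0 ≤ iu p₀ v := by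
  unfold iu
  split_ifs <;> norm_num

theorem zz_nonneg (x : ℝ) (p₀ N : ℕ) (a : HeightOneSpectrum (𝓞 K) → ℝ)
    (v : HeightOneSpectrum (𝓞 K)) : 0 ≤ zz x p₀ N a v := by
  unfold zz
  split_ifs
  · exact mul_nonneg (Real.rpow_nonneg (Nat.cast_nonneg _) _) (sq_nonneg _)
  · exact le_rfl

theorem zz_sum (h : S_Prim) (x : ℝ) (p₀ N : ℕ) (a : HeightOneSpectrum (𝓞 K) → ℝ) :
    HasSum (zz x p₀ N a) (S2 x p₀ N a) := by
  classical
  have h3 : HasSum (zz x p₀ N a) (∑ v ∈ Ts K p₀ N, zz x p₀ N a v) :=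
    hasSum_sum_of_ne_finset_zero (fun v hv => if_neg hv)
  have h4 : ∑ v ∈ Ts K p₀ N, zz x p₀ N a v = S2 x p₀ N a := by
    have h5 : ∑ v ∈ Ts K p₀ N, zz x p₀ N a v =
        ∑ v ∈ Ts K p₀ N, (nm v : ℝ) ^ (-(2 * x)) * a v ^ 2 :=
      Finset.sum_congr rfl fun v hv => if_pos hv
    rw [h5, Ts, Finset.sum_biUnion]
    · unfold S2
      refine Finset.sum_congr rfl fun p hp => ?_
      rw [Finset.mul_sum]
      refine Finset.sum_congr rfl fun v hv => ?_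
      rw [((h K p (Finset.mem_filter.1 hp).2).2.1 v).1 hv]
    · intro p hp q hq hpq
      have hp' := (Finset.mem_filter.1 (Finset.mem_coe.1 hp)).2
      have hq' := (Finset.mem_filter.1 (Finset.mem_coe.1 hq)).2
      exact d1_disj h hp' hq' hpq
  rwa [h4] at h3

/-- The bound of a term. -/
theorem key_le (h : S_Prim) {x : ℝ} (hx : 7 / 8 ≤ x) (hx1 : x < 1) (p₀ : ℕ) {l N : ℕ}
    (hN : Real.exp (8 * l) ≤ N) (a : HeightOneSpectrum (𝓞 K) → ℝ) (v : HeightOneSpectrum (𝓞 K))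
    (hav : |a v| ≤ 2 * √(nm v : ℝ)) :
    a v ^ 2 * wk l v ^ 2 ≤ 1 / (3 - x) ^ (2 * l) *
      (zz x p₀ N a v + 4 * iu p₀ v + 4 * gg v + 4 * (nm v : ℝ) ^ (-(4 : ℝ))) := by
  classical
  have hr : 0 < 3 - x := by linarith
  have hc0 : 0 ≤ 1 / (3 - x) ^ (2 * l) := (one_div_pos.2 (pow_pos hr _)).le
  have hq2 := nm_two v
  have hg0 : 0 ≤ (nm v : ℝ) ^ (-(4 : ℝ)) := Real.rpow_nonneg (Nat.cast_nonneg _) _
  have hi1 := iu_nonneg p₀ v
  have hgg := gg_nonneg v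
  have hzv := zz_nonneg x p₀ N a v
  obtain ⟨p, hp, hple, hpv⟩ := (N1.exists_prime v).2
  have hpO : v ∈ Ov K p := ((h K p hp).1 v).2 hpv
  have hgen := term_le hx1 l v hav
  have hgen' : 4 * (nm v : ℝ) ^ (1 - 2 * x) / (3 - x) ^ (2 * l) =
      1 / (3 - x) ^ (2 * l) * (4 * (nm v : ℝ) ^ (1 - 2 * x)) := by
    ring
  rw [hgen'] at hgen
  by_cases hpp : p ≤ p₀
  · have h3 : iu p₀ v = 1 := if_pos (Finset.mem_biUnion.2
      ⟨p, Finset.mem_filter.2 ⟨Finset.mem_range.2 (by omega), hp⟩, hpO⟩)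
    rw [h3]
    refine hgen.trans (mul_le_mul_of_nonneg_left ?_ hc0)
    have h4 : (nm v : ℝ) ^ (1 - 2 * x) ≤ 1 :=
      Real.rpow_le_one_of_one_le_of_nonpos (by linarith) (by linarith)
    linarith
  · by_cases hpr : (nm v).Prime
    · obtain ⟨f, hf1, -, hf⟩ := (h K p hp).2.2.2.2 v hpO
      have hf' : f = 1 := by
        rw [hf] at hpr
        exact Nat.Prime.eq_one_of_pow hpr
      have hnp : nm v = p := by rw [hf, hf', pow_one]
      by_cases hpN : p ≤ N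
      · have h3 : v ∈ Ts K p₀ N := Finset.mem_biUnion.2
          ⟨p, Finset.mem_filter.2 ⟨Finset.mem_Ioc.2 ⟨by omega, hpN⟩, hp⟩,
            ((h K p hp).2.1 v).2 hnp⟩
        have h4 : zz x p₀ N a v = (nm v : ℝ) ^ (-(2 * x)) * a v ^ 2 := if_pos h3
        have h5 : a v ^ 2 * wk l v ^ 2 ≤ 1 / (3 - x) ^ (2 * l) * zz x p₀ N a v := by
          rw [h4]
          calc a v ^ 2 * wk l v ^ 2
              ≤ a v ^ 2 * ((nm v : ℝ) ^ (-(2 * x)) / (3 - x) ^ (2 * l)) :=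
                mul_le_mul_of_nonneg_left (wsq_le hx1 l v) (sq_nonneg _)
            _ = 1 / (3 - x) ^ (2 * l) * ((nm v : ℝ) ^ (-(2 * x)) * a v ^ 2) := by
                ring
        refine h5.trans (mul_le_mul_of_nonneg_left ?_ hc0)
        linarith
      · have h3 : Real.exp (8 * l) ≤ nm v := by
          refine hN.trans ?_
          have h4 : N ≤ nm v := by omega
          exact_mod_cast h4
        have h4 := term_tail hx hx1 l v hav h3
        have h5 : 4 * (nm v : ℝ) ^ (-(4 : ℝ)) / (3 - x) ^ (2 * l) =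
            1 / (3 - x) ^ (2 * l) * (4 * (nm v : ℝ) ^ (-(4 : ℝ))) := by
          ring
        rw [h5] at h4
        refine h4.trans (mul_le_mul_of_nonneg_left ?_ hc0)
        linarith
    · have h3 : gg v = (nm v : ℝ) ^ (-(3 / 4 : ℝ)) := if_neg hpr
      refine hgen.trans (mul_le_mul_of_nonneg_left ?_ hc0)
      have h4 : (nm v : ℝ) ^ (1 - 2 * x) ≤ (nm v : ℝ) ^ (-(3 / 4 : ℝ)) :=
        Real.rpow_le_rpow_of_exponent_le (by linarith) (by linarith)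
      rw [h3]
      linarith

/-- The second part of a term. -/
theorem second_le {a t u w : ℝ} (l : ℕ) (h : u ≤ (2 * l + 1) * w ^ 2) (h2 : a ^ 2 * w ^ 2 ≤ t) :
    a ^ 2 / 2 * u ≤ (2 * l + 1) * t := by
  have hl : (0 : ℝ) ≤ 2 * l + 1 := by
    have : (0 : ℝ) ≤ l := Nat.cast_nonneg _
    linarith
  have h8 : a ^ 2 / 2 * u ≤ a ^ 2 / 2 * ((2 * l + 1) * w ^ 2) :=
    mul_le_mul_of_nonneg_left h (div_nonneg (sq_nonneg _) (by norm_num))
  have h9 : 0 ≤ (2 * (l : ℝ) + 1) * (a ^ 2 * w ^ 2) :=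
    mul_nonneg hl (mul_nonneg (sq_nonneg _) (sq_nonneg _))
  have h10 : (2 * (l : ℝ) + 1) * (a ^ 2 * w ^ 2) ≤ (2 * l + 1) * t :=
    mul_le_mul_of_nonneg_left h2 hl
  have h11 : a ^ 2 / 2 * ((2 * l + 1) * w ^ 2) = (2 * l + 1) * (a ^ 2 * w ^ 2) / 2 := by ring
  linarith

end QM

open QM

theorem qq (h1 : S_Psi) (h2 : S_Prim) : S_Q := by
  classical
  intro K _ _ D x p₀ hD hx hx1 hcut
  obtain ⟨hPs, m₀, hm₀⟩ := h1 K
  have hr : 0 < 3 - x := by linarith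
  obtain ⟨H, hHs⟩ : ∃ H, HasSum (fun v : HeightOneSpectrum (𝓞 K) => (nm v : ℝ) ^ (-(4 : ℝ))) H :=
    ⟨_, ((zetaSum K).2.1 4 (by norm_num)).hasSum⟩
  have hH0 : 0 ≤ H := hHs.nonneg fun v => Real.rpow_nonneg (Nat.cast_nonneg _) _
  obtain ⟨G, hGs⟩ : ∃ G, HasSum (gg (K := K)) G := ⟨_, (gg_summable h2).hasSum⟩
  have hG0 : 0 ≤ G := hGs.nonneg gg_nonneg
  have hUc : (0 : ℝ) ≤ (Us K p₀).card := Nat.cast_nonneg _
  have hUs : HasSum (iu (K := K) p₀) ((Us K p₀).card : ℝ) := hasSum_ind _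
  obtain ⟨F, hmF⟩ : ∃ F : Finset (HeightOneSpectrum (𝓞 K)), ∀ v, v ∈ F ↔ D ∈ v.asIdeal := by
    refine ⟨(N5.finite_mem hD).toFinset, fun v => ?_⟩
    rw [Set.Finite.mem_toFinset]
    exact Iff.rfl
  have hFc : (0 : ℝ) ≤ F.card := Nat.cast_nonneg _
  refine ⟨F.card + 1 + (4 * (Us K p₀).card + 4 * G + 4 * H), m₀, by linarith, ?_⟩
  intro a l N hl hN ha
  obtain ⟨c, hc⟩ : ∃ c : ℝ, c = 1 / (3 - x) ^ (2 * l) := ⟨_, rfl⟩
  have hc0 : 0 ≤ c := by
    rw [hc]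
    exact (one_div_pos.2 (pow_pos hr _)).le
  have hl0 : (0 : ℝ) ≤ l := Nat.cast_nonneg _
  have hzs := zz_sum h2 x p₀ N a
  have hS0 : 0 ≤ S2 x p₀ N a := hzs.nonneg (zz_nonneg x p₀ N a)
  -- the second part
  have hEs := ((((hzs.add (hUs.mul_left 4)).add (hGs.mul_left 4)).add
      (hHs.mul_left 4)).mul_left c).mul_left (2 * (l : ℝ) + 1)
  obtain ⟨B, hB⟩ : ∃ B : HeightOneSpectrum (𝓞 K) → ℝ, ∀ v, B v =
    if D ∈ v.asIdeal then 0 else a v ^ 2 / 2 * uk (2 * l) v := ⟨_, fun _ => rfl⟩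
  have hB0 : ∀ v, 0 ≤ B v := by
    intro v
    rw [hB]
    split_ifs
    · exact le_rfl
    · exact mul_nonneg (div_nonneg (sq_nonneg _) (by norm_num)) (uk_nonneg _ v)
  have hBE : ∀ v, B v ≤ (2 * (l : ℝ) + 1) * (c * (zz x p₀ N a v + 4 * iu p₀ v + 4 * gg v +
      4 * (nm v : ℝ) ^ (-(4 : ℝ)))) := by
    intro v
    rw [hB]
    split_ifs with hDv
    · have hg0 : 0 ≤ (nm v : ℝ) ^ (-(4 : ℝ)) := Real.rpow_nonneg (Nat.cast_nonneg _) _
      have hi1 := iu_nonneg p₀ v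
      have hgg := gg_nonneg v
      have hzv := zz_nonneg x p₀ N a v
      exact mul_nonneg (by linarith) (mul_nonneg hc0 (by linarith))
    · have key := key_le h2 hx hx1 p₀ hN a v (ha v hDv)
      rw [← hc] at key
      exact second_le l (uk_le l v) key
  have hBs : Summable B := Summable.of_nonneg_of_le hB0 hBE hEs.summable
  have hBt : ∑' v, B v ≤ (2 * (l : ℝ) + 1) * (c * (S2 x p₀ N a + 4 * (Us K p₀).card + 4 * G +
      4 * H)) := by
    rw [← hEs.tsum_eq]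
    exact hBs.tsum_le_tsum hBE hEs.summable
  -- the first part
  obtain ⟨A, hA⟩ : ∃ A : HeightOneSpectrum (𝓞 K) → ℝ, ∀ v, A v =
    if D ∈ v.asIdeal then 0 else nm v * uk (2 * l) v := ⟨_, fun _ => rfl⟩
  have hAs : HasSum A (2 ^ (2 * l) * (Psi K (2 * l) - ∑ v ∈ F, ps (2 * l) v)) := by
    have h3 : HasSum (fun v : HeightOneSpectrum (𝓞 K) => ps (2 * l) v) (Psi K (2 * l)) :=
      (hPs (2 * l)).hasSum
    have h4 : HasSum (fun v : HeightOneSpectrum (𝓞 K) => if v ∈ F then ps (2 * l) v else 0)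
        (∑ v ∈ F, ps (2 * l) v) := by
      have h5 : HasSum (fun v : HeightOneSpectrum (𝓞 K) => if v ∈ F then ps (2 * l) v else 0)
          (∑ v ∈ F, if v ∈ F then ps (2 * l) v else 0) :=
        hasSum_sum_of_ne_finset_zero (fun v hv => if_neg hv)
      rwa [Finset.sum_congr rfl (fun v hv => if_pos hv)] at h5
    have h6 : A = fun v => (2 : ℝ) ^ (2 * l) * (ps (2 * l) v - if v ∈ F then ps (2 * l) v else 0) := by
      funext v
      rw [hA]
      by_cases hDv : D ∈ v.asIdeal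
      · rw [if_pos hDv, if_pos ((hmF v).2 hDv), sub_self, mul_zero]
      · rw [if_neg hDv, if_neg (fun h => hDv ((hmF v).1 h)), sub_zero, nm_uk]
    rw [h6]
    exact (h3.sub h4).mul_left (2 ^ (2 * l))
  have hQ : Qd (2 * l) D a = ∑' v, (B v - A v) := by
    unfold Qd
    refine tsum_congr fun v => ?_
    rw [hA, hB]
    split_ifs with hDv
    · rw [sub_zero]
    · show (a v ^ 2 - 2 * nm v) / 2 * uk (2 * l) v = _
      ring
  have hQ2 : -Qd (2 * l) D a = 2 ^ (2 * l) * (Psi K (2 * l) - ∑ v ∈ F, ps (2 * l) v) - ∑' v, B v := by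
    rw [hQ, (hBs.hasSum.sub hAs).tsum_eq, neg_sub]
  have h10 : 1 / (2 * ((2 * l : ℕ) : ℝ) * 2 ^ (2 * l)) ≤ (2 : ℝ) ^ (2 * l) * Psi K (2 * l) := by
    rw [lead_eq (2 * l)]
    exact mul_le_mul_of_nonneg_left (hm₀ (2 * l) (by omega)) (by positivity)
  have h12 : (2 : ℝ) ^ (2 * l) * ∑ v ∈ F, ps (2 * l) v ≤ F.card * c := by
    have h13 : ∑ v ∈ F, ps (2 * l) v ≤ F.card * (1 / 5 ^ (2 * l)) := by
      calc ∑ v ∈ F, ps (2 * l) v ≤ ∑ _v ∈ F, (1 : ℝ) / 5 ^ (2 * l) :=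
            Finset.sum_le_sum fun v _ => ps_le _ v
        _ = F.card * (1 / 5 ^ (2 * l)) := by rw [Finset.sum_const, nsmul_eq_mul]
    calc (2 : ℝ) ^ (2 * l) * ∑ v ∈ F, ps (2 * l) v
        ≤ (2 : ℝ) ^ (2 * l) * (F.card * (1 / 5 ^ (2 * l))) :=
          mul_le_mul_of_nonneg_left h13 (by positivity)
      _ = F.card * ((2 : ℝ) ^ (2 * l) * (1 / 5 ^ (2 * l))) := by ring
      _ ≤ F.card * c := by
          rw [hc]
          exact mul_le_mul_of_nonneg_left (two_pow_le hr (by linarith) _) hFc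
  have h15 : (F.card + 1 + (4 * (Us K p₀).card + 4 * G + 4 * H)) * (2 * l + 1) *
      (S2 x p₀ N a + 1) / (3 - x) ^ (2 * l) =
      c * ((F.card + 1 + (4 * (Us K p₀).card + 4 * G + 4 * H)) *
        ((2 * l + 1) * (S2 x p₀ N a + 1))) := by
    rw [hc]
    ring
  have h16 := final_alg hFc hUc hG0 hH0 hS0 hl0 hc0
  have h22 : (2 : ℝ) ^ (2 * l) * (Psi K (2 * l) - ∑ v ∈ F, ps (2 * l) v) =
      2 ^ (2 * l) * Psi K (2 * l) - 2 ^ (2 * l) * ∑ v ∈ F, ps (2 * l) v := mul_sub _ _ _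
  rw [h15, hQ2, h22]
  rw [← mul_assoc] at hBt
  linarith

end MP7ed9c3.Tz
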