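import Pool.Agent.Lib.MP_7ed9c3_nt.Tz.SpecA

/-!
# MP_7ed9c3_nt, part Tz: the Taylor coefficients (`S_Taylor`)
-/

set_option autoImplicit false

namespace MP7ed9c3.Tz

open NumberField IsDedekindDomain Filter Topology MP7ed9c3.Tw MP7ed9c3.Zs

namespace TaylorM

/-- The general term of the double series. -/
noncomputable def dbl {ι : Type} (lam : ι → ℕ) (τ : ι → ℂ) (t₀ : ℝ) (h : ℂ) (p : ι × ℕ) : ℂ :=
  τ p.1 * (lam p.1 : ℂ) ^ (-(3 + t₀ * Complex.I)) *
    ((Real.log (lam p.1) ^ p.2 / p.2.factorial : ℝ) : ℂ) * (-h) ^ p.2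

theorem cexp_hasSum (x : ℂ) : HasSum (fun n : ℕ => x ^ n / (n.factorial : ℂ)) (Complex.exp x) := by
  rw [Complex.exp_eq_exp_ℂ]
  exact NormedSpace.expSeries_div_hasSum_exp x

theorem rexp_hasSum (x : ℝ) : HasSum (fun n : ℕ => x ^ n / (n.factorial : ℝ)) (Real.exp x) := by
  rw [Real.exp_eq_exp_ℝ]
  exact NormedSpace.expSeries_div_hasSum_exp x

theorem row_hasSum {ι : Type} (lam : ι → ℕ) (τ : ι → ℂ) (hlam : ∀ i, 1 ≤ lam i) (t₀ : ℝ) (h : ℂ)
    (i : ι) : HasSum (fun k : ℕ => dbl lam τ t₀ h (i, k))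
      (τ i * (lam i : ℂ) ^ (-(3 + t₀ * Complex.I + h))) := by
  have h0 : (lam i : ℂ) ≠ 0 := by
    have := hlam i
    exact_mod_cast (by omega : lam i ≠ 0)
  have h1 := (cexp_hasSum (-h * (Real.log (lam i) : ℂ))).mul_left
    (τ i * (lam i : ℂ) ^ (-(3 + t₀ * Complex.I)))
  have h2 : τ i * (lam i : ℂ) ^ (-(3 + t₀ * Complex.I)) * Complex.exp (-h * (Real.log (lam i) : ℂ))
      = τ i * (lam i : ℂ) ^ (-(3 + t₀ * Complex.I + h)) := by
    rw [mul_assoc]
    congr 1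
    have h3 : -(3 + (t₀ : ℂ) * Complex.I + h) = -(3 + (t₀ : ℂ) * Complex.I) + -h := by ring
    rw [h3, Complex.cpow_add _ _ h0]
    congr 1
    rw [Complex.cpow_def_of_ne_zero h0 (-h), ← Complex.natCast_log, mul_comm]
  rw [h2] at h1
  refine h1.congr_fun ?_
  intro k
  simp only [dbl]
  push_cast
  rw [mul_pow]
  ring

theorem row_norm {ι : Type} (lam : ι → ℕ) (τ : ι → ℂ) (hlam : ∀ i, 1 ≤ lam i) (t₀ : ℝ) (h : ℂ)
    (i : ι) (k : ℕ) : ‖dbl lam τ t₀ h (i, k)‖ =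
      ‖τ i‖ / (lam i : ℝ) ^ 3 * ((‖h‖ * Real.log (lam i)) ^ k / k.factorial) := by
  have h0 : 0 < lam i := hlam i
  have hl : 0 ≤ Real.log (lam i) := Real.log_natCast_nonneg _
  have h1 : ‖(lam i : ℂ) ^ (-(3 + t₀ * Complex.I))‖ = ((lam i : ℝ) ^ 3)⁻¹ := by
    rw [Complex.norm_natCast_cpow_of_pos h0]
    have h2 : (-(3 + (t₀ : ℂ) * Complex.I)).re = -(3 : ℝ) := by simp
    rw [h2, Real.rpow_neg (by positivity)]
    norm_cast
  simp only [dbl]
  rw [norm_mul, norm_mul, norm_mul, h1, norm_pow, norm_neg, Complex.norm_real, Real.norm_eq_abs,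
    abs_of_nonneg (by positivity), mul_pow]
  ring

theorem summable_dbl {ι : Type} (lam : ι → ℕ) (τ : ι → ℂ) (hlam : ∀ i, 1 ≤ lam i)
    (hs : Summable (fun i => ‖τ i‖ / (lam i : ℝ) ^ (5 / 2 : ℝ))) (t₀ : ℝ) (h : ℂ)
    (hh : ‖h‖ ≤ 1 / 2) : Summable (dbl lam τ t₀ h) := by
  refine Summable.of_norm ?_
  rw [summable_prod_of_nonneg (fun p => norm_nonneg _)]
  have h1 : ∀ i, HasSum (fun k : ℕ => ‖dbl lam τ t₀ h (i, k)‖)
      (‖τ i‖ / (lam i : ℝ) ^ 3 * Real.exp (‖h‖ * Real.log (lam i))) := by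
    intro i
    have h2 := (rexp_hasSum (‖h‖ * Real.log (lam i))).mul_left (‖τ i‖ / (lam i : ℝ) ^ 3)
    refine h2.congr_fun ?_
    intro k
    rw [row_norm lam τ hlam]
  refine ⟨fun i => (h1 i).summable, ?_⟩
  have h3 : (fun i => ∑' k : ℕ, ‖dbl lam τ t₀ h (i, k)‖) =
      fun i => ‖τ i‖ / (lam i : ℝ) ^ 3 * Real.exp (‖h‖ * Real.log (lam i)) :=
    funext fun i => (h1 i).tsum_eq
  rw [h3]
  refine Summable.of_nonneg_of_le (fun i => by positivity) (fun i => ?_) hs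
  have h0 : (1 : ℝ) ≤ lam i := by exact_mod_cast hlam i
  have h4 : Real.exp (‖h‖ * Real.log (lam i)) ≤ (lam i : ℝ) ^ (1 / 2 : ℝ) := by
    rw [Real.rpow_def_of_pos (by linarith)]
    apply Real.exp_le_exp.mpr
    rw [mul_comm]
    exact mul_le_mul_of_nonneg_left hh (Real.log_nonneg h0)
  have h5 : (lam i : ℝ) ^ (3 : ℕ) = (lam i : ℝ) ^ (5 / 2 : ℝ) * (lam i : ℝ) ^ (1 / 2 : ℝ) := by
    rw [← Real.rpow_add (by linarith), ← Real.rpow_natCast]
    norm_num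
  have h6 : 0 < (lam i : ℝ) ^ (1 / 2 : ℝ) := Real.rpow_pos_of_pos (by linarith) _
  have h7 : 0 < (lam i : ℝ) ^ (5 / 2 : ℝ) := Real.rpow_pos_of_pos (by linarith) _
  rw [h5]
  calc ‖τ i‖ / ((lam i : ℝ) ^ (5 / 2 : ℝ) * (lam i : ℝ) ^ (1 / 2 : ℝ)) *
        Real.exp (‖h‖ * Real.log (lam i))
      ≤ ‖τ i‖ / ((lam i : ℝ) ^ (5 / 2 : ℝ) * (lam i : ℝ) ^ (1 / 2 : ℝ)) *
        (lam i : ℝ) ^ (1 / 2 : ℝ) := by
        exact mul_le_mul_of_nonneg_left h4 (by positivity)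
    _ = ‖τ i‖ / (lam i : ℝ) ^ (5 / 2 : ℝ) := by
        field_simp

/-- The coefficients. -/
noncomputable def cf {ι : Type} (lam : ι → ℕ) (τ : ι → ℂ) (t₀ : ℝ) (k : ℕ) : ℂ :=
  (-1) ^ k * tay lam τ t₀ k

theorem ser_hasSum {ι : Type} (lam : ι → ℕ) (τ : ι → ℂ) (hlam : ∀ i, 1 ≤ lam i)
    (hs : Summable (fun i => ‖τ i‖ / (lam i : ℝ) ^ (5 / 2 : ℝ))) (t₀ : ℝ) (h : ℂ)
    (hh : ‖h‖ ≤ 1 / 2) : HasSum (fun k : ℕ => cf lam τ t₀ k * h ^ k)
      (ser lam τ (3 + t₀ * Complex.I + h)) := by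
  have hS := summable_dbl lam τ hlam hs t₀ h hh
  have h1 : ∀ k, ∑' i, dbl lam τ t₀ h (i, k) = cf lam τ t₀ k * h ^ k := by
    intro k
    simp only [dbl]
    rw [tsum_mul_right, cf, tay, neg_pow]
    ring
  have hS' : Summable (fun p : ℕ × ι => dbl lam τ t₀ h (p.2, p.1)) :=
    (Equiv.prodComm ℕ ι).summable_iff.mpr hS
  have h2 : HasSum (fun k : ℕ => cf lam τ t₀ k * h ^ k)
      (∑' k : ℕ, ∑' i, dbl lam τ t₀ h (i, k)) := by
    have h3 := hS'.prod.hasSum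
    refine h3.congr_fun ?_
    intro k
    exact (h1 k).symm
  have h4 : ∑' k : ℕ, ∑' i, dbl lam τ t₀ h (i, k) = ser lam τ (3 + t₀ * Complex.I + h) := by
    have h5 : ∑' i, ∑' k : ℕ, dbl lam τ t₀ h (i, k) = ∑' k : ℕ, ∑' i, dbl lam τ t₀ h (i, k) :=
      (Summable.tsum_comm (f := fun i k => dbl lam τ t₀ h (i, k)) hS).symm
    rw [← h5, ser]
    exact tsum_congr fun i => (row_hasSum lam τ hlam t₀ h i).tsum_eq
  rw [h4] at h2
  exact h2

/-- The power series. -/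
noncomputable def ps {ι : Type} (lam : ι → ℕ) (τ : ι → ℂ) (t₀ : ℝ) :
    FormalMultilinearSeries ℂ ℂ ℂ := FormalMultilinearSeries.ofScalars ℂ (cf lam τ t₀)

theorem ser_ps {ι : Type} (lam : ι → ℕ) (τ : ι → ℂ) (hlam : ∀ i, 1 ≤ lam i)
    (hs : Summable (fun i => ‖τ i‖ / (lam i : ℝ) ^ (5 / 2 : ℝ))) (t₀ : ℝ) :
    HasFPowerSeriesOnBall (ser lam τ) (ps lam τ t₀) (3 + t₀ * Complex.I)
      (((1 / 2 : NNReal)) : ENNReal) where
  r_le := by
    apply FormalMultilinearSeries.le_radius_of_summable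
    have h1 := (ser_hasSum lam τ hlam hs t₀ (1 / 2 : ℂ) (by norm_num)).summable.norm
    refine h1.congr ?_
    intro k
    rw [ps, FormalMultilinearSeries.ofScalars_norm, norm_mul, norm_pow]
    norm_num
  r_pos := by
    norm_num
  hasSum := by
    intro y hy
    have hy' : ‖y‖ ≤ 1 / 2 := by
      rw [Metric.mem_eball, edist_zero_right] at hy
      have h1 : ‖y‖₊ < (1 / 2 : NNReal) := by
        exact_mod_cast hy
      have h2 : ‖y‖ < ((1 / 2 : NNReal) : ℝ) := by exact_mod_cast h1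
      have h3 : ((1 / 2 : NNReal) : ℝ) = 1 / 2 := by norm_num
      rw [h3] at h2
      exact h2.le
    have h1 := ser_hasSum lam τ hlam hs t₀ y hy'
    refine h1.congr_fun ?_
    intro k
    rw [ps, FormalMultilinearSeries.ofScalars_apply_eq, smul_eq_mul]

theorem bound_lt {ι : Type} (lam : ι → ℕ) (τ : ι → ℂ) (hlam : ∀ i, 1 ≤ lam i)
    (hs : Summable (fun i => ‖τ i‖ / (lam i : ℝ) ^ (5 / 2 : ℝ)))
    (G : ℂ → ℂ) (t₀ U R M : ℝ) (hU : 0 < U) (hR : 0 < R)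
    (hG : DifferentiableOn ℂ G (Metric.ball (3 + t₀ * Complex.I) R))
    (hM : ∀ z ∈ Metric.ball (3 + t₀ * Complex.I) R, ‖G z‖ ≤ M)
    (hline : ∀ t : ℝ, |t - t₀| ≤ U → G (3 + t * Complex.I) = ser lam τ (3 + t * Complex.I))
    (k : ℕ) (r : ℝ) (hr : 0 < r) (hrR : r < R) : ‖tay lam τ t₀ k‖ ≤ M / r ^ k := by
  have hsub : Metric.closedBall (3 + t₀ * Complex.I : ℂ) r ⊆ Metric.ball (3 + t₀ * Complex.I) R :=
    Metric.closedBall_subset_ball hrR
  have hS := ser_ps lam τ hlam hs t₀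
  have hGan : AnalyticAt ℂ G (3 + t₀ * Complex.I) :=
    hG.analyticAt (Metric.ball_mem_nhds _ hR)
  have hfreq : ∃ᶠ z in 𝓝[≠] (3 + t₀ * Complex.I : ℂ), G z = ser lam τ z := by
    have ht : Tendsto (fun t : ℝ => (3 + t * Complex.I : ℂ)) (𝓝[≠] t₀)
        (𝓝[≠] (3 + t₀ * Complex.I : ℂ)) := by
      apply tendsto_nhdsWithin_of_tendsto_nhds_of_eventually_within
      · have hc : Continuous (fun t : ℝ => (3 + t * Complex.I : ℂ)) := by fun_prop
        exact (hc.tendsto t₀).mono_left nhdsWithin_le_nhds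
      · filter_upwards [self_mem_nhdsWithin] with t ht
        intro h
        apply ht
        have h2 := congrArg Complex.im h
        simpa using h2
    refine ht.frequently ?_
    refine Filter.Eventually.frequently ?_
    have h3 : ∀ᶠ t in 𝓝 t₀, |t - t₀| ≤ U := by
      filter_upwards [Metric.closedBall_mem_nhds t₀ hU] with t ht
      rwa [Metric.mem_closedBall, Real.dist_eq] at ht
    filter_upwards [nhdsWithin_le_nhds h3] with t ht
    exact hline t ht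
  have hev : ∀ᶠ z in 𝓝 (3 + t₀ * Complex.I : ℂ), G z = ser lam τ z :=
    (hGan.frequently_eq_iff_eventually_eq hS.analyticAt).mp hfreq
  have hGp : HasFPowerSeriesAt G (ps lam τ t₀) (3 + t₀ * Complex.I) :=
    hS.hasFPowerSeriesAt.congr (hev.mono fun z hz => hz.symm)
  have hM0 : 0 ≤ M := (norm_nonneg _).trans (hM _ (Metric.mem_ball_self hR))
  have hG2 : HasFPowerSeriesAt G (cauchyPowerSeries G (3 + t₀ * Complex.I) r)
      (3 + t₀ * Complex.I) := by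
    have h4 : DifferentiableOn ℂ G (Metric.closedBall (3 + t₀ * Complex.I) ((r.toNNReal : NNReal) : ℝ)) := by
      rw [Real.coe_toNNReal _ hr.le]
      exact hG.mono hsub
    have h5 := (h4.hasFPowerSeriesOnBall (by simpa using hr)).hasFPowerSeriesAt
    rwa [Real.coe_toNNReal _ hr.le] at h5
  have heq : ps lam τ t₀ = cauchyPowerSeries G (3 + t₀ * Complex.I) r :=
    hGp.eq_formalMultilinearSeries hG2
  have h6 : ‖ps lam τ t₀ k‖ = ‖tay lam τ t₀ k‖ := by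
    rw [ps, FormalMultilinearSeries.ofScalars_norm, cf, norm_mul, norm_pow, norm_neg, norm_one,
      one_pow, one_mul]
  rw [← h6, heq]
  refine (norm_cauchyPowerSeries_le G _ r k).trans ?_
  have h7 : ∫ θ in (0 : ℝ)..2 * Real.pi, ‖G (circleMap (3 + t₀ * Complex.I) r θ)‖ ≤
      ∫ θ in (0 : ℝ)..2 * Real.pi, M := by
    apply intervalIntegral.integral_mono_on Real.two_pi_pos.le
    · apply ContinuousOn.intervalIntegrable
      apply ContinuousOn.norm
      have h8 : ContinuousOn G (Metric.ball (3 + t₀ * Complex.I) R) := hG.continuousOn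
      refine h8.comp (continuous_circleMap _ _).continuousOn ?_
      intro θ _
      exact hsub (Metric.sphere_subset_closedBall (circleMap_mem_sphere _ hr.le θ))
    · exact intervalIntegrable_const
    · intro θ _
      exact hM _ (hsub (Metric.sphere_subset_closedBall (circleMap_mem_sphere _ hr.le θ)))
  have h9 : (2 * Real.pi)⁻¹ * ∫ θ in (0 : ℝ)..2 * Real.pi,
      ‖G (circleMap (3 + t₀ * Complex.I) r θ)‖ ≤ M := by
    have h10 : ∫ θ in (0 : ℝ)..2 * Real.pi, M = 2 * Real.pi * M := by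
      rw [intervalIntegral.integral_const, smul_eq_mul, sub_zero]
    rw [h10] at h7
    calc (2 * Real.pi)⁻¹ * ∫ θ in (0 : ℝ)..2 * Real.pi,
          ‖G (circleMap (3 + t₀ * Complex.I) r θ)‖
        ≤ (2 * Real.pi)⁻¹ * (2 * Real.pi * M) :=
          mul_le_mul_of_nonneg_left h7 (by positivity)
      _ = M := by
          field_simp
  calc (2 * Real.pi)⁻¹ * (∫ θ in (0 : ℝ)..2 * Real.pi,
          ‖G (circleMap (3 + t₀ * Complex.I) r θ)‖) * |r|⁻¹ ^ k
      ≤ M * |r|⁻¹ ^ k := mul_le_mul_of_nonneg_right h9 (by positivity)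
    _ = M / r ^ k := by
        rw [abs_of_pos hr, inv_pow, div_eq_mul_inv]

end TaylorM

open TaylorM in
theorem taylor : S_Taylor := by
  intro ι lam τ hlam hs G t₀ U R M hU hR hG hM hline k
  have h1 : Tendsto (fun r : ℝ => M / r ^ k) (𝓝[<] R) (𝓝 (M / R ^ k)) := by
    have h2 : ContinuousAt (fun r : ℝ => M / r ^ k) R := by
      apply ContinuousAt.div continuousAt_const (by fun_prop)
      positivity
    exact h2.tendsto.mono_left nhdsWithin_le_nhds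
  refine ge_of_tendsto h1 ?_
  filter_upwards [Ioo_mem_nhdsLT hR] with r hr
  exact bound_lt lam τ hlam hs G t₀ U R M hU hR hG hM hline k r hr.1 hr.2

end MP7ed9c3.Tz
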