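import Pool.Agent.Lib.MP_7ed9c3_nt.Tz.SpecL
import Pool.Agent.Lib.MP_7ed9c3_nt.AllN
import Pool.Agent.Lib.MP_7ed9c3_nt.Tw.W2
import Pool.Agent.Lib.MP_7ed9c3_nt.Tw.W3

/-!
# MP_7ed9c3_nt, part Tz: L6, the traces of a minimal model
-/

set_option autoImplicit false

namespace MP7ed9c3.Tz

open NumberField IsDedekindDomain Filter Topology MP7ed9c3.Tw MP7ed9c3.Zs

namespace TrGoodM

theorem disc {K : Type} [Field K] [NumberField K] (A B : 𝓞 K) (v : HeightOneSpectrum (𝓞 K))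
    (h : 6 * (4 * A ^ 3 + 27 * B ^ 2) ∉ v.asIdeal) :
    (short A B).Δ ∉ v.asIdeal ∧ (6 : 𝓞 K) ∉ v.asIdeal ∧ (2 : 𝓞 K) ∉ v.asIdeal := by
  have h6 : (6 : 𝓞 K) ∉ v.asIdeal := fun hc => h (v.asIdeal.mul_mem_right _ hc)
  have h2 : (2 : 𝓞 K) ∉ v.asIdeal := by
    intro hc
    refine h6 ?_
    have h3 : (6 : 𝓞 K) = 3 * 2 := by norm_num
    rw [h3]
    exact v.asIdeal.mul_mem_left _ hc
  refine ⟨?_, h6, h2⟩
  rw [W3.Δ_short]
  intro hc
  have h1 : (16 : 𝓞 K) * (4 * A ^ 3 + 27 * B ^ 2) ∈ v.asIdeal := by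
    have := v.asIdeal.neg_mem hc
    rwa [neg_neg] at this
  rcases v.isPrime.mem_or_mem h1 with h3 | h3
  · have h4 : (16 : 𝓞 K) = 2 ^ 4 := by norm_num
    rw [h4] at h3
    exact h2 (v.isPrime.mem_of_pow_mem 4 h3)
  · exact h (v.asIdeal.mul_mem_left _ h3)

end TrGoodM

theorem trGood : S_TrGood := by
  intro K _ _ A B v M h
  obtain ⟨hΔ, h6, h2⟩ := TrGoodM.disc A B v h
  refine ⟨fun hM => ?_, (traceBoundAll K (short A B) v).2 hΔ h6, fun d hd hM => ?_⟩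
  · obtain ⟨t1, t2⟩ := goodDataAll K _ (short A B) ⟨1, one_smul _ _⟩ v M hΔ h6 hM
    exact ⟨t1, by rw [t2]⟩
  · have hΔ' : (short (A * d ^ 2) (B * d ^ 3)).Δ ∉ v.asIdeal := by
      rw [W3.Δ_tw]
      intro hc
      rcases v.isPrime.mem_or_mem hc with h5 | h5
      · exact hd (v.isPrime.mem_of_pow_mem 6 h5)
      · exact hΔ h5
    have h2d : (2 * d : 𝓞 K) ∉ v.asIdeal := by
      intro hc
      rcases v.isPrime.mem_or_mem hc with h5 | h5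
      · exact h2 h5
      · exact hd h5
    obtain ⟨t1, t2⟩ := goodDataAll K _ (short (A * d ^ 2) (B * d ^ 3)) ⟨1, one_smul _ _⟩ v M hΔ' h6 hM
    refine ⟨t1, ?_⟩
    rw [t2]
    exact W3.tr_tw finTwist A B d v h2d

end MP7ed9c3.Tz
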