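import Pool.Agent.Lib.MP_7ed9c3_nt.Tz.SpecL
import Pool.Agent.Lib.MP_7ed9c3_nt.N5

/-!
# MP_7ed9c3_nt, part Tz: changing finitely many traces
-/

set_option autoImplicit false

namespace MP7ed9c3.Tz

open NumberField IsDedekindDomain Filter Topology MP7ed9c3.Tw MP7ed9c3.Zs

namespace TransferM

open Classical in
/-- The primes `p` with a prime of norm `p` containing `e`. -/
noncomputable def bad (K : Type) [Field K] [NumberField K] (P : Finset ℕ) (e : 𝓞 K) : Finset ℕ :=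
  P.filter (fun p => ∃ v ∈ D1 K p, e ∈ v.asIdeal)

theorem mem_D1 {K : Type} [Field K] [NumberField K] {m : ℕ} {v : HeightOneSpectrum (𝓞 K)} :
    v ∈ D1 K m ↔ nm v = m := by
  unfold D1
  rw [Set.Finite.mem_toFinset]
  exact Iff.rfl

theorem card_bad {K : Type} [Field K] [NumberField K] (P : Finset ℕ) {e : 𝓞 K} (he : e ≠ 0) :
    (bad K P e).card ≤ {v : HeightOneSpectrum (𝓞 K) | e ∈ v.asIdeal}.ncard := by
  classical
  have hfin := N5.finite_mem he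
  rw [Set.ncard_eq_toFinset_card _ hfin]
  refine le_trans (Finset.card_le_card (t := hfin.toFinset.image (fun v => nm v)) ?_)
    Finset.card_image_le
  intro p hp
  obtain ⟨v, hv, hev⟩ := (Finset.mem_filter.mp hp).2
  exact Finset.mem_image.mpr ⟨v, (Set.Finite.mem_toFinset hfin).mpr hev, mem_D1.mp hv⟩

/-- The bound for one bad prime. -/
theorem one_bad {ι : Type} (s : Finset ι) (y : ι → ℝ) (p : ℕ) (hp : 1 ≤ p) (n x : ℝ)
    (hx : 1 / 2 ≤ x) (hs : (s.card : ℝ) ≤ n) (hy : ∀ v ∈ s, |y v| ≤ 2 * √(p : ℝ)) :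
    (p : ℝ) ^ (-(2 * x)) * (∑ v ∈ s, y v) ^ 2 ≤ 4 * n ^ 2 := by
  have hp1 : (1 : ℝ) ≤ (p : ℝ) := by exact_mod_cast hp
  have hp0 : (0 : ℝ) < (p : ℝ) := by linarith
  have hn0 : 0 ≤ n := le_trans (Nat.cast_nonneg _) hs
  have h1 : |∑ v ∈ s, y v| ≤ n * (2 * √(p : ℝ)) := by
    calc |∑ v ∈ s, y v| ≤ ∑ v ∈ s, |y v| := Finset.abs_sum_le_sum_abs _ _
      _ ≤ ∑ _v ∈ s, 2 * √(p : ℝ) := Finset.sum_le_sum hy
      _ = s.card * (2 * √(p : ℝ)) := by rw [Finset.sum_const, nsmul_eq_mul]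
      _ ≤ n * (2 * √(p : ℝ)) := by gcongr
  have h2 : (∑ v ∈ s, y v) ^ 2 ≤ (n * (2 * √(p : ℝ))) ^ 2 := by
    rw [← sq_abs]
    gcongr
  have h3 : (n * (2 * √(p : ℝ))) ^ 2 = 4 * n ^ 2 * p := by
    have := Real.sq_sqrt hp0.le
    calc (n * (2 * √(p : ℝ))) ^ 2 = 4 * n ^ 2 * (√(p : ℝ)) ^ 2 := by ring
      _ = 4 * n ^ 2 * p := by rw [this]
  have h4 : (p : ℝ) ^ (-(2 * x)) * p ≤ 1 := by
    have h5 : (p : ℝ) ^ (-(2 * x)) * p = (p : ℝ) ^ (-(2 * x) + 1) := by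
      rw [Real.rpow_add_one hp0.ne']
    rw [h5]
    exact Real.rpow_le_one_of_one_le_of_nonpos hp1 (by linarith)
  have h6 : 0 ≤ (p : ℝ) ^ (-(2 * x)) := Real.rpow_nonneg hp0.le _
  calc (p : ℝ) ^ (-(2 * x)) * (∑ v ∈ s, y v) ^ 2
      ≤ (p : ℝ) ^ (-(2 * x)) * (4 * n ^ 2 * p) := by
        rw [← h3]
        exact mul_le_mul_of_nonneg_left h2 h6
    _ = 4 * n ^ 2 * ((p : ℝ) ^ (-(2 * x)) * p) := by ring
    _ ≤ 4 * n ^ 2 * 1 := by gcongr
    _ = 4 * n ^ 2 := by ring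

theorem norm_good {ι : Type} (s : Finset ι) (y : ι → ℝ) (z : ι → ℂ) (h : ∀ v ∈ s, z v = y v) :
    ‖∑ v ∈ s, z v‖ ^ 2 = (∑ v ∈ s, y v) ^ 2 := by
  have h1 : ∑ v ∈ s, z v = ((∑ v ∈ s, y v : ℝ) : ℂ) := by
    rw [Complex.ofReal_sum]
    exact Finset.sum_congr rfl h
  rw [h1, Complex.norm_real, Real.norm_eq_abs, sq_abs]

end TransferM

open TransferM in
/-- **L11, changing finitely many traces.** -/
theorem transfer (h : S_Prim) : S_Transfer := by
  classical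
  intro K _ _ x P e z y hx he hP hy
  set n : ℝ := (Module.finrank ℚ K : ℝ) with hn
  have hterm : ∀ p ∈ P, (p : ℝ) ^ (-(2 * x)) * (∑ v ∈ D1 K p, y v) ^ 2 ≤
      ‖∑ v ∈ D1 K p, z v‖ ^ 2 * (p : ℝ) ^ (-(2 * x)) +
        (if p ∈ bad K P e then 4 * n ^ 2 else 0) := by
    intro p hp
    have hpp := hP p hp
    have hnn : 0 ≤ ‖∑ v ∈ D1 K p, z v‖ ^ 2 * (p : ℝ) ^ (-(2 * x)) := by positivity
    by_cases hb : p ∈ bad K P e
    · rw [if_pos hb]
      obtain ⟨-, -, hsub, hcard, -⟩ := h K p hpp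
      have hc : ((D1 K p).card : ℝ) ≤ n := by
        rw [hn]
        exact_mod_cast (Finset.card_le_card hsub).trans hcard
      have := one_bad (D1 K p) y p hpp.one_le n x hx hc (fun v hv => (hy p hp v hv).1)
      linarith
    · rw [if_neg hb, add_zero]
      have hno : ∀ v ∈ D1 K p, z v = y v := by
        intro v hv
        refine (hy p hp v hv).2 ?_
        intro hev
        exact hb (Finset.mem_filter.mpr ⟨hp, v, hv, hev⟩)
      rw [norm_good _ _ _ hno, mul_comm]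
  refine (Finset.sum_le_sum hterm).trans ?_
  rw [Finset.sum_add_distrib]
  have hsum : ∑ p ∈ P, (if p ∈ bad K P e then 4 * n ^ 2 else 0) =
      4 * n ^ 2 * ((bad K P e).card : ℝ) := by
    rw [← Finset.sum_filter, Finset.sum_const, nsmul_eq_mul]
    have : P.filter (fun p => p ∈ bad K P e) = bad K P e := by
      ext p
      simp only [Finset.mem_filter]
      exact ⟨fun hq => hq.2, fun hq => ⟨(Finset.mem_filter.mp hq).1, hq⟩⟩
    rw [this]
    ring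
  rw [hsum]
  have hcb : ((bad K P e).card : ℝ) ≤
      ({v : HeightOneSpectrum (𝓞 K) | e ∈ v.asIdeal}.ncard : ℝ) := by
    exact_mod_cast card_bad P he
  gcongr

end MP7ed9c3.Tz
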