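import Pool.Agent.Lib.MP_7ed9c3_nt.Tz.SpecZ
import Pool.Agent.Lib.MP_7ed9c3_nt.Zs.Series
import Pool.Agent.Lib.MP_7ed9c3_nt.N1
import Pool.Agent.Lib.MP_7ed9c3_nt.N5

/-!
# MP_7ed9c3_nt, part Tz.  What a twist without zeros gives (Z3)
-/

set_option autoImplicit false

namespace MP7ed9c3.Tz

open NumberField IsDedekindDomain Filter Topology MP7ed9c3.Tw MP7ed9c3.Zs

namespace TwInfoM

theorem abs_chiv_le {K : Type} [Field K] [NumberField K] (d : 𝓞 K)
    (v : HeightOneSpectrum (𝓞 K)) : |chiv d v| ≤ 1 := by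
  unfold chiv
  split_ifs <;> simp

/-- One exponent for one norm. -/
theorem one_exp {q : ℝ} (hq : 2 ≤ q) : ∃ y : ℝ, 0 ≤ y ∧ y < 1 ∧ max (√q) (q - 1) ≤ q ^ y := by
  have hq0 : 0 < q := by linarith
  have hlog : 0 < Real.log q := Real.log_pos (by linarith)
  refine ⟨max (1 / 2) (Real.log (q - 1) / Real.log q), le_max_of_le_left (by norm_num),
    max_lt (by norm_num) ?_, max_le ?_ ?_⟩
  · rw [div_lt_one hlog]
    exact Real.log_lt_log (by linarith) (by linarith)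
  · rw [Real.sqrt_eq_rpow]
    exact Real.rpow_le_rpow_of_exponent_le (by linarith) (le_max_left _ _)
  · have h1 : q - 1 = q ^ (Real.log (q - 1) / Real.log q) := by
      rw [Real.rpow_def_of_pos hq0, mul_div_cancel₀ _ hlog.ne', Real.exp_log (by linarith)]
    calc q - 1 = q ^ (Real.log (q - 1) / Real.log q) := h1
      _ ≤ _ := Real.rpow_le_rpow_of_exponent_le (by linarith) (le_max_right _ _)

/-- One exponent for a finite set of primes. -/
theorem fin_exp {K : Type} [Field K] [NumberField K] (s : Finset (HeightOneSpectrum (𝓞 K))) :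
    ∃ y : ℝ, 0 ≤ y ∧ y < 1 ∧ ∀ v ∈ s, max (√(nm v : ℝ)) (nm v - 1) ≤ (nm v : ℝ) ^ y := by
  classical
  induction s using Finset.induction_on with
  | empty => exact ⟨0, le_rfl, by norm_num, fun v hv => absurd hv (Finset.notMem_empty v)⟩
  | insert w s hw ih =>
    obtain ⟨y, h0, h1, h2⟩ := ih
    have hq2 : ∀ v : HeightOneSpectrum (𝓞 K), (2 : ℝ) ≤ nm v := fun v => by
      exact_mod_cast (N1.exists_prime v).1
    obtain ⟨z, hz0, hz1, hz2⟩ := one_exp (hq2 w)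
    refine ⟨max y z, le_max_of_le_left h0, max_lt h1 hz1, fun v hv => ?_⟩
    rcases Finset.mem_insert.1 hv with rfl | hv
    · exact hz2.trans (Real.rpow_le_rpow_of_exponent_le (by linarith [hq2 v]) (le_max_right _ _))
    · exact (h2 v hv).trans
        (Real.rpow_le_rpow_of_exponent_le (by linarith [hq2 v]) (le_max_left _ _))

/-- The choice of the parameters. -/
theorem choice_params (h8 : S_Prim) {K : Type} [Field K] [NumberField K] (D : 𝓞 K) (hD : D ≠ 0)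
    (σ₁ : ℝ) (hσ : σ₁ < 1) : ∃ (x₀ x : ℝ) (p₀ : ℕ), 0 ≤ x₀ ∧ x₀ < x ∧ σ₁ < x ∧ 7 / 8 ≤ x ∧ x < 1 ∧
      Cut D p₀ ∧ ∀ v : HeightOneSpectrum (𝓞 K), D ∈ v.asIdeal →
        max (√(nm v : ℝ)) (nm v - 1) ≤ (nm v : ℝ) ^ x₀ := by
  have hfin := N5.finite_mem hD
  obtain ⟨x₀, h0, h1, h2⟩ := fin_exp hfin.toFinset
  refine ⟨x₀, (1 + max σ₁ (max x₀ (7 / 8))) / 2, 3 + ∑ v ∈ hfin.toFinset, nm v, h0, ?_, ?_, ?_, ?_,
    ⟨?_, ?_⟩, ?_⟩
  · have := le_max_right σ₁ (max x₀ (7 / 8))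
    have := le_max_left x₀ (7 / 8 : ℝ)
    linarith
  · have := le_max_left σ₁ (max x₀ (7 / 8))
    linarith
  · have := le_max_right σ₁ (max x₀ (7 / 8))
    have := le_max_right x₀ (7 / 8 : ℝ)
    linarith
  · have : max σ₁ (max x₀ (7 / 8)) < 1 := max_lt hσ (max_lt h1 (by norm_num))
    linarith
  · omega
  · intro v hv p hp hpv
    have hv2 : v ∈ hfin.toFinset := by
      rw [Set.Finite.mem_toFinset]
      exact hv
    have h3 : nm v ≤ ∑ v ∈ hfin.toFinset, nm v :=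
      Finset.single_le_sum (f := fun v => nm v) (fun _ _ => Nat.zero_le _) hv2
    obtain ⟨h4, -, -, -, h5⟩ := h8 K p hp
    obtain ⟨f, hf, -, hf2⟩ := h5 v ((h4 v).2 hpv)
    have h6 : p ≤ p ^ f := Nat.le_self_pow (by omega) p
    omega
  · intro v hv
    refine h2 v ?_
    rw [Set.Finite.mem_toFinset]
    exact hv

end TwInfoM

open TwInfoM in
/-- **Z3.** -/
theorem twInfo (h1 : S_BoxInfo) (h2 : S_SumBound) (h3 : S_Loc) (h4 : S_CoefP) (h5 : S_TrGood)
    (h6 : S_Transfer) (h7 : S_Div) (h8 : S_Prim) (h9 : S_J1) (h10 : S_J2) (h11 : S_J3)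
    (h12 : S_Q) : S_TwInfo := by
  intro K _ _ A B σ₁ hne hσ
  have hD : 6 * (4 * A ^ 3 + 27 * B ^ 2) ≠ 0 := mul_ne_zero (by norm_num) hne
  obtain ⟨x₀, x, p₀, hx00, hx0x, hσx, h78, hx1, hcut, hroot⟩ := choice_params h8 _ hD σ₁ hσ
  obtain ⟨CQ, l₀, hCQ, hQ⟩ := h12 K _ x p₀ hD h78 hx1 hcut
  obtain ⟨C1, hC1, hJ1⟩ := h9 K _ x p₀ hD h78 hx1 hcut
  obtain ⟨C3, hC3, hJ3⟩ := h11 K _ x₀ x hD hx00 hx0x h78 hx1
  obtain ⟨Bd, hBd⟩ := h2 K
  refine ⟨x, p₀, l₀, h78, hx1, hcut, fun c => ?_⟩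
  obtain ⟨κ, C0, V0, hκ, hC0, hbox⟩ := h1 σ₁ x Bd c hσx (by linarith) (by linarith)
  set n : ℝ := (Module.finrank ℚ K : ℝ) with hn
  have hn0 : 0 ≤ n := Nat.cast_nonneg _
  refine ⟨κ, C0 + 8 * n ^ 3 + C3 + C1 * (2 * n + 1) + 4 * n + CQ, max V0 1, hκ, by positivity, ?_⟩
  intro V Y N hV hY hlog hN hNV d hd hHd hZF
  have hV0 : V0 ≤ V := (le_max_left _ _).trans hV
  have hV1 : 1 ≤ V := (le_max_right _ _).trans hV
  obtain ⟨M, F, hM, hFd, hFb, hFe⟩ := hZF
  obtain ⟨α, β, hloc, hmax, hgood, htr⟩ := h3 K M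
  have hq1 : ∀ v : HeightOneSpectrum (𝓞 K), (2 : ℝ) ≤ nm v := fun v => by
    exact_mod_cast (N1.exists_prime v).1
  have hmx : ∀ v : HeightOneSpectrum (𝓞 K), max (√(nm v : ℝ)) (nm v - 1) ≤ nm v + 1 := by
    intro v
    have h := hq1 v
    refine max_le ?_ (by linarith)
    have h' : √(nm v : ℝ) ≤ nm v := Real.sqrt_le_iff.2 ⟨by linarith, by nlinarith⟩
    linarith
  have hb : ∀ v, ‖α v‖ ≤ nm v + 1 ∧ ‖β v‖ ≤ nm v + 1 := fun v =>
    ⟨(hmax v).1.trans (hmx v), (hmax v).2.trans (hmx v)⟩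
  have hser := (seriesz K α β M hloc hb).2
  -- the roots at the good primes
  have h6D : ∀ v : HeightOneSpectrum (𝓞 K), 6 * (4 * A ^ 3 + 27 * B ^ 2) ∉ v.asIdeal →
      (6 : 𝓞 K) ∉ v.asIdeal := fun v hv h => hv (v.asIdeal.mul_mem_right _ h)
  have hG := fun (v : HeightOneSpectrum (𝓞 K))
    (hv : 6 * (4 * A ^ 3 + 27 * B ^ 2) ∉ v.asIdeal) => h5 K A B v (M v) hv
  have hab : ∀ v : HeightOneSpectrum (𝓞 K), 6 * (4 * A ^ 3 + 27 * B ^ 2) ∉ v.asIdeal →
      |(tr (short A B) v : ℝ)| ≤ 2 * √(nm v : ℝ) ∧ ‖α v‖ ≤ √(nm v : ℝ) ∧ ‖β v‖ ≤ √(nm v : ℝ) :=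
    fun v hv => ⟨(hG v hv).2.1, hgood v (h6D v hv)⟩
  have hM' : ∀ v : HeightOneSpectrum (𝓞 K),
      IsMinAt ((short (A * d ^ 2) (B * d ^ 3)).map (algebraMap (𝓞 K) K)) v (M v) := hM
  have hsum : ∀ v : HeightOneSpectrum (𝓞 K), 6 * (4 * A ^ 3 + 27 * B ^ 2) ∉ v.asIdeal →
      d ∉ v.asIdeal → α v + β v = (chiv d v * (tr (short A B) v : ℝ) : ℝ) ∧
        α v * β v = nm v := by
    intro v hv hdv
    obtain ⟨h13, h14⟩ := (hG v hv).2.2 d hdv (hM' v)
    refine ⟨?_, (htr v).2 h13⟩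
    rw [(htr v).1, ← h14]
    push_cast
    rfl
  -- the information from the box
  have hlam : ∀ i, 1 ≤ lamE K i := fun i =>
    Nat.one_le_pow _ _ (by have := (N1.exists_prime i.1).1; omega)
  obtain ⟨hA, hT⟩ := hbox V 0 N hV0 hN hNV _ (lamE K) (tauE α β) hlam (hBd α β hb).1 (hBd α β hb).2
    F hFd hFb (by
      intro t ht
      have hre : (3 + (t : ℂ) * Complex.I).re = 3 := by simp
      have him : (3 + (t : ℂ) * Complex.I).im = t := by simp
      have hmem : (3 + (t : ℂ) * Complex.I) ∈ box σ₁ 0 (V ^ κ) := by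
        refine ⟨?_, ?_⟩
        · rw [hre]
          linarith
        · rw [him]
          exact ht
      rw [hFe _ hmem (by rw [hre]; norm_num)]
      exact hser _ hre)
  obtain ⟨-, hom⟩ := h7 K d Y hd hY hHd
  have hom2 : om d ≤ 2 * n * V := hom.trans (mul_le_mul_of_nonneg_left hlog (by positivity))
  have hom0 : 0 ≤ om d := Nat.cast_nonneg _
  constructor
  · -- (i)
    have hT1 := h6 K x (pr p₀ N) d (fun v => α v + β v)
      (fun v => chiv d v * (tr (short A B) v : ℝ)) (by linarith) hd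
      (fun p hp => (Finset.mem_filter.1 hp).2) (by
        intro p hp v hv
        have hpp : p.Prime := (Finset.mem_filter.1 hp).2
        have hp0 : p₀ < p := (Finset.mem_Ioc.1 (Finset.mem_filter.1 hp).1).1
        obtain ⟨h13, h14, h15, -, -⟩ := h8 K p hpp
        have hnm : nm v = p := (h14 v).1 hv
        have hpv : ((p : ℕ) : 𝓞 K) ∈ v.asIdeal := (h13 v).1 (h15 hv)
        have hDv : 6 * (4 * A ^ 3 + 27 * B ^ 2) ∉ v.asIdeal := fun h => by
          have := hcut.2 v h p hpp hpv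
          omega
        refine ⟨?_, fun hdv => ?_⟩
        · rw [abs_mul, ← hnm]
          calc |chiv d v| * |(tr (short A B) v : ℝ)| ≤ 1 * |(tr (short A B) v : ℝ)| :=
                mul_le_mul_of_nonneg_right (abs_chiv_le d v) (abs_nonneg _)
            _ ≤ 2 * √(nm v : ℝ) := by
                rw [one_mul]
                exact (hab v hDv).1
        · exact (hsum v hDv hdv).1)
    have hA2 := hA (pr p₀ N) (by
      intro m hm
      have h13 := Finset.mem_Ioc.1 (Finset.mem_filter.1 hm).1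
      omega)
    have hA3 : ∑ p ∈ pr p₀ N, ‖∑ v ∈ D1 K p, (α v + β v)‖ ^ 2 * (p : ℝ) ^ (-(2 * x)) =
        ∑ m ∈ pr p₀ N, ‖coef (lamE K) (tauE α β) m‖ ^ 2 * (m : ℝ) ^ (-(2 * x)) :=
      Finset.sum_congr rfl fun p hp => by rw [h4 K α β p (Finset.mem_filter.1 hp).2]
    have h16 : 4 * n ^ 2 * om d ≤ 8 * n ^ 3 * V ^ 2 := by
      have h17 : 4 * n ^ 2 * om d ≤ 4 * n ^ 2 * (2 * n * V) :=
        mul_le_mul_of_nonneg_left hom2 (by positivity)
      have h18 : V ≤ V ^ 2 := by nlinarith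
      have h19 : 8 * n ^ 3 * V ≤ 8 * n ^ 3 * V ^ 2 := mul_le_mul_of_nonneg_left h18 (by positivity)
      linarith
    have h20 : 0 ≤ (C3 + C1 * (2 * n + 1) + 4 * n + CQ) * V ^ 2 := by positivity
    have h21 : ({v : HeightOneSpectrum (𝓞 K) | d ∈ v.asIdeal}.ncard : ℝ) = om d := rfl
    rw [hA3, h21] at hT1
    calc _ ≤ _ := hT1
      _ ≤ C0 * V ^ 2 + 8 * n ^ 3 * V ^ 2 := add_le_add hA2 h16
      _ ≤ _ := by linarith
  · -- (ii)
    intro l hl hlN
    have hr : 0 < (3 - x) ^ (2 * l) := pow_pos (by linarith) _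
    have hlN2 : Real.exp (4 * ((2 * l : ℕ) : ℝ)) ≤ N := by
      have : (4 * ((2 * l : ℕ) : ℝ)) = 8 * (l : ℝ) := by
        push_cast
        ring
      rw [this]
      exact hlN
    have e1 := hJ1 (fun v => (tr (short A B) v : ℝ)) d α β (2 * l) N hd hlN2 hab
      (fun v hv hdv => (hsum v hv hdv).1)
    have e2 := h10 K _ x hD h78 hx1 (fun v => (tr (short A B) v : ℝ)) d α β (2 * l) hd hab hsum
    have e3 := hJ3 α β (2 * l) hb
      (fun v hv => ⟨(hmax v).1.trans (hroot v hv), (hmax v).2.trans (hroot v hv)⟩)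
      (fun v hv => (hab v hv).2)
    have e4 := hT (2 * l)
    have e5 := hQ (fun v => (tr (short A B) v : ℝ)) l N hl hlN (fun v hv => (hab v hv).1)
    set Z : ℝ := Zd (2 * l) p₀ N (fun v => (tr (short A B) v : ℝ)) d with hZ
    set Q : ℝ := Qd (2 * l) (6 * (4 * A ^ 3 + 27 * B ^ 2)) (fun v => (tr (short A B) v : ℝ)) with hQd
    set S : ℝ := S2 x p₀ N (fun v => (tr (short A B) v : ℝ)) with hS
    set t1 : ℂ := T1 (2 * l) (6 * (4 * A ^ 3 + 27 * B ^ 2)) α β with ht1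
    set t2 : ℂ := T2 (2 * l) (6 * (4 * A ^ 3 + 27 * B ^ 2)) α β with ht2
    set ty : ℂ := tay (lamE K) (tauE α β) 0 (2 * l) with hty
    have hS0 : 0 ≤ S := by
      rw [hS]
      unfold S2
      exact Finset.sum_nonneg fun p _ => mul_nonneg (Real.rpow_nonneg (Nat.cast_nonneg _) _)
        (Finset.sum_nonneg fun v _ => sq_nonneg _)
    have e6 : |Z + Q| ≤ (C0 * V + C3 + C1 * (om d + 1) + 2 * om d) / (3 - x) ^ (2 * l) := by
      have e7 : (((Z + Q : ℝ)) : ℂ) =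
          ty - (ty - t1 - t2) - (t1 - (Z : ℂ)) - (t2 - (Q : ℂ)) := by
        push_cast
        ring
      have e8 : |Z + Q| = ‖(((Z + Q : ℝ)) : ℂ)‖ := by
        rw [Complex.norm_real, Real.norm_eq_abs]
      rw [e8, e7]
      calc ‖ty - (ty - t1 - t2) - (t1 - (Z : ℂ)) - (t2 - (Q : ℂ))‖ ≤
            ‖ty‖ + ‖ty - t1 - t2‖ + ‖t1 - (Z : ℂ)‖ + ‖t2 - (Q : ℂ)‖ := by
              refine (norm_sub_le _ _).trans (add_le_add ?_ le_rfl)
              refine (norm_sub_le _ _).trans (add_le_add ?_ le_rfl)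
              exact norm_sub_le _ _
        _ ≤ C0 * V / (3 - x) ^ (2 * l) + C3 / (3 - x) ^ (2 * l) +
              C1 * (om d + 1) / (3 - x) ^ (2 * l) + 2 * om d / (3 - x) ^ (2 * l) :=
              add_le_add (add_le_add (add_le_add e4 e3) e1) e2
        _ = _ := by ring
    have e9 : C0 * V + C3 + C1 * (om d + 1) + 2 * om d ≤
        (C0 + C3 + C1 * (2 * n + 1) + 4 * n) * V := by
      have f1 : C1 * (om d + 1) ≤ C1 * (2 * n * V + V) :=
        mul_le_mul_of_nonneg_left (by linarith) hC1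
      have f2 : C3 ≤ C3 * V := le_mul_of_one_le_right hC3 hV1
      have f3 : C1 * (2 * n * V + V) = C1 * (2 * n + 1) * V := by ring
      have f4 : (C0 + C3 + C1 * (2 * n + 1) + 4 * n) * V =
        C0 * V + C3 * V + C1 * (2 * n + 1) * V + 2 * (2 * n * V) := by ring
      rw [f4]
      linarith
    have hl0 : (0 : ℝ) ≤ l := Nat.cast_nonneg _
    have e10 : -Q ≤ |Z| + |Z + Q| := by
      have g1 := neg_abs_le (Z + Q)
      have g2 := le_abs_self Z
      have g3 := neg_abs_le Z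
      have g4 := le_abs_self (Z + Q)
      linarith
    have e11 : |Z + Q| ≤ (C0 + C3 + C1 * (2 * n + 1) + 4 * n) * (2 * l + 1) * V * (S + 1) /
        (3 - x) ^ (2 * l) := by
      refine e6.trans (div_le_div_of_nonneg_right (e9.trans ?_) hr.le)
      have g5 : 0 ≤ (C0 + C3 + C1 * (2 * n + 1) + 4 * n) * V := by positivity
      calc (C0 + C3 + C1 * (2 * n + 1) + 4 * n) * V ≤
            (C0 + C3 + C1 * (2 * n + 1) + 4 * n) * V * ((2 * l + 1) * (S + 1)) := by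
              refine le_mul_of_one_le_right g5 ?_
              nlinarith [mul_nonneg hl0 hS0]
        _ = _ := by ring
    have e12 : CQ * (2 * l + 1) * (S + 1) / (3 - x) ^ (2 * l) ≤
        CQ * (2 * l + 1) * V * (S + 1) / (3 - x) ^ (2 * l) := by
      refine div_le_div_of_nonneg_right ?_ hr.le
      have g6 : 0 ≤ CQ * (2 * l + 1) * (S + 1) := by positivity
      calc CQ * (2 * l + 1) * (S + 1) ≤ CQ * (2 * l + 1) * (S + 1) * V :=
            le_mul_of_one_le_right g6 hV1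
        _ = _ := by ring
    have e13 : 0 ≤ 8 * n ^ 3 * (2 * l + 1) * V * (S + 1) / (3 - x) ^ (2 * l) := by positivity
    have e14 : (C0 + 8 * n ^ 3 + C3 + C1 * (2 * n + 1) + 4 * n + CQ) * (2 * l + 1) * V * (S + 1) /
        (3 - x) ^ (2 * l) =
        (C0 + C3 + C1 * (2 * n + 1) + 4 * n) * (2 * l + 1) * V * (S + 1) / (3 - x) ^ (2 * l) +
        8 * n ^ 3 * (2 * l + 1) * V * (S + 1) / (3 - x) ^ (2 * l) +
        CQ * (2 * l + 1) * V * (S + 1) / (3 - x) ^ (2 * l) := by ring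
    rw [e14]
    linarith

end MP7ed9c3.Tz
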