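import Pool.Agent.Lib.MP_7ed9c3_nt.Tz.SpecZ

/-!
# MP_7ed9c3_nt, part Tz: almost all quadratic twists (Z4)
-/

set_option autoImplicit false

namespace MP7ed9c3.Tz

open NumberField IsDedekindDomain Filter Topology MP7ed9c3.Tw MP7ed9c3.Zs

namespace TwistsM

lemma zf_mono {K : Type} [Field K] [NumberField K] {E : WeierstrassCurve K} {σ t H H' V : ℝ} (h : H' ≤ H)
    (hz : ZeroFree E σ t H V) : ZeroFree E σ t H' V := by
  obtain ⟨M, F, h1, h2, h3, h4⟩ := hz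
  have hs : box σ t H' ⊆ box σ t H := fun s hs => ⟨hs.1, hs.2.trans_le h⟩
  exact ⟨M, F, h1, h2.mono hs, fun s hs' => h3 s (hs hs'), fun s hs' => h4 s (hs hs')⟩

lemma chiv_le {K : Type} [Field K] [NumberField K] (d : 𝓞 K) (v : HeightOneSpectrum (𝓞 K)) : |chiv d v| ≤ 1 := by
  unfold chiv
  split_ifs <;> norm_num

section Mean

variable {ι : Type} [Fintype ι]

lemma mean_sum {α : Type} (p : ℕ) (s : Finset α) (f : α → (ι → ℤ) → ℝ) :
    mean p (fun a => ∑ v ∈ s, f v a) = ∑ v ∈ s, mean p (f v) := by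
  unfold mean
  rw [Finset.sum_comm, Finset.sum_div]

lemma mean_mul (p : ℕ) (c : ℝ) (f : (ι → ℤ) → ℝ) : mean p (fun a => f a * c) = mean p f * c := by
  unfold mean
  rw [← Finset.sum_mul]
  ring

lemma mean_sq {α : Type} (p : ℕ) (s : Finset α) (χ : α → (ι → ℤ) → ℝ) (b : α → ℝ)
    (h0 : ∀ v ∈ s, ∀ w ∈ s, w ≠ v → mean p (fun a => χ v a * χ w a) = 0) :
    mean p (fun a => (∑ v ∈ s, χ v a * b v) ^ 2) = ∑ v ∈ s, mean p (fun a => χ v a ^ 2) * b v ^ 2 := by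
  have h1 : (fun a : ι → ℤ => (∑ v ∈ s, χ v a * b v) ^ 2) =
      fun a => ∑ v ∈ s, ∑ w ∈ s, χ v a * χ w a * (b v * b w) := by
    funext a
    rw [sq, Finset.sum_mul_sum]
    refine Finset.sum_congr rfl fun v _ => Finset.sum_congr rfl fun w _ => ?_
    ring
  rw [h1, mean_sum]
  refine Finset.sum_congr rfl fun v hv => ?_
  rw [mean_sum, Finset.sum_eq_single v]
  · rw [mean_mul]
    congr 1
    · congr 1
      funext a
      ring
    · ring
  · intro w hw hwv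
    rw [mean_mul, h0 v hv w hw hwv, zero_mul]
  · intro h
    exact absurd hv h

end Mean

lemma per_sum {ι α : Type} (p : ℕ) (s : Finset α) (χ : α → (ι → ℤ) → ℝ) (b : α → ℝ)
    (h : ∀ v ∈ s, Per p (χ v)) : Per p (fun a => ∑ v ∈ s, χ v a * b v) := by
  intro a c
  refine Finset.sum_congr rfl fun v hv => ?_
  rw [h v hv a c]

/-- the numerical facts about `l` and `N` -/
lemma choice {r : ℝ} (hr : 2 < r) (C C' : ℝ) (hC : 0 < C) (hC' : 0 ≤ C') (l₀ : ℕ) (c : ℝ)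
    (hc : 32 / Real.log (r / 2) + 9 ≤ c) :
    ∃ V₀ : ℝ, ∀ V : ℝ, V₀ ≤ V → 1 ≤ V ∧ ∃ l N : ℕ, 1 ≤ l ∧ l₀ ≤ l ∧ Real.exp (8 * l) ≤ N ∧
      (N : ℝ) ≤ V ^ c ∧ 1 ≤ N ∧
      C * (2 * l + 1) * V * (4 * C * V ^ 2 + 1) / r ^ (2 * l) ≤ 1 / (4 * (2 * l : ℕ) * 2 ^ (2 * l)) ∧
      V ^ 2 * (C' * (4 * C * V ^ 2 + 1) / r ^ (2 * (2 * l))) ≤
        (1 / (4 * (2 * l : ℕ) * 2 ^ (2 * l))) ^ 2 := by
  obtain ⟨L, hL⟩ : ∃ L, L = Real.log (r / 2) := ⟨_, rfl⟩
  have hLp : 0 < L := by rw [hL]; exact Real.log_pos (by linarith)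
  obtain ⟨b, hb⟩ : ∃ b, b = 4 / L := ⟨_, rfl⟩
  have hbp : 0 < b := by rw [hb]; positivity
  have hbL : b * L = 4 := by rw [hb]; field_simp
  rw [← hL] at hc
  have hcb : 8 * b + 9 ≤ c := by
    have : 8 * b = 32 / L := by rw [hb]; ring
    linarith
  have e1 : ∀ᶠ V : ℝ in atTop, (l₀ : ℝ) ≤ b * Real.log V :=
    (Real.tendsto_log_atTop.const_mul_atTop hbp).eventually_ge_atTop _
  have e2 : ∀ᶠ V : ℝ in atTop, b * Real.log V + 1 ≤ V := by
    have h1 : (fun V : ℝ => b * Real.log V + 1) =o[atTop] (fun V : ℝ => V) :=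
      (Real.isLittleO_log_id_atTop.const_mul_left b).add (Asymptotics.isLittleO_const_id_atTop (1 : ℝ))
    have h2 := h1.bound zero_lt_one
    filter_upwards [h2, eventually_ge_atTop (0 : ℝ)] with V h3 h4
    rw [one_mul, Real.norm_eq_abs, Real.norm_eq_abs, abs_of_nonneg h4] at h3
    exact (le_abs_self _).trans h3
  obtain ⟨W, hW⟩ := eventually_atTop.1 (e1.and (e2.and ((eventually_ge_atTop (Real.exp 1)).and
    ((eventually_ge_atTop (24 * C * (4 * C + 1))).and (eventually_ge_atTop (64 * C' * (4 * C + 1)))))))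
  refine ⟨W, fun V hV => ?_⟩
  obtain ⟨h1, h2, h3, h4, h5⟩ := hW V hV
  have hV1 : 1 ≤ V := (Real.one_le_exp zero_le_one).trans h3
  have hV0 : 0 < V := by linarith
  have hlog : 1 ≤ Real.log V := by
    rw [Real.le_log_iff_exp_le hV0]
    exact h3
  have hblog : 0 < b * Real.log V := by positivity
  obtain ⟨l, hl⟩ : ∃ l : ℕ, l = ⌈b * Real.log V⌉₊ := ⟨_, rfl⟩
  have hl1 : b * Real.log V ≤ l := by rw [hl]; exact Nat.le_ceil _
  have hl2 : (l : ℝ) ≤ b * Real.log V + 1 := by rw [hl]; exact (Nat.ceil_lt_add_one hblog.le).le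
  have hl3 : 1 ≤ l := by rw [hl]; exact Nat.ceil_pos.2 hblog
  have hlV : (l : ℝ) ≤ V := hl2.trans h2
  have hl0 : (1 : ℝ) ≤ l := by exact_mod_cast hl3
  refine ⟨hV1, l, ⌈Real.exp (8 * l)⌉₊, hl3, ?_, Nat.le_ceil _, ?_, ?_, ?_, ?_⟩
  · have : (l₀ : ℝ) ≤ l := h1.trans hl1
    exact_mod_cast this
  · have hN := (Nat.ceil_lt_add_one (Real.exp_pos (8 * l)).le).le
    have g1 : Real.exp (8 * l) ≤ Real.exp (8 * b * Real.log V + 8) := by
      apply Real.exp_le_exp.2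
      linarith
    have g2 : (1 : ℝ) ≤ Real.exp (8 * b * Real.log V + 8) := Real.one_le_exp (by positivity)
    have g3 : 2 * Real.exp (8 * b * Real.log V + 8) ≤ Real.exp (8 * b * Real.log V + 9) := by
      have : Real.exp (8 * b * Real.log V + 9) = Real.exp 1 * Real.exp (8 * b * Real.log V + 8) := by
        rw [← Real.exp_add]
        congr 1
        ring
      rw [this]
      have h6 : (2 : ℝ) ≤ Real.exp 1 := by
        have := Real.add_one_le_exp (1 : ℝ)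
        linarith
      exact mul_le_mul_of_nonneg_right h6 (Real.exp_pos _).le
    have g4 : Real.exp (8 * b * Real.log V + 9) ≤ V ^ c := by
      rw [Real.rpow_def_of_pos hV0]
      apply Real.exp_le_exp.2
      have g5 := mul_le_mul_of_nonneg_left hcb (by linarith : 0 ≤ Real.log V)
      have g6 : Real.log V * (8 * b + 9) = 8 * b * Real.log V + 9 * Real.log V := by ring
      linarith
    linarith
  · exact Nat.ceil_pos.2 (Real.exp_pos _)
  all_goals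
    have hr2 : (0 : ℝ) < r / 2 := by linarith
    have hpow : V ^ 8 ≤ (r / 2) ^ (2 * l) := by
      have g1 : V ^ 8 = Real.exp (8 * Real.log V) := by
        rw [mul_comm, Real.exp_mul, Real.exp_log hV0]
        norm_cast
      have g2 : (r / 2) ^ (2 * l) = Real.exp (L * (2 * l)) := by
        rw [Real.exp_mul, hL, Real.exp_log hr2]
        norm_cast
      rw [g1, g2]
      apply Real.exp_le_exp.2
      have g3 := mul_le_mul_of_nonneg_left hl1 hLp.le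
      have g4 : L * (b * Real.log V) = 4 * Real.log V := by
        rw [← mul_assoc, mul_comm L b, hbL]
      linarith
    have hrl : r ^ (2 * l) = (r / 2) ^ (2 * l) * 2 ^ (2 * l) := by
      rw [← mul_pow]
      congr 1
      ring
    have h2l : (0 : ℝ) < 2 ^ (2 * l) := by positivity
    have hq : 4 * C * V ^ 2 + 1 ≤ (4 * C + 1) * V ^ 2 := by
      have : 1 ≤ V ^ 2 := one_le_pow₀ hV1
      linarith
  · have hn : ((2 * l : ℕ) : ℝ) = 2 * l := by push_cast; ring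
    rw [hn, div_le_div_iff₀ (by positivity) (by positivity), one_mul, hrl]
    have g1 : C * (2 * l + 1) * V * (4 * C * V ^ 2 + 1) * (4 * (2 * l)) ≤ V ^ 8 := by
      calc C * (2 * l + 1) * V * (4 * C * V ^ 2 + 1) * (4 * (2 * l)) ≤
          C * (3 * V) * V * ((4 * C + 1) * V ^ 2) * (4 * (2 * V)) := by
            gcongr
            linarith
        _ = (24 * C * (4 * C + 1)) * V ^ 5 := by ring
        _ ≤ V * V ^ 5 := by gcongr
        _ = V ^ 6 := by ring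
        _ ≤ V ^ 8 := pow_le_pow_right₀ hV1 (by norm_num)
    calc C * (2 * l + 1) * V * (4 * C * V ^ 2 + 1) * (4 * (2 * l) * 2 ^ (2 * l)) =
        (C * (2 * l + 1) * V * (4 * C * V ^ 2 + 1) * (4 * (2 * l))) * 2 ^ (2 * l) := by ring
      _ ≤ (r / 2) ^ (2 * l) * 2 ^ (2 * l) := by
        gcongr
        exact g1.trans hpow
  · have hn : ((2 * l : ℕ) : ℝ) = 2 * l := by push_cast; ring
    have hr4 : r ^ (2 * (2 * l)) = ((r / 2) ^ (2 * l)) ^ 2 * (2 ^ (2 * l)) ^ 2 := by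
      rw [← mul_pow, ← hrl, ← pow_mul]
      congr 1
      ring
    have hsq : (1 / (4 * (2 * (l : ℝ)) * 2 ^ (2 * l))) ^ 2 = 1 / (4 * (2 * (l : ℝ)) * 2 ^ (2 * l)) ^ 2 := by
      rw [div_pow, one_pow]
    rw [hn, hr4, hsq, mul_div_assoc', div_le_div_iff₀ (by positivity) (by positivity), one_mul]
    have g1 : V ^ 2 * (C' * (4 * C * V ^ 2 + 1)) * (4 * (2 * l)) ^ 2 ≤ (V ^ 8) ^ 2 := by
      calc V ^ 2 * (C' * (4 * C * V ^ 2 + 1)) * (4 * (2 * l)) ^ 2 ≤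
          V ^ 2 * (C' * ((4 * C + 1) * V ^ 2)) * (4 * (2 * V)) ^ 2 := by gcongr
        _ = (64 * C' * (4 * C + 1)) * V ^ 6 := by ring
        _ ≤ V * V ^ 6 := by gcongr
        _ = V ^ 7 := by ring
        _ ≤ V ^ 16 := pow_le_pow_right₀ hV1 (by norm_num)
        _ = (V ^ 8) ^ 2 := by ring
    calc V ^ 2 * (C' * (4 * C * V ^ 2 + 1)) * (4 * (2 * l) * 2 ^ (2 * l)) ^ 2 =
        (V ^ 2 * (C' * (4 * C * V ^ 2 + 1)) * (4 * (2 * l)) ^ 2) * (2 ^ (2 * l)) ^ 2 := by ring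
      _ ≤ ((r / 2) ^ (2 * l)) ^ 2 * (2 ^ (2 * l)) ^ 2 := by
        gcongr
        exact g1.trans (pow_le_pow_left₀ (by positivity) hpow 2)

end TwistsM

open TwistsM in
theorem twists (h1 : S_TwInfo) (h2 : S_Dich) (h3 : S_Few) (h4 : S_ChiMean) (h5 : S_HSq) (h6 : S_Coord)
    (h7 : S_Prim) (h8 : S_TrGood) : S_Twists := by
  intro K _ _ A B σ₁ hAB hσ
  obtain ⟨hcard, hpt, C₁, hC₁, hbd⟩ := h6 K
  obtain ⟨n, hn⟩ : ∃ n : ℕ, n = Module.finrank ℚ K := ⟨_, rfl⟩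
  have hnpos : 0 < n := by rw [hn]; exact Module.finrank_pos
  rw [← hn] at hcard ⊢
  have hne : Nonempty (Ix K) := Fintype.card_pos_iff.1 (by rw [hcard]; exact hnpos)
  obtain ⟨D, hDdef⟩ : ∃ D : 𝓞 K, D = 6 * (4 * A ^ 3 + 27 * B ^ 2) := ⟨_, rfl⟩
  have hD : D ≠ 0 := by
    rw [hDdef]
    exact mul_ne_zero (by norm_num) hAB
  obtain ⟨a, ha⟩ : ∃ a : HeightOneSpectrum (𝓞 K) → ℝ, a = fun v => (tr (short A B) v : ℝ) := ⟨_, rfl⟩
  have hav : ∀ v, D ∉ v.asIdeal → |a v| ≤ 2 * √(nm v : ℝ) := by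
    intro v hv
    rw [ha]
    rw [hDdef] at hv
    exact (h8 K A B v (short A B) hv).2.1
  obtain ⟨x, p₀, l₀, hx1, hx2, hcut, hTw⟩ := h1 K A B σ₁ hAB hσ
  rw [← hDdef] at hcut
  have hr : 2 < 3 - x := by linarith
  obtain ⟨c, hc⟩ : ∃ c, c = 32 / Real.log ((3 - x) / 2) + 9 := ⟨_, rfl⟩
  obtain ⟨κ₁, C, V₁, hκ₁, hC, hTw⟩ := hTw c
  obtain ⟨κ₂, δ₂, V₂, hκ₂, hδ₂, hDi⟩ := h2 (Ix K) C₁ c x (2 * n) C (by linarith) hC (by positivity)
  obtain ⟨κ₃, δ₃, V₃, hκ₃, hδ₃, hFw⟩ := h3 (Ix K) C₁ c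
  obtain ⟨C', hC', hHSq⟩ := h5 K D x p₀ hD hx1 hx2 hcut
  obtain ⟨V₄, hV₄⟩ := choice hr C C' hC hC' l₀ c hc.ge
  refine ⟨max κ₁ (max κ₂ κ₃), min δ₂ δ₃, max (max V₁ V₂) (max V₃ V₄), lt_min hδ₂ hδ₃, ?_⟩
  intro V Y hV hYV hVY S hS
  have hVV₁ : V₁ ≤ V := ((le_max_left _ _).trans (le_max_left _ _)).trans hV
  have hVV₂ : V₂ ≤ V := ((le_max_right _ _).trans (le_max_left _ _)).trans hV
  have hVV₃ : V₃ ≤ V := ((le_max_left _ _).trans (le_max_right _ _)).trans hV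
  obtain ⟨hV1, l, N, hl1, hl₀, hexp, hNV, hN1, hL2, hL3⟩ :=
    hV₄ V (((le_max_right _ _).trans (le_max_right _ _)).trans hV)
  have hV0 : 0 < V := by linarith
  have hκa : V ^ κ₁ ≤ V ^ max κ₁ (max κ₂ κ₃) := Real.rpow_le_rpow_of_exponent_le hV1 (le_max_left _ _)
  have hκb : V ^ κ₂ ≤ Y :=
    (Real.rpow_le_rpow_of_exponent_le hV1 ((le_max_left _ _).trans (le_max_right _ _))).trans hVY
  have hκc : V ^ κ₃ ≤ Y :=
    (Real.rpow_le_rpow_of_exponent_le hV1 ((le_max_right _ _).trans (le_max_right _ _))).trans hVY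
  have hY1 : 1 ≤ Y := (Real.one_le_rpow hV1 hκ₂.le).trans hκb
  have hY0 : 0 < Y := by linarith
  -- the coordinates
  choose co hco _ using fun d => hpt d
  have hinj : Function.Injective co := fun d d' h => by rw [← hco d, ← hco d', h]
  obtain ⟨S', hS'⟩ : ∃ S' : Finset (Ix K → ℤ), S' = S.image co := ⟨_, rfl⟩
  have hcS : S'.card = S.card := by rw [hS']; exact Finset.card_image_of_injective _ hinj
  have hmem : ∀ z ∈ S', pt z ∈ S := by
    intro z hz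
    rw [hS', Finset.mem_image] at hz
    obtain ⟨d, hd, rfl⟩ := hz
    rw [hco]
    exact hd
  have hfin : ∀ δ : ℝ, min δ₂ δ₃ ≤ δ → (S'.card : ℝ) ≤ Y ^ ((Fintype.card (Ix K) : ℝ) - δ) →
      (S.card : ℝ) ≤ Y ^ ((n : ℝ) - min δ₂ δ₃) := by
    intro δ hδ hle
    rw [← hcS]
    refine hle.trans (Real.rpow_le_rpow_of_exponent_le hY1 ?_)
    rw [hcard]
    linarith
  -- the primes
  have hpr : ∀ p ∈ pr p₀ N, p.Prime ∧ p₀ < p ∧ p ≤ N := by
    intro p hp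
    unfold pr at hp
    rw [Finset.mem_filter, Finset.mem_Ioc] at hp
    exact ⟨hp.2, hp.1.1, hp.1.2⟩
  have hDv : ∀ p ∈ pr p₀ N, ∀ v ∈ Ov K p, D ∉ v.asIdeal := by
    intro p hp v hv hDv
    obtain ⟨hpp, hp0, -⟩ := hpr p hp
    have := hcut.2 v hDv p hpp (((h7 K p hpp).1 v).1 hv)
    omega
  have hinfo := fun d (hd : d ∈ S) => hTw V Y N hVV₁ hY1 hYV hN1 hNV d (hS d hd).2.1 (hS d hd).1
    (zf_mono hκa (hS d hd).2.2)
  -- (1) the mean square
  have hX := hDi V Y N hVV₂ hYV hκb hNV (pr p₀ N)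
    (fun p z => ∑ v ∈ D1 K p, chiv (pt z) v * a v) ?_ S' ?_
  rotate_left
  · intro p hp
    obtain ⟨hpp, hp0, hpN⟩ := hpr p hp
    obtain ⟨hO, hD1, hsub, hcO, -⟩ := h7 K p hpp
    refine ⟨hpp, hpN, ?_, fun z => ?_⟩
    · exact per_sum p (D1 K p) (fun v z => chiv (pt z) v) a fun v hv =>
        (h4 K p hpp (by have := hcut.1; omega) v (hsub hv)).1
    · calc |∑ v ∈ D1 K p, chiv (pt z) v * a v| ≤ ∑ v ∈ D1 K p, |chiv (pt z) v * a v| :=
            Finset.abs_sum_le_sum_abs _ _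
        _ ≤ ∑ v ∈ D1 K p, 2 * √(p : ℝ) := by
            refine Finset.sum_le_sum fun v hv => ?_
            rw [abs_mul]
            have e1 := hav v (hDv p hp v (hsub hv))
            rw [(hD1 v).1 hv] at e1
            calc |chiv (pt z) v| * |a v| ≤ 1 * |a v| :=
                  mul_le_mul_of_nonneg_right (chiv_le _ _) (abs_nonneg _)
              _ ≤ 2 * √(p : ℝ) := by rw [one_mul]; exact e1
        _ = (D1 K p).card * (2 * √(p : ℝ)) := by rw [Finset.sum_const, nsmul_eq_mul]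
        _ ≤ n * (2 * √(p : ℝ)) := by
            have : ((D1 K p).card : ℝ) ≤ n := by
              rw [hn]
              exact_mod_cast (Finset.card_le_card hsub).trans hcO
            exact mul_le_mul_of_nonneg_right this (by positivity)
        _ = 2 * n * √(p : ℝ) := by ring
  · intro z hz
    refine ⟨hbd z Y (hS _ (hmem z hz)).1, ?_⟩
    have := (hinfo _ (hmem z hz)).1
    rw [ha]
    exact this
  rcases hX with hX | hX
  · exact hfin δ₂ (min_le_left _ _) hX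
  have hS2 : S2 x p₀ N a ≤ 4 * C * V ^ 2 := by
    have e1 : S2 x p₀ N a ≤ 2 * ∑ p ∈ pr p₀ N, (p : ℝ) ^ (-(2 * x)) *
        mean p (fun z : Ix K → ℤ => (∑ v ∈ D1 K p, chiv (pt z) v * a v) ^ 2) := by
      unfold S2
      rw [Finset.mul_sum]
      refine Finset.sum_le_sum fun p hp => ?_
      obtain ⟨hpp, hp0, hpN⟩ := hpr p hp
      obtain ⟨hO, hD1, hsub, hcO, -⟩ := h7 K p hpp
      have h2p : 2 < p := by have := hcut.1; omega
      rw [mean_sq p (D1 K p) (fun v z => chiv (pt z) v) a (fun v hv w hw hwv =>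
        (h4 K p hpp h2p v (hsub hv)).2.2.2 w (hsub hw) hwv)]
      have e2 : ∑ v ∈ D1 K p, a v ^ 2 ≤
          2 * ∑ v ∈ D1 K p, mean p (fun z : Ix K → ℤ => chiv (pt z) v ^ 2) * a v ^ 2 := by
        rw [Finset.mul_sum]
        refine Finset.sum_le_sum fun v hv => ?_
        have e3 := (h4 K p hpp h2p v (hsub hv)).2.2.1
        have e5 := mul_le_mul_of_nonneg_right e3 (sq_nonneg (a v))
        linarith
      have e4 : (0 : ℝ) ≤ (p : ℝ) ^ (-(2 * x)) := Real.rpow_nonneg (Nat.cast_nonneg p) _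
      calc (p : ℝ) ^ (-(2 * x)) * ∑ v ∈ D1 K p, a v ^ 2 ≤ (p : ℝ) ^ (-(2 * x)) *
            (2 * ∑ v ∈ D1 K p, mean p (fun z : Ix K → ℤ => chiv (pt z) v ^ 2) * a v ^ 2) :=
            mul_le_mul_of_nonneg_left e2 e4
        _ = _ := by ring
    linarith
  have hS20 : 0 ≤ S2 x p₀ N a := by
    unfold S2
    exact Finset.sum_nonneg fun p _ => mul_nonneg (Real.rpow_nonneg (Nat.cast_nonneg p) _)
      (Finset.sum_nonneg fun v _ => sq_nonneg _)
  -- (2), (3) the random part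
  obtain ⟨T, hT⟩ : ∃ T : ℝ, T = 1 / (4 * (2 * l : ℕ) * 2 ^ (2 * l)) := ⟨_, rfl⟩
  have hl0 : (0 : ℝ) < (2 * l : ℕ) := by exact_mod_cast (by omega : 0 < 2 * l)
  have hT0 : 0 < T := by rw [hT]; positivity
  rw [← hT] at hL2 hL3
  have hwk : ∀ v : HeightOneSpectrum (𝓞 K), 0 ≤ wk (2 * l) v := by
    intro v
    unfold wk
    have : 0 ≤ Real.log (nm v : ℝ) := Real.log_natCast_nonneg _
    positivity
  have hr0 : (0 : ℝ) < 3 - x := by linarith
  refine hfin δ₃ (min_le_right _ _) (hFw V Y N hVV₃ hYV hκc hNV (pr p₀ N)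
    (fun p => ∑ v ∈ Ov K p, |a v| * wk (2 * l) v)
    (fun p z => ∑ v ∈ Ov K p, chiv (pt z) v * (a v * wk (2 * l) v)) T ?_ hT0 ?_ S' ?_)
  · intro p hp
    obtain ⟨hpp, hp0, hpN⟩ := hpr p hp
    have h2p : 2 < p := by have := hcut.1; omega
    refine ⟨hpp, hpN, ?_, fun z => ?_, ?_⟩
    · exact per_sum p (Ov K p) (fun v z => chiv (pt z) v) (fun v => a v * wk (2 * l) v) fun v hv =>
        (h4 K p hpp h2p v hv).1
    · refine (Finset.abs_sum_le_sum_abs _ _).trans (Finset.sum_le_sum fun v _ => ?_)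
      rw [abs_mul, abs_mul, abs_of_nonneg (hwk v)]
      exact mul_le_of_le_one_left (mul_nonneg (abs_nonneg _) (hwk v)) (chiv_le _ _)
    · rw [mean_sum]
      refine Finset.sum_eq_zero fun v hv => ?_
      rw [mean_mul, (h4 K p hpp h2p v hv).2.1, zero_mul]
  · have e1 := hHSq a (2 * l) N hav
    have e2 : C' * (S2 x p₀ N a + 1) / (3 - x) ^ (2 * (2 * l)) ≤
        C' * (4 * C * V ^ 2 + 1) / (3 - x) ^ (2 * (2 * l)) := by
      gcongr
    exact (mul_le_mul_of_nonneg_left (e1.trans e2) (sq_nonneg V)).trans hL3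
  · intro z hz
    refine ⟨hbd z Y (hS _ (hmem z hz)).1, ?_⟩
    have e1 := (hinfo _ (hmem z hz)).2 l hl₀ hexp
    have e2 : Zd (2 * l) p₀ N (fun v => (tr (short A B) v : ℝ)) (pt z) =
        ∑ p ∈ pr p₀ N, ∑ v ∈ Ov K p, chiv (pt z) v * (a v * wk (2 * l) v) := by
      unfold Zd
      refine Finset.sum_congr rfl fun p _ => Finset.sum_congr rfl fun v _ => ?_
      rw [ha]
      ring
    rw [e2] at e1
    have e3 : C * (2 * l + 1) * V * (S2 x p₀ N (fun v => (tr (short A B) v : ℝ)) + 1) /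
        (3 - x) ^ (2 * l) ≤ C * (2 * l + 1) * V * (4 * C * V ^ 2 + 1) / (3 - x) ^ (2 * l) := by
      have e4 : S2 x p₀ N (fun v => (tr (short A B) v : ℝ)) ≤ 4 * C * V ^ 2 := by
        rw [ha] at hS2
        exact hS2
      gcongr
    have e5 : 1 / (2 * ((2 * l : ℕ) : ℝ) * 2 ^ (2 * l)) = 2 * T := by
      rw [hT]
      field_simp
      norm_num
    linarith

end MP7ed9c3.Tz
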