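import Pool.Agent.Lib.MP_7ed9c3_nt.Tz.SpecZ

/-!
# MP_7ed9c3_nt, part Tz: one exceptional set for all `V`
-/

set_option autoImplicit false

namespace MP7ed9c3.Tz

open NumberField IsDedekindDomain Filter Topology MP7ed9c3.Tw MP7ed9c3.Zs

namespace UniformM

/-- Union over the dyadic values of `V`. -/
theorem uniform {α : Type} (Q : ℝ → α → Prop) (Z : ℝ → ℝ → α → Prop) (m : ℝ)
    (hZ : ∀ H H' V V' a, H' ≤ H → V ≤ V' → Z H V a → Z H' V' a)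
    (h : ∃ κ δ V₀ : ℝ, 0 < δ ∧ ∀ V Y : ℝ, V₀ ≤ V → Real.log Y ≤ V → V ^ κ ≤ Y →
      ∀ S : Finset α, (∀ a ∈ S, Q Y a ∧ Z (V ^ κ) V a) → (S.card : ℝ) ≤ Y ^ (m - δ)) :
    ∃ κ δ Y₀ : ℝ, 0 < κ ∧ 0 < δ ∧ ∀ Y : ℝ, Y₀ ≤ Y → ∀ S : Finset α,
      (∀ a ∈ S, Q Y a ∧ ∃ V : ℝ, Real.log Y ≤ V ∧ V ^ κ ≤ Y ∧ Z (V ^ κ) V a) →
      (S.card : ℝ) ≤ Y ^ (m - δ) := by
  classical
  obtain ⟨κ₀, δ, V₀, hδ, H⟩ := h
  set κ₁ : ℝ := max κ₀ 1 with hκ₁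
  have hκ1 : 1 ≤ κ₁ := le_max_right _ _
  have hκ0 : κ₀ ≤ κ₁ := le_max_left _ _
  -- `(log Y / log 2 + 2) ≤ Y ^ (δ / 2)` for large `Y`
  have hlim : ∀ᶠ Y : ℝ in atTop, Real.log Y / Real.log 2 + 2 ≤ Y ^ (δ / 2) := by
    have h1 : Tendsto (fun Y : ℝ => Real.log Y / Y ^ (δ / 2)) atTop (𝓝 0) :=
      (isLittleO_log_rpow_atTop (by positivity)).tendsto_div_nhds_zero
    have h2 : Tendsto (fun Y : ℝ => Y ^ (δ / 2)) atTop atTop :=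
      tendsto_rpow_atTop (by positivity)
    have hl2 : 0 < Real.log 2 := Real.log_pos (by norm_num)
    filter_upwards [h1.eventually (gt_mem_nhds (show (0 : ℝ) < Real.log 2 / 2 by positivity)),
      h2.eventually (eventually_ge_atTop 4), eventually_gt_atTop 0] with Y hY1 hY2 hY3
    have hp : 0 < Y ^ (δ / 2) := Real.rpow_pos_of_pos hY3 _
    rw [div_lt_iff₀ hp] at hY1
    have h3 : Real.log Y / Real.log 2 ≤ Y ^ (δ / 2) / 2 := by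
      rw [div_le_iff₀ hl2]
      nlinarith
    linarith
  obtain ⟨Y₁, hY₁⟩ := eventually_atTop.1 hlim
  refine ⟨2 * κ₁, δ / 2, max Y₁ (max (Real.exp V₀) (Real.exp 2)), by linarith, by linarith, ?_⟩
  intro Y hY S hS
  have hYa : Y₁ ≤ Y := (le_max_left _ _).trans hY
  have hYb : Real.exp V₀ ≤ Y := ((le_max_left _ _).trans (le_max_right _ _)).trans hY
  have hYc : Real.exp 2 ≤ Y := ((le_max_right _ _).trans (le_max_right _ _)).trans hY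
  have hY0 : 0 < Y := (Real.exp_pos 2).trans_le hYc
  have hlV : V₀ ≤ Real.log Y := by
    rw [Real.le_log_iff_exp_le hY0]; exact hYb
  have hl2 : 2 ≤ Real.log Y := by
    rw [Real.le_log_iff_exp_le hY0]; exact hYc
  have hY1 : 1 ≤ Y := by
    have : (1 : ℝ) ≤ Real.exp 2 := Real.one_le_exp (by norm_num)
    linarith
  -- the dyadic value
  have key : ∀ a ∈ S, ∃ j : ℕ, (j : ℝ) ≤ Real.log Y / Real.log 2 + 1 ∧ Q Y a ∧
      V₀ ≤ (2 : ℝ) ^ j ∧ Real.log Y ≤ (2 : ℝ) ^ j ∧ ((2 : ℝ) ^ j) ^ κ₀ ≤ Y ∧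
      Z (((2 : ℝ) ^ j) ^ κ₀) ((2 : ℝ) ^ j) a := by
    intro a ha
    obtain ⟨hQ, V, hV1, hV2, hV3⟩ := hS a ha
    have hVge : 2 ≤ V := hl2.trans hV1
    have hV0 : 0 < V := by linarith
    obtain ⟨j, hj1, hj2⟩ := exists_nat_pow_near (show (1 : ℝ) ≤ V by linarith)
      (show (1 : ℝ) < 2 by norm_num)
    have hW1 : V ≤ (2 : ℝ) ^ (j + 1) := hj2.le
    have hW2 : (2 : ℝ) ^ (j + 1) ≤ V ^ (2 : ℝ) := by
      rw [pow_succ, Real.rpow_two]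
      nlinarith
    have hWone : (1 : ℝ) ≤ (2 : ℝ) ^ (j + 1) := by linarith
    have hW3 : ((2 : ℝ) ^ (j + 1)) ^ κ₀ ≤ V ^ (2 * κ₁) := by
      calc ((2 : ℝ) ^ (j + 1)) ^ κ₀ ≤ ((2 : ℝ) ^ (j + 1)) ^ κ₁ :=
            Real.rpow_le_rpow_of_exponent_le hWone hκ0
        _ ≤ (V ^ (2 : ℝ)) ^ κ₁ := Real.rpow_le_rpow (by positivity) hW2 (by linarith)
        _ = V ^ (2 * κ₁) := by rw [← Real.rpow_mul hV0.le]
    refine ⟨j + 1, ?_, hQ, hlV.trans (hV1.trans hW1), hV1.trans hW1, hW3.trans hV2, ?_⟩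
    · have h2j : (2 : ℝ) ^ j ≤ Y := by
        calc (2 : ℝ) ^ j ≤ V := hj1
          _ = V ^ (1 : ℝ) := (Real.rpow_one V).symm
          _ ≤ V ^ (2 * κ₁) := Real.rpow_le_rpow_of_exponent_le (by linarith) (by linarith)
          _ ≤ Y := hV2
      have h3 := Real.log_le_log (by positivity) h2j
      rw [Real.log_pow] at h3
      have hlog2 : 0 < Real.log 2 := Real.log_pos (by norm_num)
      have h4 : (j : ℝ) ≤ Real.log Y / Real.log 2 := by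
        rw [le_div_iff₀ hlog2]; exact h3
      push_cast
      linarith
    · exact hZ _ _ _ _ a hW3 hW1 hV3
  choose! J hJ using key
  have hlog2 : 0 < Real.log 2 := Real.log_pos (by norm_num)
  set R : ℕ := ⌊Real.log Y / Real.log 2 + 1⌋₊ with hR
  have hJR : ∀ a ∈ S, J a ∈ Finset.range (R + 1) := fun a ha =>
    Finset.mem_range.2 (Nat.lt_succ_of_le (Nat.le_floor (hJ a ha).1))
  have hcard : S.card = ∑ j ∈ Finset.range (R + 1), (S.filter (fun a => J a = j)).card :=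
    Finset.card_eq_sum_card_fiberwise (fun a ha => hJR a ha)
  have hfib : ∀ j ∈ Finset.range (R + 1),
      ((S.filter (fun a => J a = j)).card : ℝ) ≤ Y ^ (m - δ) := by
    intro j _
    rcases (S.filter (fun a => J a = j)).eq_empty_or_nonempty with he | ⟨b, hb⟩
    · rw [he]
      simpa using (Real.rpow_pos_of_pos hY0 _).le
    · obtain ⟨hb1, hb2⟩ := Finset.mem_filter.1 hb
      obtain ⟨-, -, h1, h2, h3, -⟩ := hJ b hb1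
      rw [hb2] at h1 h2 h3
      refine H ((2 : ℝ) ^ j) Y h1 h2 h3 _ fun a ha => ?_
      obtain ⟨ha1, ha2⟩ := Finset.mem_filter.1 ha
      obtain ⟨-, hq, -, -, -, hz⟩ := hJ a ha1
      rw [ha2] at hz
      exact ⟨hq, hz⟩
  have hp : 0 ≤ Y ^ (m - δ) := (Real.rpow_pos_of_pos hY0 _).le
  calc (S.card : ℝ) = ∑ j ∈ Finset.range (R + 1), ((S.filter (fun a => J a = j)).card : ℝ) := by
        rw [hcard]; push_cast; rfl
    _ ≤ ∑ _j ∈ Finset.range (R + 1), Y ^ (m - δ) := Finset.sum_le_sum hfib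
    _ = ((R : ℝ) + 1) * Y ^ (m - δ) := by
        rw [Finset.sum_const, Finset.card_range, nsmul_eq_mul]; push_cast; rfl
    _ ≤ Y ^ (δ / 2) * Y ^ (m - δ) := by
        refine mul_le_mul_of_nonneg_right ?_ hp
        have h1 : (R : ℝ) ≤ Real.log Y / Real.log 2 + 1 :=
          Nat.floor_le (by positivity)
        have h2 := hY₁ Y hYa
        linarith
    _ = Y ^ (m - δ / 2) := by
        rw [← Real.rpow_add hY0]
        congr 1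
        ring

theorem zf_mono {K : Type} [Field K] [NumberField K] (E : WeierstrassCurve K)
    (σ₁ t₀ H H' V V' : ℝ) (hH : H' ≤ H) (hV : V ≤ V') (h : ZeroFree E σ₁ t₀ H V) :
    ZeroFree E σ₁ t₀ H' V' := by
  have hsub : box σ₁ t₀ H' ⊆ box σ₁ t₀ H := fun s hs => ⟨hs.1, hs.2.trans_le hH⟩
  obtain ⟨M, F, hM, hF, hb, he⟩ := h
  exact ⟨M, F, hM, hF.mono hsub, fun s hs =>
    ⟨(hb s (hsub hs)).1.trans (Real.exp_le_exp.2 hV), (hb s (hsub hs)).2⟩,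
    fun s hs => he s (hsub hs)⟩

end UniformM

/-- Almost all curves, one exceptional set for all `V`. -/
theorem curvesUniform (h : S_Curves) (K : Type) [Field K] [NumberField K] (σ₁ : ℝ) (hσ : σ₁ < 1) :
    ∃ κ δ Y₀ : ℝ, 0 < κ ∧ 0 < δ ∧ ∀ Y : ℝ, Y₀ ≤ Y → ∀ S : Finset (𝓞 K × 𝓞 K),
      (∀ z ∈ S, (House z.1 Y ∧ House z.2 Y ∧ 4 * z.1 ^ 3 + 27 * z.2 ^ 2 ≠ 0) ∧
        ∃ V : ℝ, Real.log Y ≤ V ∧ V ^ κ ≤ Y ∧
          ∃ t₀ : ℝ, ZeroFree (crv z.1 z.2) σ₁ t₀ (V ^ κ) V) →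
      (S.card : ℝ) ≤ Y ^ (2 * (Module.finrank ℚ K : ℝ) - δ) := by
  refine UniformM.uniform
    (fun Y (z : 𝓞 K × 𝓞 K) => House z.1 Y ∧ House z.2 Y ∧ 4 * z.1 ^ 3 + 27 * z.2 ^ 2 ≠ 0)
    (fun H V z => ∃ t₀ : ℝ, ZeroFree (crv z.1 z.2) σ₁ t₀ H V) _ ?_ ?_
  · rintro H H' V V' z hH hV ⟨t₀, ht⟩
    exact ⟨t₀, UniformM.zf_mono _ _ _ _ _ _ _ hH hV ht⟩
  · obtain ⟨κ, δ, V₀, hδ, hS⟩ := h K σ₁ hσ
    refine ⟨κ, δ, V₀, hδ, fun V Y h1 h2 h3 S h4 => hS V Y h1 h2 h3 S fun z hz => ?_⟩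
    obtain ⟨⟨h5, h6, h7⟩, h8⟩ := h4 z hz
    exact ⟨h5, h6, h7, h8⟩

/-- Almost all twists, one exceptional set for all `V`. -/
theorem twistsUniform (h : S_Twists) (K : Type) [Field K] [NumberField K] (A B : 𝓞 K) (σ₁ : ℝ)
    (hAB : 4 * A ^ 3 + 27 * B ^ 2 ≠ 0) (hσ : σ₁ < 1) :
    ∃ κ δ Y₀ : ℝ, 0 < κ ∧ 0 < δ ∧ ∀ Y : ℝ, Y₀ ≤ Y → ∀ S : Finset (𝓞 K),
      (∀ d ∈ S, (House d Y ∧ d ≠ 0) ∧
        ∃ V : ℝ, Real.log Y ≤ V ∧ V ^ κ ≤ Y ∧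
          ZeroFree (crv (A * d ^ 2) (B * d ^ 3)) σ₁ 0 (V ^ κ) V) →
      (S.card : ℝ) ≤ Y ^ ((Module.finrank ℚ K : ℝ) - δ) := by
  refine UniformM.uniform (fun Y (d : 𝓞 K) => House d Y ∧ d ≠ 0)
    (fun H V d => ZeroFree (crv (A * d ^ 2) (B * d ^ 3)) σ₁ 0 H V) _ ?_ ?_
  · intro H H' V V' z hH hV ht
    exact UniformM.zf_mono _ _ _ _ _ _ _ hH hV ht
  · obtain ⟨κ, δ, V₀, hδ, hS⟩ := h K A B σ₁ hAB hσ
    refine ⟨κ, δ, V₀, hδ, fun V Y h1 h2 h3 S h4 => hS V Y h1 h2 h3 S fun z hz => ?_⟩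
    obtain ⟨⟨h5, h6⟩, h8⟩ := h4 z hz
    exact ⟨h5, h6, h8⟩

end MP7ed9c3.Tz
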