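import Pool.Agent.Lib.MP_7ed9c3_nt.Tz.Psi
import Pool.Agent.Lib.MP_7ed9c3_nt.Tz.BoxInfo
import Pool.Agent.Lib.MP_7ed9c3_nt.Tz.Moment
import Pool.Agent.Lib.MP_7ed9c3_nt.Tz.Equi
import Pool.Agent.Lib.MP_7ed9c3_nt.Tz.Twists
import Pool.Agent.Lib.MP_7ed9c3_nt.Tz.TwInfo
import Pool.Agent.Lib.MP_7ed9c3_nt.Tz.Q
import Pool.Agent.Lib.MP_7ed9c3_nt.Tz.Curves
import Pool.Agent.Lib.MP_7ed9c3_nt.Tz.MSCurve
import Pool.Agent.Lib.MP_7ed9c3_nt.Tz.DegOne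
import Pool.Agent.Lib.MP_7ed9c3_nt.Tz.J1
import Pool.Agent.Lib.MP_7ed9c3_nt.Tz.J3
import Pool.Agent.Lib.MP_7ed9c3_nt.Tz.Few
import Pool.Agent.Lib.MP_7ed9c3_nt.Tz.Hoeff
import Pool.Agent.Lib.MP_7ed9c3_nt.Tz.TrMean
import Pool.Agent.Lib.MP_7ed9c3_nt.Tz.Sing
import Pool.Agent.Lib.MP_7ed9c3_nt.Tz.Loc
import Pool.Agent.Lib.MP_7ed9c3_nt.Tz.Coord
import Pool.Agent.Lib.MP_7ed9c3_nt.Tz.J2
import Pool.Agent.Lib.MP_7ed9c3_nt.Tz.HSq
import Pool.Agent.Lib.MP_7ed9c3_nt.Tz.Dich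
import Pool.Agent.Lib.MP_7ed9c3_nt.Tz.Hom
import Pool.Agent.Lib.MP_7ed9c3_nt.Tz.Div
import Pool.Agent.Lib.MP_7ed9c3_nt.Tz.Prim
import Pool.Agent.Lib.MP_7ed9c3_nt.Tz.TrGood
import Pool.Agent.Lib.MP_7ed9c3_nt.Tz.ChiMean
import Pool.Agent.Lib.MP_7ed9c3_nt.Tz.FF
import Pool.Agent.Lib.MP_7ed9c3_nt.Tz.CoefP
import Pool.Agent.Lib.MP_7ed9c3_nt.Tz.Transfer
import Pool.Agent.Lib.MP_7ed9c3_nt.Tz.Taylor
import Pool.Agent.Lib.MP_7ed9c3_nt.Tz.SumBound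
import Pool.Agent.Lib.MP_7ed9c3_nt.Tz.Uniform

/-!
# MP_7ed9c3_nt, part Tz: assembly
-/

set_option autoImplicit false

namespace MP7ed9c3.Tz

theorem momentA : S_Moment := moment equi hoeff

theorem fewA : S_Few := few momentA

theorem dichA : S_Dich := dich fewA

theorem locA : S_Loc := loc sing

theorem trMeanA : S_TrMean := trMean hom sing ff

theorem chiMeanA : S_ChiMean := chiMean hom

theorem transferA : S_Transfer := transfer prim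

theorem boxInfoA : S_BoxInfo := boxInfo taylor

theorem msCurveA : S_MSCurve :=
  msCurve boxInfoA sumBound locA coefP trGood trMeanA transferA divs coord prim

theorem curvesAll : S_Curves := curves msCurveA dichA (degOne psi prim) trMeanA coord prim

theorem twInfoA : S_TwInfo :=
  twInfo boxInfoA sumBound locA coefP trGood transferA divs prim (j1 prim) j2 (j3 sumBound)
    (qq psi prim)

theorem twistsAll : S_Twists :=
  twists twInfoA dichA fewA chiMeanA (hSq prim) coord prim trGood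

end MP7ed9c3.Tz
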