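import Pool.Agent.Lib.MP_7ed9c3_nt.Tz.SpecM

/-!
# MP_7ed9c3_nt, part Tz: the mean square of a family
-/

set_option autoImplicit false

namespace MP7ed9c3.Tz

namespace DichM

open Classical in
/-- the number of residues -/
lemma card_res {ι : Type} [Fintype ι] (p : ℕ) :
    (∑ _a : ι → Fin p, (1 : ℝ)) = (p : ℝ) ^ Fintype.card ι := by
  simp

lemma mean_sub_const {ι : Type} [Fintype ι] (p : ℕ) (hp : 0 < p) (w : ℝ) (f : (ι → ℤ) → ℝ) :
    mean p (fun a => w * (f a - mean p f)) = 0 := by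
  classical
  have hp' : (0 : ℝ) < (p : ℝ) ^ Fintype.card ι := by positivity
  have h1 : (∑ a : ι → Fin p, (w * (f (fun i => ((a i : ℕ) : ℤ)) - mean p f))) =
      w * ((∑ a : ι → Fin p, f (fun i => ((a i : ℕ) : ℤ))) -
        mean p f * (p : ℝ) ^ Fintype.card ι) := by
    rw [← Finset.mul_sum, Finset.sum_sub_distrib, ← card_res (ι := ι) p, Finset.mul_sum]
    simp
  have h2 : mean p f * (p : ℝ) ^ Fintype.card ι =
      ∑ a : ι → Fin p, f (fun i => ((a i : ℕ) : ℤ)) := by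
    unfold mean
    rw [div_mul_cancel₀ _ hp'.ne']
  have h3 : mean p (fun a => w * (f a - mean p f)) =
      (∑ a : ι → Fin p, (w * (f (fun i => ((a i : ℕ) : ℤ)) - mean p f))) /
        (p : ℝ) ^ Fintype.card ι := rfl
  rw [h3, h1, h2, sub_self, mul_zero, zero_div]

lemma mean_nonneg {ι : Type} [Fintype ι] (p : ℕ) (f : (ι → ℤ) → ℝ) (hf : ∀ a, 0 ≤ f a) :
    0 ≤ mean p f := by
  classical
  unfold mean
  exact div_nonneg (Finset.sum_nonneg fun a _ => hf _) (by positivity)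

lemma mean_le {ι : Type} [Fintype ι] (p : ℕ) (hp : 0 < p) (f : (ι → ℤ) → ℝ) (B : ℝ)
    (hf : ∀ a, f a ≤ B) : mean p f ≤ B := by
  classical
  have hp' : (0 : ℝ) < (p : ℝ) ^ Fintype.card ι := by positivity
  unfold mean
  rw [div_le_iff₀ hp']
  calc ∑ a : ι → Fin p, f (fun i => ((a i : ℕ) : ℤ)) ≤ ∑ _a : ι → Fin p, B :=
        Finset.sum_le_sum fun a _ => hf _
    _ = B * (p : ℝ) ^ Fintype.card ι := by
        rw [← card_res (ι := ι) p, Finset.mul_sum]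
        simp

end DichM

open DichM

theorem dich (h : S_Few) : S_Dich := by
  intro ι _ _ C₁ c x D C hx hC hD
  obtain ⟨κ, δ, V₀, hκ, hδ, hmain⟩ := h ι C₁ c
  obtain ⟨Z, hZ⟩ : ∃ Z : ℝ, Z = ∑' m : ℕ, (m : ℝ) ^ (2 - 4 * x) := ⟨_, rfl⟩
  have hsum : Summable (fun m : ℕ => (m : ℝ) ^ (2 - 4 * x)) :=
    Real.summable_nat_rpow.2 (by linarith)
  have hZ0 : 0 ≤ Z := by
    rw [hZ]
    exact tsum_nonneg fun m => Real.rpow_nonneg (Nat.cast_nonneg m) _
  refine ⟨κ, δ, max V₀ (max 1 (√(D ^ 4 * Z) / C)), hκ, hδ, ?_⟩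
  intro V Y N hV hY hVY hN P X hP S hS
  have hV0 : V₀ ≤ V := (le_max_left _ _).trans hV
  have hV1 : 1 ≤ V := (le_max_left _ _).trans ((le_max_right _ _).trans hV)
  have hV2 : √(D ^ 4 * Z) / C ≤ V := (le_max_right _ _).trans ((le_max_right _ _).trans hV)
  rcases le_or_gt (∑ p ∈ P, (p : ℝ) ^ (-(2 * x)) * mean p (fun a => X p a ^ 2)) (2 * C * V ^ 2)
    with hle | hgt
  · exact Or.inr hle
  refine Or.inl ?_
  refine hmain V Y N hV0 hY hVY hN P (fun p => D ^ 2 * (p : ℝ) ^ (1 - 2 * x))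
    (fun p a => (p : ℝ) ^ (-(2 * x)) * (X p a ^ 2 - mean p (fun b => X p b ^ 2)))
    (C * V ^ 2) ?_ (by positivity) ?_ S ?_
  · intro p hp
    obtain ⟨hpp, hpN, hper, hbd⟩ := hP p hp
    have hp0 : 0 < p := hpp.pos
    have hp0' : (0 : ℝ) < p := by exact_mod_cast hp0
    refine ⟨hpp, hpN, ?_, ?_, mean_sub_const p hp0 _ _⟩
    · intro a b
      simp only
      rw [hper a b]
    · intro a
      have hX : ∀ b, X p b ^ 2 ≤ D ^ 2 * p := by
        intro b
        have h1 : |X p b| ^ 2 ≤ (D * √(p : ℝ)) ^ 2 :=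
          pow_le_pow_left₀ (abs_nonneg _) (hbd b) 2
        rw [sq_abs, mul_pow, Real.sq_sqrt hp0'.le] at h1
        exact h1
      have hE1 : mean p (fun b => X p b ^ 2) ≤ D ^ 2 * p := mean_le p hp0 _ _ hX
      have hE0 : 0 ≤ mean p (fun b => X p b ^ 2) := mean_nonneg p _ fun b => sq_nonneg _
      have h2 : |X p a ^ 2 - mean p (fun b => X p b ^ 2)| ≤ D ^ 2 * p := by
        rw [abs_le]
        constructor
        · have := sq_nonneg (X p a)
          linarith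
        · have := hX a
          linarith
      have h3 : (0 : ℝ) ≤ (p : ℝ) ^ (-(2 * x)) := Real.rpow_nonneg hp0'.le _
      rw [abs_mul, abs_of_nonneg h3]
      calc (p : ℝ) ^ (-(2 * x)) * |X p a ^ 2 - mean p (fun b => X p b ^ 2)| ≤
            (p : ℝ) ^ (-(2 * x)) * (D ^ 2 * p) := mul_le_mul_of_nonneg_left h2 h3
        _ = D ^ 2 * ((p : ℝ) ^ (-(2 * x)) * (p : ℝ) ^ (1 : ℝ)) := by
            rw [Real.rpow_one]
            ring
        _ = D ^ 2 * (p : ℝ) ^ (1 - 2 * x) := by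
            rw [← Real.rpow_add hp0']
            congr 2
            ring
  · have h1 : ∑ p ∈ P, (D ^ 2 * (p : ℝ) ^ (1 - 2 * x)) ^ 2 ≤ D ^ 4 * Z := by
      have h2 : ∀ p ∈ P, (D ^ 2 * (p : ℝ) ^ (1 - 2 * x)) ^ 2 = D ^ 4 * (p : ℝ) ^ (2 - 4 * x) := by
        intro p hp
        have hp0' : (0 : ℝ) < p := by exact_mod_cast (hP p hp).1.pos
        rw [mul_pow, ← Real.rpow_natCast ((p : ℝ) ^ (1 - 2 * x)) 2, ← Real.rpow_mul hp0'.le]
        have e1 : (1 - 2 * x) * ((2 : ℕ) : ℝ) = 2 - 4 * x := by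
          push_cast
          ring
        rw [e1]
        ring
      rw [Finset.sum_congr rfl h2, ← Finset.mul_sum]
      refine mul_le_mul_of_nonneg_left ?_ (by positivity)
      rw [hZ]
      exact hsum.sum_le_tsum P fun m _ => Real.rpow_nonneg (Nat.cast_nonneg m) _
    have h3 : D ^ 4 * Z ≤ (C * V) ^ 2 := by
      have h4 : √(D ^ 4 * Z) ≤ C * V := by
        rw [div_le_iff₀ hC] at hV2
        linarith
      have h5 : 0 ≤ D ^ 4 * Z := by positivity
      calc D ^ 4 * Z = √(D ^ 4 * Z) ^ 2 := (Real.sq_sqrt h5).symm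
        _ ≤ (C * V) ^ 2 := pow_le_pow_left₀ (Real.sqrt_nonneg _) h4 2
    calc V ^ 2 * ∑ p ∈ P, (D ^ 2 * (p : ℝ) ^ (1 - 2 * x)) ^ 2 ≤ V ^ 2 * (C * V) ^ 2 :=
          mul_le_mul_of_nonneg_left (h1.trans h3) (by positivity)
      _ = (C * V ^ 2) ^ 2 := by ring
  · intro a ha
    obtain ⟨ha1, ha2⟩ := hS a ha
    refine ⟨ha1, ?_⟩
    have h1 : ∑ p ∈ P, (p : ℝ) ^ (-(2 * x)) * (X p a ^ 2 - mean p (fun b => X p b ^ 2)) =
        ∑ p ∈ P, (p : ℝ) ^ (-(2 * x)) * X p a ^ 2 -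
          ∑ p ∈ P, (p : ℝ) ^ (-(2 * x)) * mean p (fun b => X p b ^ 2) := by
      rw [← Finset.sum_sub_distrib]
      exact Finset.sum_congr rfl fun p _ => by ring
    rw [h1]
    refine le_trans ?_ (neg_le_abs _)
    linarith

end MP7ed9c3.Tz
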