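import Pool.Agent.Lib.MP_7ed9c3_nt.Tz.SpecA
import Pool.Agent.Lib.MP_7ed9c3_nt.Tw.D6a
import Pool.Agent.Lib.MP_7ed9c3_nt.Zr.LogZ
import Pool.Agent.Lib.MP_7ed9c3_nt.Tw.All

/-!
# MP_7ed9c3_nt, part Tz: the pole of the zeta function (`S_Psi`)
-/

set_option autoImplicit false

namespace MP7ed9c3.Tz

open NumberField IsDedekindDomain Filter Topology Metric MP7ed9c3.Tw MP7ed9c3.Zs

namespace PsiM

/-- a holomorphic logarithm on a ball -/
theorem log_exists {G : ℂ → ℂ} {R : ℝ} (hR : 0 < R) (hG : DifferentiableOn ℂ G (ball 0 R))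
    (hne : ∀ z ∈ ball (0 : ℂ) R, G z ≠ 0) :
    ∃ g : ℂ → ℂ, DifferentiableOn ℂ g (ball 0 R) ∧
      ∀ z ∈ ball (0 : ℂ) R, Complex.exp (g z) = G z := by
  have hd : DifferentiableOn ℂ (fun z => deriv G z / G z) (ball 0 R) :=
    (hG.deriv isOpen_ball).div hG hne
  obtain ⟨g, hg0, hg⟩ := hd.isExactOn_ball.with_val_at 0 (Complex.log (G 0))
  have hgd : DifferentiableOn ℂ g (ball 0 R) := fun z hz =>
    (hg z hz).differentiableAt.differentiableWithinAt
  refine ⟨g, hgd, ?_⟩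
  have hder : ∀ z ∈ ball (0 : ℂ) R, HasDerivAt (fun z => G z * Complex.exp (-g z)) 0 z := by
    intro z hz
    have hGz : HasDerivAt G (deriv G z) z :=
      (hG.differentiableAt (isOpen_ball.mem_nhds hz)).hasDerivAt
    have h2 : HasDerivAt (fun z => G z * Complex.exp (-g z))
        (deriv G z * Complex.exp (-g z) +
          G z * (Complex.exp (-g z) * (-(deriv G z / G z)))) z :=
      hGz.mul ((hg z hz).neg.cexp)
    have hne' := hne z hz
    have e : deriv G z * Complex.exp (-g z) +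
          G z * (Complex.exp (-g z) * (-(deriv G z / G z))) = 0 := by
      field_simp
      ring
    rwa [e] at h2
  intro z hz
  have h3 := isOpen_ball.is_const_of_deriv_eq_zero (convex_ball (0 : ℂ) R).isPreconnected
    (f := fun z => G z * Complex.exp (-g z)) (fun w hw =>
      (hder w hw).differentiableAt.differentiableWithinAt) (fun w hw => (hder w hw).deriv)
    hz (mem_ball_self hR)
  have h0 : G 0 ≠ 0 := hne 0 (mem_ball_self hR)
  have h4 : G z * Complex.exp (-g z) = 1 := by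
    rw [h3, hg0, Complex.exp_neg, Complex.exp_log h0, mul_inv_cancel₀ h0]
  rw [Complex.exp_neg] at h4
  have he := Complex.exp_ne_zero (g z)
  field_simp at h4
  exact h4.symm

/-- a convergent power series -/
theorem fps {f : ℂ → ℂ} {a : ℕ → ℂ} {δ : ℝ} (hδ : 0 < δ)
    (h : ∀ z : ℂ, ‖z‖ < δ → HasSum (fun n : ℕ => a n * z ^ n) (f z)) :
    DifferentiableOn ℂ f (ball 0 (δ / 2)) := by
  have hb : HasFPowerSeriesOnBall f (FormalMultilinearSeries.ofScalars ℂ a) 0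
      (ENNReal.ofReal (δ / 2)) := by
    refine ⟨?_, by simpa using hδ, ?_⟩
    · have hs := (h ((δ / 2 : ℝ) : ℂ) (by
        rw [Complex.norm_real, Real.norm_eq_abs, abs_of_pos (by linarith)]; linarith)).summable.norm
      rw [ENNReal.ofReal]
      apply FormalMultilinearSeries.le_radius_of_summable
      refine hs.congr ?_
      intro n
      rw [FormalMultilinearSeries.ofScalars_norm, norm_mul, norm_pow, Complex.norm_real,
        Real.norm_eq_abs, abs_of_pos (show 0 < δ / 2 by linarith),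
        Real.coe_toNNReal _ (show 0 ≤ δ / 2 by linarith)]
    · intro y hy
      have hy' : ‖y‖ < δ := by
        rw [Metric.mem_eball, edist_zero_right, ← ofReal_norm,
          ENNReal.ofReal_lt_ofReal_iff (by linarith)] at hy
        linarith
      rw [zero_add]
      have := h y hy'
      simpa [FormalMultilinearSeries.ofScalars_apply_eq, mul_comm] using this
  have h1 := hb.differentiableOn
  rwa [Metric.eball_ofReal] at h1

/-- the abstract form -/
theorem coefBound {A : ℕ → ℝ} {L Z : ℂ → ℂ} {R : ℝ} (hR : 4 < R)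
    (hZ : DifferentiableOn ℂ Z (ball 5 R)) (hne : ∀ s ∈ ball (5 : ℂ) R, Z s ≠ 0)
    (hL : ∀ h : ℂ, ‖h‖ < 1 / 2 → HasSum (fun m : ℕ => ((-1) ^ m * (A m : ℂ)) * h ^ m) (L h))
    (hexp : ∀ h : ℂ, ‖h‖ < 1 / 2 → Z (5 + h) = (4 + h) * Complex.exp (L h)) :
    ∃ M r : ℝ, 4 < r ∧ ∀ m : ℕ, 1 ≤ m → (1 / 4) ^ m / m - M / r ^ m ≤ A m := by
  have hmem : ∀ {ρ : ℝ} {h : ℂ}, h ∈ ball (0 : ℂ) ρ ↔ ‖h‖ < ρ := fun {ρ h} => by
    rw [mem_ball_zero_iff]
  have hsh : ∀ h ∈ ball (0 : ℂ) R, 5 + h ∈ ball (5 : ℂ) R := by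
    intro h hh
    rw [mem_ball, dist_eq_norm]
    rw [hmem] at hh
    simpa using hh
  have hG : DifferentiableOn ℂ (fun h => Z (5 + h)) (ball 0 R) := by
    refine hZ.comp (by fun_prop) hsh
  obtain ⟨g, hg, hge⟩ := log_exists (by linarith) hG (fun h hh => hne _ (hsh h hh))
  obtain ⟨r, hr4, hrR⟩ := exists_between hR
  have hr0 : 0 < r := by linarith
  have hgc : ContinuousOn g (sphere 0 r) := by
    refine hg.continuousOn.mono ?_
    intro h hh
    rw [hmem]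
    rw [mem_sphere_zero_iff_norm] at hh
    linarith
  obtain ⟨M, hM⟩ := (isCompact_sphere (0 : ℂ) r).exists_bound_of_continuousOn hgc
  have hcau : ∀ m : ℕ, ‖iteratedDeriv m g 0‖ ≤ m.factorial * M / r ^ m := by
    intro m
    refine Complex.norm_iteratedDeriv_le_of_forall_mem_sphere_norm_le m hr0 ?_ hM
    have h1 : closure (ball (0 : ℂ) r) ⊆ ball 0 R := by
      rw [closure_ball _ hr0.ne']
      exact closedBall_subset_ball hrR
    exact (hg.mono h1).diffContOnCl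
  -- the logarithm
  have hlog : ∀ h : ℂ, ‖h‖ < 1 / 2 → HasSum
      (fun m : ℕ => ((-1) ^ (m + 1) * (1 / 4) ^ m / m) * h ^ m) (Complex.log (1 + h / 4)) := by
    intro h hh
    have h1 : ‖h / 4‖ < 1 := by
      rw [norm_div]
      norm_num
      linarith
    have h2 := Complex.hasSum_taylorSeries_log h1
    refine h2.congr_fun ?_
    intro m
    rw [show h / 4 = (1 / 4) * h by ring, mul_pow]
    ring
  have hLd := fps (by norm_num) hL
  have hld := fps (by norm_num) hlog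
  have hsub : ball (0 : ℂ) (1 / 2 / 2) ⊆ ball 0 R := ball_subset_ball (by linarith)
  have hne4 : ∀ h : ℂ, ‖h‖ < 1 / 2 → 1 + h / 4 ≠ 0 := by
    intro h hh h0
    have h1 : h = -4 := by
      linear_combination 4 * h0
    rw [h1] at hh
    norm_num at hh
  set D : ℂ → ℂ := fun h => g h - L h - Complex.log (1 + h / 4) with hD
  have hDd : DifferentiableOn ℂ D (ball 0 (1 / 2 / 2)) := ((hg.mono hsub).sub hLd).sub hld
  have hDe : ∀ h ∈ ball (0 : ℂ) (1 / 2 / 2), Complex.exp (D h) = 4 := by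
    intro h hh
    rw [hmem] at hh
    have h12 : ‖h‖ < 1 / 2 := by linarith
    have h1 := hge h (hsub (hmem.mpr hh))
    simp only [hD]
    rw [Complex.exp_sub, Complex.exp_sub, h1, Complex.exp_log (hne4 h h12), hexp h h12]
    have h2 := Complex.exp_ne_zero (L h)
    have h3 := hne4 h h12
    have h4 : (4 + h) = 4 * (1 + h / 4) := by ring
    rw [h4, mul_div_assoc, div_self h2, mul_one, mul_div_assoc, div_self h3, mul_one]
  have hDder : ∀ h ∈ ball (0 : ℂ) (1 / 2 / 2), deriv D h = 0 := by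
    intro h hh
    have h1 : HasDerivAt D (deriv D h) h :=
      (hDd.differentiableAt (isOpen_ball.mem_nhds hh)).hasDerivAt
    have h2 := h1.cexp
    have h3 : HasDerivAt (fun h => Complex.exp (D h)) 0 h := by
      have h4 : (fun h => Complex.exp (D h)) =ᶠ[𝓝 h] fun _ => (4 : ℂ) := by
        filter_upwards [isOpen_ball.mem_nhds hh] with w hw
        exact hDe w hw
      exact (hasDerivAt_const h (4 : ℂ)).congr_of_eventuallyEq h4
    have h5 := h2.unique h3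
    exact (mul_eq_zero.mp h5).resolve_left (Complex.exp_ne_zero _)
  have hDc : ∀ h ∈ ball (0 : ℂ) (1 / 2 / 2), D h = D 0 := by
    intro h hh
    exact isOpen_ball.is_const_of_deriv_eq_zero (convex_ball (0 : ℂ) (1 / 2 / 2)).isPreconnected
      hDd hDder hh (mem_ball_self (by norm_num))
  have hgs : ∀ h : ℂ, ‖h‖ < 1 / 4 → HasSum (fun m : ℕ => ((-1) ^ m * (A m : ℂ) +
      (-1) ^ (m + 1) * (1 / 4) ^ m / m + if m = 0 then D 0 else 0) * h ^ m) (g h) := by
    intro h hh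
    have h12 : ‖h‖ < 1 / 2 := by linarith
    have h1 := hL h h12
    have h2 := hlog h h12
    have h3 : HasSum (fun m : ℕ => (if m = 0 then D 0 else 0) * h ^ m) (D 0) := by
      have h4 := hasSum_single (f := fun m : ℕ => (if m = 0 then D 0 else 0) * h ^ m) 0 (by
        intro m hm
        simp [hm])
      simpa using h4
    have h5 : L h + Complex.log (1 + h / 4) + D 0 = g h := by
      rw [← hDc h (hmem.mpr (by linarith))]
      simp only [hD]
      ring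
    rw [← h5]
    refine ((h1.add h2).add h3).congr_fun ?_
    intro m
    ring
  refine ⟨M, r, hr4, ?_⟩
  intro m hm
  have hm0 : m ≠ 0 := by omega
  have h1 := MP7ed9c3.Zr.logz_coeff (by norm_num) hgs m
  have h2 := hcau m
  have hf : (0 : ℝ) < m.factorial := by exact_mod_cast m.factorial_pos
  have h3 : ‖iteratedDeriv m g 0 / (m.factorial : ℂ)‖ ≤ M / r ^ m := by
    rw [norm_div, Complex.norm_natCast, div_le_iff₀ hf]
    calc ‖iteratedDeriv m g 0‖ ≤ m.factorial * M / r ^ m := h2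
      _ = M / r ^ m * m.factorial := by ring
  rw [h1, if_neg hm0, add_zero] at h3
  have h4 : ((-1 : ℂ) ^ m * (A m : ℂ) + (-1) ^ (m + 1) * (1 / 4) ^ m / m) =
      (-1) ^ m * (((A m - (1 / 4) ^ m / m : ℝ)) : ℂ) := by
    push_cast
    ring
  rw [h4, norm_mul, norm_pow, norm_neg, norm_one, one_pow, one_mul, Complex.norm_real,
    Real.norm_eq_abs] at h3
  have h5 := (abs_le.mp h3).1
  linarith


/-- the general term of the double series -/
noncomputable def dt {ι : Type} (z c : ι → ℝ) (h : ℂ) (p : ι × ℕ) : ℂ :=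
  ((c p.1 * z p.1 ^ (-(5 : ℝ)) * (Real.log (z p.1) ^ p.2 / p.2.factorial) : ℝ) : ℂ) * (-h) ^ p.2

theorem cpow_z {x : ℝ} (hx : 1 ≤ x) (h : ℂ) : (x : ℂ) ^ (-(5 + h)) =
    ((x ^ (-(5 : ℝ)) : ℝ) : ℂ) * Complex.exp (-h * (Real.log x : ℂ)) := by
  have hx0 : (0 : ℝ) < x := by linarith
  have hxc : (x : ℂ) ≠ 0 := by exact_mod_cast hx0.ne'
  have h1 : -(5 + h) = ((-(5 : ℝ) : ℝ) : ℂ) + -h := by
    push_cast
    ring
  rw [h1, Complex.cpow_add _ _ hxc, Complex.ofReal_cpow hx0.le, Complex.cpow_def_of_ne_zero hxc (-h),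
    ← Complex.ofReal_log hx0.le, mul_comm ((Real.log x : ℂ)) (-h)]

theorem row_hasSum {ι : Type} {z c : ι → ℝ} (hz : ∀ i, 1 ≤ z i) (h : ℂ) (i : ι) :
    HasSum (fun m : ℕ => dt z c h (i, m)) ((c i : ℂ) * (z i : ℂ) ^ (-(5 + h))) := by
  have h0 : HasSum (fun n : ℕ => (-h * (Real.log (z i) : ℂ)) ^ n / (n.factorial : ℂ))
      (Complex.exp (-h * (Real.log (z i) : ℂ))) := by
    rw [Complex.exp_eq_exp_ℂ]
    exact NormedSpace.expSeries_div_hasSum_exp _
  have h1 := h0.mul_left ((c i : ℂ) * ((z i ^ (-(5 : ℝ)) : ℝ) : ℂ))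
  rw [cpow_z (hz i), ← mul_assoc]
  refine h1.congr_fun ?_
  intro m
  simp only [dt]
  push_cast
  rw [mul_pow]
  ring

theorem row_norm {ι : Type} {z c : ι → ℝ} (hz : ∀ i, 1 ≤ z i) (hc : ∀ i, 0 ≤ c i) (h : ℂ)
    (i : ι) (m : ℕ) : ‖dt z c h (i, m)‖ =
      c i * z i ^ (-(5 : ℝ)) * ((‖h‖ * Real.log (z i)) ^ m / m.factorial) := by
  have hl : 0 ≤ Real.log (z i) := Real.log_nonneg (hz i)
  have h1 : 0 ≤ z i ^ (-(5 : ℝ)) := Real.rpow_nonneg (by linarith [hz i]) _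
  have h2 := hc i
  simp only [dt]
  rw [norm_mul, norm_pow, norm_neg, Complex.norm_real, Real.norm_eq_abs,
    abs_of_nonneg (by positivity), mul_pow]
  ring

theorem summable_dt {ι : Type} {z c : ι → ℝ} (hz : ∀ i, 1 ≤ z i) (hc : ∀ i, 0 ≤ c i)
    (hs : Summable fun i => c i * z i ^ (-(9 / 2 : ℝ))) (h : ℂ) (hh : ‖h‖ ≤ 1 / 2) :
    Summable (dt z c h) := by
  refine Summable.of_norm ?_
  rw [summable_prod_of_nonneg (fun p => norm_nonneg _)]
  have h1 : ∀ i, HasSum (fun m : ℕ => ‖dt z c h (i, m)‖)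
      (c i * z i ^ (-(5 : ℝ)) * Real.exp (‖h‖ * Real.log (z i))) := by
    intro i
    have h0 : HasSum (fun n : ℕ => (‖h‖ * Real.log (z i)) ^ n / (n.factorial : ℝ))
        (Real.exp (‖h‖ * Real.log (z i))) := by
      rw [Real.exp_eq_exp_ℝ]
      exact NormedSpace.expSeries_div_hasSum_exp _
    have h2 := h0.mul_left (c i * z i ^ (-(5 : ℝ)))
    refine h2.congr_fun ?_
    intro m
    rw [row_norm hz hc]
  refine ⟨fun i => (h1 i).summable, ?_⟩
  have h3 : (fun i => ∑' m : ℕ, ‖dt z c h (i, m)‖) =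
      fun i => c i * z i ^ (-(5 : ℝ)) * Real.exp (‖h‖ * Real.log (z i)) :=
    funext fun i => (h1 i).tsum_eq
  rw [h3]
  refine Summable.of_nonneg_of_le (fun i => ?_) (fun i => ?_) hs
  · have := hc i
    have h1 : 0 ≤ z i ^ (-(5 : ℝ)) := Real.rpow_nonneg (by linarith [hz i]) _
    positivity
  · have h0 : 0 < z i := by linarith [hz i]
    have h4 : Real.exp (‖h‖ * Real.log (z i)) ≤ z i ^ (1 / 2 : ℝ) := by
      rw [Real.rpow_def_of_pos h0]
      apply Real.exp_le_exp.mpr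
      rw [mul_comm]
      exact mul_le_mul_of_nonneg_left hh (Real.log_nonneg (hz i))
    have h5 : z i ^ (-(9 / 2 : ℝ)) = z i ^ (-(5 : ℝ)) * z i ^ (1 / 2 : ℝ) := by
      rw [← Real.rpow_add h0]
      norm_num
    rw [h5, ← mul_assoc]
    have h6 : 0 ≤ z i ^ (-(5 : ℝ)) := Real.rpow_nonneg h0.le _
    exact mul_le_mul_of_nonneg_left h4 (mul_nonneg (hc i) h6)

/-- the double series -/
theorem dbl {ι : Type} {z c : ι → ℝ} (hz : ∀ i, 1 ≤ z i) (hc : ∀ i, 0 ≤ c i)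
    (hs : Summable fun i => c i * z i ^ (-(9 / 2 : ℝ))) (h : ℂ) (hh : ‖h‖ ≤ 1 / 2) :
    HasSum (fun m : ℕ => ((-1) ^ m *
      ((∑' i, c i * z i ^ (-(5 : ℝ)) * (Real.log (z i) ^ m / m.factorial) : ℝ) : ℂ)) * h ^ m)
      (∑' i, (c i : ℂ) * (z i : ℂ) ^ (-(5 + h))) := by
  have hS := summable_dt hz hc hs h hh
  have h1 : ∀ m, ∑' i, dt z c h (i, m) = ((-1) ^ m *
      ((∑' i, c i * z i ^ (-(5 : ℝ)) * (Real.log (z i) ^ m / m.factorial) : ℝ) : ℂ)) * h ^ m := by
    intro m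
    simp only [dt]
    rw [tsum_mul_right, neg_pow, Complex.ofReal_tsum]
    ring
  have hS' : Summable (fun p : ℕ × ι => dt z c h (p.2, p.1)) :=
    (Equiv.prodComm ℕ ι).summable_iff.mpr hS
  have h3 := hS'.prod.hasSum
  have h4 : ∑' m : ℕ, ∑' i, dt z c h (i, m) = ∑' i, (c i : ℂ) * (z i : ℂ) ^ (-(5 + h)) := by
    have h5 : ∑' i, ∑' m : ℕ, dt z c h (i, m) = ∑' m : ℕ, ∑' i, dt z c h (i, m) :=
      (Summable.tsum_comm (f := fun i m => dt z c h (i, m)) hS).symm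
    rw [← h5]
    exact tsum_congr fun i => (row_hasSum hz h i).tsum_eq
  rw [← h4]
  refine h3.congr_fun ?_
  intro m
  exact (h1 m).symm

/-- the coefficients are summable -/
theorem summable_coef {ι : Type} {z c : ι → ℝ} (hz : ∀ i, 1 ≤ z i) (hc : ∀ i, 0 ≤ c i)
    (hs : Summable fun i => c i * z i ^ (-(9 / 2 : ℝ))) (m : ℕ) :
    Summable fun i => c i * z i ^ (-(5 : ℝ)) * (Real.log (z i) ^ m / m.factorial) := by
  have h1 := summable_dt hz hc hs (1 / 2 : ℂ) (by norm_num)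
  have h2 : Summable fun i => ‖dt z c (1 / 2 : ℂ) (i, m)‖ :=
    (h1.norm.comp_injective (i := fun i : ι => (i, m)) (fun a b hab => (Prod.ext_iff.mp hab).1))
  have h3 := h2.mul_left ((2 : ℝ) ^ m)
  refine h3.congr ?_
  intro i
  rw [row_norm hz hc, mul_pow]
  have h4 : ‖(1 / 2 : ℂ)‖ = 1 / 2 := by norm_num
  rw [h4]
  have h5 : (2 : ℝ) ^ m * (1 / 2) ^ m = 1 := by
    rw [← mul_pow]
    norm_num
  calc (2 : ℝ) ^ m * (c i * z i ^ (-(5 : ℝ)) * ((1 / 2) ^ m * Real.log (z i) ^ m / m.factorial))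
      = ((2 : ℝ) ^ m * (1 / 2) ^ m) *
        (c i * z i ^ (-(5 : ℝ)) * (Real.log (z i) ^ m / m.factorial)) := by ring
    _ = _ := by rw [h5, one_mul]


theorem two_le {K : Type} [Field K] [NumberField K] (v : HeightOneSpectrum (𝓞 K)) :
    2 ≤ nm v := by
  have h0 : nm v ≠ 0 := by
    rw [nm, Ne, Ideal.absNorm_eq_zero_iff]
    exact v.ne_bot
  have h1 : nm v ≠ 1 := by
    rw [nm, Ne, Ideal.absNorm_eq_one_iff]
    exact v.isPrime.ne_top
  omega

theorem two_le' {K : Type} [Field K] [NumberField K] (v : HeightOneSpectrum (𝓞 K)) :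
    (2 : ℝ) ≤ nm v := by exact_mod_cast two_le v

/-- the powers of the norms -/
noncomputable def zz {K : Type} [Field K] [NumberField K] (p : HeightOneSpectrum (𝓞 K) × ℕ) : ℝ :=
  (nm p.1 : ℝ) ^ (p.2 + 1)

/-- the weights -/
noncomputable def cc {K : Type} [Field K] [NumberField K] (p : HeightOneSpectrum (𝓞 K) × ℕ) : ℝ :=
  1 / ((p.2 : ℝ) + 1)

section

variable {K : Type} [Field K] [NumberField K]

theorem zz_one (p : HeightOneSpectrum (𝓞 K) × ℕ) : 1 ≤ zz p :=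
  one_le_pow₀ (by linarith [two_le' p.1])

theorem cc_nonneg (p : HeightOneSpectrum (𝓞 K) × ℕ) : 0 ≤ cc p := by
  unfold cc
  positivity

theorem cc_le (p : HeightOneSpectrum (𝓞 K) × ℕ) : cc p ≤ 1 := by
  unfold cc
  rw [div_le_one (by positivity)]
  have : (0 : ℝ) ≤ p.2 := Nat.cast_nonneg _
  linarith

theorem zz_rpow (p : HeightOneSpectrum (𝓞 K) × ℕ) (y : ℝ) :
    zz p ^ y = ((nm p.1 : ℝ) ^ y) ^ (p.2 + 1) := by
  rw [zz, Real.rpow_pow_comm (Nat.cast_nonneg _)]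

theorem summable_cz : Summable fun p : HeightOneSpectrum (𝓞 K) × ℕ =>
    cc p * zz p ^ (-(9 / 2 : ℝ)) := by
  have h1 : Summable fun v : HeightOneSpectrum (𝓞 K) => (nm v : ℝ) ^ (-(9 / 2 : ℝ)) :=
    (zetaSum K).2.1 (9 / 2) (by norm_num)
  have h2 : Summable fun j : ℕ => (1 / 2 : ℝ) ^ j :=
    summable_geometric_of_lt_one (by norm_num) (by norm_num)
  have h3 := h1.mul_of_nonneg h2 (fun v => Real.rpow_nonneg (Nat.cast_nonneg _) _)
    (fun j => by positivity)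
  refine Summable.of_nonneg_of_le (fun p => ?_) (fun p => ?_) h3
  · exact mul_nonneg (cc_nonneg p) (Real.rpow_nonneg (by linarith [zz_one p]) _)
  · have hq := two_le' p.1
    have h4 : (nm p.1 : ℝ) ^ (-(9 / 2 : ℝ)) ≤ 1 / 2 := by
      calc (nm p.1 : ℝ) ^ (-(9 / 2 : ℝ)) ≤ (nm p.1 : ℝ) ^ (-1 : ℝ) :=
            Real.rpow_le_rpow_of_exponent_le (by linarith) (by norm_num)
        _ = (nm p.1 : ℝ)⁻¹ := Real.rpow_neg_one _
        _ ≤ 2⁻¹ := inv_anti₀ (by norm_num) hq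
        _ = 1 / 2 := by norm_num
    have h5 : 0 ≤ (nm p.1 : ℝ) ^ (-(9 / 2 : ℝ)) := Real.rpow_nonneg (Nat.cast_nonneg _) _
    rw [zz_rpow, pow_succ']
    calc cc p * ((nm p.1 : ℝ) ^ (-(9 / 2 : ℝ)) * ((nm p.1 : ℝ) ^ (-(9 / 2 : ℝ))) ^ p.2)
        ≤ 1 * ((nm p.1 : ℝ) ^ (-(9 / 2 : ℝ)) * (1 / 2) ^ p.2) := by
          refine mul_le_mul (cc_le p) ?_ (by positivity) (by norm_num)
          exact mul_le_mul_of_nonneg_left (pow_le_pow_left₀ h5 h4 _) h5
      _ = _ := one_mul _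

/-- the logarithm of the zeta function as a sum over the powers of the primes -/
theorem log_zeta (h : ℂ) (hh : ‖h‖ ≤ 1 / 2) :
    ∑' p : HeightOneSpectrum (𝓞 K) × ℕ, (cc p : ℂ) * (zz p : ℂ) ^ (-(5 + h)) =
      ∑' v : HeightOneSpectrum (𝓞 K), -Complex.log (1 - (nm v : ℂ) ^ (-(5 + h))) := by
  have hre : 9 / 2 ≤ (5 + h).re := by
    have h1 := (abs_le.mp ((Complex.abs_re_le_norm h).trans hh)).1
    rw [Complex.add_re]
    have h2 : (5 : ℂ).re = 5 := by norm_num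
    rw [h2]
    linarith
  have hS : Summable fun p : HeightOneSpectrum (𝓞 K) × ℕ =>
      (cc p : ℂ) * (zz p : ℂ) ^ (-(5 + h)) := by
    have h1 := (summable_dt zz_one cc_nonneg (summable_cz (K := K)) h hh).prod
    refine h1.congr ?_
    intro p
    exact (row_hasSum zz_one h p).tsum_eq
  rw [hS.tsum_prod]
  refine tsum_congr fun v => ?_
  have hq := two_le' v
  have hq0 : (0 : ℝ) < nm v := by linarith
  have hw : ‖(nm v : ℂ) ^ (-(5 + h))‖ < 1 := by
    rw [Complex.norm_natCast_cpow_of_pos (by exact_mod_cast hq0)]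
    refine Real.rpow_lt_one_of_one_lt_of_neg (by linarith) ?_
    rw [Complex.neg_re]
    linarith
  have h2 := Complex.hasSum_taylorSeries_neg_log' hw
  refine (h2.congr_fun ?_).tsum_eq
  intro j
  have h3 : (zz (v, j) : ℂ) ^ (-(5 + h)) = ((nm v : ℂ) ^ (-(5 + h))) ^ (j + 1) := by
    have hc : (nm v : ℂ) ≠ 0 := by exact_mod_cast hq0.ne'
    have h4 : (zz (v, j) : ℂ) = (nm v : ℂ) ^ (j + 1) := by
      simp only [zz]
      push_cast
      rfl
    rw [h4, Complex.cpow_def_of_ne_zero hc, ← Complex.exp_nat_mul,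
      Complex.cpow_def_of_ne_zero (pow_ne_zero _ hc)]
    congr 1
    have h5 : Complex.log ((nm v : ℂ) ^ (j + 1)) = ((j + 1 : ℕ) : ℂ) * Complex.log (nm v : ℂ) := by
      have h6 : ((nm v : ℂ) ^ (j + 1)) = (((nm v : ℝ) ^ (j + 1) : ℝ) : ℂ) := by
        push_cast
        rfl
      rw [h6, ← Complex.ofReal_log (by positivity), Real.log_pow, ← Complex.natCast_log]
      push_cast
      ring
    rw [h5]
    ring
  rw [h3]
  simp only [cc]
  push_cast
  ring

theorem sum35 : ∑' j : ℕ, (3 / 5 : ℝ) ^ j = 5 / 2 := by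
  rw [tsum_geometric_of_lt_one (by norm_num) (by norm_num)]
  norm_num

theorem pow34 {q : ℝ} (hq : 2 ≤ q) : q ^ (-(3 / 4 : ℝ)) ≤ 3 / 5 := by
  have h1 : q ^ (-(3 / 4 : ℝ)) ≤ (2 : ℝ) ^ (-(3 / 4 : ℝ)) :=
    Real.rpow_le_rpow_of_nonpos (by norm_num) hq (by norm_num)
  refine h1.trans ?_
  have h2 : (0 : ℝ) ≤ (2 : ℝ) ^ (-(3 / 4 : ℝ)) := Real.rpow_nonneg (by norm_num) _
  refine (pow_le_pow_iff_left₀ h2 (by norm_num) (n := 4) (by norm_num)).mp ?_
  rw [← Real.rpow_natCast, ← Real.rpow_mul (by norm_num)]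
  norm_num

/-- the part of the higher powers -/
theorem tail_le (m : ℕ) (v : HeightOneSpectrum (𝓞 K)) (j : ℕ) :
    cc (v, j + 1) * zz (v, j + 1) ^ (-(5 : ℝ)) * (Real.log (zz (v, j + 1)) ^ m / m.factorial) ≤
      ((17 / 4 : ℝ) ^ m)⁻¹ * (nm v : ℝ) ^ (-(3 / 2 : ℝ)) * (3 / 5) ^ j := by
  have hz1 := zz_one (v, j + 1)
  have hz0 : 0 < zz (v, j + 1) := by linarith
  have hq := two_le' v
  have hq0 : (0 : ℝ) < nm v := by linarith
  have h1 := uni hz1 (show (0 : ℝ) < 17 / 4 by norm_num) m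
  have h2 : 0 ≤ zz (v, j + 1) ^ (-(5 : ℝ)) := Real.rpow_nonneg hz0.le _
  have h3 : zz (v, j + 1) ^ (-(5 : ℝ)) * zz (v, j + 1) ^ (17 / 4 : ℝ) ≤
      (nm v : ℝ) ^ (-(3 / 2 : ℝ)) * (3 / 5) ^ j := by
    rw [← Real.rpow_add hz0]
    have h4 : (-(5 : ℝ) + 17 / 4) = -(3 / 4 : ℝ) := by norm_num
    rw [h4, zz_rpow]
    simp only
    have h5 : ((nm v : ℝ) ^ (-(3 / 4 : ℝ))) ^ (j + 1 + 1) =
        (nm v : ℝ) ^ (-(3 / 2 : ℝ)) * ((nm v : ℝ) ^ (-(3 / 4 : ℝ))) ^ j := by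
      have h6 : (nm v : ℝ) ^ (-(3 / 2 : ℝ)) = ((nm v : ℝ) ^ (-(3 / 4 : ℝ))) ^ 2 := by
        rw [← Real.rpow_natCast, ← Real.rpow_mul hq0.le]
        norm_num
      rw [h6]
      ring
    rw [h5]
    refine mul_le_mul_of_nonneg_left ?_ (Real.rpow_nonneg hq0.le _)
    exact pow_le_pow_left₀ (Real.rpow_nonneg hq0.le _) (pow34 hq) _
  have hlog : 0 ≤ Real.log (zz (v, j + 1)) ^ m / m.factorial := by
    have := Real.log_nonneg hz1
    positivity
  calc cc (v, j + 1) * zz (v, j + 1) ^ (-(5 : ℝ)) * (Real.log (zz (v, j + 1)) ^ m / m.factorial)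
      ≤ 1 * zz (v, j + 1) ^ (-(5 : ℝ)) * (zz (v, j + 1) ^ (17 / 4 : ℝ) / (17 / 4) ^ m) := by
        refine mul_le_mul ?_ h1 hlog (by positivity)
        exact mul_le_mul_of_nonneg_right (cc_le _) h2
    _ = ((17 / 4 : ℝ) ^ m)⁻¹ * (zz (v, j + 1) ^ (-(5 : ℝ)) * zz (v, j + 1) ^ (17 / 4 : ℝ)) := by
        rw [one_mul, div_eq_mul_inv]
        ring
    _ ≤ ((17 / 4 : ℝ) ^ m)⁻¹ * ((nm v : ℝ) ^ (-(3 / 2 : ℝ)) * (3 / 5) ^ j) :=
        mul_le_mul_of_nonneg_left h3 (by positivity)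
    _ = _ := by ring

end

/-- the sum over all powers is at most `Psi` plus the part of the higher powers -/
theorem coef_le (K : Type) [Field K] [NumberField K]
    (hP : ∀ m : ℕ, Summable fun v : HeightOneSpectrum (𝓞 K) =>
      (nm v : ℝ) ^ (-(5 : ℝ)) * (Real.log (nm v) ^ m / m.factorial)) :
    ∃ C : ℝ, ∀ m : ℕ, ∑' p : HeightOneSpectrum (𝓞 K) × ℕ,
      cc p * zz p ^ (-(5 : ℝ)) * (Real.log (zz p) ^ m / m.factorial) ≤
        Psi K m + C * ((17 / 4 : ℝ) ^ m)⁻¹ := by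
  have h32 : Summable fun v : HeightOneSpectrum (𝓞 K) => (nm v : ℝ) ^ (-(3 / 2 : ℝ)) :=
    (zetaSum K).2.1 (3 / 2) (by norm_num)
  have hgeo : Summable fun j : ℕ => (3 / 5 : ℝ) ^ j :=
    summable_geometric_of_lt_one (by norm_num) (by norm_num)
  refine ⟨5 / 2 * ∑' v : HeightOneSpectrum (𝓞 K), (nm v : ℝ) ^ (-(3 / 2 : ℝ)), fun m => ?_⟩
  have hS := summable_coef (zz_one (K := K)) cc_nonneg summable_cz m
  rw [hS.tsum_prod]
  have hrow : ∀ v : HeightOneSpectrum (𝓞 K),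
      ∑' j : ℕ, cc (v, j) * zz (v, j) ^ (-(5 : ℝ)) * (Real.log (zz (v, j)) ^ m / m.factorial) ≤
        (nm v : ℝ) ^ (-(5 : ℝ)) * (Real.log (nm v) ^ m / m.factorial) +
          5 / 2 * ((17 / 4 : ℝ) ^ m)⁻¹ * (nm v : ℝ) ^ (-(3 / 2 : ℝ)) := by
    intro v
    have hv := hS.prod_factor v
    rw [hv.tsum_eq_zero_add]
    have h0 : cc (v, 0) * zz (v, 0) ^ (-(5 : ℝ)) * (Real.log (zz (v, 0)) ^ m / m.factorial) =
        (nm v : ℝ) ^ (-(5 : ℝ)) * (Real.log (nm v) ^ m / m.factorial) := by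
      simp [cc, zz]
    rw [h0]
    have h1 : ∑' j : ℕ, cc (v, j + 1) * zz (v, j + 1) ^ (-(5 : ℝ)) *
        (Real.log (zz (v, j + 1)) ^ m / m.factorial) ≤
        ∑' j : ℕ, ((17 / 4 : ℝ) ^ m)⁻¹ * (nm v : ℝ) ^ (-(3 / 2 : ℝ)) * (3 / 5) ^ j :=
      Summable.tsum_le_tsum (tail_le m v) ((summable_nat_add_iff 1).mpr hv) (hgeo.mul_left _)
    rw [tsum_mul_left, sum35] at h1
    linarith
  have hsum1 := hP m
  have hsum2 := h32.mul_left (5 / 2 * ((17 / 4 : ℝ) ^ m)⁻¹)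
  refine (Summable.tsum_le_tsum hrow hS.prod (hsum1.add hsum2)).trans ?_
  rw [hsum1.tsum_add hsum2, tsum_mul_left, Psi]
  linarith

/-- the zeta function times `s - 1` has no zero in a ball around `5` of radius larger than `4` -/
theorem noZero (hc : S_Cont) (K : Type) [Field K] [NumberField K] :
    ∃ (Z : ℂ → ℂ) (R : ℝ), 4 < R ∧ DifferentiableOn ℂ Z (ball 5 R) ∧
      (∀ s ∈ ball (5 : ℂ) R, Z s ≠ 0) ∧
      ∀ s : ℂ, 1 < s.re → |s.im| < 12 → Z s = (s - 1) * dedekindZeta K s := by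
  obtain ⟨Z, hZd, hZ⟩ := hc K 2 12
  set U : Set ℂ := {s : ℂ | -2 < s.re ∧ |s.im| < 12} with hU
  have hUo : IsOpen U := by
    refine IsOpen.and ?_ ?_
    · exact isOpen_lt continuous_const Complex.continuous_re
    · exact isOpen_lt Complex.continuous_im.abs continuous_const
  have hOo : IsOpen (U ∩ Z ⁻¹' {0}ᶜ) :=
    hZd.continuousOn.isOpen_inter_preimage hUo isOpen_compl_singleton
  have h1U : (1 : ℂ) ∈ U := by
    simp [hU]
    norm_num
  have hZ1 : Z 1 ≠ 0 := by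
    have h1 : Tendsto (fun x : ℝ => Z (x : ℂ)) (𝓝[>] 1) (𝓝 (Z 1)) := by
      have h2 : ContinuousAt Z 1 := hZd.continuousOn.continuousAt (hUo.mem_nhds h1U)
      have h3 : Tendsto (fun x : ℝ => (x : ℂ)) (𝓝[>] 1) (𝓝 1) := by
        have h4 := (Complex.continuous_ofReal.tendsto (1 : ℝ))
        exact h4.mono_left nhdsWithin_le_nhds
      exact h2.tendsto.comp h3
    have h5 := tendsto_sub_one_mul_dedekindZeta_nhdsGT K
    have h6 : Tendsto (fun x : ℝ => Z (x : ℂ)) (𝓝[>] 1) (𝓝 ((dedekindZeta_residue K : ℝ) : ℂ)) := by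
      refine h5.congr' ?_
      filter_upwards [Ioo_mem_nhdsGT (show (1 : ℝ) < 2 by norm_num)] with x hx
      rw [hZ (x : ℂ) (by simpa using hx.1) (by simp)]
    rw [tendsto_nhds_unique h1 h6]
    exact_mod_cast dedekindZeta_residue_ne_zero K
  have hsub : closedBall (5 : ℂ) 4 ⊆ U ∩ Z ⁻¹' {0}ᶜ := by
    intro s hs
    rw [mem_closedBall, dist_eq_norm] at hs
    have hre := (Complex.abs_re_le_norm (s - 5)).trans hs
    have him := (Complex.abs_im_le_norm (s - 5)).trans hs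
    have h5r : (s - 5).re = s.re - 5 := by
      rw [Complex.sub_re]
      norm_num
    have h5i : (s - 5).im = s.im := by
      rw [Complex.sub_im]
      norm_num
    rw [h5r] at hre
    rw [h5i] at him
    have hre1 := (abs_le.mp hre).1
    refine ⟨⟨by linarith, by linarith⟩, ?_⟩
    rcases lt_or_ge 1 s.re with h1 | h1
    · have h2 := hZ s h1 (by linarith)
      have h3 := ((zetaSum K).2.2 s h1).2
      have h4 : s - 1 ≠ 0 := by
        intro h5
        have h6 : s = 1 := by linear_combination h5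
        rw [h6] at h1
        norm_num at h1
      rw [Set.mem_preimage, Set.mem_compl_singleton_iff, h2, h3]
      exact mul_ne_zero h4 (Complex.exp_ne_zero _)
    · have h2 : s.re = 1 := by linarith
      have h3 : s.im = 0 := by
        have h4 : ‖s - 5‖ ^ 2 ≤ 4 ^ 2 := pow_le_pow_left₀ (norm_nonneg _) hs 2
        rw [← Complex.normSq_eq_norm_sq, Complex.normSq_apply, h5r, h5i, h2] at h4
        nlinarith
      have h4 : s = 1 := by
        apply Complex.ext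
        · simpa using h2
        · simpa using h3
      rw [h4]
      exact hZ1
  obtain ⟨δ, hδ, hδs⟩ := (isCompact_closedBall (5 : ℂ) 4).exists_cthickening_subset_open hOo hsub
  rw [cthickening_closedBall hδ.le (by norm_num)] at hδs
  have hb : ball (5 : ℂ) (δ + 4) ⊆ U ∩ Z ⁻¹' {0}ᶜ := ball_subset_closedBall.trans hδs
  refine ⟨Z, δ + 4, by linarith, hZd.mono fun s hs => (hb hs).1, fun s hs => (hb hs).2, hZ⟩

theorem summable_psi (K : Type) [Field K] [NumberField K] (m : ℕ) :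
    Summable fun v : HeightOneSpectrum (𝓞 K) =>
      (nm v : ℝ) ^ (-(5 : ℝ)) * (Real.log (nm v) ^ m / m.factorial) := by
  have h2 : Summable fun v : HeightOneSpectrum (𝓞 K) => (nm v : ℝ) ^ (-(2 : ℝ)) :=
    (zetaSum K).2.1 2 (by norm_num)
  refine Summable.of_nonneg_of_le (fun v => ?_) (fun v => ?_) (h2.mul_left ((3 : ℝ) ^ m)⁻¹)
  · have h3 := Real.log_natCast_nonneg (nm v)
    have h4 : 0 ≤ (nm v : ℝ) ^ (-(5 : ℝ)) := Real.rpow_nonneg (Nat.cast_nonneg _) _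
    positivity
  · have hq := two_le' v
    have hq0 : (0 : ℝ) < nm v := by linarith
    have h1 := uni (show (1 : ℝ) ≤ nm v by linarith) (show (0 : ℝ) < 3 by norm_num) m
    have h4 : (nm v : ℝ) ^ (-(2 : ℝ)) = (nm v : ℝ) ^ (-(5 : ℝ)) * (nm v : ℝ) ^ (3 : ℝ) := by
      rw [← Real.rpow_add hq0]
      norm_num
    have h5 : 0 ≤ (nm v : ℝ) ^ (-(5 : ℝ)) := Real.rpow_nonneg hq0.le _
    calc (nm v : ℝ) ^ (-(5 : ℝ)) * (Real.log (nm v) ^ m / m.factorial)
        ≤ (nm v : ℝ) ^ (-(5 : ℝ)) * ((nm v : ℝ) ^ (3 : ℝ) / 3 ^ m) :=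
          mul_le_mul_of_nonneg_left h1 h5
      _ = ((3 : ℝ) ^ m)⁻¹ * (nm v : ℝ) ^ (-(2 : ℝ)) := by
          rw [h4, div_eq_mul_inv]
          ring

theorem psi_of (hc : S_Cont) : S_Psi := by
  intro K _ _
  refine ⟨summable_psi K, ?_⟩
  obtain ⟨Z, R, hR, hZd, hZne, hZ⟩ := noZero hc K
  obtain ⟨M, r, hr, hM⟩ := coefBound (A := fun m => ∑' p : HeightOneSpectrum (𝓞 K) × ℕ,
      cc p * zz p ^ (-(5 : ℝ)) * (Real.log (zz p) ^ m / m.factorial))
    (L := fun h => ∑' p : HeightOneSpectrum (𝓞 K) × ℕ, (cc p : ℂ) * (zz p : ℂ) ^ (-(5 + h)))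
    hR hZd hZne (fun h hh => dbl zz_one cc_nonneg summable_cz h hh.le) (by
      intro h hh
      have hre : 1 < (5 + h).re := by
        have h1 := (abs_le.mp ((Complex.abs_re_le_norm h).trans hh.le)).1
        rw [Complex.add_re]
        have h2 : (5 : ℂ).re = 5 := by norm_num
        rw [h2]
        linarith
      have him : |(5 + h).im| < 12 := by
        have h1 := (Complex.abs_im_le_norm h).trans hh.le
        rw [Complex.add_im]
        have h2 : (5 : ℂ).im = 0 := by norm_num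
        rw [h2, zero_add]
        linarith
      rw [hZ _ hre him, ((zetaSum K).2.2 _ hre).2, log_zeta h hh.le]
      have h3 : (5 : ℂ) + h - 1 = 4 + h := by ring
      rw [h3]
      rfl)
  obtain ⟨C, hC⟩ := coef_le K (summable_psi K)
  have ha0 : 0 ≤ 4 / r := by positivity
  have ha1 : 4 / r < 1 := by
    rw [div_lt_one (by linarith)]
    exact hr
  have ht1 := (tendsto_self_mul_const_pow_of_lt_one ha0 ha1).const_mul M
  have ht2 := (tendsto_self_mul_const_pow_of_lt_one (show (0 : ℝ) ≤ 16 / 17 by norm_num)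
    (by norm_num)).const_mul C
  have ht := ht1.add ht2
  rw [mul_zero, mul_zero, add_zero] at ht
  obtain ⟨m₀, hm₀⟩ := eventually_atTop.mp (ht.eventually_lt_const (show (0 : ℝ) < 1 / 2 by norm_num))
  refine ⟨max m₀ 1, fun m hm => ?_⟩
  have hm1 : 1 ≤ m := (le_max_right _ _).trans hm
  have h1 := hm₀ m ((le_max_left _ _).trans hm)
  have h2 := hM m hm1
  have h3 := hC m
  have hmp : (0 : ℝ) < m := by exact_mod_cast hm1
  have h4 : (0 : ℝ) < 4 ^ m := by positivity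
  have h5 : M / r ^ m + C * ((17 / 4 : ℝ) ^ m)⁻¹ =
      (M * (m * (4 / r) ^ m) + C * (m * (16 / 17) ^ m)) * (1 / (m * 4 ^ m)) := by
    have h6 : (16 / 17 : ℝ) ^ m = 4 ^ m * ((17 / 4 : ℝ) ^ m)⁻¹ := by
      rw [← inv_pow, ← mul_pow]
      norm_num
    rw [h6, div_pow 4 r m]
    field_simp
  have h7 : (M * (m * (4 / r) ^ m) + C * (m * (16 / 17) ^ m)) * (1 / (m * 4 ^ m)) ≤
      1 / 2 * (1 / (m * 4 ^ m)) := mul_le_mul_of_nonneg_right h1.le (by positivity)
  have h8 : ((1 : ℝ) / 4) ^ m / m = 1 / (m * 4 ^ m) := by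
    rw [one_div, inv_pow, one_div]
    field_simp
  have h9 : 1 / (2 * (m : ℝ) * 4 ^ m) = 1 / 2 * (1 / (m * 4 ^ m)) := by
    field_simp
  rw [h9]
  rw [h8] at h2
  linarith

end PsiM

/-- **A4** -/
theorem psi : S_Psi := PsiM.psi_of contAll

end MP7ed9c3.Tz
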