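import Pool.Agent.Lib.MP_7ed9c3_nt.Tz.SpecL

/-!
# MP_7ed9c3_nt, part Tz.  Statements A (analysis)

Every statement is a separate module; the complete proof is in the docstring.
-/

set_option autoImplicit false

namespace MP7ed9c3.Tz

open NumberField IsDedekindDomain Filter Topology MP7ed9c3.Tw MP7ed9c3.Zs

/-- The universal inequality. -/
theorem uni {z ρ : ℝ} (hz : 1 ≤ z) (hρ : 0 < ρ) (k : ℕ) :
    Real.log z ^ k / k.factorial ≤ z ^ ρ / ρ ^ k := by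
  have h1 : (ρ * Real.log z) ^ k / k.factorial ≤ Real.exp (ρ * Real.log z) :=
    Real.pow_div_factorial_le_exp _ (mul_nonneg hρ.le (Real.log_nonneg hz)) k
  have h2 : Real.exp (ρ * Real.log z) = z ^ ρ := by
    rw [Real.rpow_def_of_pos (by linarith), mul_comm]
  rw [h2, mul_pow] at h1
  rw [le_div_iff₀ (pow_pos hρ k)]
  calc Real.log z ^ k / k.factorial * ρ ^ k = ρ ^ k * Real.log z ^ k / k.factorial := by ring
    _ ≤ z ^ ρ := h1

/-- The `k`-th Taylor coefficient (up to the sign) of `ser lam τ` at `3 + i t₀`. -/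
noncomputable def tay {ι : Type} (lam : ι → ℕ) (τ : ι → ℂ) (t₀ : ℝ) (k : ℕ) : ℂ :=
  ∑' i, τ i * (lam i : ℂ) ^ (-(3 + t₀ * Complex.I)) *
    ((Real.log (lam i) ^ k / k.factorial : ℝ) : ℂ)

/-- **A1, Taylor coefficients.**

Proof.  `z₀ = 3 + i t₀`.  `B = ∑ ‖τ i‖ / lam^(5/2)`.  For `‖h‖ ≤ 1/2`:
`ser lam τ (z₀ + h) = ∑_i τ i lam^(-z₀) exp(-h log lam) = ∑_i ∑_k τ i lam^(-z₀) (-h)^k (log lam)^k/k!`, absolutely
convergent because `∑_k |h|^k (log lam)^k/k! = lam^(|h|) ≤ lam^(1/2)`; so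
`ser lam τ (z₀ + h) = ∑_k (-1)^k tay k h^k`, a power series with radius `≥ 1/2`; `ser` is analytic at
`z₀`.  `G` is analytic at `z₀` (differentiable on the ball, `DifferentiableOn.analyticAt`) and `G = ser` on
a vertical segment through `z₀`; by the identity theorem
(`AnalyticAt.frequently_eq_iff_eventually_eq`) `G = ser` near `z₀`, so `(-1)^k tay k` is the `k`-th Taylor
coefficient of `G` (`HasFPowerSeriesAt.eq_formalMultilinearSeries`, or `iteratedDeriv`), and Cauchy's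
estimate on circles of radius `R' < R` (`Complex.norm_iteratedDeriv_le_of_forall_mem_sphere_norm_le`) gives
`‖tay k‖ ≤ M / R'^k`; let `R' → R`. -/
def S_Taylor : Prop :=
  ∀ (ι : Type) (lam : ι → ℕ) (τ : ι → ℂ), (∀ i, 1 ≤ lam i) →
    Summable (fun i => ‖τ i‖ / (lam i : ℝ) ^ (5 / 2 : ℝ)) →
    ∀ (G : ℂ → ℂ) (t₀ U R M : ℝ), 0 < U → 0 < R →
      DifferentiableOn ℂ G (Metric.ball (3 + t₀ * Complex.I) R) →
      (∀ z ∈ Metric.ball (3 + t₀ * Complex.I) R, ‖G z‖ ≤ M) →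
      (∀ t : ℝ, |t - t₀| ≤ U → G (3 + t * Complex.I) = ser lam τ (3 + t * Complex.I)) →
      ∀ k : ℕ, ‖tay lam τ t₀ k‖ ≤ M / R ^ k

/-- The open box. -/
def box (σ₁ t₀ H : ℝ) : Set ℂ := {s : ℂ | σ₁ < s.re ∧ |s.im - t₀| < H}

/-- **A2, what a function without zeros in a box gives** (from A1, `S_Core` (`corez linez rectz dualz`),
`S_LogBall` (`logballz`)).

Proof.  We may assume `B ≥ 0`, `c ≥ 1`.  `a = max σ₁ 0` (so `a < x`); `x' = (a + x)/2`; `U = N³` (the rectangle in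
`S_Core` has height `N³`), `U ≤ V^(3c)` for `V ≥ 1`.  `X = 4 + (U+3)²/(x'-a)`, `w = X + i t₀`, `R = X - a`.
`κ = 6c + 2`: for large `V`, `X ≤ V^κ`.  As in `Zs/Box.lean` (`ball_sub`, `ball_box`; there `a < 1`; here the
same computation with `a < x < 3`, use `X = 10 + (U+6)²/(x'-a)` if needed): `ball w R` is in the box, and the
balls of radius `3 - x'` around `3 + it`, `|t - t₀| ≤ U`, are in `ball w R`.
`L = ser lam τ`: continuous on `Re s = 3` (`ser_cont`), `‖L‖ ≤ B` there (`lam^3 ≥ lam^(5/2)`).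
`S_LogBall` (with `R x x' U V B t₀`) gives `G` on `ball w R`, `G = L` on the segment, and
`‖G‖ ≤ B + 6 (V+B+1)/(x-x')` on `x ≤ Re s ≤ 3`, `|Im s - t₀| ≤ U`.
First claim: `S_Core` with `M = B + 6 (V+B+1)/(x-x') ≤ C' V` (`V ≥ 1`): the sum is at most
`(K₄ (M + B))² ≤ C V²`.
Second claim: `exp ∘ G` and `F` are analytic on `ball w R` and equal on the segment, so `exp G = F` on the ball
(`AnalyticOnNhd.eqOn_of_preconnected_of_frequently_eq` or `..._of_eventuallyEq`), so `Re G = log ‖F‖ ≤ V`.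
Borel-Caratheodory (`Complex.borelCaratheodory_zero` for `G(z₀ + z) - G(z₀)` on `‖z‖ < 3 - x'`, as in
Zs/LogBall.lean, `z₀ = 3 + i t₀`, `‖G z₀‖ ≤ B`): `‖G‖ ≤ B + 6 (V+B+1)/(x-x')` on `ball z₀ (3 - x)`; A1 with
`R = 3 - x`. -/
def S_BoxInfo : Prop :=
  ∀ σ₁ x B c : ℝ, σ₁ < x → 0 < x → x < 3 → ∃ κ C V₀ : ℝ, 0 < κ ∧ 0 < C ∧
    ∀ (V t₀ : ℝ) (N : ℕ), V₀ ≤ V → 1 ≤ N → (N : ℝ) ≤ V ^ c →
    ∀ (ι : Type) (lam : ι → ℕ) (τ : ι → ℂ), (∀ i, 1 ≤ lam i) →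
      Summable (fun i => ‖τ i‖ / (lam i : ℝ) ^ (5 / 2 : ℝ)) →
      ∑' i, ‖τ i‖ / (lam i : ℝ) ^ (5 / 2 : ℝ) ≤ B →
    ∀ F : ℂ → ℂ, DifferentiableOn ℂ F (box σ₁ t₀ (V ^ κ)) →
      (∀ s ∈ box σ₁ t₀ (V ^ κ), ‖F s‖ ≤ Real.exp V ∧ F s ≠ 0) →
      (∀ t : ℝ, |t - t₀| < V ^ κ → F (3 + t * Complex.I) =
        Complex.exp (ser lam τ (3 + t * Complex.I))) →
      (∀ S : Finset ℕ, (∀ m ∈ S, 1 ≤ m ∧ m ≤ N) →
        ∑ m ∈ S, ‖coef lam τ m‖ ^ 2 * (m : ℝ) ^ (-(2 * x)) ≤ C * V ^ 2) ∧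
      ∀ k : ℕ, ‖tay lam τ t₀ k‖ ≤ C * V / (3 - x) ^ k

/-- **A3, the coefficients of the logarithm of the Euler product.**

Proof.  `q = nm v ≥ 2`.  `‖τ_(v,j)‖ ≤ 2 (q+1)^(j+1)`, `lam = q^(j+1)`, so the term is at most
`2 ((q+1) q^(-5/2))^(j+1)`, `(q+1) q^(-5/2) ≤ (3/2) q^(-3/2) ≤ 0.54`; the sum over `j` is at most
`2 · (3/2) q^(-3/2)/(1 - 0.54) ≤ 7 q^(-3/2)`, summable over `v` (`a9_summable sparseSums`, `countPrimes`, or
`S_ZetaSum`, theorem in Tw/D6a.lean).  `B` is `7 ∑_v q^(-3/2)`. -/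
def S_SumBound : Prop :=
  ∀ (K : Type) [Field K] [NumberField K], ∃ B : ℝ, ∀ α β : HeightOneSpectrum (𝓞 K) → ℂ,
    (∀ v, ‖α v‖ ≤ nm v + 1 ∧ ‖β v‖ ≤ nm v + 1) →
    Summable (fun i => ‖tauE α β i‖ / (lamE K i : ℝ) ^ (5 / 2 : ℝ)) ∧
      ∑' i, ‖tauE α β i‖ / (lamE K i : ℝ) ^ (5 / 2 : ℝ) ≤ B

/-- `∑_v nm v^(-5) (log nm v)^m / m!`. -/
noncomputable def Psi (K : Type) [Field K] [NumberField K] (m : ℕ) : ℝ :=
  ∑' v : HeightOneSpectrum (𝓞 K), (nm v : ℝ) ^ (-(5 : ℝ)) * (Real.log (nm v) ^ m / m.factorial)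

/-- **A4, the pole of the zeta function** (from `S_Cont` (theorem in Tw/D6b.lean), `S_ZetaSum` (D6a),
`tendsto_sub_one_mul_dedekindZeta_nhdsGT`, `dedekindZeta_residue_pos`).

Proof.  Summable: `uni` with `ρ = 3`: the terms are at most `3^(-m) nm v^(-2)` (D6a).
Let `Z` be from `S_Cont` with `A = 2`, `R = 12`: `Z(s) = (s-1) ζ_K(s)` for `Re s > 1`, `|Im s| < 12`, holomorphic
for `Re s > -2`.  `Z(s) ≠ 0` for `Re s > 1`, `|Im s| < 12` (`ζ_K(s)` is an exponential, D6a), `Z(1) ≠ 0` (`Z` is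
continuous at `1` and `x ζ_K(1+x)` tends to the positive residue).  The closed disc `‖s - 5‖ ≤ 4` has only the
point `1` outside `Re s > 1`, so `Z ≠ 0` on it; by compactness (the zeros in the closed disc of radius `5`
form a closed set, disjoint from the compact disc of radius 4) there is `η ∈ (0, 1)` with `Z ≠ 0` on
`ball 5 (4 + 2η)`.  So there is a holomorphic `g` on this ball with `exp g = Z`
(`Zr.logz_exists`, see Zr/LogZ.lean), bounded on `closedBall 5 (4+η)`: its Taylor coefficients at `5` are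
`O((4+η)^(-m))` (Cauchy).
For `‖s - 5‖ < 1`: put `Λ(s) = ∑_v -log(1 - nm v^(-s)) = ∑_v ∑_{j ≥ 1} nm v^(-js)/j`, `ζ_K = exp Λ`
(D6a); `exp(Λ(s)) (s - 1) = exp g(s)`; `s - 1 = 4 (1 + (s-5)/4) = exp(log 4 + log(1 + (s-5)/4))`, so
`Λ(s) + log(1 + (s-5)/4) - g(s)` is continuous with values in `log-periods`, that is `Λ = g - log 4 -
log(1+(s-5)/4) + 2πi l` with a constant integer `l` near `5`.  The Taylor coefficient of index `m ≥ 1` of
`-log(1 + h/4)` is `(-1)^m 4^(-m)/m`, and that of `Λ` is `(-1)^m ∑_v ∑_j (1/j) nm v^(-5j) (j log nm v)^m/m!`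
(absolutely convergent double series as in A1; `|h| < 1`).  So
`∑_v ∑_{j≥1} (1/j) nm v^(-5j) (log nm v^j)^m/m! ≥ 4^(-m)/m - C (4+η)^(-m)`.
The part `j ≥ 2` is at most `(17/4)^(-m) ∑_v ∑_{j ≥ 2} nm v^(-3j/4)` (`uni`, `ρ = 17/4`), and
`∑_{j≥2} q^(-3j/4) ≤ 3 q^(-3/2)`, summable.  So `Psi m ≥ 4^(-m)/m - C (4+η)^(-m) - C (17/4)^(-m) ≥ 4^(-m)/(2m)`
for large `m`. -/
def S_Psi : Prop :=
  ∀ (K : Type) [Field K] [NumberField K],
    (∀ m : ℕ, Summable fun v : HeightOneSpectrum (𝓞 K) =>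
      (nm v : ℝ) ^ (-(5 : ℝ)) * (Real.log (nm v) ^ m / m.factorial)) ∧
    ∃ m₀ : ℕ, ∀ m : ℕ, m₀ ≤ m → 1 / (2 * (m : ℝ) * 4 ^ m) ≤ Psi K m

end MP7ed9c3.Tz
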