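import Mathlib

/-!
# MP_7ed9c3_nt, part Tz: zeros near `Re s = 1` for almost all curves.  Statements M (moments)

Functions on `ℤ^ι` which are periodic modulo primes: sums of such functions of mean zero are small
outside a small set of points of a box.

Every statement is a separate module; the complete proof is in the docstring.
-/

set_option autoImplicit false

namespace MP7ed9c3.Tz

/-- `h` is periodic modulo `p`. -/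
def Per {ι : Type} (p : ℕ) (h : (ι → ℤ) → ℝ) : Prop :=
  ∀ a b : ι → ℤ, h (a + (p : ℤ) • b) = h a

open Classical in
/-- The mean of `h` over the residues `0 ≤ a_i < p`. -/
noncomputable def mean {ι : Type} [Fintype ι] (p : ℕ) (h : (ι → ℤ) → ℝ) : ℝ :=
  (∑ a : ι → Fin p, h (fun i => ((a i : ℕ) : ℤ))) / (p : ℝ) ^ Fintype.card ι

open Classical in
/-- The sum of `h` over the box `A₀ i ≤ a i < A₀ i + L`. -/
noncomputable def bsum {ι : Type} [Fintype ι] (L : ℕ) (A₀ : ι → ℤ) (h : (ι → ℤ) → ℝ) : ℝ :=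
  ∑ a : ι → Fin L, h (fun i => A₀ i + ((a i : ℕ) : ℤ))

/-- **M1, equidistribution in a box.**

Proof.  `n = card ι`, `m = ∏ p ∈ T, p`, `F = ∏ p ∈ T, f p`, `‖F‖ ≤ H' = ∏ p ∈ T, H p` (`H p ≥ 0` because
`|f p a| ≤ H p`), `F` has period `m` (`p ∣ m`: write `m • b = p • ((m/p) • b)`).
(1) Let `S = ∑_{r ∈ [0,m)^n} F(r)`.  By periodicity the sum of `F` over every box with sides `m` is
`S` (in one coordinate: the sum of a function with period `m` over `m` consecutive integers does not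
depend on the starting point; do the coordinates one by one, or use the bijection of a box of side
`m` with `ι → ZMod m`), so with `q = L / m` (floor; `q ≥ 1`) the sum over the box `A₀ + [0, qm)^n` is
`q^n S`.  The rest of the box `A₀ + [0,L)^n` has `L^n - (qm)^n` points; `|S| ≤ m^n H'`.  So
`|bsum - (L/m)^n S| ≤ (L^n - (qm)^n) H' + ((L/m)^n - q^n) m^n H' = 2 (L^n - (qm)^n) H'`, and
`L^n - (qm)^n ≤ n L^(n-1) (L - qm) ≤ n L^(n-1) m` (Bernoulli, or induction on `n`); multiply by `L`.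
(2) `S / m^n = ∏ p ∈ T, mean p (f p)`: induction on `T`, by the Chinese remainder theorem: for coprime
`m₁, m₂`, `F₁` with period `m₁` and `F₂` with period `m₂`:
`∑_{r ∈ [0,m₁m₂)^n} F₁(r) F₂(r) = (∑_{r ∈ [0,m₁)^n} F₁(r)) (∑_{r ∈ [0,m₂)^n} F₂(r))`, because
`r ↦ (r mod m₁, r mod m₂)` is a bijection `[0,m₁m₂)^n → [0,m₁)^n × [0,m₂)^n` and `F_i(r) =
F_i(r mod m_i)`.  (For `T = ∅`: `m = 1`, both sides are `1`.) -/
def S_Equi : Prop :=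
  ∀ (ι : Type) [Fintype ι] (T : Finset ℕ) (f : ℕ → (ι → ℤ) → ℝ) (H : ℕ → ℝ) (L : ℕ) (A₀ : ι → ℤ),
    (∀ p ∈ T, p.Prime ∧ Per p (f p) ∧ ∀ a, |f p a| ≤ H p) → ∏ p ∈ T, p ≤ L →
    |bsum L A₀ (fun a => ∏ p ∈ T, f p a) - (L : ℝ) ^ Fintype.card ι * ∏ p ∈ T, mean p (f p)| * L ≤
      2 * Fintype.card ι * (∏ p ∈ T, (p : ℝ)) * (L : ℝ) ^ Fintype.card ι * ∏ p ∈ T, H p

open Classical in
/-- **M2, independent variables.**

Proof.  `S = ∑ H p ^ 2`.  If `S = 0` all `h p` vanish and the left hand side is `0`.  Let `S > 0`.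
For `|y| ≤ H` and `H > 0` convexity of `exp` gives `exp(t y) ≤ cosh(t H) + (y/H) sinh(t H)`, so for
every `p` and real `t` `∑_ω exp(t h p ω) ≤ |Ω p| cosh(t H p) ≤ |Ω p| exp(t² (H p)²/2)`
(`Real.cosh_le_exp_half_sq`; clear for `H p = 0`).  Product over `p`
(`Finset.prod_univ_sum`, `Fintype.piFinset_univ`):
`∑_ω exp(t ∑_p h p (ω p)) ≤ (∏ |Ω p|) exp(t² S/2)`, and the same for `-t`; so
`∑_ω cosh(t X(ω)) ≤ (∏ |Ω p|) exp(t² S/2)`, `X(ω) = ∑_p h p (ω p)`.  `cosh y ≥ y^(2J)/(2J)!` (one term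
of the series, `Real.hasSum_cosh` or `Real.cosh_eq_tsum`).  So for `t > 0`
`∑_ω X^(2J) ≤ (∏ |Ω p|) (2J)! t^(-2J) exp(t² S/2)`.  Take `t² = 2J/S`: `(2J)! ≤ (2J)^(2J)`, so the bound is
`(2J)^(2J) (S/(2J))^J e^J = (2 e J S)^J ≤ (6 J S)^J` (`e < 3`). -/
def S_Hoeff : Prop :=
  ∀ (P : Type) [Fintype P] (Ω : P → Type) [∀ p, Fintype (Ω p)] (h : ∀ p, Ω p → ℝ) (H : P → ℝ)
    (J : ℕ), 1 ≤ J → (∀ p, ∑ ω, h p ω = 0) → (∀ p ω, |h p ω| ≤ H p) →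
    ∑ ω : (∀ p, Ω p), (∑ p, h p (ω p)) ^ (2 * J) ≤
      (∏ p, (Fintype.card (Ω p) : ℝ)) * (6 * J * ∑ p, H p ^ 2) ^ J

/-- **M3, the moments of a sum of periodic functions** (from M1, M2).

Proof.  `n = card ι ≥ 1`.  `H p ≥ 0` for `p ∈ P` because `|h p a| ≤ H p`.  Expand (`Finset.sum_pow'`,
`Finset.sum_pow_eq_sum_piAntidiag…`, or `Fintype.piFinset`, `Finset.prod_univ_sum`):
`(∑_{p ∈ P} h p a)^(2J) = ∑_τ ∏_{i < 2J} h (τ i) a`, sum over all `τ : Fin (2J) → P`.  For one `τ` let `T`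
be its set of values and `k_p` the number of `i` with `τ i = p`; then
`∏_i h (τ i) a = ∏_{p ∈ T} (h p a)^(k_p)` (`Finset.prod_fiberwise…`), a product of functions with period
`p`, bounded by `(H p)^(k_p)`.  `T` has at most `2J` elements, so `∏_{p ∈ T} p ≤ x^(2J) ≤ L`
(`x ≥ 2` if `P` is not empty, `2n x^(3J) ≥ x^(2J)`).  By M1
`|bsum(∏_i h (τ i)) - L^n E_τ| ≤ 2n x^(2J) L^(n-1) ∏_i H (τ i)`, `E_τ = ∏_{p ∈ T} mean p ((h p)^(k_p))`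
`= ∏_{p ∈ P} mean p ((h p)^(k_p))` (`k_p = 0`: the mean of `1` is `1`).
(a) `∑_τ ∏_i H (τ i) = (∑_P H p)^(2J) ≤ (|P| ∑_P (H p)²)^J ≤ (x ∑_P (H p)²)^J` (Cauchy; the elements of
`P` are in `[1, x]`); so the sum of the errors is at most
`2n x^(3J) L^(n-1) (∑ H²)^J ≤ L^n (∑ H²)^J ≤ L^n (6 J ∑ H²)^J` (`2n x^(3J) ≤ L`).
(b) `∑_τ E_τ = (∏_{p ∈ P} |Ω p|)⁻¹ ∑_{ω ∈ ∏ Ω p} (∑_{p ∈ P} h p (ω p))^(2J)` with `Ω p = (ι → Fin p)`
(expand the right hand side in the same way and use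
`∑_ω ∏_p (h p (ω p))^(k_p) = ∏_p ∑_{ω ∈ Ω p} (h p ω)^(k_p)`), which by M2 (index type the elements
of `P`) is at most `(6 J ∑ H²)^J`. -/
def S_Moment : Prop :=
  ∀ (ι : Type) [Fintype ι] [Nonempty ι] (x L J : ℕ) (P : Finset ℕ) (H : ℕ → ℝ)
    (h : ℕ → (ι → ℤ) → ℝ) (A₀ : ι → ℤ), 1 ≤ J →
    (∀ p ∈ P, p.Prime ∧ p ≤ x ∧ Per p (h p) ∧ (∀ a, |h p a| ≤ H p) ∧ mean p (h p) = 0) →
    2 * Fintype.card ι * x ^ (3 * J) ≤ L →
    bsum L A₀ (fun a => (∑ p ∈ P, h p a) ^ (2 * J)) ≤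
      2 * (L : ℝ) ^ Fintype.card ι * (6 * J * ∑ p ∈ P, H p ^ 2) ^ J

/-- **M4, few large values** (from M3).

Proof.  We may increase `C₁` and `c`: let `C₁ ≥ 1`, `c ≥ 1`; `n = card ι ≥ 1`.  `κ = 24 c`,
`δ = 1/(24 c)`.  For `V` large (`Y ≥ V^κ` is large too) let `J = ⌊log Y / (6 c log V)⌋`.  As
`log Y ≥ κ log V ≥ 12 c log V`, `J ≥ 1` and `J ≥ log Y / (12 c log V)`.  `x^(3J) ≤ V^(3cJ) ≤ Y^(1/2)`.
Let `b = ⌈C₁ Y⌉`, `L = 2b + 1`, `A₀ i = -b`.  `2n x^(3J) ≤ 2n Y^(1/2) ≤ Y ≤ L` for large `Y`.  The points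
of `S` are in the box, so by M3 (the other points of the box contribute a nonnegative amount)
`|S| T^(2J) ≤ 2 L^n (6 J ∑ H²)^J ≤ 2 L^n (6 J V⁻²)^J T^(2J)`.  `6 J ≤ log Y/(c log V) ≤ V` (`log V ≥ 1`), so
`|S| ≤ 2 L^n V^(-J) ≤ 2 (5 C₁ Y)^n exp(-log Y/(12 c)) = 2 (5 C₁)^n Y^(n - 1/(12c)) ≤ Y^(n - δ)` for large
`Y` (`L ≤ 2 C₁ Y + 3 ≤ 5 C₁ Y`). -/
def S_Few : Prop :=
  ∀ (ι : Type) [Fintype ι] [Nonempty ι] (C₁ c : ℝ), ∃ κ δ V₀ : ℝ, 0 < κ ∧ 0 < δ ∧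
    ∀ (V Y : ℝ) (x : ℕ), V₀ ≤ V → Real.log Y ≤ V → V ^ κ ≤ Y → (x : ℝ) ≤ V ^ c →
    ∀ (P : Finset ℕ) (H : ℕ → ℝ) (h : ℕ → (ι → ℤ) → ℝ) (T : ℝ),
      (∀ p ∈ P, p.Prime ∧ p ≤ x ∧ Per p (h p) ∧ (∀ a, |h p a| ≤ H p) ∧ mean p (h p) = 0) →
      0 < T → V ^ 2 * ∑ p ∈ P, H p ^ 2 ≤ T ^ 2 →
      ∀ S : Finset (ι → ℤ), (∀ a ∈ S, (∀ i, |(a i : ℝ)| ≤ C₁ * Y) ∧ T ≤ |∑ p ∈ P, h p a|) →
        (S.card : ℝ) ≤ Y ^ ((Fintype.card ι : ℝ) - δ)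

/-- **M5, the mean square of a family** (from M4).

Proof.  `κ, δ, V₀` from M4 for `C₁, c`; increase `V₀` so that `V₀ ≥ 1` and `C V₀ ≥ √C₄`, where
`C₄ = D⁴ ∑_{m ≥ 1} m^(2 - 4x)` (finite, because `4x - 2 > 1`).  Let `E p = mean p (X p)²`,
`h p a = p^(-2x) ((X p a)² - E p)`.  `h p` has period `p` and mean `0` (the mean of a constant is the
constant, `p ≥ 1`), `0 ≤ (X p a)² ≤ D² p`, `0 ≤ E p ≤ D² p`, so `|h p a| ≤ H p = D² p^(1-2x)` and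
`∑_{p ∈ P} (H p)² ≤ C₄`.  Suppose that the second alternative is false.  Then for `a ∈ S`
`|∑ h p a| ≥ ∑ p^(-2x) E p - ∑ p^(-2x) (X p a)² ≥ 2CV² - CV² = T`, `T = C V²`, and
`V² ∑ H² ≤ V² C₄ ≤ T²` (`C₄ ≤ C² V²`).  M4 gives the first alternative. -/
def S_Dich : Prop :=
  ∀ (ι : Type) [Fintype ι] [Nonempty ι] (C₁ c x D C : ℝ), 3 / 4 < x → 0 < C → 0 ≤ D →
    ∃ κ δ V₀ : ℝ, 0 < κ ∧ 0 < δ ∧
    ∀ (V Y : ℝ) (N : ℕ), V₀ ≤ V → Real.log Y ≤ V → V ^ κ ≤ Y → (N : ℝ) ≤ V ^ c →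
    ∀ (P : Finset ℕ) (X : ℕ → (ι → ℤ) → ℝ),
      (∀ p ∈ P, p.Prime ∧ p ≤ N ∧ Per p (X p) ∧ ∀ a, |X p a| ≤ D * √(p : ℝ)) →
      ∀ S : Finset (ι → ℤ), (∀ a ∈ S, (∀ i, |(a i : ℝ)| ≤ C₁ * Y) ∧
          ∑ p ∈ P, (p : ℝ) ^ (-(2 * x)) * X p a ^ 2 ≤ C * V ^ 2) →
        (S.card : ℝ) ≤ Y ^ ((Fintype.card ι : ℝ) - δ) ∨
          ∑ p ∈ P, (p : ℝ) ^ (-(2 * x)) * mean p (fun a => X p a ^ 2) ≤ 2 * C * V ^ 2

/-- **M6, functions of the residues.**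

Proof.  Period: `φ (a + p • b) = φ a + p • φ b = φ a`.  Mean: `φ` induces a surjective homomorphism
`φ' : (ι → ZMod p) → G` (`ZMod p`-linear lift: `ι → ℤ` modulo `p`; or define `φ' a = φ` of the
representatives `(a i).val`, additive because the sum of representatives differs from the
representative of the sum by a multiple of `p`).  The map `(ι → Fin p) → (ι → ZMod p)` is a bijection.
All fibres of `φ'` have the same number of elements (cosets of the kernel), `p^n / |G|`.  So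
`∑_{a : ι → Fin p} f (φ a) = (p^n / |G|) ∑_g f g`. -/
def S_Hom : Prop :=
  ∀ (ι : Type) [Fintype ι] (G : Type) [AddCommGroup G] [Fintype G] (φ : (ι → ℤ) →+ G) (p : ℕ)
    (f : G → ℝ), Function.Surjective φ → 0 < p → (∀ g : G, p • g = 0) →
    Per p (fun a => f (φ a)) ∧ mean p (fun a => f (φ a)) = (∑ g, f g) / Fintype.card G

end MP7ed9c3.Tz
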