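import Pool.Agent.Lib.MP_7ed9c3_nt.Tz.SpecA

/-!
# MP_7ed9c3_nt, part Tz.  Statements S (sums over primes)

Every statement is a separate module; the complete proof is in the docstring.  `uni` (SpecA) is the
inequality `(log z)^k/k! ≤ z^ρ/ρ^k` (`z ≥ 1`, `ρ > 0`).  Always `7/8 ≤ x < 1` and `r = 3 - x`, so
`2 < r ≤ 17/8`.
-/

set_option autoImplicit false

namespace MP7ed9c3.Tz

open NumberField IsDedekindDomain Filter Topology MP7ed9c3.Tw MP7ed9c3.Zs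

/-- The prime numbers `p₀ < p ≤ N`. -/
def pr (p₀ N : ℕ) : Finset ℕ := (Finset.Ioc p₀ N).filter Nat.Prime

/-- The weight `nm v^(-3) (log nm v)^k / k!`. -/
noncomputable def wk {K : Type} [Field K] [NumberField K] (k : ℕ)
    (v : HeightOneSpectrum (𝓞 K)) : ℝ :=
  (nm v : ℝ) ^ (-(3 : ℝ)) * (Real.log (nm v) ^ k / k.factorial)

/-- `∑_{p₀ < p ≤ N} p^(-2x) ∑_{v of norm p} a_v²`. -/
noncomputable def S2 {K : Type} [Field K] [NumberField K] (x : ℝ) (p₀ N : ℕ)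
    (a : HeightOneSpectrum (𝓞 K) → ℝ) : ℝ :=
  ∑ p ∈ pr p₀ N, (p : ℝ) ^ (-(2 * x)) * ∑ v ∈ D1 K p, a v ^ 2

/-- The random part `∑_{p₀ < p ≤ N} ∑_{v over p} χ_v(d) a_v w_v`. -/
noncomputable def Zd {K : Type} [Field K] [NumberField K] (k p₀ N : ℕ)
    (a : HeightOneSpectrum (𝓞 K) → ℝ) (d : 𝓞 K) : ℝ :=
  ∑ p ∈ pr p₀ N, ∑ v ∈ Ov K p, chiv d v * a v * wk k v

open Classical in
/-- The second order part `∑_{v ∤ D} ½ (a_v² - 2 nm v) nm v^(-6) (2 log nm v)^k/k!`. -/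
noncomputable def Qd {K : Type} [Field K] [NumberField K] (k : ℕ) (D : 𝓞 K)
    (a : HeightOneSpectrum (𝓞 K) → ℝ) : ℝ :=
  ∑' v : HeightOneSpectrum (𝓞 K), if D ∈ v.asIdeal then 0 else
    (a v ^ 2 - 2 * nm v) / 2 * ((nm v : ℝ) ^ (-(6 : ℝ)) * ((2 * Real.log (nm v)) ^ k / k.factorial))

/-- All primes `v` containing `D` lie over prime numbers `p ≤ p₀`. -/
def Cut {K : Type} [Field K] [NumberField K] (D : 𝓞 K) (p₀ : ℕ) : Prop :=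
  2 < p₀ ∧ ∀ v : HeightOneSpectrum (𝓞 K), D ∈ v.asIdeal → ∀ p : ℕ, p.Prime →
    ((p : ℕ) : 𝓞 K) ∈ v.asIdeal → p ≤ p₀

/-- The number of primes containing `e`. -/
noncomputable def om {K : Type} [Field K] [NumberField K] (e : 𝓞 K) : ℝ :=
  ({v : HeightOneSpectrum (𝓞 K) | e ∈ v.asIdeal}.ncard : ℝ)

open Classical in
/-- The first order sum `∑_{v ∤ D} (α_v + β_v) w_v`. -/
noncomputable def T1 {K : Type} [Field K] [NumberField K] (k : ℕ) (D : 𝓞 K)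
    (α β : HeightOneSpectrum (𝓞 K) → ℂ) : ℂ :=
  ∑' v : HeightOneSpectrum (𝓞 K), if D ∈ v.asIdeal then 0 else (α v + β v) * (wk k v : ℝ)

open Classical in
/-- The second order sum `∑_{v ∤ D} ½ (α_v² + β_v²) nm v^(-6) (2 log nm v)^k/k!`. -/
noncomputable def T2 {K : Type} [Field K] [NumberField K] (k : ℕ) (D : 𝓞 K)
    (α β : HeightOneSpectrum (𝓞 K) → ℂ) : ℂ :=
  ∑' v : HeightOneSpectrum (𝓞 K), if D ∈ v.asIdeal then 0 else (α v ^ 2 + β v ^ 2) / 2 *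
    (((nm v : ℝ) ^ (-(6 : ℝ)) * ((2 * Real.log (nm v)) ^ k / k.factorial) : ℝ) : ℂ)

/-- **S1, the first order sum.**

Proof.  `n = finrank ℚ K`, `q = nm v`, `r = 3 - x`.  All series converge absolutely: for `D ∉ v`
`|(α+β) w_v| ≤ 2 √q w_v ≤ 2 · 2^... ` (`uni` with `ρ = 5/4`: `√q w_v ≤ (5/4)^(-k) q^(-5/4)`,
summable over `v`: `S_ZetaSum`, theorem in Tw/D6a.lean).  For a term with `D ∉ v` and `d ∉ v` we have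
`α + β = χ_v(d) a_v`.  By `Cut` the sum `Zd` runs over primes `v` with `D ∉ v` (if `p > p₀`, `p ∈ v`, then
`D ∉ v`), every `v` lies over exactly one prime number `p(v)`, so `Zd` is the sum over the `v` with
`p₀ < p(v) ≤ N`.  So `T1 - Zd` is the sum of
(i) `(α + β) w_v` for `D ∉ v`, `p(v) ≤ p₀`: at most `n p₀` primes, each term at most
`2 √q w_v ≤ 2 q^(1/2-3+r) r^(-k) ≤ 2 r^(-k)` (`uni`, `ρ = r`, `q^(r-5/2) ≤ 1`);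
(ii) `(α+β) w_v - χ_v(d) a_v w_v` for `p₀ < p(v) ≤ N`, `d ∈ v` (`χ_v(d) = 0`): at most `om d` terms, each
at most `2 r^(-k)` (for `d ∉ v` the difference is `0`);
(iii) `(α+β) w_v` for `D ∉ v`, `p(v) > N`: `log q ≥ log p(v) ≥ 4k` as `N ≥ e^(4k)`; for `y = log q ≥ 4k`:
`y^k/k! ≤ r^(-k) e^y`, because `(r y)^k/k! · e^(-y)` is decreasing in `y ≥ k` and at `y = 4k` at most
`(4 k r)^k/k! · e^(-4k) ≤ (4 e r)^k e^(-4k) ≤ 1` (`k! ≥ (k/e)^k`; `4 e r ≤ 23.2 < 54 < e^4`); so the term is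
at most `2 q^(1/2 - 3 + 1) r^(-k) = 2 q^(-3/2) r^(-k)`, summable over `v`.
Together `≤ (2 n p₀ + 2 om d + 2 ∑_v q^(-3/2)) r^(-k)`. -/
def S_J1 : Prop :=
  ∀ (K : Type) [Field K] [NumberField K] (D : 𝓞 K) (x : ℝ) (p₀ : ℕ), D ≠ 0 → 7 / 8 ≤ x → x < 1 →
    Cut D p₀ → ∃ C : ℝ, 0 ≤ C ∧ ∀ (a : HeightOneSpectrum (𝓞 K) → ℝ) (d : 𝓞 K)
      (α β : HeightOneSpectrum (𝓞 K) → ℂ) (k N : ℕ), d ≠ 0 → Real.exp (4 * k) ≤ N →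
      (∀ v, D ∉ v.asIdeal → |a v| ≤ 2 * √(nm v : ℝ) ∧ ‖α v‖ ≤ √(nm v : ℝ) ∧ ‖β v‖ ≤ √(nm v : ℝ)) →
      (∀ v, D ∉ v.asIdeal → d ∉ v.asIdeal → α v + β v = (chiv d v * a v : ℝ)) →
      ‖T1 k D α β - (Zd k p₀ N a d : ℝ)‖ ≤ C * (om d + 1) / (3 - x) ^ k

/-- **S2, the second order sum.**

Proof.  `q = nm v`, `r = 3 - x`, `u_v = q^(-6) (2 log q)^k/k! = q^(-6) (log q²)^k/k! ≤ q^(-6+2ρ) ρ^(-k)` (`uni`).
Convergence: `ρ = 2`: terms `≤ q · q^(-2) ...`; precisely `|½(α²+β²)| ≤ q`, `|½(a² - 2q)| ≤ q` (`a² ≤ 4q`), so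
the terms are at most `q u_v ≤ (7/4)^(-k) q^(-3/2)` (`ρ = 7/4`), summable.  For `D ∉ v`, `d ∉ v`:
`α² + β² = (α+β)² - 2αβ = a² - 2q` (`χ_v(d)² = 1`).  So the difference is a sum over the `v` with `d ∈ v`
(at most `om d`), each term at most `2 q u_v ≤ 2 q^(-5+2r) r^(-k) ≤ 2 r^(-k)` (`2r ≤ 17/4`). -/
def S_J2 : Prop :=
  ∀ (K : Type) [Field K] [NumberField K] (D : 𝓞 K) (x : ℝ), D ≠ 0 → 7 / 8 ≤ x → x < 1 →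
    ∀ (a : HeightOneSpectrum (𝓞 K) → ℝ) (d : 𝓞 K) (α β : HeightOneSpectrum (𝓞 K) → ℂ) (k : ℕ),
      d ≠ 0 →
      (∀ v, D ∉ v.asIdeal → |a v| ≤ 2 * √(nm v : ℝ) ∧ ‖α v‖ ≤ √(nm v : ℝ) ∧ ‖β v‖ ≤ √(nm v : ℝ)) →
      (∀ v, D ∉ v.asIdeal → d ∉ v.asIdeal →
        α v + β v = (chiv d v * a v : ℝ) ∧ α v * β v = nm v) →
      ‖T2 k D α β - (Qd k D a : ℝ)‖ ≤ 2 * om d / (3 - x) ^ k

/-- **S3, the other terms** (from A3).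

Proof.  `r = 3 - x`, `q = nm v`.  The family `t_(v,j) = τ_(v,j) λ^(-3) (log λ)^k/k!`, `λ = q^(j+1)`, is summable
(`uni` with `ρ = 1/2`: `‖t‖ ≤ 2^k ‖τ‖ λ^(-5/2)`, A3; the roots are at most `q + 1`).  `tay … 0 k` is its sum.
Write it as `∑_v ∑_j`.  For `D ∉ v` the term `j = 0` is `(α+β) w_v`, the term `j = 1` is the term of `T2`
(`λ = q²`, `log λ = 2 log q`, `τ = (α²+β²)/2`).  So `tay - T1 - T2` is the sum of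
(i) the `t_(v,j)` with `D ∈ v` (finitely many `v`): `‖t‖ ≤ 2 q^(x₀ i) q^(-3i) (log q^i)^k/k! ≤ 2 q^(-(x-x₀) i) r^(-k)`,
`i = j + 1` (`uni`, `ρ = r`), geometric series: at most `C r^(-k)`;
(ii) the `t_(v,j)` with `D ∉ v`, `i = j + 1 ≥ 3`: `‖t‖ ≤ 2 q^(i/2) q^(-3i) q^(r i) r^(-k) = 2 q^(-(5/2-r) i) r^(-k)
≤ 2 q^(-3i/8) r^(-k)`, and `∑_{i ≥ 3} q^(-3i/8) ≤ 5 q^(-9/8)` (`1/(1 - 2^(-3/8)) ≤ 5`), summable over `v`. -/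
def S_J3 : Prop :=
  ∀ (K : Type) [Field K] [NumberField K] (D : 𝓞 K) (x₀ x : ℝ), D ≠ 0 → 0 ≤ x₀ → x₀ < x →
    7 / 8 ≤ x → x < 1 →
    ∃ C : ℝ, 0 ≤ C ∧ ∀ (α β : HeightOneSpectrum (𝓞 K) → ℂ) (k : ℕ),
      (∀ v, ‖α v‖ ≤ nm v + 1 ∧ ‖β v‖ ≤ nm v + 1) →
      (∀ v, D ∈ v.asIdeal → ‖α v‖ ≤ (nm v : ℝ) ^ x₀ ∧ ‖β v‖ ≤ (nm v : ℝ) ^ x₀) →
      (∀ v, D ∉ v.asIdeal → ‖α v‖ ≤ √(nm v : ℝ) ∧ ‖β v‖ ≤ √(nm v : ℝ)) →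
      ‖tay (lamE K) (tauE α β) 0 k - T1 k D α β - T2 k D α β‖ ≤ C / (3 - x) ^ k

/-- **S4, the size of the second order part** (from A4).

Proof.  `k = 2l`, `q = nm v`, `r = 3 - x`, `u_v = q^(-6) (2 log q)^k/k!`, `n = finrank ℚ K`.  The two series below
converge (see S2).  `-Qd = ∑_{D ∉ v} q u_v - ½ ∑_{D ∉ v} a_v² u_v`.
(1) `q u_v = 2^k q^(-5) (log q)^k/k!`, so `∑_{D ∉ v} q u_v = 2^k (Psi K k - ∑_{D ∈ v} q^(-5) (log q)^k/k!)`, and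
for the finitely many `v` with `D ∈ v`: `q^(-5) (log q)^k/k! ≤ 5^(-k)` (`uni`, `ρ = 5`), `2^k 5^(-k) ≤ r^(-k)`
(`2 r ≤ 5`).  With A4: `≥ 1/(2k 2^k) - C₁ r^(-k)` for large `l`.
(2) `(2 log q)^k/k! ≤ (k+1) ((log q)^l/l!)²` (`binom(2l,l) ≥ 4^l/(2l+1)`: `Nat.four_pow_le_two_mul_self_mul_centralBinom`
or `Nat.four_pow_lt_mul_centralBinom` or by the binomial theorem), so `u_v ≤ (k+1) w_v²` with `w_v = wk l v`.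
So `½ ∑ a_v² u_v ≤ ((k+1)/2) ∑_{D ∉ v} a_v² w_v²`.  Let `p(v)` be the prime number below `v`.
(i) `nm v = p(v)`, `p₀ < p(v) ≤ N`: `w_v² ≤ q^(-6+2r) r^(-2l) = q^(-2x) r^(-k)` (`uni`, `ρ = r`), so these `v`
give at most `r^(-k) S2 x p₀ N a` (by `Cut` all these `v` have `D ∉ v`).
(ii) `nm v = p(v)^f`, `f ≥ 2`: `a_v² w_v² ≤ 4 q q^(-2x) r^(-k) ≤ 4 q^(-3/4) r^(-k)` (`x ≥ 7/8`), and
`∑_{f ≥ 2} q^(-3/4) ≤ ∑_p n p^(-3/2)` (at most `n` primes over `p`, `q ≥ p²`), finite.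
(iii) `nm v = p(v) ≤ p₀`: at most `n p₀` primes, each `≤ 4 r^(-k)` (as in (ii)).
(iv) `nm v = p(v) > N ≥ e^(4k) = e^(8l)`: for `y = log q ≥ 8l`: `y^l/l! ≤ r^(-l) e^(y/2)`, because
`(r y)^l/l! e^(-y/2)` is decreasing for `y ≥ 2l` and at `8l` at most `(8 e r)^l e^(-4l) ≤ 1`
(`8 e r ≤ 46.3 < 54.5 < e^4`); so `a_v² w_v² ≤ 4 q · q^(-6) · q r^(-k) ≤ 4 q^(-4) r^(-k)`, summable.
Together `½ ∑ a_v² u_v ≤ (k+1) r^(-k) (S2 x p₀ N a + C₂)`. -/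
def S_Q : Prop :=
  ∀ (K : Type) [Field K] [NumberField K] (D : 𝓞 K) (x : ℝ) (p₀ : ℕ), D ≠ 0 → 7 / 8 ≤ x → x < 1 →
    Cut D p₀ → ∃ (C : ℝ) (l₀ : ℕ), 0 ≤ C ∧ ∀ (a : HeightOneSpectrum (𝓞 K) → ℝ) (l N : ℕ), l₀ ≤ l →
      Real.exp (8 * l) ≤ N → (∀ v, D ∉ v.asIdeal → |a v| ≤ 2 * √(nm v : ℝ)) →
      1 / (2 * (2 * l : ℕ) * 2 ^ (2 * l)) ≤
        -Qd (2 * l) D a + C * (2 * l + 1) * (S2 x p₀ N a + 1) / (3 - x) ^ (2 * l)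

/-- **S5, the variance of the random part.**

Proof.  `n = finrank ℚ K`, `r = 3 - x`.  By Cauchy (`|Ov K p| ≤ n`, L3) the square is at most
`n ∑_{v ∈ Ov K p} a_v² w_v²`, `w_v = wk k v`, `w_v² ≤ q^(-2x) r^(-2k)` (`uni`, `ρ = r`, `-6 + 2r = -2x`), `D ∉ v` by
`Cut`.  The `v` with `nm v = p` give `n r^(-2k) S2`; the others have `q ≥ p²`,
`a_v² w_v² ≤ 4 q^(1-2x) r^(-2k) ≤ 4 q^(-3/4) r^(-2k) ≤ 4 p^(-3/2) r^(-2k)`, at most `n` for every `p`, and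
`∑ p^(-3/2)` is finite. -/
def S_HSq : Prop :=
  ∀ (K : Type) [Field K] [NumberField K] (D : 𝓞 K) (x : ℝ) (p₀ : ℕ), D ≠ 0 → 7 / 8 ≤ x → x < 1 →
    Cut D p₀ → ∃ C : ℝ, 0 ≤ C ∧ ∀ (a : HeightOneSpectrum (𝓞 K) → ℝ) (k N : ℕ),
      (∀ v, D ∉ v.asIdeal → |a v| ≤ 2 * √(nm v : ℝ)) →
      ∑ p ∈ pr p₀ N, (∑ v ∈ Ov K p, |a v| * wk k v) ^ 2 ≤
        C * (S2 x p₀ N a + 1) / (3 - x) ^ (2 * k)

/-- **S6, primes of degree one** (from A4).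

Proof.  `r = 3 - x > 2`; `c = (log(r/2))/4 > 0` or smaller.  For `N` large let `k = ⌊(log N)/4⌋`, so
`e^(4k) ≤ N < e^(4k+4)`.  For `q = p = nm v`: `w = wk k v` satisfies `w² ≤ q^(-2x) r^(-2k)` (`uni`, `ρ = r`), so
`q^(1-2x) ≥ r^(2k) q w² = r^(2k) q^(-5) ((log q)^k/k!)² ≥ r^(2k) (4^k/(2k+1)) q^(-5) (log q)^(2k)/(2k)!`
(`binom(2k,k) ≥ 4^k/(2k+1)`).  Sum over the `v` of prime norm `p`, `p₀ < p ≤ N`: the sum of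
`q^(-5) (log q)^(2k)/(2k)!` over all `v` is `Psi K (2k) ≥ 1/(4 k 16^k)` (A4), and the other `v` contribute:
(i) norm `p^f`, `f ≥ 2`: `≤ (17/4)^(-2k) q^(-3/4)` (`uni`, `ρ = 17/4`), `∑ q^(-3/4) ≤ n ∑_p p^(-3/2)`;
(ii) `q > N ≥ e^(4k)`: for `y = log q ≥ 4k`: `y^(2k)/(2k)! e^(-3y)` is decreasing for `y ≥ 2k/3` and at
`4k` at most `(2e)^(2k) e^(-12k) ≤ e^(-8k)` (`(2e)² < 30 < e^4`), so the term is at most `q^(-2) e^(-8k)`;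
(iii) `q = p ≤ p₀`: at most `n p₀` terms, each at most `5^(-2k)` (`uni`, `ρ = 5`).
All these are at most `C (17/4)^(-2k)`, `(17/4)² > 18`; so for large `k` the sum is at least
`(r²)^k (4^k/(2k+1)) (1/(8k 16^k)) = (r²/4)^k/(8k(2k+1)) ≥ (r/2)^k ≥ N^c` for large `N` (`k ≥ (log N)/4 - 1`;
take `c = (log(r/2))/8`). -/
def S_DegOne : Prop :=
  ∀ (K : Type) [Field K] [NumberField K] (x : ℝ) (p₀ : ℕ), 7 / 8 ≤ x → x < 1 →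
    ∃ (c : ℝ) (N₀ : ℕ), 0 < c ∧ ∀ N : ℕ, N₀ ≤ N →
      (N : ℝ) ^ c ≤ ∑ p ∈ pr p₀ N, ((D1 K p).card : ℝ) * (p : ℝ) ^ (1 - 2 * x)

end MP7ed9c3.Tz
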