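import Pool.Agent.Lib.MP_7ed9c3_nt.Tz.SpecS

/-!
# MP_7ed9c3_nt, part Tz.  Statements Z (assembly)

Every statement is a separate module; the complete proof is in the docstring.
-/

set_option autoImplicit false

namespace MP7ed9c3.Tz

open NumberField IsDedekindDomain Filter Topology MP7ed9c3.Tw MP7ed9c3.Zs

/-- There is a function without zeros in the box `Re s > σ₁`, `|Im s - t₀| < H`, holomorphic and at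
most `exp V` in absolute value there, which agrees with the Euler product of `E` for `Re s > 3/2`. -/
def ZeroFree {K : Type} [Field K] [NumberField K] (E : WeierstrassCurve K) (σ₁ t₀ H V : ℝ) : Prop :=
  ∃ (M : HeightOneSpectrum (𝓞 K) → WeierstrassCurve (𝓞 K)) (F : ℂ → ℂ),
    (∀ v, IsMinAt E v (M v)) ∧ DifferentiableOn ℂ F (box σ₁ t₀ H) ∧
    (∀ s ∈ box σ₁ t₀ H, ‖F s‖ ≤ Real.exp V ∧ F s ≠ 0) ∧
    ∀ s ∈ box σ₁ t₀ H, 3 / 2 < s.re →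
      F s = ∏' v : HeightOneSpectrum (𝓞 K), (locDen (M v) v s)⁻¹

/-- The curve `y² = x³ + A x + B` over `K`. -/
noncomputable def crv {K : Type} [Field K] [NumberField K] (A B : 𝓞 K) : WeierstrassCurve K :=
  (short A B).map (algebraMap (𝓞 K) K)

/-- **Z1, the mean square for one curve of the family** (from `S_BoxInfo`, `S_SumBound`, `S_Loc`,
`S_Series` (`seriesz`), `S_CoefP`, `S_TrGood`, `S_TrMean`, `S_Transfer`, `S_Div`, `S_Coord`, `S_Prim`).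

Proof.  `B` from `S_SumBound`; `κ, C₀, V₀` from `S_BoxInfo` for `σ₁, x, B, c`.  `M, F` from `ZeroFree`;
`α, β` from `S_Loc` (`max (√q) (q-1) ≤ q + 1`).  `seriesz`: on `Re s = 3` the Euler product is
`exp(ser (lamE K) (tauE α β) s)`, so the hypotheses of `S_BoxInfo` hold with `lam = lamE K`, `τ = tauE α β`
(`3 + it` is in the box, `3 > 3/2`).  So `∑_{p ∈ pr 3 N} ‖coef p‖² p^(-2x) ≤ C₀ V²`, and
`coef p = ∑_{v ∈ D1 K p} (α v + β v)` (`S_CoefP`).  `S_Transfer` with `P = pr 3 N`, `e = 4A³ + 27B²`, `z = α + β`,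
`y v = tr (short A B) v`: for `v ∈ D1 K p`, `p > 3`: `p ∈ v` (L3) and `6 ∉ v` (otherwise
`gcd(6, p) = 1 ∈ v`); if `e ∉ v` then `6 e ∉ v`, so by `S_TrGood` and `S_Loc`
`α + β = tr (M v) v = tr (short A B) v`; `|y v| ≤ 2√p` by `S_TrMean` (`A, B` are `pt` of their coordinates,
`S_Coord`).  Finally `|φ(e)| ≤ 4Y³ + 27Y² ≤ 31 Y³`, so by `S_Div`
`om ≤ 2n log(31 Y³) ≤ 2n (4 + 3 log Y) ≤ 14 n V ≤ 14 n V²` (`V ≥ 1`). -/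
def S_MSCurve : Prop :=
  ∀ (K : Type) [Field K] [NumberField K] (σ₁ x c : ℝ), σ₁ < x → 7 / 8 ≤ x → x < 1 →
    ∃ κ C V₀ : ℝ, 0 < κ ∧ 0 < C ∧ ∀ (V Y t₀ : ℝ) (N : ℕ), V₀ ≤ V → 1 ≤ Y → Real.log Y ≤ V →
      1 ≤ N → (N : ℝ) ≤ V ^ c → ∀ A B : 𝓞 K, House A Y → House B Y → 4 * A ^ 3 + 27 * B ^ 2 ≠ 0 →
      ZeroFree (crv A B) σ₁ t₀ (V ^ κ) V →
      ∑ p ∈ pr 3 N, (p : ℝ) ^ (-(2 * x)) * (∑ v ∈ D1 K p, (tr (short A B) v : ℝ)) ^ 2 ≤ C * V ^ 2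

/-- **Z2, almost all curves** (from Z1, `S_Dich`, `S_DegOne`, `S_TrMean`, `S_Coord`, `S_Prim`).

Proof.  `n = finrank ℚ K`, `ι = Ix K ⊕ Ix K` (not empty, `2n` elements), `x = max ((1 + σ₁)/2) (7/8)`,
`σ₁ < x < 1`.  `c', N₀` from `S_DegOne` for `x`, `p₀ = 3`; `c = 3/c' + 1`; `κ₁, C` from Z1 for `c`; `κ₂, δ` from
`S_Dich` for `C₁` (from `S_Coord`), `c`, `x`, `D = 2n`, `C`.  `κ = max κ₁ κ₂`; `ZeroFree` for `V^κ` implies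
`ZeroFree` for `V^κ₁` (smaller box, `V ≥ 1`).  `N = ⌊V^c⌋`, so `N ≥ V^c/2 ≥ N₀` for large `V`.
`X p a = ∑_{v ∈ D1 K p} trp v a`: period `p`, `|X p a| ≤ 2 n √p` (`S_TrMean`, L3).  Let `S'` be the set of the
coordinates of the elements of `S` (injective, `S_Coord`); Z1 is the hypothesis of `S_Dich`, so
`|S| ≤ Y^(2n - δ)` or `∑_{pr 3 N} p^(-2x) mean p (X p)² ≤ 2CV²`.  But `mean p (X p)²` is the sum of the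
`mean p (trp v · trp w)`, `v, w ∈ D1 K p`, that is `|D1 K p| (p-1) ≥ |D1 K p| p/2`, so the sum is at least
`½ ∑ |D1 K p| p^(1-2x) ≥ ½ N^c' ≥ ½ (V^c/2)^c' ≥ (1/2^(1+c')) V^3 > 2CV²` for large `V`. -/
def S_Curves : Prop :=
  ∀ (K : Type) [Field K] [NumberField K] (σ₁ : ℝ), σ₁ < 1 → ∃ κ δ V₀ : ℝ, 0 < δ ∧
    ∀ V Y : ℝ, V₀ ≤ V → Real.log Y ≤ V → V ^ κ ≤ Y → ∀ S : Finset (𝓞 K × 𝓞 K),
      (∀ z ∈ S, House z.1 Y ∧ House z.2 Y ∧ 4 * z.1 ^ 3 + 27 * z.2 ^ 2 ≠ 0 ∧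
        ∃ t₀ : ℝ, ZeroFree (crv z.1 z.2) σ₁ t₀ (V ^ κ) V) →
      (S.card : ℝ) ≤ Y ^ (2 * (Module.finrank ℚ K : ℝ) - δ)

/-- **Z3, what a twist without zeros gives** (from `S_BoxInfo`, `S_SumBound`, `S_Loc`, `S_Series`,
`S_CoefP`, `S_TrGood`, `S_Transfer`, `S_Div`, `S_Prim`, `S_J1`, `S_J2`, `S_J3`, `S_Q`).

Proof.  `D = 6 (4A³ + 27B²) ≠ 0`, `a v = tr (short A B) v`, `|a v| ≤ 2√(nm v)` for `D ∉ v` (`S_TrGood`).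
`x₀ < 1` with `0 ≤ x₀` and `max (√q) (q-1) ≤ q^x₀` for the finitely many `v` with `D ∈ v` (`q = nm v ≥ 2`; both numbers are
`< q`, so `x₀` is the maximum of `1/2` and the `log(q-1)/log q`).  `x = (1 + max(σ₁, x₀, 7/8))/2`.  `p₀ ≥ 3`: larger
than all prime numbers below a `v` with `D ∈ v` (finitely many `v`; a prime number `p ∈ v` divides `nm v`,
so `p ≤ nm v`: take `p₀ = 3 + max nm v`).
Let `c` be given; `B` from `S_SumBound`, `κ, C₀` from `S_BoxInfo` for `σ₁, x, B, c`.  As in Z1 (with `t₀ = 0`):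
`‖tay (lamE K) (tauE α β) 0 k‖ ≤ C₀ V / r^k`, `r = 3 - x`, and `∑_{pr p₀ N} ‖coef p‖² p^(-2x) ≤ C₀ V²`.
The roots: `≤ q^x₀` for `D ∈ v`, `≤ √q` for `D ∉ v` (`6 ∉ v`), and for `D ∉ v`, `d ∉ v` (so the prime ideal `v`
does not contain `D`, `d`) by `S_TrGood`: `α + β = χ_v(d) a_v`, `α β = nm v`.
(i) `S_Transfer` with `P = pr p₀ N`, `e = d`, `y v = χ_v(d) a_v` (`D ∉ v` for `v ∈ D1 K p`, `p > p₀`, by `Cut`;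
`|χ_v(d)| ≤ 1`), `om d ≤ 2n log Y ≤ 2n V` (`S_Div`).
(ii) `k = 2l`: `|Zd + Qd| ≤ ‖tay‖ + ‖tay - T1 - T2‖ + ‖T1 - Zd‖ + ‖T2 - Qd‖ ≤
(C₀ V + C₃ + C₁ (om d + 1) + 2 om d)/r^k ≤ C' V/r^k` (S_J1: `exp(4k) = exp(8l) ≤ N`), so
`-Qd ≤ |Zd| + C' V / r^k`, and `S_Q` gives the claim with `C = C' + C_Q` (`V ≥ 1`, `S2 ≥ 0`). -/
def S_TwInfo : Prop :=
  ∀ (K : Type) [Field K] [NumberField K] (A B : 𝓞 K) (σ₁ : ℝ), 4 * A ^ 3 + 27 * B ^ 2 ≠ 0 →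
    σ₁ < 1 → ∃ (x : ℝ) (p₀ l₀ : ℕ), 7 / 8 ≤ x ∧ x < 1 ∧
      Cut (6 * (4 * A ^ 3 + 27 * B ^ 2)) p₀ ∧
      ∀ c : ℝ, ∃ κ C V₀ : ℝ, 0 < κ ∧ 0 < C ∧ ∀ (V Y : ℝ) (N : ℕ), V₀ ≤ V → 1 ≤ Y →
        Real.log Y ≤ V → 1 ≤ N → (N : ℝ) ≤ V ^ c → ∀ d : 𝓞 K, d ≠ 0 → House d Y →
        ZeroFree (crv (A * d ^ 2) (B * d ^ 3)) σ₁ 0 (V ^ κ) V →
        (∑ p ∈ pr p₀ N, (p : ℝ) ^ (-(2 * x)) *
          (∑ v ∈ D1 K p, chiv d v * (tr (short A B) v : ℝ)) ^ 2 ≤ C * V ^ 2) ∧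
        ∀ l : ℕ, l₀ ≤ l → Real.exp (8 * l) ≤ N →
          1 / (2 * (2 * l : ℕ) * 2 ^ (2 * l)) ≤
            |Zd (2 * l) p₀ N (fun v => (tr (short A B) v : ℝ)) d| +
              C * (2 * l + 1) * V * (S2 x p₀ N (fun v => (tr (short A B) v : ℝ)) + 1) /
                (3 - x) ^ (2 * l)

/-- **Z4, almost all twists** (from Z3, `S_Dich`, `S_Few`, `S_ChiMean`, `S_HSq`, `S_Coord`, `S_Prim`,
`S_TrGood`).

Proof.  `n = finrank ℚ K`, `ι = Ix K`, `a v = tr (short A B) v`, `x, p₀, l₀` from Z3, `r = 3 - x > 2`,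
`b = 4/log(r/2)`, `c = 8b + 20`; `κ₁, C` from Z3 for `c`; `κ₂, δ₂` from `S_Dich` for `C₁` (`S_Coord`), `c`, `x`,
`D = 2n`, `C`; `κ₃, δ₃` from `S_Few` for `C₁, c`.  `κ = max`, `δ = min`.  For large `V` let
`l = ⌈b log V⌉`, `N = ⌈exp(8l)⌉`, so `N ≤ V^c`, `l₀ ≤ l`.  Let `S'` be the set of the coordinates of the
`d ∈ S` (`|S'| = |S|`).
(1) `X p a = ∑_{v ∈ D1 K p} χ_v(pt a) a_v` for `p ∈ pr p₀ N`: period `p` (`S_ChiMean`), `|X p a| ≤ 2n √p`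
(`Cut`, `S_TrGood`).  Z3 (i) is the hypothesis of `S_Dich`.  If the first alternative of `S_Dich` holds we are
done (`Y^(n-δ₂) ≤ Y^(n-δ)`).  Otherwise `∑ p^(-2x) mean p (X p)² ≤ 2CV²`, and by `S_ChiMean`
`mean p (X p)² = ∑_v a_v² mean p χ_v² ≥ ½ ∑_v a_v²` (the cross terms vanish), so
(*) `S2 x p₀ N a ≤ 4CV²`.
(2) Let `T = 1/(4 (2l) 2^(2l))`.  By Z3 (ii) and (*) `|Zd| ≥ T` for `d ∈ S`, if
`C (2l+1) V (4CV² + 1)/r^(2l) ≤ T`, that is `4 (2l) (2l+1) C V (4CV²+1) ≤ (r/2)^(2l)`; true for large `V`, because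
`(r/2)^(2l) ≥ exp(2 b log V log(r/2)) = V^8` and `l ≤ V`.
(3) `h p a = ∑_{v ∈ Ov K p} χ_v(pt a) a_v w_v`, `w_v = wk (2l) v ≥ 0`, `H p = ∑_{v ∈ Ov K p} |a_v| w_v`: period
`p`, mean `0`, `|h p| ≤ H p`, `∑_{p ∈ pr p₀ N} h p a = Zd`.  By `S_HSq` and (*)
`V² ∑ (H p)² ≤ V² C' (4CV² + 1)/r^(4l) ≤ T²` for large `V`: `16 (2l)² V² C' (4CV²+1) ≤ (r/2)^(4l)`, the right side
is at least `V^16`.  `S_Few` gives `|S| ≤ Y^(n-δ₃)`. -/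
def S_Twists : Prop :=
  ∀ (K : Type) [Field K] [NumberField K] (A B : 𝓞 K) (σ₁ : ℝ), 4 * A ^ 3 + 27 * B ^ 2 ≠ 0 →
    σ₁ < 1 → ∃ κ δ V₀ : ℝ, 0 < δ ∧
    ∀ V Y : ℝ, V₀ ≤ V → Real.log Y ≤ V → V ^ κ ≤ Y → ∀ S : Finset (𝓞 K),
      (∀ d ∈ S, House d Y ∧ d ≠ 0 ∧ ZeroFree (crv (A * d ^ 2) (B * d ^ 3)) σ₁ 0 (V ^ κ) V) →
      (S.card : ℝ) ≤ Y ^ ((Module.finrank ℚ K : ℝ) - δ)

end MP7ed9c3.Tz
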