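import Pool.Agent.Lib.MP_7ed9c3_nt.Tz.SpecA
import Pool.Agent.Lib.MP_7ed9c3_nt.Zs.Series

/-!
# MP_7ed9c3_nt, part Tz, A3: the coefficients of the logarithm of the Euler product
-/

set_option autoImplicit false

namespace MP7ed9c3.Tz

open NumberField IsDedekindDomain Filter Topology MP7ed9c3.Tw MP7ed9c3.Zs

namespace SumBoundM

/-- the ratio -/
noncomputable def R (q : ℕ) : ℝ := 3 / 2 * (q : ℝ) ^ (-(1 + 1 / 2) : ℝ)

theorem R_nonneg (q : ℕ) : 0 ≤ R q := by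
  unfold R
  positivity

theorem R_le {q : ℕ} (hq : 2 ≤ q) : R q ≤ 3 / 5 := by
  unfold R
  have hq2 : (2 : ℝ) ≤ q := by exact_mod_cast hq
  have h1 : (q : ℝ) ^ (-(1 + 1 / 2) : ℝ) ≤ (2 : ℝ) ^ (-(1 + 1 / 2) : ℝ) :=
    Real.rpow_le_rpow_of_nonpos (by norm_num) hq2 (by norm_num)
  have h2 : (2 : ℝ) ^ (-(1 + 1 / 2) : ℝ) ≤ 2 / 5 := by
    have h3 : ((2 : ℝ) ^ (-(1 + 1 / 2) : ℝ)) ^ 2 = 1 / 8 := by
      rw [← Real.rpow_natCast, ← Real.rpow_mul (by norm_num)]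
      have : (-(1 + 1 / 2) * ((2 : ℕ) : ℝ) : ℝ) = -((3 : ℕ) : ℝ) := by norm_num
      rw [this, Real.rpow_neg (by norm_num), Real.rpow_natCast]
      norm_num
    have h4 : 0 ≤ (2 : ℝ) ^ (-(1 + 1 / 2) : ℝ) := by positivity
    nlinarith
  linarith

theorem ratio {q : ℕ} (hq : 2 ≤ q) : ((q : ℝ) + 1) / (q : ℝ) ^ (5 / 2 : ℝ) ≤ R q := by
  have hq2 : (2 : ℝ) ≤ q := by exact_mod_cast hq
  have hq0 : (0 : ℝ) < q := by linarith
  unfold R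
  rw [div_le_iff₀ (by positivity), mul_assoc, ← Real.rpow_add hq0]
  have : (-(1 + 1 / 2) + 5 / 2 : ℝ) = 1 := by norm_num
  rw [this, Real.rpow_one]
  linarith

theorem term {q : ℕ} (hq : 2 ≤ q) {a b : ℂ} (ha : ‖a‖ ≤ q + 1) (hb : ‖b‖ ≤ q + 1)
    (j : ℕ) : ‖(a ^ (j + 1) + b ^ (j + 1)) / ((j : ℂ) + 1)‖ /
      (((q ^ (j + 1) : ℕ) : ℝ)) ^ (5 / 2 : ℝ) ≤ 2 * R q ^ (j + 1) := by
  have hq2 : (2 : ℝ) ≤ q := by exact_mod_cast hq
  have hq0 : (0 : ℝ) < q := by linarith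
  have h1 : ‖(a ^ (j + 1) + b ^ (j + 1)) / ((j : ℂ) + 1)‖ ≤ 2 * ((q : ℝ) + 1) ^ (j + 1) := by
    rw [norm_div]
    have h2 : ‖(j : ℂ) + 1‖ = (j : ℝ) + 1 := by
      have : ((j : ℂ) + 1) = ((j + 1 : ℕ) : ℂ) := by push_cast; rfl
      rw [this, Complex.norm_natCast]
      push_cast
      rfl
    rw [h2, div_le_iff₀ (by positivity)]
    have h3 : ‖a ^ (j + 1) + b ^ (j + 1)‖ ≤ 2 * ((q : ℝ) + 1) ^ (j + 1) := by
      refine (norm_add_le _ _).trans ?_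
      rw [norm_pow, norm_pow]
      have h4 := pow_le_pow_left₀ (norm_nonneg a) ha (j + 1)
      have h5 := pow_le_pow_left₀ (norm_nonneg b) hb (j + 1)
      linarith
    refine h3.trans (le_mul_of_one_le_right (by positivity) ?_)
    have : (0 : ℝ) ≤ j := Nat.cast_nonneg j
    linarith
  have h6 : (((q ^ (j + 1) : ℕ) : ℝ)) ^ (5 / 2 : ℝ) = ((q : ℝ) ^ (5 / 2 : ℝ)) ^ (j + 1) := by
    push_cast
    rw [← Real.rpow_natCast, ← Real.rpow_natCast, ← Real.rpow_mul hq0.le, ← Real.rpow_mul hq0.le,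
      mul_comm]
  rw [h6]
  calc ‖(a ^ (j + 1) + b ^ (j + 1)) / ((j : ℂ) + 1)‖ / ((q : ℝ) ^ (5 / 2 : ℝ)) ^ (j + 1) ≤
      2 * ((q : ℝ) + 1) ^ (j + 1) / ((q : ℝ) ^ (5 / 2 : ℝ)) ^ (j + 1) :=
        div_le_div_of_nonneg_right h1 (by positivity)
    _ = 2 * (((q : ℝ) + 1) / (q : ℝ) ^ (5 / 2 : ℝ)) ^ (j + 1) := by
        rw [div_pow]
        ring
    _ ≤ 2 * R q ^ (j + 1) := by
        refine mul_le_mul_of_nonneg_left ?_ (by norm_num)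
        exact pow_le_pow_left₀ (by positivity) (ratio hq) (j + 1)

theorem geo {q : ℕ} (hq : 2 ≤ q) :
    HasSum (fun j : ℕ => 2 * R q ^ (j + 1)) (2 * R q * (1 - R q)⁻¹) := by
  have h1 := R_le hq
  have h2 := (hasSum_geometric_of_lt_one (R_nonneg q) (by linarith)).mul_left (2 * R q)
  refine h2.congr_fun ?_ |> id
  intro j
  rw [pow_succ]
  ring

theorem geo_le {q : ℕ} (hq : 2 ≤ q) :
    2 * R q * (1 - R q)⁻¹ ≤ 15 / 2 * (q : ℝ) ^ (-(1 + 1 / 2) : ℝ) := by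
  have h1 := R_le hq
  have h0 := R_nonneg q
  have h4 : (1 - R q)⁻¹ ≤ 5 / 2 := by
    rw [inv_le_comm₀ (by linarith) (by norm_num)]
    linarith
  calc 2 * R q * (1 - R q)⁻¹ ≤ 2 * R q * (5 / 2) :=
        mul_le_mul_of_nonneg_left h4 (by positivity)
    _ = 15 / 2 * (q : ℝ) ^ (-(1 + 1 / 2) : ℝ) := by
        unfold R
        ring

end SumBoundM

open SumBoundM in
/-- **A3.** -/
theorem sumBound : S_SumBound := by
  intro K _ _
  obtain ⟨C, hC⟩ := countPrimes K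
  have hq2 : ∀ v : HeightOneSpectrum (𝓞 K), 2 ≤ nm v := hC.1
  have h3 : Summable fun v : HeightOneSpectrum (𝓞 K) =>
      15 / 2 * (nm v : ℝ) ^ (-(1 + 1 / 2) : ℝ) :=
    ((sparseSums _ _ C hC).2.1 (1 / 2) (by norm_num)).mul_left _
  refine ⟨∑' v : HeightOneSpectrum (𝓞 K), 15 / 2 * (nm v : ℝ) ^ (-(1 + 1 / 2) : ℝ),
    fun α β hb => ?_⟩
  have hterm : ∀ i : HeightOneSpectrum (𝓞 K) × ℕ,
      ‖tauE α β i‖ / (lamE K i : ℝ) ^ (5 / 2 : ℝ) ≤ 2 * R (nm i.1) ^ (i.2 + 1) := fun i =>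
    term (hq2 i.1) (hb i.1).1 (hb i.1).2 i.2
  have hR : ∀ q : ℕ, 0 ≤ R q := R_nonneg
  have hs2 : Summable fun i : HeightOneSpectrum (𝓞 K) × ℕ =>
      2 * R (nm i.1) ^ (i.2 + 1) := by
    rw [summable_prod_of_nonneg (fun i => mul_nonneg (by norm_num) (pow_nonneg (hR _) _))]
    refine ⟨fun v => (geo (hq2 v)).summable, ?_⟩
    refine Summable.of_nonneg_of_le (fun v => tsum_nonneg fun j =>
      mul_nonneg (by norm_num) (pow_nonneg (hR _) _)) (fun v => ?_) h3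
    rw [(geo (hq2 v)).tsum_eq]
    exact geo_le (hq2 v)
  have hsum : Summable (fun i => ‖tauE α β i‖ / (lamE K i : ℝ) ^ (5 / 2 : ℝ)) :=
    Summable.of_nonneg_of_le (fun i => by positivity) hterm hs2
  refine ⟨hsum, ?_⟩
  refine (hsum.tsum_le_tsum hterm hs2).trans ?_
  rw [hs2.tsum_prod' (fun v => (geo (hq2 v)).summable)]
  have h5 : ∀ v : HeightOneSpectrum (𝓞 K), ∑' j : ℕ, 2 * R (nm v) ^ (j + 1) =
      2 * R (nm v) * (1 - R (nm v))⁻¹ := fun v => (geo (hq2 v)).tsum_eq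
  have h6 : Summable fun v : HeightOneSpectrum (𝓞 K) =>
      2 * R (nm v) * (1 - R (nm v))⁻¹ := by
    refine Summable.of_nonneg_of_le (fun v => ?_) (fun v => geo_le (hq2 v)) h3
    rw [← h5 v]
    exact tsum_nonneg fun j => mul_nonneg (by norm_num) (pow_nonneg (hR _) _)
  refine le_trans (le_of_eq (tsum_congr h5)) ?_
  exact h6.tsum_le_tsum (fun v => geo_le (hq2 v)) h3

end MP7ed9c3.Tz
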